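import Pool.Agent.Lib.MP_4432a5_co.MdApi

/-!
# MP_4432a5_co, module Break: breaking an item and rejoining it

The item `h0` with path `q` is broken: the segment `q[m..n]` (`a < m ≤ n < b`, `a`-part and `b`-part are kept)
is freed, and the two remaining parts are joined by the connected set `R2 ⊆ R`, which is adjacent
to a vertex `q a` of the first and a vertex `q b` of the second part.
Proof: `Md.ext` with `A = q[0..m-1] ∪ R2 ∪ q[n+1..r]`.
-/

set_option autoImplicit false
set_option linter.all false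

open Finset
open scoped Classical

namespace Pool.Agent.MP4432a5

variable {V : Type*} {G : SimpleGraph V} {S : Finset V} {k l : ℕ} {s t : Fin k → V}
  {W W' : Fin k → Finset V} {H : Finset (Fin k)} {E R R1 R2 : Finset V}

theorem Md.break (hd : ∀ i j, i ≠ j → Disjoint (W i) (W j))
    (h : Md G s t W H E (R1 ∪ R2) W') (hf : Disjoint E (used W)) (hR : Disjoint R1 R2)
    {h0 : Fin k} (hh : h0 ∉ H) {r : ℕ} {q : ℕ → V} (hq : IsPth G (W h0) (s h0) (t h0) r q)
    {a m n b : ℕ} (ham : a < m) (hmn : m ≤ n) (hnb : n < b) (hb : b ≤ r)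
    (hR2 : Cn G R2) (hra : ∃ x ∈ R2, G.Adj (q a) x) (hrb : ∃ x ∈ R2, G.Adj (q b) x) :
    ∃ A : Finset V,
      Md G s t W (insert h0 H) E ((Icc m n).image q ∪ R1) (Function.update W' h0 A) := by
  obtain ⟨x, hx, hax⟩ := hra
  obtain ⟨y, hy, hby⟩ := hrb
  have himg : ∀ i, i ≤ r → q i ∈ W h0 := fun i hi => hq.mem.mpr ⟨i, hi, rfl⟩
  -- the support of the modification is disjoint from `W h0`
  have hdis : Disjoint (W h0) (R1 ∪ R2) := by
    rw [Finset.disjoint_left]
    intro v hv hv'
    have h1 := h.rsub hv'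
    rw [mem_union, mem_biUnion] at h1
    rcases h1 with ⟨c, hc, hvc⟩ | hvE
    · have hne : c ≠ h0 := by
        rintro rfl
        exact hh hc
      exact Finset.disjoint_left.mp (hd c h0 hne) hvc hv
    · exact Finset.disjoint_left.mp hf hvE (mem_used.mpr ⟨h0, hv⟩)
  have hc1 : Cn G ((Icc 0 (m - 1)).image q) :=
    cn_seg (fun i _ hi => hq.adj i (by omega))
  have hc2 : Cn G ((Icc (n + 1) r).image q) :=
    cn_seg (fun i _ hi => hq.adj i (by omega))
  have ha1 : q a ∈ (Icc 0 (m - 1)).image q :=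
    mem_image.mpr ⟨a, by rw [mem_Icc]; omega, rfl⟩
  have hb1 : q b ∈ (Icc (n + 1) r).image q :=
    mem_image.mpr ⟨b, by rw [mem_Icc]; omega, rfl⟩
  have hc3 : Cn G ((Icc 0 (m - 1)).image q ∪ R2) := hc1.union_adj hR2 ha1 hx hax
  have hc4 : Cn G (((Icc 0 (m - 1)).image q ∪ R2) ∪ (Icc (n + 1) r).image q) :=
    hc3.union_adj hc2 (mem_union_right _ hy) hb1 hby.symm
  refine ⟨((Icc 0 (m - 1)).image q ∪ R2) ∪ (Icc (n + 1) r).image q, ?_⟩
  refine Md.ext hd h hf hh ?_ ?_ hc4 ?_ ?_ ?_
  · refine mem_union_left _ (mem_union_left _ (mem_image.mpr ⟨0, ?_, hq.z⟩))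
    rw [mem_Icc]; omega
  · refine mem_union_right _ (mem_image.mpr ⟨r, ?_, hq.e⟩)
    rw [mem_Icc]; omega
  · intro v hv
    rw [mem_union, mem_union, mem_image, mem_image] at hv
    rcases hv with (⟨i, hi, rfl⟩ | hv) | ⟨i, hi, rfl⟩
    · rw [mem_Icc] at hi
      exact mem_union_left _ (himg i (by omega))
    · exact mem_union_right _ (mem_union_right _ hv)
    · rw [mem_Icc] at hi
      exact mem_union_left _ (himg i (by omega))
  · intro v hv
    rw [mem_union, mem_image] at hv
    rcases hv with ⟨i, hi, rfl⟩ | hv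
    · rw [mem_Icc] at hi
      exact mem_union_left _ (himg i (by omega))
    · exact mem_union_right _ (mem_union_left _ hv)
  · rw [Finset.disjoint_left]
    intro v hv hv'
    rw [mem_union, mem_union, mem_image, mem_image] at hv
    rw [mem_union, mem_image] at hv'
    rcases hv with (⟨i, hi, rfl⟩ | hv) | ⟨i, hi, rfl⟩
    · rw [mem_Icc] at hi
      rcases hv' with ⟨j, hj, hji⟩ | hv'
      · rw [mem_Icc] at hj
        have := hq.inj j i (by omega) (by omega) hji
        omega
      · exact Finset.disjoint_left.mp hdis (himg i (by omega)) (mem_union_left _ hv')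
    · rcases hv' with ⟨j, hj, rfl⟩ | hv'
      · rw [mem_Icc] at hj
        exact Finset.disjoint_left.mp hdis (himg j (by omega)) (mem_union_right _ hv)
      · exact Finset.disjoint_left.mp hR hv' hv
    · rw [mem_Icc] at hi
      rcases hv' with ⟨j, hj, hji⟩ | hv'
      · rw [mem_Icc] at hj
        have := hq.inj j i (by omega) (by omega) hji
        omega
      · exact Finset.disjoint_left.mp hdis (himg i (by omega)) (mem_union_left _ hv')

end Pool.Agent.MP4432a5
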