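import Pool.Agent.Lib.MP_4432a5_co.Pick

/-!
# MP_4432a5_co, module Cert: certificates

Two steps.

`crt_free`: `p` free, `x` a neighbour of `p`, `R = R_x + p`, `E = E_x + p` (`Md.addE`); the forbidden sets for
`x` are `F` and `insert p D`.

`crt_item`: the item `h0` (`< l`, not in `F`), a path `q h0`, indices `a < b ≤ r h0` and `c`, `i` with
`a < c, i < b`; `q a, q b, q c` strong to `K`. Choose with `pick` and the certificates of level `n`,
one after the other:
`x_a ~ q a` for `F ∪ {h0}`, `D`; `x_b ~ q b` for `F ∪ {h0} ∪ H_a`, `D ∪ E_a`;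
`x_c ~ q c` for `F ∪ {h0} ∪ H_a ∪ H_b`, `D ∪ E_a ∪ E_b`. Let `y_a ∈ R_a ∩ X`, `y_b ∈ R_b ∩ X`
(free, so in `E_a`, `E_b`), and `C ⊆ X \ (D ∪ E_c ∪ (E_a \ R_a) ∪ (E_b \ R_b))` connected with
`y_a, y_b ∈ C`, `|C| ≤ 60` (`hub`). The union (`Md.union`) of the three modifications, with `E1 := C` added
(`Md.addE`), has remaining set `R_a ∪ R_b ∪ R_c ∪ C`, and `Md.ext` with
`A = q[0..a] ∪ (R_a ∪ C ∪ R_b) ∪ q[b..r]` (`IsPth.bridge`), `R1 = q[min i c .. max i c] ∪ R_c`.
New sizes: `|H| ≤ 3 n + 1`, `|E| ≤ 3 n + 60`.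

`cert`: induction on `j`; for `x` in `cl (j + 1)`: in `cl j`; or free and strong: `crt_free`; or
`x = q i` in the segment of a short item which contains a strong vertex: let `a`, `b` be the first and
the last strong vertex, `c` a strong vertex between them: `crt_item`. (`cc (j+1) = 4 cc j + 100`.)
-/

set_option autoImplicit false
set_option linter.all false

open Finset
open scoped Classical

namespace Pool.Agent.MP4432a5

variable {V : Type*} {G : SimpleGraph V} {S : Finset V} {k l : ℕ} {s t : Fin k → V}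
  {W : Fin k → Finset V} {r : Fin k → ℕ} {q : Fin k → ℕ → V} {X : Finset V} {B R0 th : ℕ}

private theorem cert_mem_W (c : NCtx G S s t l W r q X B R0 th) {h0 : Fin k} (hh : (h0 : ℕ) < l)
    {i : ℕ} (hi : i ≤ r h0) : q h0 i ∈ W h0 := by
  rw [(c.pth h0 hh).mem]
  exact ⟨i, hi, rfl⟩

private theorem cert_img_sub (c : NCtx G S s t l W r q X B R0 th) {h0 : Fin k} (hh : (h0 : ℕ) < l)
    {i j : ℕ} (hj : j ≤ r h0) : (Icc i j).image (q h0) ⊆ W h0 := by
  intro v hv
  obtain ⟨m, hm, rfl⟩ := Finset.mem_image.1 hv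
  exact cert_mem_W c hh ((Finset.mem_Icc.1 hm).2.trans hj)

/-- the remaining set of a certificate is disjoint from an item not in its support -/
private theorem cert_W_R (c : NCtx G S s t l W r q X B R0 th) {x : V} {F : Finset (Fin k)}
    {D : Finset V} {n : ℕ} {H : Finset (Fin k)} {E R : Finset V} {W' : Fin k → Finset V}
    (h : Crt G S s t l W X R0 x F D n H E R W') {h0 : Fin k} (hh : h0 ∉ H) :
    Disjoint (W h0) R := by
  rw [Finset.disjoint_left]
  intro v hv hR
  have h1 := h.md.rsub hR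
  rw [Finset.mem_union] at h1
  rcases h1 with h1 | h1
  · obtain ⟨i, hi, hvi⟩ := Finset.mem_biUnion.1 h1
    have hne : h0 ≠ i := fun e => hh (e ▸ hi)
    exact Finset.disjoint_left.1 (c.opt.dj h0 i hne) hv hvi
  · exact (Finset.mem_sdiff.1 (h.EU h1)).2 (mem_used.2 ⟨h0, hv⟩)

/-- a free vertex of the remaining set is in `E` -/
private theorem cert_free_E {x : V} {F : Finset (Fin k)}
    {D : Finset V} {n : ℕ} {H : Finset (Fin k)} {E R : Finset V} {W' : Fin k → Finset V}
    (h : Crt G S s t l W X R0 x F D n H E R W') {v : V} (hv : v ∈ R) (hf : v ∉ used W) :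
    v ∈ E := by
  have h1 := h.md.rsub hv
  rw [Finset.mem_union] at h1
  rcases h1 with h1 | h1
  · obtain ⟨i, hi, hvi⟩ := Finset.mem_biUnion.1 h1
    exact absurd (mem_used.2 ⟨i, hvi⟩) hf
  · exact h1

private theorem cert_E_used {x : V} {F : Finset (Fin k)}
    {D : Finset V} {n : ℕ} {H : Finset (Fin k)} {E R : Finset V} {W' : Fin k → Finset V}
    (h : Crt G S s t l W X R0 x F D n H E R W') : Disjoint E (used W) := by
  rw [Finset.disjoint_left]
  exact fun v hv => (Finset.mem_sdiff.1 (h.EU hv)).2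

theorem crt_free (c : NCtx G S s t l W r q X B R0 th) (j n : ℕ) (hB : n + 1 ≤ B)
    (ih : ∀ x ∈ cl G S th l R0 W r q X j, HasCrt G S s t l W X B R0 n x) {p : V}
    (hp : p ∈ Str G S th (cl G S th l R0 W r q X j)) (hf : p ∉ used W) :
    HasCrt G S s t l W X B R0 (n + 1) p := by
  intro F D hF hD hpD hpF
  have hpS : p ∈ S := (Finset.mem_filter.1 hp).1
  have hc1 : (insert p D).card ≤ D.card + 1 := Finset.card_insert_le _ _
  obtain ⟨x, hx, hadj, hxD, hxF⟩ := pick c j hp F (insert p D) (by omega) (by omega)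
  obtain ⟨H, E, R, W', h⟩ := ih x hx F (insert p D) (by omega) (by omega) hxD hxF
  have hpE : p ∉ E := fun hpE =>
    Finset.disjoint_left.1 h.ED hpE (Finset.mem_insert_self _ _)
  refine ⟨H, E ∪ {p}, R ∪ {p}, W', ?_⟩
  have hmd := h.md.addE (E1 := {p}) (cert_E_used h) (by
    rw [Finset.disjoint_singleton_left]; exact hf) (by
    rw [Finset.disjoint_left]
    intro v hv hvE
    have h1 := (Finset.mem_sdiff.1 hv).1
    rw [Finset.mem_singleton] at h1
    rw [h1] at hvE
    exact hpE hvE)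
  refine ⟨hmd, h.Hl, h.HF, h.Hc.trans (Nat.le_succ n), ?_, ?_, ?_, ?_, ?_, ?_⟩
  · refine Finset.union_subset h.EU ?_
    rw [Finset.singleton_subset_iff, Finset.mem_sdiff]
    exact ⟨hpS, hf⟩
  · rw [Finset.disjoint_union_left, Finset.disjoint_singleton_left]
    refine ⟨?_, hpD⟩
    exact Finset.disjoint_of_subset_right (Finset.subset_insert _ _) h.ED
  · refine (Finset.card_union_le _ _).trans ?_
    rw [Finset.card_singleton]
    have := h.Ec
    omega
  · have h1 := Cn.insert_adj h.cn h.xR hadj.symm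
    rwa [Finset.insert_eq, Finset.union_comm] at h1
  · exact Finset.mem_union_right _ (Finset.mem_singleton_self p)
  · obtain ⟨y, hy⟩ := h.RX
    rw [Finset.mem_inter] at hy
    exact ⟨y, Finset.mem_inter.2 ⟨Finset.mem_union_left _ hy.1, hy.2⟩⟩

theorem crt_item (c : NCtx G S s t l W r q X B R0 th) (j n : ℕ) (hB : 4 * n + 100 ≤ B)
    (ih : ∀ x ∈ cl G S th l R0 W r q X j, HasCrt G S s t l W X B R0 n x) {h0 : Fin k}
    (hh : (h0 : ℕ) < l) {a b d i : ℕ} (had : a < d) (hai : a < i) (hdb : d < b) (hib : i < b)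
    (hb : b ≤ r h0) (ha : q h0 a ∈ Str G S th (cl G S th l R0 W r q X j))
    (hb' : q h0 b ∈ Str G S th (cl G S th l R0 W r q X j))
    (hd : q h0 d ∈ Str G S th (cl G S th l R0 W r q X j)) :
    HasCrt G S s t l W X B R0 (4 * n + 100) (q h0 i) := by
  intro F D hF hD hxD hxF
  have hp := c.pth h0 hh
  have hiW : q h0 i ∈ W h0 := cert_mem_W c hh (by omega)
  have h0F : h0 ∉ F := fun h => hxF h0 h hiW
  -- the certificate for a neighbour of `q a`
  have cF1 : (insert h0 F).card ≤ F.card + 1 := Finset.card_insert_le _ _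
  obtain ⟨xa, hxa, hadja, hxaD, hxaF⟩ := pick c j ha (insert h0 F) D (by omega) (by omega)
  obtain ⟨Ha, Ea, Ra, Wa, ca⟩ := ih xa hxa (insert h0 F) D (by omega) (by omega) hxaD hxaF
  -- the certificate for a neighbour of `q b`
  have cF2 : (insert h0 F ∪ Ha).card ≤ F.card + 1 + n :=
    (Finset.card_union_le _ _).trans (by have := ca.Hc; omega)
  have cD2 : (D ∪ Ea).card ≤ D.card + n :=
    (Finset.card_union_le _ _).trans (by have := ca.Ec; omega)
  obtain ⟨xb, hxb, hadjb, hxbD, hxbF⟩ := pick c j hb' (insert h0 F ∪ Ha) (D ∪ Ea) (by omega)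
    (by omega)
  obtain ⟨Hb, Eb, Rb, Wb, cb⟩ := ih xb hxb (insert h0 F ∪ Ha) (D ∪ Ea) (by omega) (by omega)
    hxbD hxbF
  -- the certificate for a neighbour of `q d`
  have cF3 : (insert h0 F ∪ Ha ∪ Hb).card ≤ F.card + 1 + n + n :=
    (Finset.card_union_le _ _).trans (by have := cb.Hc; omega)
  have cD3 : (D ∪ Ea ∪ Eb).card ≤ D.card + n + n :=
    (Finset.card_union_le _ _).trans (by have := cb.Ec; omega)
  obtain ⟨xd, hxd, hadjd, hxdD, hxdF⟩ := pick c j hd (insert h0 F ∪ Ha ∪ Hb) (D ∪ Ea ∪ Eb)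
    (by omega) (by omega)
  obtain ⟨Hd, Ed, Rd, Wd, cd⟩ := ih xd hxd (insert h0 F ∪ Ha ∪ Hb) (D ∪ Ea ∪ Eb) (by omega)
    (by omega) hxdD hxdF
  -- disjointness facts
  have haH : ∀ h ∈ Ha, h ≠ h0 ∧ h ∉ F := fun h hh' =>
    ⟨fun e => ca.HF h hh' (by rw [e]; exact Finset.mem_insert_self _ _),
      fun e => ca.HF h hh' (Finset.mem_insert_of_mem e)⟩
  have hbH : ∀ h ∈ Hb, h ≠ h0 ∧ h ∉ F ∧ h ∉ Ha := fun h hh' =>
    ⟨fun e => cb.HF h hh' (Finset.mem_union_left _ (by rw [e]; exact Finset.mem_insert_self _ _)),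
      fun e => cb.HF h hh' (Finset.mem_union_left _ (Finset.mem_insert_of_mem e)),
      fun e => cb.HF h hh' (Finset.mem_union_right _ e)⟩
  have hdH : ∀ h ∈ Hd, h ≠ h0 ∧ h ∉ F ∧ h ∉ Ha ∧ h ∉ Hb := fun h hh' =>
    ⟨fun e => cd.HF h hh' (Finset.mem_union_left _ (Finset.mem_union_left _
        (by rw [e]; exact Finset.mem_insert_self _ _))),
      fun e => cd.HF h hh' (Finset.mem_union_left _ (Finset.mem_union_left _
        (Finset.mem_insert_of_mem e))),
      fun e => cd.HF h hh' (Finset.mem_union_left _ (Finset.mem_union_right _ e)),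
      fun e => cd.HF h hh' (Finset.mem_union_right _ e)⟩
  have hEa : ∀ v ∈ Ea, v ∉ D := fun v hv => Finset.disjoint_left.1 ca.ED hv
  have hEb : ∀ v ∈ Eb, v ∉ D ∧ v ∉ Ea := fun v hv =>
    ⟨fun e => Finset.disjoint_left.1 cb.ED hv (Finset.mem_union_left _ e),
      fun e => Finset.disjoint_left.1 cb.ED hv (Finset.mem_union_right _ e)⟩
  have hEd : ∀ v ∈ Ed, v ∉ D ∧ v ∉ Ea ∧ v ∉ Eb := fun v hv =>
    ⟨fun e => Finset.disjoint_left.1 cd.ED hv (Finset.mem_union_left _
        (Finset.mem_union_left _ e)),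
      fun e => Finset.disjoint_left.1 cd.ED hv (Finset.mem_union_left _
        (Finset.mem_union_right _ e)),
      fun e => Finset.disjoint_left.1 cd.ED hv (Finset.mem_union_right _ e)⟩
  have hXf : ∀ v ∈ X, v ∉ used W := fun v hv => (Finset.mem_sdiff.1 (c.XU hv)).2
  obtain ⟨ya, hya⟩ := ca.RX
  obtain ⟨yb, hyb⟩ := cb.RX
  rw [Finset.mem_inter] at hya hyb
  have hyaE : ya ∈ Ea := cert_free_E ca hya.1 (hXf _ hya.2)
  have hybE : yb ∈ Eb := cert_free_E cb hyb.1 (hXf _ hyb.2)
  -- the connection through the hub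
  set D' : Finset V := D ∪ Ed ∪ (Ea \ Ra) ∪ (Eb \ Rb) with hD'
  have hmD' : ∀ v, v ∈ D' ↔ v ∈ D ∨ v ∈ Ed ∨ (v ∈ Ea ∧ v ∉ Ra) ∨ (v ∈ Eb ∧ v ∉ Rb) := by
    intro v
    simp only [hD', Finset.mem_union, Finset.mem_sdiff]
    tauto
  have hD'c : D'.card ≤ B := by
    have h1 : D'.card ≤ D.card + Ed.card + (Ea \ Ra).card + (Eb \ Rb).card := by
      refine (Finset.card_union_le _ _).trans (Nat.add_le_add_right ?_ _)
      refine (Finset.card_union_le _ _).trans (Nat.add_le_add_right ?_ _)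
      exact Finset.card_union_le _ _
    have h2 : (Ea \ Ra).card ≤ Ea.card := Finset.card_le_card Finset.sdiff_subset
    have h3 : (Eb \ Rb).card ≤ Eb.card := Finset.card_le_card Finset.sdiff_subset
    have h4 := ca.Ec
    have h5 := cb.Ec
    have h6 := cd.Ec
    omega
  have hyaD : ya ∈ X \ D' := by
    rw [Finset.mem_sdiff, hmD']
    refine ⟨hya.2, ?_⟩
    rintro (h | h | h | h)
    · exact hEa _ hyaE h
    · exact (hEd _ h).2.1 hyaE
    · exact h.2 hya.1
    · exact (hEb _ h.1).2 hyaE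
  have hybD : yb ∈ X \ D' := by
    rw [Finset.mem_sdiff, hmD']
    refine ⟨hyb.2, ?_⟩
    rintro (h | h | h | h)
    · exact (hEb _ hybE).1 h
    · exact (hEd _ h).2.2 hybE
    · exact (hEb _ hybE).2 h.1
    · exact h.2 hyb.1
  obtain ⟨C, hCX, hyaC, hybC, hCn, hCc⟩ := c.hub D' hD'c ya hyaD yb hybD
  have hC1 : ∀ v ∈ C, v ∈ X ∧ v ∉ D ∧ v ∉ Ed ∧ (v ∈ Ea → v ∈ Ra) ∧ (v ∈ Eb → v ∈ Rb) := by
    intro v hv
    have h1 := hCX hv
    rw [Finset.mem_sdiff, hmD'] at h1
    refine ⟨h1.1, fun e => h1.2 (Or.inl e), fun e => h1.2 (Or.inr (Or.inl e)), fun e => ?_,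
      fun e => ?_⟩
    · by_contra e2
      exact h1.2 (Or.inr (Or.inr (Or.inl ⟨e, e2⟩)))
    · by_contra e2
      exact h1.2 (Or.inr (Or.inr (Or.inr ⟨e, e2⟩)))
  have hCf : Disjoint C (used W) := by
    rw [Finset.disjoint_left]
    exact fun v hv => hXf v (hC1 v hv).1
  -- the union of the modifications
  have hdj := c.opt.dj
  obtain ⟨m1, -⟩ := Md.union hdj ca.md cb.md (by
    rw [Finset.disjoint_right]
    exact fun h hh' => (hbH h hh').2.2) (by
    rw [Finset.disjoint_right]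
    exact fun v hv => (hEb v hv).2) (cert_E_used ca) (cert_E_used cb)
  have hEab : Disjoint (Ea ∪ Eb) (used W) := by
    rw [Finset.disjoint_union_left]
    exact ⟨cert_E_used ca, cert_E_used cb⟩
  obtain ⟨m2, hRd⟩ := Md.union hdj m1 cd.md (by
    rw [Finset.disjoint_right]
    intro h hh' e
    rw [Finset.mem_union] at e
    rcases e with e | e
    · exact (hdH h hh').2.2.1 e
    · exact (hdH h hh').2.2.2 e) (by
    rw [Finset.disjoint_right]
    intro v hv e
    rw [Finset.mem_union] at e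
    rcases e with e | e
    · exact (hEd v hv).2.1 e
    · exact (hEd v hv).2.2 e) hEab (cert_E_used cd)
  have hEabd : Disjoint (Ea ∪ Eb ∪ Ed) (used W) := by
    rw [Finset.disjoint_union_left]
    exact ⟨hEab, cert_E_used cd⟩
  have m3 := m2.addE (E1 := C) hEabd hCf (by
    rw [Finset.disjoint_left]
    intro v hv hvE
    rw [Finset.mem_sdiff] at hv
    obtain ⟨hvC, hvR⟩ := hv
    have h1 := hC1 v hvC
    simp only [Finset.mem_union] at hvE hvR
    rcases hvE with (hvE | hvE) | hvE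
    · exact hvR (Or.inl (Or.inl (h1.2.2.2.1 hvE)))
    · exact hvR (Or.inl (Or.inr (h1.2.2.2.2 hvE)))
    · exact h1.2.2.1 hvE)
  have hEall : Disjoint (Ea ∪ Eb ∪ Ed ∪ C) (used W) := by
    rw [Finset.disjoint_union_left]
    exact ⟨hEabd, hCf⟩
  have hh0 : h0 ∉ Ha ∪ Hb ∪ Hd := by
    simp only [Finset.mem_union]
    rintro ((e | e) | e)
    · exact (haH _ e).1 rfl
    · exact (hbH _ e).1 rfl
    · exact (hdH _ e).1 rfl
  have h0a : h0 ∉ Ha := fun e => (haH _ e).1 rfl
  have h0b : h0 ∉ Hb := fun e => (hbH _ e).1 rfl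
  have h0d : h0 ∉ Hd := fun e => (hdH _ e).1 rfl
  have hWRa := cert_W_R c ca h0a
  have hWRb := cert_W_R c cb h0b
  have hWRd := cert_W_R c cd h0d
  have hWC : Disjoint (W h0) C := by
    rw [Finset.disjoint_left]
    exact fun v hv hvC => Finset.disjoint_left.1 hCf hvC (mem_used.2 ⟨h0, hv⟩)
  have hCRd : Disjoint C Rd := by
    rw [Finset.disjoint_left]
    intro v hv hvR
    exact (hC1 v hv).2.2.1 (cert_free_E cd hvR (hXf v (hC1 v hv).1))
  -- the new set of the item
  set A1 : Finset V := (Icc 0 a).image (q h0) with hA1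
  set A2 : Finset V := (Icc b (r h0)).image (q h0) with hA2
  set Q : Finset V := (Icc (min i d) (max i d)).image (q h0) with hQ
  have hA1W : A1 ⊆ W h0 := cert_img_sub c hh (by omega)
  have hA2W : A2 ⊆ W h0 := cert_img_sub c hh le_rfl
  have hQW : Q ⊆ W h0 := cert_img_sub c hh (by omega)
  have hZ : Cn G (Ra ∪ C ∪ Rb) := by
    have h1 : Cn G (Ra ∪ C) := Cn.union ca.cn hCn ⟨ya, Finset.mem_inter.2 ⟨hya.1, hyaC⟩⟩
    exact Cn.union h1 cb.cn
      ⟨yb, Finset.mem_inter.2 ⟨Finset.mem_union_right _ hybC, hyb.1⟩⟩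
  have hAc : Cn G (A1 ∪ (Ra ∪ C ∪ Rb) ∪ A2) :=
    IsPth.bridge hp (i := a) (j := b) (by omega) hb hZ
      (Finset.mem_union_left _ (Finset.mem_union_left _ ca.xR))
      (Finset.mem_union_right _ cb.xR) hadja hadjb
  have hinj : ∀ m m', m ≤ r h0 → m' ≤ r h0 → q h0 m = q h0 m' → m = m' := hp.inj
  have hA1Q : Disjoint A1 Q := by
    rw [Finset.disjoint_left]
    intro v hv hv'
    obtain ⟨m, hm, rfl⟩ := Finset.mem_image.1 hv
    obtain ⟨m', hm', he⟩ := Finset.mem_image.1 hv'
    rw [Finset.mem_Icc] at hm hm'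
    have := hinj m' m (by omega) (by omega) he
    omega
  have hA2Q : Disjoint A2 Q := by
    rw [Finset.disjoint_left]
    intro v hv hv'
    obtain ⟨m, hm, rfl⟩ := Finset.mem_image.1 hv
    obtain ⟨m', hm', he⟩ := Finset.mem_image.1 hv'
    rw [Finset.mem_Icc] at hm hm'
    have := hinj m' m (by omega) (by omega) he
    omega
  have hRd' : Disjoint Ra Rd ∧ Disjoint Rb Rd := by
    rwa [Finset.disjoint_union_left] at hRd
  have m4 := m3.ext hdj hEall hh0 (A := A1 ∪ (Ra ∪ C ∪ Rb) ∪ A2) (R1 := Q ∪ Rd) (by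
      refine Finset.mem_union_left _ (Finset.mem_union_left _ ?_)
      exact Finset.mem_image.2 ⟨0, Finset.mem_Icc.2 ⟨le_rfl, Nat.zero_le _⟩, hp.z⟩) (by
      refine Finset.mem_union_right _ ?_
      exact Finset.mem_image.2 ⟨r h0, Finset.mem_Icc.2 ⟨hb, le_rfl⟩, hp.e⟩) hAc (by
      intro v hv
      simp only [Finset.mem_union] at hv ⊢
      rcases hv with (hv | (hv | hv) | hv) | hv
      · exact Or.inl (hA1W hv)
      · exact Or.inr (Or.inl (Or.inl (Or.inl hv)))
      · exact Or.inr (Or.inr hv)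
      · exact Or.inr (Or.inl (Or.inl (Or.inr hv)))
      · exact Or.inl (hA2W hv)) (by
      intro v hv
      simp only [Finset.mem_union] at hv ⊢
      rcases hv with hv | hv
      · exact Or.inl (hQW hv)
      · exact Or.inr (Or.inl (Or.inr hv))) (by
      rw [Finset.disjoint_union_left, Finset.disjoint_union_left, Finset.disjoint_union_left,
        Finset.disjoint_union_left]
      simp only [Finset.disjoint_union_right]
      refine ⟨⟨⟨hA1Q, ?_⟩, ⟨⟨?_, hRd'.1⟩, ⟨?_, hCRd⟩⟩, ?_, hRd'.2⟩, hA2Q, ?_⟩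
      · exact Finset.disjoint_of_subset_left hA1W hWRd
      · exact (Finset.disjoint_of_subset_left hQW hWRa).symm
      · exact (Finset.disjoint_of_subset_left hQW hWC).symm
      · exact (Finset.disjoint_of_subset_left hQW hWRb).symm
      · exact Finset.disjoint_of_subset_left hA2W hWRd)
  refine ⟨_, _, _, _, ⟨m4, ?_, ?_, ?_, ?_, ?_, ?_, ?_, ?_, ?_⟩⟩
  · intro h hm
    simp only [Finset.mem_insert, Finset.mem_union] at hm
    rcases hm with hm | (hm | hm) | hm
    · rw [hm]; exact hh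
    · exact ca.Hl h hm
    · exact cb.Hl h hm
    · exact cd.Hl h hm
  · intro h hm
    simp only [Finset.mem_insert, Finset.mem_union] at hm
    rcases hm with hm | (hm | hm) | hm
    · rw [hm]; exact h0F
    · exact (haH h hm).2
    · exact (hbH h hm).2.1
    · exact (hdH h hm).2.1
  · have h1 : (insert h0 (Ha ∪ Hb ∪ Hd)).card ≤ Ha.card + Hb.card + Hd.card + 1 := by
      refine (Finset.card_insert_le _ _).trans (Nat.add_le_add_right ?_ _)
      refine (Finset.card_union_le _ _).trans (Nat.add_le_add_right ?_ _)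
      exact Finset.card_union_le _ _
    have h4 := ca.Hc
    have h5 := cb.Hc
    have h6 := cd.Hc
    omega
  · refine Finset.union_subset (Finset.union_subset (Finset.union_subset ca.EU cb.EU) cd.EU) ?_
    intro v hv
    exact c.XU (hC1 v hv).1
  · rw [Finset.disjoint_left]
    intro v hv
    simp only [Finset.mem_union] at hv
    rcases hv with ((hv | hv) | hv) | hv
    · exact hEa v hv
    · exact (hEb v hv).1
    · exact (hEd v hv).1
    · exact (hC1 v hv).2.1
  · have h1 : (Ea ∪ Eb ∪ Ed ∪ C).card ≤ Ea.card + Eb.card + Ed.card + C.card := by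
      refine (Finset.card_union_le _ _).trans (Nat.add_le_add_right ?_ _)
      refine (Finset.card_union_le _ _).trans (Nat.add_le_add_right ?_ _)
      exact Finset.card_union_le _ _
    have h4 := ca.Ec
    have h5 := cb.Ec
    have h6 := cd.Ec
    omega
  · have hQc : Cn G Q := cn_seg fun m hm1 hm2 => hp.adj m (by omega)
    refine Cn.union_adj hQc cd.cn (a := q h0 d) (b := xd) ?_ cd.xR hadjd
    exact Finset.mem_image.2 ⟨d, Finset.mem_Icc.2 ⟨by omega, by omega⟩, rfl⟩
  · refine Finset.mem_union_left _ ?_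
    exact Finset.mem_image.2 ⟨i, Finset.mem_Icc.2 ⟨by omega, by omega⟩, rfl⟩
  · obtain ⟨y, hy⟩ := cd.RX
    rw [Finset.mem_inter] at hy
    exact ⟨y, Finset.mem_inter.2 ⟨Finset.mem_union_right _ hy.1, hy.2⟩⟩

/-- `HasCrt` is monotone in the size -/
theorem HasCrt.mono {n m : ℕ} (h : n ≤ m) {x : V} (hx : HasCrt G S s t l W X B R0 n x) :
    HasCrt G S s t l W X B R0 m x := by
  intro F D hF hD hxD hxF
  obtain ⟨H, E, R, W', hc⟩ := hx F D (by omega) (by omega) hxD hxF
  exact ⟨H, E, R, W', ⟨hc.md, hc.Hl, hc.HF, hc.Hc.trans h, hc.EU, hc.ED, hc.Ec.trans h, hc.cn,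
    hc.xR, hc.RX⟩⟩

theorem cert (c : NCtx G S s t l W r q X B R0 th) : ∀ j, cc j ≤ B →
    ∀ x ∈ cl G S th l R0 W r q X j, HasCrt G S s t l W X B R0 (cc j) x := by
  intro j
  induction j with
  | zero =>
    intro hB x hx F D hF hD hxD hxF
    have hxX : x ∈ X := hx
    refine ⟨∅, {x}, {x}, W, ⟨Md.triv _, ?_, ?_, ?_, ?_, ?_, ?_, ?_, ?_, ?_⟩⟩
    · intro h hm
      exact absurd hm (Finset.notMem_empty _)
    · intro h hm
      exact absurd hm (Finset.notMem_empty _)
    · simp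
    · rw [Finset.singleton_subset_iff]
      exact c.XU hxX
    · rw [Finset.disjoint_singleton_left]
      exact hxD
    · simp [cc]
    · exact cn_singleton x
    · exact Finset.mem_singleton_self x
    · exact ⟨x, Finset.mem_inter.2 ⟨Finset.mem_singleton_self x, hxX⟩⟩
  | succ j ih =>
    intro hB x hx
    have hcc : cc (j + 1) = 4 * cc j + 100 := rfl
    rw [hcc] at hB
    have ih' := ih (by omega)
    have hx' : x ∈ stp G S th l R0 W r q (cl G S th l R0 W r q X j) := hx
    unfold stp at hx'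
    rw [Finset.mem_union, Finset.mem_union] at hx'
    rcases hx' with (hx' | hx') | hx'
    · exact (ih' x hx').mono (by omega)
    · rw [Finset.mem_inter, Finset.mem_sdiff] at hx'
      exact (crt_free c j (cc j) (by omega) ih' hx'.2 hx'.1.2).mono (by omega)
    · obtain ⟨h, hm, hxh⟩ := Finset.mem_biUnion.1 hx'
      obtain ⟨-, hl, -, y, hy⟩ := Finset.mem_filter.1 hm
      obtain ⟨hy1, hyA⟩ := Finset.mem_inter.1 hy
      unfold Sg at hxh hy1
      obtain ⟨i, hi, rfl⟩ := Finset.mem_image.1 hxh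
      obtain ⟨d, hd, rfl⟩ := Finset.mem_image.1 hy1
      obtain ⟨-, a0, b0, ha0, hb0, hb0r, hqa0, hqb0⟩ := Finset.mem_filter.1 hi
      obtain ⟨-, a1, b1, ha1, hb1, hb1r, hqa1, hqb1⟩ := Finset.mem_filter.1 hd
      have hmin : q h (min a0 a1) ∈ Str G S th (cl G S th l R0 W r q X j) := by
        rcases min_choice a0 a1 with e | e
        · rw [e]; exact hqa0
        · rw [e]; exact hqa1
      have hmax : q h (max b0 b1) ∈ Str G S th (cl G S th l R0 W r q X j) := by
        rcases max_choice b0 b1 with e | e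
        · rw [e]; exact hqb0
        · rw [e]; exact hqb1
      exact crt_item c j (cc j) (by omega) ih' hl (a := min a0 a1) (b := max b0 b1) (d := d)
        (i := i) (by omega) (by omega) (by omega) (by omega) (by omega) hmin hmax hyA

end Pool.Agent.MP4432a5
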