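import Pool.Agent.Lib.MP_4432a5_co.SysOpt

/-!
# MP_4432a5_co, module ClaimSA: the set `Y` in Lemma A

Proof. `S = K ∪ T`, `N = |S|`. Paths: `Opt.path`. Let `v ∈ K` be free, `i < l`, `v ~ q a, q b`, `a < b ≤ r`. By
`Opt.seg` the vertices strictly between have total weight at most `N + 1`; if there were two of
them, two consecutive ones are not both in `T` (independent), so the weight is at least
`N + 2`. So `b ≤ a + 2`, and `nb_three` gives `Y3`, `Y3'`. An item `i ≥ l` contains at most 2 neighbours of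
`v`. Hence `v` has at most `3 k` used neighbours, and at least `e k` free ones.
A free `z ∈ T` has at most 2 neighbours in each item: for `i < l` the weight between is at most `1`, so
`b ≤ a + 2` and if `b = a + 2` then `q (a + 1)` has weight 1 (for `N ≥ 1`), is in `T` and so not adjacent to `z`.
So `z` has at least `e k` free neighbours, all in `K` (`T` independent). Hence `|K \ used W| ≥ e k`: a free
`v ∈ K` (exists) has `e k` free neighbours; if one of them is in `T` use that one, otherwise all are in `K`.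
`com`: inclusion-exclusion in `S`: `|N(u) ∩ N(y)| ≥ d(u) + d(y) - |S|` and `2 d ≥ |S| + (2 + e) k`.
-/

set_option autoImplicit false
set_option linter.all false

open Finset
open scoped Classical

namespace Pool.Agent.MP4432a5

variable {V : Type*} {G : SimpleGraph V} {K T : Finset V} {k l : ℕ} {s t : Fin k → V}
  {W : Fin k → Finset V}

private theorem sa_used (v : V) :
    (nb G (used W) v).card ≤ ∑ i, (nb G (W i) v).card := by
  have h : nb G (used W) v ⊆ univ.biUnion (fun i => nb G (W i) v) := by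
    intro x hx
    rw [mem_nb, mem_used] at hx
    obtain ⟨⟨i, hi⟩, hx⟩ := hx
    exact mem_biUnion.2 ⟨i, mem_univ i, mem_nb.2 ⟨hi, hx⟩⟩
  exact (card_le_card h).trans card_biUnion_le

private theorem sa_split (A : Finset V) (v : V) :
    (nb G A v).card ≤ (nb G (used W) v).card + (nb G (A \ used W) v).card := by
  refine le_trans (card_le_card ?_) (card_union_le _ _)
  intro x hx
  rw [mem_nb] at hx
  rw [mem_union, mem_nb, mem_nb, mem_sdiff]
  by_cases h : x ∈ used W
  · exact Or.inl ⟨h, hx.2⟩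
  · exact Or.inr ⟨⟨hx.1, h⟩, hx.2⟩

private theorem sa_pair {v a b : V} : (nb G ({a, b} : Finset V) v).card ≤ 2 := by
  refine le_trans (card_le_card (filter_subset _ _)) ?_
  exact card_le_two

private theorem sa_win (hdis : Disjoint K T) (hind : ∀ a ∈ T, ∀ b ∈ T, ¬ G.Adj a b)
    {ω : V → ℕ} (hωK : ∀ v ∈ K, ω v = (K ∪ T).card + 1)
    (hωT : ∀ v ∈ T, ω v = 1) (hopt : Opt G (K ∪ T) s t l ω W) {v : V} (hv : v ∈ K)
    (hvu : v ∉ used W) {i : Fin k} (hi : (i : ℕ) < l) {r : ℕ} {q : ℕ → V}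
    (hq : IsPth G (W i) (s i) (t i) r q) :
    ∀ a b, a < b → b ≤ r → G.Adj v (q a) → G.Adj v (q b) → b ≤ a + 2 := by
  intro a b hab hb h1 h2
  by_contra hlt
  rw [not_le] at hlt
  have hseg := hopt.seg hi hq (mem_union_left T hv) hvu hab hb h1 h2
  rw [hωK v hv] at hseg
  have hm : ∀ n, n ≤ r → q n ∈ K ∪ T := fun n hn => hopt.sub i (hq.mem.2 ⟨n, hn, rfl⟩)
  have hsub : ({a + 1, a + 2} : Finset ℕ) ⊆ Ioo a b := by
    intro x hx
    rw [mem_insert, mem_singleton] at hx
    rw [mem_Ioo]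
    omega
  have hsum : ∑ j ∈ ({a + 1, a + 2} : Finset ℕ), ω (q j) ≤ ∑ j ∈ Ioo a b, ω (q j) :=
    sum_le_sum_of_subset hsub
  rw [sum_pair (by omega)] at hsum
  have hadj : G.Adj (q (a + 1)) (q (a + 2)) := hq.adj (a + 1) (by omega)
  have hw : ∀ x ∈ K ∪ T, 1 ≤ ω x := by
    intro x hx
    rcases mem_union.1 hx with h | h
    · rw [hωK x h]; omega
    · rw [hωT x h]
  have e1 := hw _ (hm (a + 1) (by omega))
  have e2 := hw _ (hm (a + 2) (by omega))
  rcases mem_union.1 (hm (a + 1) (by omega)) with h3 | h3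
  · rw [hωK _ h3] at hsum
    omega
  · rcases mem_union.1 (hm (a + 2) (by omega)) with h4 | h4
    · rw [hωK _ h4] at hsum
      omega
    · exact hind _ h3 _ h4 hadj

private theorem sa_T (hdis : Disjoint K T) (hind : ∀ a ∈ T, ∀ b ∈ T, ¬ G.Adj a b)
    {ω : V → ℕ} (hωK : ∀ v ∈ K, ω v = (K ∪ T).card + 1)
    (hωT : ∀ v ∈ T, ω v = 1) (hopt : Opt G (K ∪ T) s t l ω W) {z : V} (hz : z ∈ T)
    (hzu : z ∉ used W) {i : Fin k} (hi : (i : ℕ) < l) {r : ℕ} {q : ℕ → V}
    (hq : IsPth G (W i) (s i) (t i) r q) : (nb G (W i) z).card ≤ 2 := by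
  have hN : 1 ≤ (K ∪ T).card := card_pos.2 ⟨z, mem_union_right K hz⟩
  have hm : ∀ n, n ≤ r → q n ∈ K ∪ T := fun n hn => hopt.sub i (hq.mem.2 ⟨n, hn, rfl⟩)
  have hw : ∀ x ∈ K ∪ T, 1 ≤ ω x := by
    intro x hx
    rcases mem_union.1 hx with h | h
    · rw [hωK x h]; omega
    · rw [hωT x h]
  have hwin : ∀ a b, a < b → b ≤ r → G.Adj z (q a) → G.Adj z (q b) → b ≤ a + 2 := by
    intro a b hab hb h1 h2
    by_contra hlt
    rw [not_le] at hlt
    have hseg := hopt.seg hi hq (mem_union_right K hz) hzu hab hb h1 h2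
    rw [hωT z hz] at hseg
    have hsub : ({a + 1, a + 2} : Finset ℕ) ⊆ Ioo a b := by
      intro x hx
      rw [mem_insert, mem_singleton] at hx
      rw [mem_Ioo]
      omega
    have hsum : ∑ j ∈ ({a + 1, a + 2} : Finset ℕ), ω (q j) ≤ ∑ j ∈ Ioo a b, ω (q j) :=
      sum_le_sum_of_subset hsub
    rw [sum_pair (by omega)] at hsum
    have e1 := hw _ (hm (a + 1) (by omega))
    have e2 := hw _ (hm (a + 2) (by omega))
    omega
  by_contra hgt
  rw [not_le] at hgt
  have hne : (nb G (W i) z).Nonempty := card_pos.1 (by omega)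
  obtain ⟨a, ha, haz, hall⟩ := nb_window hq hwin hne
  have hsub : nb G (W i) z ⊆ {q a, q (a + 1), q (a + 2)} := by
    intro w hw
    rw [mem_insert, mem_insert, mem_singleton]
    rcases hall w hw with h | ⟨-, h⟩ | ⟨-, h⟩
    · exact Or.inl h
    · exact Or.inr (Or.inl h)
    · exact Or.inr (Or.inr h)
  have hc3 : ({q a, q (a + 1), q (a + 2)} : Finset V).card ≤ 3 := card_le_three
  have heq : nb G (W i) z = {q a, q (a + 1), q (a + 2)} :=
    eq_of_subset_of_card_le hsub (by omega)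
  have hm1 : q (a + 1) ∈ nb G (W i) z := by rw [heq]; simp
  have hm2 : q (a + 2) ∈ nb G (W i) z := by rw [heq]; simp
  -- the index `a + 2` is at most `r`
  have ha2 : a + 2 ≤ r := by
    by_contra hr
    have hsub2 : nb G (W i) z ⊆ {q a, q (a + 1)} := by
      intro w hw
      rw [mem_insert, mem_singleton]
      rcases hall w hw with h | ⟨-, h⟩ | ⟨h, -⟩
      · exact Or.inl h
      · exact Or.inr h
      · exact absurd h hr
    have := (card_le_card hsub2).trans card_le_two
    omega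
  have hseg := hopt.seg hi hq (mem_union_right K hz) hzu (show a < a + 2 by omega) ha2 haz
    (mem_nb.1 hm2).2
  rw [hωT z hz] at hseg
  have hIoo : Ioo a (a + 2) = {a + 1} := by
    ext x
    rw [mem_Ioo, mem_singleton]
    omega
  rw [hIoo, sum_singleton] at hseg
  rcases mem_union.1 (hm (a + 1) (by omega)) with h3 | h3
  · rw [hωK _ h3] at hseg
    omega
  · exact hind z hz _ h3 (mem_nb.1 hm1).2

theorem claimSA (hdis : Disjoint K T) (hind : ∀ a ∈ T, ∀ b ∈ T, ¬ G.Adj a b)
    (hcard : (K ∪ T).card ≤ 10 * k)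
    (hd1 : ∀ u ∈ K, (3 + 1 / 10000) * (k : ℝ) ≤ dg G (K ∪ T) u)
    (hd2 : ∀ u ∈ K, ((K ∪ T).card : ℝ) + (2 + 1 / 10000) * k ≤ 2 * dg G (K ∪ T) u)
    (hd3 : ∀ z ∈ T, (2 + 1 / 10000) * (k : ℝ) ≤ dg G K z)
    (hter : Ter (K ∪ T) s t) {ω : V → ℕ} (hωK : ∀ v ∈ K, ω v = (K ∪ T).card + 1)
    (hωT : ∀ v ∈ T, ω v = 1) (hopt : Opt G (K ∪ T) s t l ω W)
    (hfree : (K \ used W).Nonempty) : LCtx G K T s t l W (K \ used W) := by
  have hpos : ∀ v ∈ K ∪ T, 0 < ω v := by
    intro x hx
    rcases mem_union.1 hx with h | h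
    · rw [hωK x h]; omega
    · rw [hωT x h]; omega
  have hpth : ∀ i : Fin k, (i : ℕ) < l → ∃ r q, IsPth G (W i) (s i) (t i) r q :=
    fun i hi => hopt.path hpos i hi
  have h3 : ∀ y ∈ K, y ∉ used W → ∀ i : Fin k, (i : ℕ) < l → (nb G (W i) y).card ≤ 3 ∧
      ((nb G (W i) y).card = 3 →
        ∃ w ∈ nb G (W i) y, w ≠ s i ∧ w ≠ t i ∧ Cn G (insert y ((W i).erase w))) := by
    intro y hy hyu i hi
    obtain ⟨r, q, hq⟩ := hpth i hi
    exact nb_three hq (fun h => hyu (mem_used.2 ⟨i, h⟩))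
      (sa_win hdis hind hωK hωT hopt hy hyu hi hq)
  have hK3 : ∀ y ∈ K, y ∉ used W → (nb G (used W) y).card ≤ 3 * k := by
    intro y hy hyu
    refine (sa_used y).trans ?_
    have h : ∑ i, (nb G (W i) y).card ≤ ∑ _i : Fin k, 3 := by
      refine sum_le_sum fun i _ => ?_
      by_cases hi : (i : ℕ) < l
      · exact (h3 y hy hyu i hi).1
      · rw [hopt.un i (not_lt.1 hi)]
        exact sa_pair.trans (by norm_num)
    rw [sum_const, card_univ, Fintype.card_fin, smul_eq_mul] at h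
    omega
  have hT2 : ∀ z ∈ T, z ∉ used W → (nb G (used W) z).card ≤ 2 * k := by
    intro z hz hzu
    refine (sa_used z).trans ?_
    have h : ∑ i, (nb G (W i) z).card ≤ ∑ _i : Fin k, 2 := by
      refine sum_le_sum fun i _ => ?_
      by_cases hi : (i : ℕ) < l
      · obtain ⟨r, q, hq⟩ := hpth i hi
        exact sa_T hdis hind hωK hωT hopt hz hzu hi hq
      · rw [hopt.un i (not_lt.1 hi)]
        exact sa_pair
    rw [sum_const, card_univ, Fintype.card_fin, smul_eq_mul] at h
    omega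
  have hY : (1 / 10000 : ℝ) * k ≤ ((K \ used W).card : ℝ) := by
    obtain ⟨v, hv⟩ := hfree
    rw [mem_sdiff] at hv
    by_cases hz : ∃ z ∈ T, z ∉ used W
    · obtain ⟨z, hz, hzu⟩ := hz
      have h1 := hd3 z hz
      have h2 := hT2 z hz hzu
      have h4 := sa_split (G := G) (W := W) K z
      have h5 : (nb G (K \ used W) z).card ≤ (K \ used W).card :=
        card_le_card (filter_subset _ _)
      have h6 : (dg G K z : ℝ) ≤ 2 * k + ((K \ used W).card : ℝ) := by
        unfold dg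
        exact_mod_cast (show (nb G K z).card ≤ 2 * k + (K \ used W).card by omega)
      linarith
    · push Not at hz
      have h1 := hd1 v hv.1
      have h2 := hK3 v hv.1 hv.2
      have h4 := sa_split (G := G) (W := W) (K ∪ T) v
      have h5 : (nb G ((K ∪ T) \ used W) v).card ≤ (K \ used W).card := by
        refine card_le_card fun x hx => ?_
        rw [mem_nb, mem_sdiff, mem_union] at hx
        obtain ⟨⟨h | h, hxu⟩, -⟩ := hx
        · exact mem_sdiff.2 ⟨h, hxu⟩
        · exact absurd (hz x h) hxu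
      have h6 : (dg G (K ∪ T) v : ℝ) ≤ 3 * k + ((K \ used W).card : ℝ) := by
        unfold dg
        exact_mod_cast (show (nb G (K ∪ T) v).card ≤ 3 * k + (K \ used W).card by omega)
      linarith
  refine ⟨hdis, hind, hcard, hter, hopt.toSys, hpth, sdiff_subset,
    fun y hy => (mem_sdiff.1 hy).2, hY, fun y hy i hi => ?_, fun y hy i hi => ?_, ?_, hd3⟩
  · exact (h3 y (mem_sdiff.1 hy).1 (mem_sdiff.1 hy).2 i hi).1
  · exact (h3 y (mem_sdiff.1 hy).1 (mem_sdiff.1 hy).2 i hi).2
  · intro u hu y hy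
    have hyK := (mem_sdiff.1 hy).1
    have h1 := hd2 u hu
    have h2 := hd2 y hyK
    have h4 : (nb G (K ∪ T) u).card + (nb G (K ∪ T) y).card ≤
        (K ∪ T).card + (nb G (K ∪ T) u ∩ nb G (K ∪ T) y).card := by
      rw [← card_union_add_card_inter]
      have : (nb G (K ∪ T) u ∪ nb G (K ∪ T) y).card ≤ (K ∪ T).card :=
        card_le_card (union_subset (filter_subset _ _) (filter_subset _ _))
      omega
    have h5 : ((nb G (K ∪ T) u).card : ℝ) + ((nb G (K ∪ T) y).card : ℝ) ≤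
        ((K ∪ T).card : ℝ) + ((nb G (K ∪ T) u ∩ nb G (K ∪ T) y).card : ℝ) := by
      exact_mod_cast h4
    unfold dg at h1 h2
    linarith

end Pool.Agent.MP4432a5
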