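import Pool.Agent.Lib.MP_4432a5_co.Defs

/-!
# MP_4432a5_co, module Conn: connected finite sets and paths

All elementary. `exists_pth`: take `q` along a shortest `ReflTransGen` chain, or take a subset
`W' ⊆ W` of minimal cardinality which is connected and contains `a` and `b` ... (any way).
-/

set_option autoImplicit false
set_option linter.all false

open Finset
open scoped Classical

namespace Pool.Agent.MP4432a5

variable {V : Type*} {G H : SimpleGraph V} {A B W S : Finset V} {a b v w : V} {r : ℕ} {q : ℕ → V}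

theorem mem_nb : w ∈ nb G S v ↔ w ∈ S ∧ G.Adj v w := by
  unfold nb
  simp

theorem cn_empty : Cn G (∅ : Finset V) := by
  intro u hu
  simp at hu

theorem cn_singleton (a : V) : Cn G ({a} : Finset V) := by
  intro u hu v hv
  rw [Finset.mem_singleton] at hu hv
  rw [hu, hv]

private theorem rtg_rev {W : Finset V} {u v : V} (hu : u ∈ W)
    (h : Relation.ReflTransGen (fun a b => G.Adj a b ∧ b ∈ W) u v) :
    v ∈ W ∧ Relation.ReflTransGen (fun a b => G.Adj a b ∧ b ∈ W) v u := by
  induction h with
  | refl => exact ⟨hu, Relation.ReflTransGen.refl⟩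
  | tail h1 h2 ih =>
    exact ⟨h2.2, Relation.ReflTransGen.head ⟨h2.1.symm, ih.1⟩ ih.2⟩

private theorem rtg_mono {W W' : Finset V} {u v : V} (hW : W ⊆ W')
    (h : Relation.ReflTransGen (fun a b => G.Adj a b ∧ b ∈ W) u v) :
    Relation.ReflTransGen (fun a b => G.Adj a b ∧ b ∈ W') u v := by
  induction h with
  | refl => exact Relation.ReflTransGen.refl
  | tail h1 h2 ih => exact ih.tail ⟨h2.1, hW h2.2⟩

private theorem cn_of_reach {W : Finset V} {c : V} (hc : c ∈ W)
    (h : ∀ v ∈ W, Relation.ReflTransGen (fun a b => G.Adj a b ∧ b ∈ W) c v) : Cn G W := by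
  intro u hu v hv
  exact (rtg_rev hc (h u hu)).2.trans (h v hv)

theorem cn_pair (h : G.Adj a b) : Cn G ({a, b} : Finset V) := by
  apply cn_of_reach (c := a) (by simp)
  intro v hv
  rw [Finset.mem_insert, Finset.mem_singleton] at hv
  rcases hv with hv | hv
  · rw [hv]
  · rw [hv]
    exact Relation.ReflTransGen.single ⟨h, by simp⟩

theorem Cn.union (hA : Cn G A) (hB : Cn G B) (h : (A ∩ B).Nonempty) : Cn G (A ∪ B) := by
  obtain ⟨c, hc⟩ := h
  rw [Finset.mem_inter] at hc
  apply cn_of_reach (c := c) (Finset.mem_union_left _ hc.1)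
  intro v hv
  rw [Finset.mem_union] at hv
  rcases hv with hv | hv
  · exact rtg_mono Finset.subset_union_left (hA c hc.1 v hv)
  · exact rtg_mono Finset.subset_union_right (hB c hc.2 v hv)

theorem Cn.union_adj (hA : Cn G A) (hB : Cn G B) (ha : a ∈ A) (hb : b ∈ B) (h : G.Adj a b) :
    Cn G (A ∪ B) := by
  apply cn_of_reach (c := a) (Finset.mem_union_left _ ha)
  intro v hv
  rw [Finset.mem_union] at hv
  rcases hv with hv | hv
  · exact rtg_mono Finset.subset_union_left (hA a ha v hv)
  · exact Relation.ReflTransGen.head ⟨h, Finset.mem_union_right _ hb⟩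
      (rtg_mono Finset.subset_union_right (hB b hb v hv))

theorem Cn.insert_adj (hA : Cn G A) (ha : a ∈ A) (h : G.Adj a b) : Cn G (insert b A) := by
  have h1 := Cn.union_adj hA (cn_singleton (G := G) b) ha (Finset.mem_singleton_self b) h
  have h2 : insert b A = A ∪ {b} := by
    ext x
    simp only [Finset.mem_insert, Finset.mem_union, Finset.mem_singleton]
    tauto
  rw [h2]
  exact h1

theorem Cn.mono (hA : Cn G A) (h : ∀ x ∈ A, ∀ y ∈ A, G.Adj x y → H.Adj x y) : Cn H A := by
  intro u hu v hv
  have h1 := hA u hu v hv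
  have h2 : v ∈ A ∧ Relation.ReflTransGen (fun a b => H.Adj a b ∧ b ∈ A) u v := by
    clear hv
    induction h1 with
    | refl => exact ⟨hu, Relation.ReflTransGen.refl⟩
    | tail h3 h4 ih =>
      exact ⟨h4.2, ih.2.tail ⟨h _ ih.1 _ h4.2 h4.1, h4.2⟩⟩
  exact h2.2

/-- a connected set meeting `A` and its complement has an edge leaving `A` -/
theorem Cn.exit (hW : Cn G W) (A : Finset V) (ha : a ∈ W) (ha' : a ∈ A) (hb : b ∈ W)
    (hb' : b ∉ A) : ∃ x ∈ W, ∃ y ∈ W, x ∈ A ∧ y ∉ A ∧ G.Adj x y := by
  by_contra hcon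
  push Not at hcon
  have h1 := hW a ha b hb
  have h2 : b ∈ W ∧ b ∈ A := by
    clear hb hb'
    induction h1 with
    | refl => exact ⟨ha, ha'⟩
    | tail h3 h4 ih =>
      refine ⟨h4.2, ?_⟩
      by_contra h5
      exact hcon _ ih.1 _ h4.2 ih.2 h5 h4.1
  exact hb' h2.2

theorem cn_seg {i j : ℕ} (h : ∀ n, i ≤ n → n < j → G.Adj (q n) (q (n + 1))) :
    Cn G ((Icc i j).image q) := by
  by_cases hij : i ≤ j
  · have key : ∀ n, i ≤ n → n ≤ j → Relation.ReflTransGen
        (fun a b => G.Adj a b ∧ b ∈ (Icc i j).image q) (q i) (q n) := by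
      intro n hn
      induction n, hn using Nat.le_induction with
      | base => intro _; exact Relation.ReflTransGen.refl
      | succ n hn ih =>
        intro hnj
        refine (ih (by omega)).tail ⟨h n hn (by omega), ?_⟩
        rw [Finset.mem_image]
        exact ⟨n + 1, by rw [Finset.mem_Icc]; omega, rfl⟩
    apply cn_of_reach (c := q i)
    · rw [Finset.mem_image]
      exact ⟨i, by rw [Finset.mem_Icc]; omega, rfl⟩
    · intro v hv
      rw [Finset.mem_image] at hv
      obtain ⟨n, hn, rfl⟩ := hv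
      rw [Finset.mem_Icc] at hn
      exact key n hn.1 hn.2
  · have h1 : Icc i j = ∅ := by
      rw [Finset.Icc_eq_empty_iff]
      exact hij
    rw [h1, Finset.image_empty]
    exact cn_empty

private theorem range_eq_Icc (r : ℕ) : range (r + 1) = Icc 0 r := by
  ext x
  rw [Finset.mem_range, Finset.mem_Icc]
  omega

theorem IsPth.cn (h : IsPth G W a b r q) : Cn G W := by
  rw [h.img, range_eq_Icc]
  exact cn_seg (fun n _ hn => h.adj n hn)

theorem IsPth.card (h : IsPth G W a b r q) : W.card = r + 1 := by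
  rw [h.img, Finset.card_image_of_injOn, Finset.card_range]
  intro i hi j hj hij
  rw [Finset.coe_range, Set.mem_Iio] at hi hj
  exact h.inj i j (by omega) (by omega) hij

theorem IsPth.mem (h : IsPth G W a b r q) : w ∈ W ↔ ∃ n, n ≤ r ∧ q n = w := by
  rw [h.img, Finset.mem_image]
  constructor
  · rintro ⟨n, hn, rfl⟩
    rw [Finset.mem_range] at hn
    exact ⟨n, by omega, rfl⟩
  · rintro ⟨n, hn, rfl⟩
    exact ⟨n, by rw [Finset.mem_range]; omega, rfl⟩

theorem exists_pth (hW : Cn G W) (ha : a ∈ W) (hb : b ∈ W) :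
    ∃ W' : Finset V, W' ⊆ W ∧ ∃ (r : ℕ) (q : ℕ → V), IsPth G W' a b r q := by
  let P : ℕ → Prop := fun r => ∃ q : ℕ → V, q 0 = a ∧ q r = b ∧
    (∀ j, j < r → G.Adj (q j) (q (j + 1))) ∧ ∀ j, j ≤ r → q j ∈ W
  have hP : ∃ r, P r := by
    have h1 := hW a ha b hb
    clear hb
    induction h1 with
    | refl => exact ⟨0, fun _ => a, rfl, rfl, fun j hj => by omega, fun _ _ => ha⟩
    | @tail c d h3 h4 ih =>
      obtain ⟨r, q, h5, h6, h7, h8⟩ := ih
      refine ⟨r + 1, fun n => if n ≤ r then q n else d, ?_, ?_, ?_, ?_⟩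
      · show (if 0 ≤ r then q 0 else d) = a
        rw [if_pos (Nat.zero_le r)]
        exact h5
      · show (if r + 1 ≤ r then q (r + 1) else d) = d
        rw [if_neg (by omega)]
      · intro j hj
        show G.Adj (if j ≤ r then q j else d) (if j + 1 ≤ r then q (j + 1) else d)
        rw [if_pos (by omega)]
        by_cases hjr : j + 1 ≤ r
        · rw [if_pos hjr]
          exact h7 j (by omega)
        · rw [if_neg hjr]
          have : j = r := by omega
          rw [this, h6]
          exact h4.1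
      · intro j hj
        show (if j ≤ r then q j else d) ∈ W
        by_cases hjr : j ≤ r
        · rw [if_pos hjr]
          exact h8 j hjr
        · rw [if_neg hjr]
          exact h4.2
  obtain ⟨q, h5, h6, h7, h8⟩ := Nat.find_spec hP
  have hmin : ∀ m, m < Nat.find hP → ¬ P m := fun m hm => Nat.find_min hP hm
  set r := Nat.find hP with hr
  have hinj : ∀ i j, i < j → j ≤ r → q i ≠ q j := by
    intro i j hij hj heq
    apply hmin (r - (j - i)) (by omega)
    refine ⟨fun n => if n ≤ i then q n else q (n + (j - i)), ?_, ?_, ?_, ?_⟩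
    · show (if 0 ≤ i then q 0 else q (0 + (j - i))) = a
      rw [if_pos (Nat.zero_le i)]
      exact h5
    · show (if r - (j - i) ≤ i then q (r - (j - i)) else q (r - (j - i) + (j - i))) = b
      by_cases hc : r - (j - i) ≤ i
      · rw [if_pos hc]
        have h9 : j = r := by omega
        have h10 : r - (j - i) = i := by omega
        rw [h10, heq, h9]
        exact h6
      · rw [if_neg hc]
        have h10 : r - (j - i) + (j - i) = r := by omega
        rw [h10]
        exact h6
    · intro n hn
      show G.Adj (if n ≤ i then q n else q (n + (j - i)))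
        (if n + 1 ≤ i then q (n + 1) else q (n + 1 + (j - i)))
      by_cases hc : n + 1 ≤ i
      · rw [if_pos hc, if_pos (by omega)]
        exact h7 n (by omega)
      · rw [if_neg hc]
        by_cases hd : n ≤ i
        · rw [if_pos hd]
          have h9 : n = i := by omega
          have h10 : n + 1 + (j - i) = j + 1 := by omega
          rw [h10, h9, heq]
          exact h7 j (by omega)
        · rw [if_neg hd]
          have h10 : n + 1 + (j - i) = n + (j - i) + 1 := by omega
          rw [h10]
          exact h7 (n + (j - i)) (by omega)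
    · intro n hn
      show (if n ≤ i then q n else q (n + (j - i))) ∈ W
      by_cases hd : n ≤ i
      · rw [if_pos hd]
        exact h8 n (by omega)
      · rw [if_neg hd]
        exact h8 _ (by omega)
  refine ⟨(range (r + 1)).image q, ?_, r, q, h5, h6, h7, ?_, rfl⟩
  · intro x hx
    rw [Finset.mem_image] at hx
    obtain ⟨n, hn, rfl⟩ := hx
    rw [Finset.mem_range] at hn
    exact h8 n (by omega)
  · intro i j hi hj hij
    rcases Nat.lt_trichotomy i j with h | h | h
    · exact absurd hij (hinj i j h hj)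
    · exact h
    · exact absurd hij.symm (hinj j i h hi)

/-- replacing the segment strictly between `q i` and `q j` of a path by a connected set `C`
adjacent to both -/
theorem IsPth.bridge (h : IsPth G W a b r q) {i j : ℕ} (hij : i ≤ j) (hj : j ≤ r) {C : Finset V}
    (hC : Cn G C) {x y : V} (hx : x ∈ C) (hy : y ∈ C) (h1 : G.Adj (q i) x) (h2 : G.Adj (q j) y) :
    Cn G ((Icc 0 i).image q ∪ C ∪ (Icc j r).image q) := by
  have hA : Cn G ((Icc 0 i).image q) := cn_seg (fun n _ hn => h.adj n (by omega))
  have hB : Cn G ((Icc j r).image q) := cn_seg (fun n _ hn => h.adj n (by omega))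
  have hi : q i ∈ (Icc 0 i).image q := by
    rw [Finset.mem_image]
    exact ⟨i, by rw [Finset.mem_Icc]; omega, rfl⟩
  have hj' : q j ∈ (Icc j r).image q := by
    rw [Finset.mem_image]
    exact ⟨j, by rw [Finset.mem_Icc]; omega, rfl⟩
  exact (hA.union_adj hC hi hx h1).union_adj hB (Finset.mem_union_right _ hy) hj' h2.symm

/-- replacing one interior vertex -/
theorem cn_swap (h : IsPth G W a b r q) {i : ℕ} (hi : i + 2 ≤ r) (hv : v ∉ W)
    (h1 : G.Adj v (q i)) (h2 : G.Adj v (q (i + 2))) :
    Cn G (insert v (W.erase (q (i + 1)))) ∧ q (i + 1) ≠ a ∧ q (i + 1) ≠ b := by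
  refine ⟨?_, ?_, ?_⟩
  · have h3 := h.bridge (i := i) (j := i + 2) (by omega) hi (cn_singleton (G := G) v)
      (Finset.mem_singleton_self v) (Finset.mem_singleton_self v) h1.symm h2.symm
    have h4 : insert v (W.erase (q (i + 1))) =
        (Icc 0 i).image q ∪ {v} ∪ (Icc (i + 2) r).image q := by
      ext x
      rw [Finset.mem_insert, Finset.mem_erase, h.mem, Finset.mem_union, Finset.mem_union,
        Finset.mem_image, Finset.mem_image, Finset.mem_singleton]
      constructor
      · rintro (h5 | ⟨h5, n, hn, rfl⟩)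
        · exact Or.inl (Or.inr h5)
        · have hne : n ≠ i + 1 := fun h6 => h5 (by rw [h6])
          rcases Nat.lt_or_ge n (i + 1) with h7 | h7
          · exact Or.inl (Or.inl ⟨n, by rw [Finset.mem_Icc]; omega, rfl⟩)
          · exact Or.inr ⟨n, by rw [Finset.mem_Icc]; omega, rfl⟩
      · rintro ((⟨n, hn, rfl⟩ | h5) | ⟨n, hn, rfl⟩)
        · rw [Finset.mem_Icc] at hn
          refine Or.inr ⟨fun h6 => ?_, n, by omega, rfl⟩
          have := h.inj n (i + 1) (by omega) (by omega) h6
          omega
        · exact Or.inl h5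
        · rw [Finset.mem_Icc] at hn
          refine Or.inr ⟨fun h6 => ?_, n, by omega, rfl⟩
          have := h.inj n (i + 1) (by omega) (by omega) h6
          omega
    rw [h4]
    exact h3
  · intro h3
    have := h.inj (i + 1) 0 (by omega) (by omega) (by rw [h3, h.z])
    omega
  · intro h3
    have := h.inj (i + 1) r (by omega) (by omega) (by rw [h3, h.e])
    omega

/-- if the neighbours of `v` on a path are at distance at most 2 on it, they lie in a window -/
theorem nb_window (h : IsPth G W a b r q)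
    (hv : ∀ i j, i < j → j ≤ r → G.Adj v (q i) → G.Adj v (q j) → j ≤ i + 2)
    (hne : (nb G W v).Nonempty) :
    ∃ i, i ≤ r ∧ G.Adj v (q i) ∧ ∀ w ∈ nb G W v,
      w = q i ∨ (i + 1 ≤ r ∧ w = q (i + 1)) ∨ (i + 2 ≤ r ∧ w = q (i + 2)) := by
  have hex : ∃ i, i ≤ r ∧ G.Adj v (q i) := by
    obtain ⟨w, hw⟩ := hne
    rw [mem_nb, h.mem] at hw
    obtain ⟨⟨n, hn, rfl⟩, h1⟩ := hw
    exact ⟨n, hn, h1⟩
  obtain ⟨h1, h2⟩ := Nat.find_spec hex
  have hmin : ∀ m, m < Nat.find hex → ¬ (m ≤ r ∧ G.Adj v (q m)) := fun m hm =>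
    Nat.find_min hex hm
  set i := Nat.find hex with hi
  refine ⟨i, h1, h2, ?_⟩
  intro w hw
  rw [mem_nb, h.mem] at hw
  obtain ⟨⟨n, hn, rfl⟩, h3⟩ := hw
  have h4 : i ≤ n := by
    by_contra h5
    exact hmin n (by omega) ⟨hn, h3⟩
  rcases Nat.eq_or_lt_of_le h4 with h5 | h5
  · left
    rw [← h5]
  · have h6 := hv i n h5 hn h2 h3
    have h7 : n = i + 1 ∨ n = i + 2 := by omega
    rcases h7 with h7 | h7
    · right; left
      exact ⟨by omega, by rw [h7]⟩
    · right; right
      exact ⟨by omega, by rw [h7]⟩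

/-- at most three neighbours, and if three, the middle one can be replaced -/
theorem nb_three (h : IsPth G W a b r q) (hvW : v ∉ W)
    (hv : ∀ i j, i < j → j ≤ r → G.Adj v (q i) → G.Adj v (q j) → j ≤ i + 2) :
    (nb G W v).card ≤ 3 ∧ ((nb G W v).card = 3 →
      ∃ w ∈ nb G W v, w ≠ a ∧ w ≠ b ∧ Cn G (insert v (W.erase w))) := by
  by_cases hne : (nb G W v).Nonempty
  · obtain ⟨i, hi, hvi, hw⟩ := nb_window h hv hne
    have hsub : nb G W v ⊆ {q i, q (i + 1), q (i + 2)} := by
      intro w hw'
      rw [Finset.mem_insert, Finset.mem_insert, Finset.mem_singleton]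
      rcases hw w hw' with h1 | h1 | h1
      · exact Or.inl h1
      · exact Or.inr (Or.inl h1.2)
      · exact Or.inr (Or.inr h1.2)
    have hc3 : ({q i, q (i + 1), q (i + 2)} : Finset V).card ≤ 3 := Finset.card_le_three
    refine ⟨(Finset.card_le_card hsub).trans hc3, ?_⟩
    intro h3
    have heq : nb G W v = {q i, q (i + 1), q (i + 2)} :=
      Finset.eq_of_subset_of_card_le hsub (by omega)
    have hi2 : i + 2 ≤ r := by
      by_contra hcon
      have hsub2 : nb G W v ⊆ {q i, q (i + 1)} := by
        intro w hw'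
        rw [Finset.mem_insert, Finset.mem_singleton]
        rcases hw w hw' with h1 | h1 | h1
        · exact Or.inl h1
        · exact Or.inr h1.2
        · exact absurd h1.1 hcon
      have h4 := (Finset.card_le_card hsub2).trans Finset.card_le_two
      omega
    have hm2 : q (i + 2) ∈ nb G W v := by
      rw [heq]; simp
    have hm1 : q (i + 1) ∈ nb G W v := by
      rw [heq]; simp
    have h5 := cn_swap h hi2 hvW hvi (mem_nb.1 hm2).2
    exact ⟨q (i + 1), hm1, h5.2.1, h5.2.2, h5.1⟩
  · rw [Finset.not_nonempty_iff_eq_empty] at hne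
    rw [hne]
    simp

end Pool.Agent.MP4432a5
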