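import Pool.Agent.Lib.MP_4432a5_co.RBasic

/-!
# MP_4432a5_co, module Contr: contraction of `v` into `u`, basic facts

`lk_con`: if `u ∈ W i`, replace `W i` by `insert v (W i)` (every edge of `con G u v` inside `W i` is an edge of `G` or is
replaced by a path through `v`; `G.Adj u v`); otherwise `W i` is connected in `G` too (at most one `i` has
`u ∈ W i`).

`r2_con_le`: map an adjacent ordered pair `(a, b)` of `con G u v` to itself if `G.Adj a b`, to `(v, b)` if not and
`a = u`, and to `(a, v)` if not and `b = u`: injective (no pair of `con G u v` involves `v`).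

`r2_con_ge`: ordered pairs of `G` counted in `r2 G S (S \ X)`: those not involving `v` are counted on the
right. The pairs `(v, b)`: `b = u`; `b` a common neighbour of `u` and `v`; otherwise `(u, b)` is a new
pair of `con G u v`, counted on the right unless `u, b ∈ X`, which by `hp` happens for at most one `b`. The same for
the pairs `(b, v)`.
-/

set_option autoImplicit false
set_option linter.all false

open Finset
open scoped Classical

namespace Pool.Agent.MP4432a5

variable {V : Type*} {G : SimpleGraph V} {S X T D Z : Finset V} {u v : V}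

private theorem ct_lift {W : Finset V} (huv : G.Adj u v) (hu : u ∈ W) {x y : V}
    (h : Relation.ReflTransGen (fun a b => (con G u v).Adj a b ∧ b ∈ W) x y) :
    Relation.ReflTransGen (fun a b => G.Adj a b ∧ b ∈ insert v W) x y := by
  induction h with
  | refl => exact Relation.ReflTransGen.refl
  | tail _ h2 ih =>
    refine ih.trans ?_
    obtain ⟨⟨-, -, -, h3⟩, hb⟩ := h2
    have hbW := mem_insert_of_mem (b := v) hb
    rcases h3 with h | ⟨rfl, h⟩ | ⟨rfl, h⟩
    · exact Relation.ReflTransGen.single ⟨h, hbW⟩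
    · exact (Relation.ReflTransGen.single ⟨huv, mem_insert_self _ _⟩).tail ⟨h, hbW⟩
    · exact (Relation.ReflTransGen.single ⟨h.symm, mem_insert_self _ _⟩).tail ⟨huv.symm, hbW⟩

private theorem ct_in {W : Finset V} (huv : G.Adj u v) (hu : u ∈ W) (h : Cn (con G u v) W) :
    Cn G (insert v W) := by
  have key : ∀ x ∈ insert v W,
      Relation.ReflTransGen (fun a b => G.Adj a b ∧ b ∈ insert v W) u x ∧
      Relation.ReflTransGen (fun a b => G.Adj a b ∧ b ∈ insert v W) x u := by
    intro x hx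
    rcases mem_insert.1 hx with rfl | hx
    · exact ⟨Relation.ReflTransGen.single ⟨huv, mem_insert_self _ _⟩,
        Relation.ReflTransGen.single ⟨huv.symm, mem_insert_of_mem hu⟩⟩
    · exact ⟨ct_lift huv hu (h u hu x hx), ct_lift huv hu (h x hx u hu)⟩
  exact fun x hx y hy => (key x hx).2.trans (key y hy).1

private theorem ct_out {W : Finset V} (hu : u ∉ W) (h : Cn (con G u v) W) : Cn G W := by
  intro x hx y hy
  have key : ∀ z, Relation.ReflTransGen (fun a b => (con G u v).Adj a b ∧ b ∈ W) x z →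
      z ∈ W ∧ Relation.ReflTransGen (fun a b => G.Adj a b ∧ b ∈ W) x z := by
    intro z hz
    induction hz with
    | refl => exact ⟨hx, Relation.ReflTransGen.refl⟩
    | tail _ h2 ih =>
      obtain ⟨⟨-, -, -, h3⟩, hb⟩ := h2
      refine ⟨hb, ih.2.tail ⟨?_, hb⟩⟩
      rcases h3 with h | ⟨h, -⟩ | ⟨h, -⟩
      · exact h
      · exact absurd (h ▸ ih.1) hu
      · exact absurd (h ▸ hb) hu
  exact (key y (h x hx y hy)).2

theorem lkp_con (huv : G.Adj u v) (hvT : v ∉ T) (hvZ : v ∉ Z) {m : ℕ} {s t : Fin m → V}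
    (h : LkP (con G u v) T Z s t) : LkP G (insert v T) Z s t := by
  obtain ⟨W, hW, hd⟩ := h
  have hvW : ∀ i, v ∉ W i := fun i hi => hvT ((hW i).1 hi)
  refine ⟨fun i => if u ∈ W i then insert v (W i) else W i, fun i => ?_, fun i j hij => ?_⟩
  · obtain ⟨h1, h2, h3, h4, h5⟩ := hW i
    by_cases hu : u ∈ W i
    · simp only [hu, if_true]
      refine ⟨insert_subset_insert v h1, mem_insert_of_mem h2, mem_insert_of_mem h3,
        ct_in huv hu h4, ?_⟩
      rw [insert_inter_of_notMem hvZ]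
      exact h5
    · simp only [hu, if_false]
      exact ⟨h1.trans (subset_insert v T), h2, h3, ct_out hu h4, h5⟩
  · have hdij := hd i j hij
    by_cases hu : u ∈ W i
    · have hu' : u ∉ W j := fun h => (disjoint_left.1 hdij hu) h
      simp only [hu, hu', if_true, if_false]
      rw [disjoint_insert_left]
      exact ⟨hvW j, hdij⟩
    · by_cases hu' : u ∈ W j
      · simp only [hu, hu', if_true, if_false]
        rw [disjoint_insert_right]
        exact ⟨hvW i, hdij⟩
      · simp only [hu, hu', if_false]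
        exact hdij

theorem lk_con (huv : G.Adj u v) (hvT : v ∉ T) (hvZ : v ∉ Z) (h : Lk (con G u v) T Z) :
    Lk G (insert v T) Z :=
  fun m s t hst => lkp_con huv hvT hvZ (h m s t hst)

theorem r2_con_le (hvT : v ∉ T) (huD : u ∉ D) :
    r2 (con G u v) T D ≤ r2 G (insert v T) D := by
  unfold r2
  refine card_le_card_of_injOn
    (fun p => if G.Adj p.1 p.2 then p else if p.1 = u then (v, p.2) else (p.1, v)) ?_ ?_
  · rintro ⟨a, b⟩ hp
    have hp' := (mem_filter.1 (mem_coe.1 hp))
    obtain ⟨h1, ⟨hab, hav, hbv, h2⟩, h3⟩ := hp'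
    obtain ⟨ha, hb⟩ := mem_product.1 h1
    simp only at ha hb h2 h3 hab
    rw [mem_coe, mem_filter, mem_product]
    simp only
    by_cases hG : G.Adj a b
    · rw [if_pos hG]
      exact ⟨⟨mem_insert_of_mem ha, mem_insert_of_mem hb⟩, hG, h3⟩
    · rw [if_neg hG]
      by_cases hau : a = u
      · rw [if_pos hau]
        have hvb : G.Adj v b := by
          rcases h2 with h | h | h
          · exact absurd h hG
          · exact h.2
          · exact absurd (hau.trans h.1.symm) hab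
        have hbD : b ∈ D := by
          rcases h3 with h | h
          · exact absurd (hau ▸ h) huD
          · exact h
        exact ⟨⟨mem_insert_self _ _, mem_insert_of_mem hb⟩, hvb, Or.inr hbD⟩
      · rw [if_neg hau]
        have hva : b = u ∧ G.Adj v a := by
          rcases h2 with h | h | h
          · exact absurd h hG
          · exact absurd h.1 hau
          · exact h
        have haD : a ∈ D := by
          rcases h3 with h | h
          · exact h
          · exact absurd (hva.1 ▸ h) huD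
        exact ⟨⟨mem_insert_of_mem ha, mem_insert_self _ _⟩, hva.2.symm, Or.inl haD⟩
  · have key : ∀ a b, (a, b) ∈ (T ×ˢ T).filter
        (fun p => (con G u v).Adj p.1 p.2 ∧ (p.1 ∈ D ∨ p.2 ∈ D)) →
        a ≠ v ∧ b ≠ v ∧
        ((if G.Adj a b then (a, b) else if a = u then (v, b) else (a, v)) = (a, b) ∨
        (a = u ∧ (if G.Adj a b then (a, b) else if a = u then (v, b) else (a, v)) = (v, b)) ∨
        (b = u ∧ (if G.Adj a b then (a, b) else if a = u then (v, b) else (a, v)) = (a, v))) := by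
      intro a b h
      obtain ⟨h1, ⟨hab, hav, hbv, h2⟩, h3⟩ := mem_filter.1 h
      refine ⟨hav, hbv, ?_⟩
      by_cases hG : G.Adj a b
      · exact Or.inl (if_pos hG)
      · by_cases hau : a = u
        · exact Or.inr (Or.inl ⟨hau, by rw [if_neg hG, if_pos hau]⟩)
        · refine Or.inr (Or.inr ⟨?_, by rw [if_neg hG, if_neg hau]⟩)
          rcases h2 with h | h | h
          · exact absurd h hG
          · exact absurd h.1 hau
          · exact h.1
    rintro ⟨a, b⟩ hp ⟨a', b'⟩ hp' he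
    obtain ⟨hav, hbv, hk⟩ := key a b (mem_coe.1 hp)
    obtain ⟨hav', hbv', hk'⟩ := key a' b' (mem_coe.1 hp')
    have he' : (if G.Adj a b then (a, b) else if a = u then (v, b) else (a, v)) =
      (if G.Adj a' b' then (a', b') else if a' = u then (v, b') else (a', v)) := he
    rcases hk with h | ⟨h0, h⟩ | ⟨h0, h⟩ <;> rcases hk' with h' | ⟨h0', h'⟩ | ⟨h0', h'⟩ <;>
      rw [h, h'] at he' <;> obtain ⟨e1, e2⟩ := Prod.mk.inj he'
    · rw [e1, e2]
    · exact absurd e1 hav
    · exact absurd e2 hbv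
    · exact absurd e1.symm hav'
    · rw [h0, h0', e2]
    · exact absurd e1.symm hav'
    · exact absurd e2.symm hbv'
    · exact absurd e1 hav
    · rw [h0, h0', e1]

theorem r2_con_ge (hu : u ∈ S) (hv : v ∈ S \ X) (huv : G.Adj u v)
    (hp : u ∈ X → ∀ b ∈ X, ∀ b' ∈ X, b ≠ u → b' ≠ u → ¬ G.Adj u b → ¬ G.Adj u b' → b = b') :
    r2 G S (S \ X) ≤ r2 (con G u v) (S.erase v) (S.erase v \ X) +
      2 * (2 + (nb G S u ∩ nb G S v).card) := by
  have huv' : u ≠ v := huv.ne
  have hvS : v ∈ S := (mem_sdiff.1 hv).1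
  have hvX : v ∉ X := (mem_sdiff.1 hv).2
  set P := (S ×ˢ S).filter (fun p => G.Adj p.1 p.2 ∧ (p.1 ∈ S \ X ∨ p.2 ∈ S \ X)) with hP
  set N := S.filter (fun w => G.Adj v w) with hN
  set P0 := P.filter (fun p => p.1 ≠ v ∧ p.2 ≠ v) with hP0
  set B := N.filter (fun b => b ≠ u ∧ ¬ G.Adj u b ∧ ¬ (u ∈ X ∧ b ∈ X)) with hB
  set Q := ((S.erase v) ×ˢ (S.erase v)).filter
    (fun p => (con G u v).Adj p.1 p.2 ∧ (p.1 ∈ S.erase v \ X ∨ p.2 ∈ S.erase v \ X)) with hQ
  have c1 : P ⊆ P0 ∪ (N.image fun b => (v, b)) ∪ (N.image fun b => (b, v)) := by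
    rintro ⟨a, b⟩ hab
    obtain ⟨h1, h2, h3⟩ := mem_filter.1 hab
    obtain ⟨ha, hb⟩ := mem_product.1 h1
    simp only at ha hb h2 h3
    by_cases hav : a = v
    · subst hav
      exact mem_union_left _ (mem_union_right _
        (mem_image.2 ⟨b, mem_filter.2 ⟨hb, h2⟩, rfl⟩))
    · by_cases hbv : b = v
      · subst hbv
        exact mem_union_right _ (mem_image.2 ⟨a, mem_filter.2 ⟨ha, h2.symm⟩, rfl⟩)
      · exact mem_union_left _ (mem_union_left _ (mem_filter.2 ⟨hab, hav, hbv⟩))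
  have c2 : P.card ≤ P0.card + N.card + N.card := by
    refine (card_le_card c1).trans ((card_union_le _ _).trans ?_)
    refine Nat.add_le_add ((card_union_le _ _).trans ?_) card_image_le
    exact Nat.add_le_add le_rfl card_image_le
  have c3 : N ⊆ B ∪ {u} ∪ (nb G S u ∩ nb G S v) ∪
      (N.filter fun b => u ∈ X ∧ b ∈ X ∧ b ≠ u ∧ ¬ G.Adj u b) := by
    intro b hb
    obtain ⟨hbS, hvb⟩ := mem_filter.1 hb
    by_cases h1 : b = u
    · exact mem_union_left _ (mem_union_left _ (mem_union_right _ (mem_singleton.2 h1)))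
    by_cases h2 : G.Adj u b
    · exact mem_union_left _ (mem_union_right _ (mem_inter.2
        ⟨mem_filter.2 ⟨hbS, h2⟩, mem_filter.2 ⟨hbS, hvb⟩⟩))
    by_cases h3 : u ∈ X ∧ b ∈ X
    · exact mem_union_right _ (mem_filter.2 ⟨hb, h3.1, h3.2, h1, h2⟩)
    · exact mem_union_left _ (mem_union_left _ (mem_union_left _
        (mem_filter.2 ⟨hb, h1, h2, h3⟩)))
  have c4 : (N.filter fun b => u ∈ X ∧ b ∈ X ∧ b ≠ u ∧ ¬ G.Adj u b).card ≤ 1 := by
    refine card_le_one.2 fun b hb b' hb' => ?_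
    obtain ⟨-, h1, h2, h3, h4⟩ := mem_filter.1 hb
    obtain ⟨-, -, h2', h3', h4'⟩ := mem_filter.1 hb'
    exact hp h1 b h2 b' h2' h3 h3' h4 h4'
  have c5 : N.card ≤ B.card + 1 + (nb G S u ∩ nb G S v).card + 1 := by
    refine (card_le_card c3).trans ((card_union_le _ _).trans (Nat.add_le_add ?_ c4))
    refine (card_union_le _ _).trans (Nat.add_le_add ?_ le_rfl)
    exact (card_union_le _ _).trans (Nat.add_le_add le_rfl (card_singleton u).le)
  have c6 : P0 ∪ (B.image fun b => (u, b)) ∪ (B.image fun b => (b, u)) ⊆ Q := by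
    rintro ⟨a, b⟩ hab
    rw [hQ, mem_filter, mem_product]
    simp only [mem_erase, mem_sdiff]
    rcases mem_union.1 hab with hab | hab
    · rcases mem_union.1 hab with hab | hab
      · obtain ⟨h0, hav, hbv⟩ := mem_filter.1 hab
        obtain ⟨h1, h2, h3⟩ := mem_filter.1 h0
        obtain ⟨ha, hb⟩ := mem_product.1 h1
        simp only at ha hb h2 h3 hav hbv
        refine ⟨⟨⟨hav, ha⟩, hbv, hb⟩, ⟨h2.ne, hav, hbv, Or.inl h2⟩, ?_⟩
        rcases h3 with h | h
        · exact Or.inl ⟨⟨hav, ha⟩, (mem_sdiff.1 h).2⟩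
        · exact Or.inr ⟨⟨hbv, hb⟩, (mem_sdiff.1 h).2⟩
      · obtain ⟨b', hb', he⟩ := mem_image.1 hab
        obtain ⟨rfl, rfl⟩ := Prod.mk.injEq _ _ _ _ ▸ he
        obtain ⟨h1, h2, h3, h4⟩ := mem_filter.1 hb'
        obtain ⟨hbS, hvb⟩ := mem_filter.1 h1
        have hbv : b' ≠ v := hvb.ne'
        refine ⟨⟨⟨huv', hu⟩, hbv, hbS⟩, ⟨h2.symm, huv', hbv, Or.inr (Or.inl ⟨rfl, hvb⟩)⟩, ?_⟩
        by_cases hX : u ∈ X
        · exact Or.inr ⟨⟨hbv, hbS⟩, fun h => h4 ⟨hX, h⟩⟩
        · exact Or.inl ⟨⟨huv', hu⟩, hX⟩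
    · obtain ⟨b', hb', he⟩ := mem_image.1 hab
      obtain ⟨rfl, rfl⟩ := Prod.mk.injEq _ _ _ _ ▸ he
      obtain ⟨h1, h2, h3, h4⟩ := mem_filter.1 hb'
      obtain ⟨hbS, hvb⟩ := mem_filter.1 h1
      have hbv : b' ≠ v := hvb.ne'
      refine ⟨⟨⟨hbv, hbS⟩, huv', hu⟩, ⟨h2, hbv, huv', Or.inr (Or.inr ⟨rfl, hvb⟩)⟩, ?_⟩
      by_cases hX : u ∈ X
      · exact Or.inl ⟨⟨hbv, hbS⟩, fun h => h4 ⟨hX, h⟩⟩
      · exact Or.inr ⟨⟨huv', hu⟩, hX⟩
  have d1 : Disjoint P0 (B.image fun b => (u, b)) := by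
    rw [disjoint_left]
    rintro ⟨a, b⟩ h1 h2
    obtain ⟨b', hb', he⟩ := mem_image.1 h2
    obtain ⟨rfl, rfl⟩ := Prod.mk.injEq _ _ _ _ ▸ he
    exact (mem_filter.1 hb').2.2.1 (mem_filter.1 (mem_filter.1 h1).1).2.1
  have d2 : Disjoint (P0 ∪ (B.image fun b => (u, b))) (B.image fun b => (b, u)) := by
    rw [disjoint_left]
    rintro ⟨a, b⟩ h1 h2
    obtain ⟨b', hb', he⟩ := mem_image.1 h2
    obtain ⟨rfl, rfl⟩ := Prod.mk.injEq _ _ _ _ ▸ he
    rcases mem_union.1 h1 with h1 | h1
    · exact (mem_filter.1 hb').2.2.1 (mem_filter.1 (mem_filter.1 h1).1).2.1.symm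
    · obtain ⟨b'', hb'', he⟩ := mem_image.1 h1
      have : u = b' := (Prod.mk.inj he).1
      exact (mem_filter.1 hb').2.1 this.symm
  have c7 : P0.card + B.card + B.card ≤ Q.card := by
    have h := card_le_card c6
    rw [card_union_of_disjoint d2, card_union_of_disjoint d1,
      card_image_of_injective _ (fun b b' h => (Prod.mk.inj h).2),
      card_image_of_injective _ (fun b b' h => (Prod.mk.inj h).1)] at h
    exact h
  show P.card ≤ Q.card + 2 * (2 + (nb G S u ∩ nb G S v).card)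
  omega

end Pool.Agent.MP4432a5
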