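import Pool.Agent.Lib.MP_4432a5_co.RBasic

/-!
# MP_4432a5_co, module LinkVia: linking through disjoint connected sets

Proof. Given pairs `s i, t i ∈ Z0`: the ends `e (s i), e (t i)` are distinct elements of `B` (`P z ∩ B = {e z}`, the
`P z` are disjoint); `hL` gives `Q i ⊆ B` with `Q i ∩ e(Z0) ⊆ {e (s i), e (t i)}`; `W i = P (s i) ∪ Q i ∪ P (t i)`.
Disjointness: `P z ∩ Q j ⊆ P z ∩ B = {e z}`, and `e z ∈ Q j` only if `z ∈ {s j, t j}`. `W i ∩ Z0 ⊆ {s i, t i}`:
`P z ∩ Z0 = {z}` by disjointness; if `z ∈ Q i ∩ Z0` then `z ∈ P z ∩ B`, so `z = e z ∈ e(Z0)`, hence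
`e z ∈ {e (s i), e (t i)}` and `z ∈ {s i, t i}`.
-/

set_option autoImplicit false
set_option linter.all false

open Finset
open scoped Classical

namespace Pool.Agent.MP4432a5

variable {V : Type*} {G : SimpleGraph V}

theorem link_via {A1 B Z0 : Finset V} (P : V → Finset V) (e : V → V)
    (hP : ∀ z ∈ Z0, P z ⊆ A1 ∧ z ∈ P z ∧ Cn G (P z) ∧ P z ∩ B = {e z})
    (hdj : ∀ z ∈ Z0, ∀ z' ∈ Z0, z ≠ z' → Disjoint (P z) (P z'))
    (hL : Lk G B (Z0.image e)) : Lk G (A1 ∪ B) Z0 := by
  have heP : ∀ z ∈ Z0, e z ∈ P z := by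
    intro z hz
    have h : e z ∈ P z ∩ B := by rw [(hP z hz).2.2.2]; exact mem_singleton_self _
    exact (mem_inter.1 h).1
  have heB : ∀ z ∈ Z0, e z ∈ B := by
    intro z hz
    have h : e z ∈ P z ∩ B := by rw [(hP z hz).2.2.2]; exact mem_singleton_self _
    exact (mem_inter.1 h).2
  have huniq : ∀ z ∈ Z0, ∀ z' ∈ Z0, ∀ x, x ∈ P z → x ∈ P z' → z = z' := by
    intro z hz z' hz' x hx hx'
    by_contra hne
    exact (Finset.disjoint_left.1 (hdj z hz z' hz' hne)) hx hx'
  have heinj : ∀ z ∈ Z0, ∀ z' ∈ Z0, e z = e z' → z = z' := by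
    intro z hz z' hz' h
    exact huniq z hz z' hz' (e z) (heP z hz) (h ▸ heP z' hz')
  have hPB : ∀ z ∈ Z0, ∀ x, x ∈ P z → x ∈ B → x = e z := by
    intro z hz x hx hxB
    have h : x ∈ P z ∩ B := mem_inter.2 ⟨hx, hxB⟩
    rw [(hP z hz).2.2.2] at h
    exact mem_singleton.1 h
  intro m s t hT
  have hT' : Ter (Z0.image e) (fun i => e (s i)) (fun i => e (t i)) := by
    refine ⟨fun i => mem_image_of_mem e (hT.sS i), fun i => mem_image_of_mem e (hT.tS i), ?_, ?_, ?_⟩
    · intro i j h; exact hT.si i j (heinj _ (hT.sS i) _ (hT.sS j) h)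
    · intro i j h; exact hT.ti i j (heinj _ (hT.tS i) _ (hT.tS j) h)
    · intro i j h; exact hT.st i j (heinj _ (hT.sS i) _ (hT.tS j) h)
  obtain ⟨Q, hQ, hQd⟩ := hL m _ _ hT'
  -- `e z ∈ Q j` only for `z = s j` or `z = t j`
  have heQ : ∀ z ∈ Z0, ∀ j, e z ∈ Q j → z = s j ∨ z = t j := by
    intro z hz j h
    have h1 := (hQ j).2.2.2.2 (mem_inter.2 ⟨h, mem_image_of_mem e hz⟩)
    rcases mem_insert.1 h1 with h2 | h2
    · exact Or.inl (heinj z hz _ (hT.sS j) h2)
    · exact Or.inr (heinj z hz _ (hT.tS j) (mem_singleton.1 h2))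
  have hPQ : ∀ z ∈ Z0, ∀ j x, x ∈ P z → x ∈ Q j → z = s j ∨ z = t j := by
    intro z hz j x hx hxQ
    have h1 := hPB z hz x hx ((hQ j).1 hxQ)
    subst h1
    exact heQ z hz j hxQ
  refine ⟨fun i => P (s i) ∪ Q i ∪ P (t i), ?_, ?_⟩
  · intro i
    have hs := hT.sS i
    have ht := hT.tS i
    refine ⟨?_, ?_, ?_, ?_, ?_⟩
    · intro x hx
      rcases mem_union.1 hx with hx | hx
      · rcases mem_union.1 hx with hx | hx
        · exact mem_union_left _ ((hP _ hs).1 hx)
        · exact mem_union_right _ ((hQ i).1 hx)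
      · exact mem_union_left _ ((hP _ ht).1 hx)
    · exact mem_union_left _ (mem_union_left _ (hP _ hs).2.1)
    · exact mem_union_right _ (hP _ ht).2.1
    · have h1 : Cn G (P (s i) ∪ Q i) :=
        (hP _ hs).2.2.1.union (hQ i).2.2.2.1 ⟨e (s i), mem_inter.2 ⟨heP _ hs, (hQ i).2.1⟩⟩
      exact h1.union (hP _ ht).2.2.1
        ⟨e (t i), mem_inter.2 ⟨mem_union_right _ (hQ i).2.2.1, heP _ ht⟩⟩
    · intro x hx
      obtain ⟨hx, hxZ⟩ := mem_inter.1 hx
      rcases mem_union.1 hx with hx | hx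
      · rcases mem_union.1 hx with hx | hx
        · have := huniq _ hs _ hxZ x hx (hP _ hxZ).2.1
          rw [mem_insert]; exact Or.inl this.symm
        · have := hPQ x hxZ i x (hP _ hxZ).2.1 hx
          rw [mem_insert, mem_singleton]; exact this
      · have := huniq _ ht _ hxZ x hx (hP _ hxZ).2.1
        rw [mem_insert, mem_singleton]; exact Or.inr this.symm
  · intro i j hij
    have hsi := hT.sS i
    have hti := hT.tS i
    have hsj := hT.sS j
    have htj := hT.tS j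
    have e1 : s i ≠ s j := fun h => hij (hT.si i j h)
    have e2 : t i ≠ t j := fun h => hij (hT.ti i j h)
    have e3 : s i ≠ t j := hT.st i j
    have e4 : t i ≠ s j := fun h => hT.st j i h.symm
    rw [Finset.disjoint_left]
    intro x hx hy
    simp only [mem_union] at hx hy
    rcases hx with (hx | hx) | hx <;> rcases hy with (hy | hy) | hy
    · exact e1 (huniq _ hsi _ hsj x hx hy)
    · rcases hPQ _ hsi j x hx hy with h | h
      · exact e1 h
      · exact e3 h
    · exact e3 (huniq _ hsi _ htj x hx hy)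
    · rcases hPQ _ hsj i x hy hx with h | h
      · exact e1 h.symm
      · exact e4 h.symm
    · exact (Finset.disjoint_left.1 (hQd i j hij)) hx hy
    · rcases hPQ _ htj i x hy hx with h | h
      · exact e3 h.symm
      · exact e2 h.symm
    · exact e4 (huniq _ hti _ hsj x hx hy)
    · rcases hPQ _ hti j x hx hy with h | h
      · exact e4 h
      · exact e2 h
    · exact e2 (huniq _ hti _ htj x hx hy)

end Pool.Agent.MP4432a5
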