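import Pool.Agent.Lib.MP_4432a5_co.MengerC
import Pool.Agent.Lib.MP_4432a5_co.LinkVia

/-!
# MP_4432a5_co, module MengerLink

Proof. Among all `(A', B')` with `Sep G S A' B'`, `X ⊆ A' ⊆ A`, `B ⊆ B'` (for example `(A, B)`) take one with
`n0 = |A' ∩ B'|` minimal.
If `n0 ≥ |X|`: `menger_sets` with `A1 = A`, `Z = X`, `C = A ∩ B`: a separation `(A'', B'')` of `G[A]` with `X ⊆ A''`,
`A ∩ B ⊆ B''` gives the candidate `(A'', B'' ∪ B)` of the same order. `link_via` with `A1 = A`, `Z0 = X`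
(`P z ∩ B = P z ∩ (A ∩ B)`), `A ∪ B = S`.
If `n0 < |X|`: `menger_sets` with `A1 = A ∩ B'`, `Z = A' ∩ B'`, `C = A ∩ B`: a separation `(A'', B'')` of `G[A ∩ B']` with
`A' ∩ B' ⊆ A''`, `A ∩ B ⊆ B''` gives the candidate `(A' ∪ A'', B'' ∪ B)` with
`(A' ∪ A'') ∩ (B'' ∪ B) = A'' ∩ B''`. `link_via` with `A1 = A ∩ B'`: `(A ∩ B') ∪ B = B'`.
-/

set_option autoImplicit false
set_option linter.all false

open Finset
open scoped Classical

namespace Pool.Agent.MP4432a5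

variable {V : Type*} {G : SimpleGraph V}

/-- candidates: separations between `X` and `B` inside `A` -/
private def Cand (G : SimpleGraph V) (S A B X A' B' : Finset V) : Prop :=
  Sep G S A' B' ∧ X ⊆ A' ∧ A' ⊆ A ∧ B ⊆ B'

private lemma cand_one {S A B X A'' B'' : Finset V} (hsep : Sep G S A B) (h : Sep G A A'' B'')
    (hX : X ⊆ A'') (hC : A ∩ B ⊆ B'') :
    Cand G S A B X A'' (B'' ∪ B) ∧ A'' ∩ (B'' ∪ B) = A'' ∩ B'' := by
  have hA'' : A'' ⊆ A := by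
    rw [← h.un]
    exact subset_union_left
  refine ⟨⟨⟨?_, ?_⟩, hX, hA'', subset_union_right⟩, ?_⟩
  · rw [← union_assoc, h.un, hsep.un]
  · intro a ha b hb
    rw [mem_sdiff, mem_union, not_or] at ha
    rw [mem_sdiff, mem_union] at hb
    obtain ⟨ha1, ha2, ha3⟩ := ha
    obtain ⟨hb1, hb2⟩ := hb
    by_cases hbB : b ∈ B''
    · exact h.no a (mem_sdiff.2 ⟨ha1, ha2⟩) b (mem_sdiff.2 ⟨hbB, hb2⟩)
    · have hb3 : b ∈ B := hb1.resolve_left hbB
      have hb4 : b ∉ A := fun hbA => hbB (hC (mem_inter.2 ⟨hbA, hb3⟩))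
      exact hsep.no a (mem_sdiff.2 ⟨hA'' ha1, ha3⟩) b (mem_sdiff.2 ⟨hb3, hb4⟩)
  · ext x
    simp only [mem_inter, mem_union]
    constructor
    · rintro ⟨h1, h2 | h2⟩
      · exact ⟨h1, h2⟩
      · exact ⟨h1, hC (mem_inter.2 ⟨hA'' h1, h2⟩)⟩
    · rintro ⟨h1, h2⟩
      exact ⟨h1, Or.inl h2⟩

private lemma cand_two {S A B X A' B' A'' B'' : Finset V} (hsep : Sep G S A B)
    (hc : Cand G S A B X A' B') (h : Sep G (A ∩ B') A'' B'')
    (hX : A' ∩ B' ⊆ A'') (hC : A ∩ B ⊆ B'') :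
    Cand G S A B X (A' ∪ A'') (B'' ∪ B) ∧ (A' ∪ A'') ∩ (B'' ∪ B) = A'' ∩ B'' := by
  obtain ⟨hs', hXA', hA'A, hBB'⟩ := hc
  have hA'' : A'' ⊆ A ∩ B' := by
    rw [← h.un]
    exact subset_union_left
  have hB'' : B'' ⊆ A ∩ B' := by
    rw [← h.un]
    exact subset_union_right
  have hAA : A' ∪ A'' ⊆ A := union_subset hA'A (hA''.trans inter_subset_left)
  refine ⟨⟨⟨?_, ?_⟩, hXA'.trans subset_union_left, hAA, subset_union_right⟩, ?_⟩
  · ext x
    have h1 : x ∈ A'' ∪ B'' ↔ x ∈ A ∩ B' := by rw [h.un]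
    have h2 : x ∈ A' ∪ B' ↔ x ∈ S := by rw [hs'.un]
    have h3 : x ∈ A ∪ B ↔ x ∈ S := by rw [hsep.un]
    have h4 : x ∈ A' → x ∈ A := fun h => hA'A h
    simp only [mem_union, mem_inter] at h1 h2 h3 ⊢
    tauto
  · intro a ha b hb
    rw [mem_sdiff, mem_union, mem_union, not_or] at ha
    rw [mem_sdiff, mem_union, mem_union, not_or] at hb
    obtain ⟨ha1, ha2, ha3⟩ := ha
    obtain ⟨hb1, hb2, hb3⟩ := hb
    by_cases haA : a ∈ A''
    · by_cases hbB : b ∈ B''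
      · exact h.no a (mem_sdiff.2 ⟨haA, ha2⟩) b (mem_sdiff.2 ⟨hbB, hb3⟩)
      · have hb4 : b ∈ B := hb1.resolve_left hbB
        have hb5 : b ∉ A := fun hbA => hbB (hC (mem_inter.2 ⟨hbA, hb4⟩))
        exact hsep.no a (mem_sdiff.2 ⟨(mem_inter.1 (hA'' haA)).1, ha3⟩) b
          (mem_sdiff.2 ⟨hb4, hb5⟩)
    · have ha4 : a ∈ A' := ha1.resolve_right haA
      have ha5 : a ∉ B' := fun h5 => haA (hX (mem_inter.2 ⟨ha4, h5⟩))
      have hb4 : b ∈ B' := by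
        rcases hb1 with hb1 | hb1
        · exact (mem_inter.1 (hB'' hb1)).2
        · exact hBB' hb1
      exact hs'.no a (mem_sdiff.2 ⟨ha4, ha5⟩) b (mem_sdiff.2 ⟨hb4, hb2⟩)
  · ext x
    constructor
    · intro hx
      rw [mem_inter] at hx
      obtain ⟨h1, h2⟩ := hx
      have hxA : x ∈ A := hAA h1
      have hxB : x ∈ B'' := by
        rcases mem_union.1 h2 with h2 | h2
        · exact h2
        · exact hC (mem_inter.2 ⟨hxA, h2⟩)
      have hxA'' : x ∈ A'' := by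
        rcases mem_union.1 h1 with h1 | h1
        · exact hX (mem_inter.2 ⟨h1, (mem_inter.1 (hB'' hxB)).2⟩)
        · exact h1
      exact mem_inter.2 ⟨hxA'', hxB⟩
    · intro hx
      rw [mem_inter] at hx
      exact mem_inter.2 ⟨mem_union_right _ hx.1, mem_union_left _ hx.2⟩

private lemma via {A1 A B Z X : Finset V} (hA1 : A1 ⊆ A) (hZX : Z.card ≤ X.card)
    (hL : ∀ Z : Finset V, Z ⊆ A ∩ B → Z.card ≤ X.card → Lk G B Z)
    (h : ∃ (P : V → Finset V) (e : V → V),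
      (∀ z ∈ Z, P z ⊆ A1 ∧ z ∈ P z ∧ Cn G (P z) ∧ P z ∩ (A ∩ B) = {e z}) ∧
      ∀ z ∈ Z, ∀ z' ∈ Z, z ≠ z' → Disjoint (P z) (P z')) : Lk G (A1 ∪ B) Z := by
  obtain ⟨P, e, hP, hdj⟩ := h
  refine link_via P e (fun z hz => ?_) hdj (hL _ ?_ (card_image_le.trans hZX))
  · obtain ⟨h1, h2, h3, h4⟩ := hP z hz
    refine ⟨h1, h2, h3, ?_⟩
    rw [← h4]
    ext x
    simp only [mem_inter]
    constructor
    · rintro ⟨h5, h6⟩
      exact ⟨h5, hA1 (h1 h5), h6⟩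
    · rintro ⟨h5, -, h6⟩
      exact ⟨h5, h6⟩
  · intro x hx
    obtain ⟨z, hz, rfl⟩ := mem_image.1 hx
    have h1 : e z ∈ P z ∩ (A ∩ B) := by
      rw [(hP z hz).2.2.2]
      exact mem_singleton_self _
    exact (mem_inter.1 h1).2

theorem menger_link {S A B X : Finset V} (hsep : Sep G S A B) (hXA : X ⊆ A)
    (hL : ∀ Z : Finset V, Z ⊆ A ∩ B → Z.card ≤ X.card → Lk G B Z) :
    Lk G S X ∨ ∃ A' B' : Finset V, Sep G S A' B' ∧ X ⊆ A' ∧ A' ⊆ A ∧ B ⊆ B' ∧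
      (A' ∩ B').card < X.card ∧ Lk G B' (A' ∩ B') := by
  have hex : ∃ m : ℕ, ∃ A' B' : Finset V, Cand G S A B X A' B' ∧ (A' ∩ B').card = m :=
    ⟨_, A, B, ⟨hsep, hXA, Subset.refl _, Subset.refl _⟩, rfl⟩
  obtain ⟨A', B', hc, hcard⟩ := Nat.find_spec hex
  have hmin : ∀ A1 B1 : Finset V, Cand G S A B X A1 B1 → (A' ∩ B').card ≤ (A1 ∩ B1).card := by
    intro A1 B1 h1
    rw [hcard]
    exact Nat.find_min' hex ⟨A1, B1, h1, rfl⟩
  by_cases hlt : (A' ∩ B').card < X.card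
  · right
    refine ⟨A', B', hc.1, hc.2.1, hc.2.2.1, hc.2.2.2, hlt, ?_⟩
    have h1 := via (G := G) (A1 := A ∩ B') (A := A) (B := B) (Z := A' ∩ B') (X := X)
      inter_subset_left hlt.le hL
      (menger_sets (inter_subset_inter_right hc.2.2.1) (inter_subset_inter_left hc.2.2.2)
        (fun A'' B'' h2 h3 h4 => by
          obtain ⟨h5, h6⟩ := cand_two hsep hc h2 h3 h4
          rw [← h6]
          exact hmin _ _ h5))
    have h2 : A ∩ B' ∪ B = B' := by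
      ext x
      have e2 : x ∈ A' ∪ B' ↔ x ∈ S := by rw [hc.1.un]
      have e3 : x ∈ A ∪ B ↔ x ∈ S := by rw [hsep.un]
      have e4 : x ∈ B → x ∈ B' := fun h => hc.2.2.2 h
      simp only [mem_union, mem_inter] at e2 e3 ⊢
      tauto
    rwa [h2] at h1
  · left
    push Not at hlt
    have h1 := via (G := G) (A1 := A) (A := A) (B := B) (Z := X) (X := X)
      (Subset.refl _) le_rfl hL
      (menger_sets hXA inter_subset_left
        (fun A'' B'' h2 h3 h4 => by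
          obtain ⟨h5, h6⟩ := cand_one hsep h2 h3 h4
          rw [← h6]
          exact hlt.trans (hmin _ _ h5)))
    rwa [hsep.un] at h1

end Pool.Agent.MP4432a5
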