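import Pool.Agent.Lib.MP_4432a5_co.RBasic

/-!
# MP_4432a5_co, module Reroute: rerouting the added edges through `B`

Proof. Let `C = S1 ∩ B`, `W i` the sets linking the pairs in `addK G C` on `S1`; take paths
`IsPth (addK G C) (P i) (s i) (t i) (r i) (q i)`, `P i ⊆ W i` (`exists_pth`). If `P i` contains at most one vertex of `C` then it is
connected in `G` (the added edges have both ends in `C`): keep it. Otherwise let `x_i = q a`, `y_i = q b`
be the first and the last vertex of `C` on it (`a < b`): `q[0..a]`, `q[b..r]` are connected in `G`.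
`hB` for the pairs `(x_i, y_i)` (over those `i` with at least two vertices in `C`; reindex them by `Fin m'`)
gives `Q i ⊆ B`, `Q i ∩ C ⊆ {x_i, y_i}`; the new set is `q[0..a] ∪ Q i ∪ q[b..r]`. Disjointness:
`P i ∩ Q j ⊆ S1 ∩ B = C`, `Q j ∩ C ⊆ {x_j, y_j} ⊆ P j`. `∩ X ⊆ {s i, t i}`: `Q i ∩ X ⊆ Q i ∩ C ⊆ P i`, and
`P i ∩ X ⊆ {s i, t i}`.
-/

set_option autoImplicit false
set_option linter.all false

open Finset
open scoped Classical

namespace Pool.Agent.MP4432a5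

variable {V : Type*} {G : SimpleGraph V}

/-- linking a subfamily of pairs -/
private theorem lk_subfamily {B C : Finset V} (hB : Lk G B C) {m : ℕ} (I : Finset (Fin m))
    (x y : Fin m → V) (hx : ∀ i ∈ I, x i ∈ C) (hy : ∀ i ∈ I, y i ∈ C)
    (hxx : ∀ i ∈ I, ∀ j ∈ I, x i = x j → i = j) (hyy : ∀ i ∈ I, ∀ j ∈ I, y i = y j → i = j)
    (hxy : ∀ i ∈ I, ∀ j ∈ I, x i ≠ y j) :
    ∃ Q : Fin m → Finset V,
      (∀ i ∈ I, Q i ⊆ B ∧ x i ∈ Q i ∧ y i ∈ Q i ∧ Cn G (Q i) ∧ Q i ∩ C ⊆ {x i, y i}) ∧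
      ∀ i ∈ I, ∀ j ∈ I, i ≠ j → Disjoint (Q i) (Q j) := by
  obtain ⟨Q, h1, h2⟩ := hB I.card (fun j => x (I.equivFin.symm j)) (fun j => y (I.equivFin.symm j))
    ⟨fun j => hx _ (I.equivFin.symm j).2, fun j => hy _ (I.equivFin.symm j).2,
      fun i j hij => by
        have := hxx _ (I.equivFin.symm i).2 _ (I.equivFin.symm j).2 hij
        exact I.equivFin.symm.injective (Subtype.ext this),
      fun i j hij => by
        have := hyy _ (I.equivFin.symm i).2 _ (I.equivFin.symm j).2 hij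
        exact I.equivFin.symm.injective (Subtype.ext this),
      fun i j => hxy _ (I.equivFin.symm i).2 _ (I.equivFin.symm j).2⟩
  refine ⟨fun i => if h : i ∈ I then Q (I.equivFin ⟨i, h⟩) else ∅, fun i hi => ?_,
    fun i hi j hj hij => ?_⟩
  · have h3 := h1 (I.equivFin ⟨i, hi⟩)
    simp only [Equiv.symm_apply_apply] at h3
    simp only [dif_pos hi]
    exact h3
  · simp only [dif_pos hi, dif_pos hj]
    refine h2 _ _ fun h => hij ?_
    have := I.equivFin.injective h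
    exact congrArg Subtype.val this

/-- a path with at most one vertex in `C` is a path of `G` -/
private theorem cn_of_few {C P : Finset V} {a b : V} {r : ℕ} {q : ℕ → V}
    (h : IsPth (addK G C) P a b r q)
    (hf : ¬ ∃ i j, i < j ∧ j ≤ r ∧ q i ∈ C ∧ q j ∈ C) : Cn G P := by
  refine h.cn.mono fun x hx y hy hxy => ?_
  rcases hxy with hxy | ⟨hne, hxC, hyC⟩
  · exact hxy
  · exfalso
    obtain ⟨i, hi, rfl⟩ := h.mem.1 hx
    obtain ⟨j, hj, rfl⟩ := h.mem.1 hy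
    rcases lt_trichotomy i j with hij | hij | hij
    · exact hf ⟨i, j, hij, hj, hxC, hyC⟩
    · subst hij
      exact hne rfl
    · exact hf ⟨j, i, hij, hi, hyC, hxC⟩

/-- first and last vertex in `C` -/
private theorem first_last {C : Finset V} {r : ℕ} {q : ℕ → V}
    (h : ∃ i j, i < j ∧ j ≤ r ∧ q i ∈ C ∧ q j ∈ C) :
    ∃ a b, a < b ∧ b ≤ r ∧ q a ∈ C ∧ q b ∈ C ∧ (∀ n, n < a → q n ∉ C) ∧
      ∀ n, b < n → n ≤ r → q n ∉ C := by
  obtain ⟨i, j, hij, hj, hiC, hjC⟩ := h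
  have hne : ((range (r + 1)).filter fun n => q n ∈ C).Nonempty :=
    ⟨j, mem_filter.2 ⟨mem_range.2 (by omega), hjC⟩⟩
  have hi' : i ∈ (range (r + 1)).filter fun n => q n ∈ C :=
    mem_filter.2 ⟨mem_range.2 (by omega), hiC⟩
  have hj' : j ∈ (range (r + 1)).filter fun n => q n ∈ C :=
    mem_filter.2 ⟨mem_range.2 (by omega), hjC⟩
  have hmin := min'_mem _ hne
  have hmax := max'_mem _ hne
  have h1 := min'_le _ _ hi'
  have h2 := le_max' _ _ hj'
  have h3 : ∀ n, n ≤ r → q n ∈ C →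
      ((range (r + 1)).filter fun n => q n ∈ C).min' hne ≤ n := fun n hn hnC =>
    min'_le _ _ (mem_filter.2 ⟨mem_range.2 (by omega), hnC⟩)
  have h4 : ∀ n, n ≤ r → q n ∈ C →
      n ≤ ((range (r + 1)).filter fun n => q n ∈ C).max' hne := fun n hn hnC =>
    le_max' _ _ (mem_filter.2 ⟨mem_range.2 (by omega), hnC⟩)
  rw [mem_filter, mem_range] at hmin hmax
  refine ⟨((range (r + 1)).filter fun n => q n ∈ C).min' hne,
    ((range (r + 1)).filter fun n => q n ∈ C).max' hne,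
    lt_of_le_of_lt h1 (lt_of_lt_of_le hij h2), by omega, hmin.2, hmax.2,
    fun n hn hnC => ?_, fun n hn hnr hnC => ?_⟩
  · have := h3 n (by omega) hnC
    omega
  · have := h4 n hnr hnC
    omega

theorem reroute {S1 B X : Finset V} (hX : X ⊆ S1) {m : ℕ} {s t : Fin m → V}
    (hter : Ter X s t) (h : LkP (addK G (S1 ∩ B)) S1 X s t) (hB : Lk G B (S1 ∩ B)) :
    LkP G (S1 ∪ B) X s t := by
  obtain ⟨W, h1, h2⟩ := h
  have hpth : ∀ i, ∃ P : Finset V, P ⊆ W i ∧ ∃ (r : ℕ) (q : ℕ → V),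
      IsPth (addK G (S1 ∩ B)) P (s i) (t i) r q := fun i =>
    exists_pth (h1 i).2.2.2.1 (h1 i).2.1 (h1 i).2.2.1
  choose P hPW r q hP using hpth
  have hPS : ∀ i, P i ⊆ S1 := fun i => (hPW i).trans (h1 i).1
  have hPd : ∀ i j, i ≠ j → ∀ z, z ∈ P i → z ∈ P j → False := fun i j hij z hi hj =>
    disjoint_left.1 (h2 i j hij) (hPW i hi) (hPW j hj)
  obtain ⟨I, hI⟩ : ∃ I : Finset (Fin m), ∀ i, i ∈ I ↔
      ∃ a b, a < b ∧ b ≤ r i ∧ q i a ∈ S1 ∩ B ∧ q i b ∈ S1 ∩ B :=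
    ⟨univ.filter fun i => ∃ a b, a < b ∧ b ≤ r i ∧ q i a ∈ S1 ∩ B ∧ q i b ∈ S1 ∩ B, fun i => by
      simp only [mem_filter, mem_univ, true_and]⟩
  have hab : ∀ i, ∃ a b, i ∈ I → a < b ∧ b ≤ r i ∧ q i a ∈ S1 ∩ B ∧ q i b ∈ S1 ∩ B ∧
      (∀ n, n < a → q i n ∉ S1 ∩ B) ∧ ∀ n, b < n → n ≤ r i → q i n ∉ S1 ∩ B := by
    intro i
    by_cases hi : i ∈ I
    · obtain ⟨a, b, h3⟩ := first_last ((hI i).1 hi)
      exact ⟨a, b, fun _ => h3⟩
    · exact ⟨0, 0, fun h => absurd h hi⟩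
  choose a b hab using hab
  have hqa : ∀ i ∈ I, q i (a i) ∈ P i := fun i hi =>
    (hP i).mem.2 ⟨a i, le_trans (hab i hi).1.le (hab i hi).2.1, rfl⟩
  have hqb : ∀ i ∈ I, q i (b i) ∈ P i := fun i hi => (hP i).mem.2 ⟨b i, (hab i hi).2.1, rfl⟩
  obtain ⟨Q, hQ, hQd⟩ := lk_subfamily hB I (fun i => q i (a i)) (fun i => q i (b i))
    (fun i hi => (hab i hi).2.2.1) (fun i hi => (hab i hi).2.2.2.1)
    (fun i hi j hj hij => by
      by_contra hne
      have h3 : q i (a i) = q j (a j) := hij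
      exact hPd i j hne _ (hqa i hi) (h3 ▸ hqa j hj))
    (fun i hi j hj hij => by
      by_contra hne
      have h3 : q i (b i) = q j (b j) := hij
      exact hPd i j hne _ (hqb i hi) (h3 ▸ hqb j hj))
    (fun i hi j hj hij => by
      have h3 : q i (a i) = q j (b j) := hij
      by_cases hne : i = j
      · subst hne
        have h4 := (hP i).inj _ _ (le_trans (hab i hi).1.le (hab i hi).2.1) (hab i hi).2.1 h3
        have h5 := (hab i hi).1
        omega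
      · exact hPd i j hne _ (hqa i hi) (h3 ▸ hqb j hj))
  -- the vertices of `Q i` in `S1` belong to `P i`
  have hQP : ∀ i ∈ I, ∀ z, z ∈ Q i → z ∈ S1 → z ∈ P i := by
    intro i hi z hz hzS
    have h3 := (hQ i hi).2.2.2.2 (mem_inter.2 ⟨hz, mem_inter.2 ⟨hzS, (hQ i hi).1 hz⟩⟩)
    rw [mem_insert, mem_singleton] at h3
    rcases h3 with h3 | h3
    · rw [h3]; exact hqa i hi
    · rw [h3]; exact hqb i hi
  obtain ⟨W', hW'I, hW'n⟩ : ∃ W' : Fin m → Finset V,
      (∀ i ∈ I, W' i = (Icc 0 (a i)).image (q i) ∪ Q i ∪ (Icc (b i) (r i)).image (q i)) ∧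
      ∀ i, i ∉ I → W' i = P i :=
    ⟨fun i => if i ∈ I then (Icc 0 (a i)).image (q i) ∪ Q i ∪ (Icc (b i) (r i)).image (q i)
      else P i, fun i hi => if_pos hi, fun i hi => if_neg hi⟩
  have hcase : ∀ i, ∀ z ∈ W' i, z ∈ P i ∨ (i ∈ I ∧ z ∈ Q i) := by
    intro i z hz
    by_cases hi : i ∈ I
    · rw [hW'I i hi, mem_union, mem_union, mem_image, mem_image] at hz
      rcases hz with (⟨n, hn, rfl⟩ | hz) | ⟨n, hn, rfl⟩
      · rw [mem_Icc] at hn
        exact Or.inl ((hP i).mem.2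
          ⟨n, hn.2.trans (le_trans (hab i hi).1.le (hab i hi).2.1), rfl⟩)
      · exact Or.inr ⟨hi, hz⟩
      · rw [mem_Icc] at hn
        exact Or.inl ((hP i).mem.2 ⟨n, hn.2, rfl⟩)
    · rw [hW'n i hi] at hz
      exact Or.inl hz
  refine ⟨W', fun i => ⟨?_, ?_, ?_, ?_, ?_⟩, fun i j hij => ?_⟩
  · intro z hz
    rcases hcase i z hz with h3 | ⟨h3, h4⟩
    · exact mem_union_left _ (hPS i h3)
    · exact mem_union_right _ ((hQ i h3).1 h4)
  · by_cases hi : i ∈ I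
    · rw [hW'I i hi]
      refine mem_union_left _ (mem_union_left _ (mem_image.2 ⟨0, mem_Icc.2 ⟨le_rfl, zero_le⟩, ?_⟩))
      exact (hP i).z
    · rw [hW'n i hi]
      exact (hP i).mem.2 ⟨0, zero_le, (hP i).z⟩
  · by_cases hi : i ∈ I
    · rw [hW'I i hi]
      refine mem_union_right _ (mem_image.2 ⟨r i, mem_Icc.2 ⟨(hab i hi).2.1, le_rfl⟩, ?_⟩)
      exact (hP i).e
    · rw [hW'n i hi]
      exact (hP i).mem.2 ⟨r i, le_rfl, (hP i).e⟩
  · by_cases hi : i ∈ I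
    · rw [hW'I i hi]
      obtain ⟨k1, k2, k3, k4, k5, k6⟩ := hab i hi
      have hA : Cn G ((Icc 0 (a i)).image (q i)) := cn_seg fun n _ hn => by
        rcases (hP i).adj n (by omega) with h3 | h3
        · exact h3
        · exact absurd h3.2.1 (k5 n hn)
      have hE : Cn G ((Icc (b i) (r i)).image (q i)) := cn_seg fun n hn hn' => by
        rcases (hP i).adj n hn' with h3 | h3
        · exact h3
        · exact absurd h3.2.2 (k6 (n + 1) (by omega) (by omega))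
      refine (hA.union (hQ i hi).2.2.2.1 ⟨q i (a i), mem_inter.2 ⟨?_, (hQ i hi).2.1⟩⟩).union hE
        ⟨q i (b i), mem_inter.2 ⟨mem_union_right _ (hQ i hi).2.2.1, ?_⟩⟩
      · exact mem_image.2 ⟨a i, mem_Icc.2 ⟨zero_le, le_rfl⟩, rfl⟩
      · exact mem_image.2 ⟨b i, mem_Icc.2 ⟨le_rfl, k2⟩, rfl⟩
    · rw [hW'n i hi]
      exact cn_of_few (hP i) fun h3 => hi ((hI i).2 h3)
  · intro z hz
    rw [mem_inter] at hz
    have hzP : z ∈ P i := by
      rcases hcase i z hz.1 with h3 | ⟨h3, h4⟩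
      · exact h3
      · exact hQP i h3 z h4 (hX hz.2)
    exact (h1 i).2.2.2.2 (mem_inter.2 ⟨hPW i hzP, hz.2⟩)
  · rw [disjoint_left]
    intro z hzi hzj
    rcases hcase i z hzi with h3 | ⟨h3, h4⟩ <;> rcases hcase j z hzj with h5 | ⟨h5, h6⟩
    · exact hPd i j hij z h3 h5
    · exact hPd i j hij z h3 (hQP j h5 z h6 (hPS i h3))
    · exact hPd i j hij z (hQP i h3 z h4 (hPS j h5)) h5
    · exact disjoint_left.1 (hQd i h3 j h5 hij) h4 h6

theorem reroute' {S1 B X : Finset V} (hX : X ⊆ S1) (h : Lk (addK G (S1 ∩ B)) S1 X)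
    (hB : Lk G B (S1 ∩ B)) : Lk G (S1 ∪ B) X := by
  intro m s t hter
  exact reroute hX hter (h m s t hter) hB

end Pool.Agent.MP4432a5
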