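import Pool.Agent.Lib.MP_4432a5_co.MassedSub
import Pool.Agent.Lib.MP_4432a5_co.Reroute
import Pool.Agent.Lib.MP_4432a5_co.MengerLink

/-!
# MP_4432a5_co, module Rigid: no rigid separation of order at most `|X|`, no large linked set

`no_rigid_lt`. Take a rigid `(A, B)` of order `< |X|` with `|A|` minimal. `C = A ∩ B`, `G2 = addK G C`.
(a) not `LkP G2 A X s t` (otherwise `reroute` with `S1 = A`, contradiction to `nl`). Since `|A| < |S|`
(`B \ A ≠ ∅`), `ih` shows that `(G2, A, X)` is not massed.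
(b) its `m1` holds: `r2_split`, `m2` of `G` for `(A, B)`, `|S \ X| = |A \ X| + |B \ A|`, `r2_mono`.
(c) so its `m2` fails: `massed_min` gives `(A2, B2)` with `Massed lam G2 B2 (A2 ∩ B2)`; `ih` (`|B2| ≤ |A| < |S|`):
`Lk G2 B2 (A2 ∩ B2)`. `C` is a clique in `G2`, so `C ⊆ A2` or `C ⊆ B2`.
If `C ⊆ A2`: `(A2 ∪ B, B2)` is a separation of `G[S]`, `(A2 ∪ B) ∩ B2 = A2 ∩ B2`, `B2 \ (A2 ∪ B) = B2 \ A2`, and `m2` of `G`
contradicts the violation (the added edges have no end in `B2 \ A2`; `r2` in `S` and in `A` agree).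
If `C ⊆ B2`: `(A2, B2 ∪ B)` is a separation of `G[S]` with `A2 ∩ (B2 ∪ B) = A2 ∩ B2`, and
`Lk G (B2 ∪ B) (A2 ∩ B2)` by `reroute'` with `S1 = B2` (`B2 ∩ B = C`); it is rigid and `|A2| < |A|`
(`B2 \ A2 ≠ ∅`, `B2 ⊆ A`): contradiction to the minimality.

`no_rigid_le`: if `|A ∩ B| = |X|`: `menger_link` (`hL` by `lk_mono`): `Lk G S X` contradicts `nl`; otherwise a rigid
separation of order `< |X|` (`B' \ A' ⊇ B \ A`).

`no_linked`: `menger_link` with `A = S`, `B = L` (`kl_lk` for `hL`): `B' \ A' ≠ ∅` since `|A' ∩ B'| < |X| ≤ 2 k ≤ |L|`, `L ⊆ B'`.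
-/

set_option autoImplicit false
set_option linter.all false

open Finset
open scoped Classical

namespace Pool.Agent.MP4432a5

variable {V : Type*} {G : SimpleGraph V} {lam : ℝ} {N m : ℕ} {S X : Finset V}
  {s t : Fin m → V}

/-- rigid separations of `(G[S], X)` -/
structure Rigid (G : SimpleGraph V) (S X A B : Finset V) : Prop where
  sep : Sep G S A B
  XA : X ⊆ A
  ne : (B \ A).Nonempty
  lk : Lk G B (A ∩ B)

private theorem r2_le_sub {H : SimpleGraph V} {A Z : Finset V} (hA : A ⊆ S)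
    (h : ∀ a ∈ A, ∀ b ∈ A, (a ∈ Z ∨ b ∈ Z) → H.Adj a b → G.Adj a b) :
    r2 H A Z ≤ r2 G S Z := by
  unfold r2
  apply card_le_card
  intro p hp
  rw [mem_filter, mem_product] at hp ⊢
  obtain ⟨⟨h1, h2⟩, h3, h4⟩ := hp
  exact ⟨⟨hA h1, hA h2⟩, h _ h1 _ h2 h4 h3, h4⟩

private theorem no_rigid_aux (hl : 0 ≤ lam) (hc : Crit lam N G S X s t) (n : ℕ) :
    ∀ A B : Finset V, A.card = n → Rigid G S X A B → (A ∩ B).card < X.card → False := by
  induction n using Nat.strong_induction_on with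
  | _ n IH =>
  intro A B hAn hr hlt
  have hAS : A ⊆ S := by
    rw [← hr.sep.un]; exact subset_union_left
  have hBS : B ⊆ S := by
    rw [← hr.sep.un]; exact subset_union_right
  have hAlt : A.card < S.card := by
    obtain ⟨b, hb⟩ := hr.ne
    rw [mem_sdiff] at hb
    apply card_lt_card
    rw [ssubset_iff_subset_ne]
    refine ⟨hAS, fun h => hb.2 ?_⟩
    rw [h]
    exact hBS hb.1
  have hle : ∀ a b, G.Adj a b → (addK G (A ∩ B)).Adj a b := fun a b h => Or.inl h
  have ha : ¬ LkP (addK G (A ∩ B)) A X s t := by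
    intro h
    have h2 := reroute hr.XA hc.ter h hr.lk
    rw [hr.sep.un] at h2
    exact hc.nl h2
  have hnm : ¬ Massed lam (addK G (A ∩ B)) A X := by
    intro h
    exact ha (hc.ih _ _ _ hc.cX h (Or.inl hAlt) m s t hc.ter)
  have hm1 : 2 * lam * ((A \ X).card : ℝ) < (r2 (addK G (A ∩ B)) A (A \ X) : ℝ) := by
    have e1 := r2_split hr.sep hr.XA
    have e2 := hc.ms.m1
    have e3 := hc.ms.m2 A B hr.sep hr.XA hlt
    have e4 : S \ X = (A \ X) ∪ (B \ A) := by
      ext x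
      have hx : x ∈ S ↔ x ∈ A ∨ x ∈ B := by
        rw [← hr.sep.un, mem_union]
      have hXA := @hr.XA x
      simp only [mem_sdiff, mem_union, hx]
      tauto
    have e5 : Disjoint (A \ X) (B \ A) := by
      rw [disjoint_left]
      intro x hx hx2
      rw [mem_sdiff] at hx hx2
      exact hx2.2 hx.1
    have e6 : (S \ X).card = (A \ X).card + (B \ A).card := by
      rw [e4, card_union_of_disjoint e5]
    have e7 : r2 G A (A \ X) ≤ r2 (addK G (A ∩ B)) A (A \ X) :=
      r2_mono (fun a _ b _ _ h => hle a b h)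
    have e8 : (r2 G A (A \ X) : ℝ) ≤ (r2 (addK G (A ∩ B)) A (A \ X) : ℝ) := by
      exact_mod_cast e7
    rw [e1, e6] at e2
    push_cast at e2
    nlinarith
  have hnm2 : ¬ ∀ A' B' : Finset V, Sep (addK G (A ∩ B)) A A' B' → X ⊆ A' →
      (A' ∩ B').card < X.card →
      (r2 (addK G (A ∩ B)) A (B' \ A') : ℝ) ≤ 2 * lam * ((B' \ A').card : ℝ) := by
    intro h
    exact hnm ⟨hr.XA, hm1, h⟩
  obtain ⟨A2, B2, hs2, hX2, hc2, hv2, hM2⟩ := massed_min hnm2
  have hA2 : A2 ⊆ A := by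
    rw [← hs2.un]; exact subset_union_left
  have hB2 : B2 ⊆ A := by
    rw [← hs2.un]; exact subset_union_right
  have hmemA : ∀ x, x ∈ A ↔ x ∈ A2 ∨ x ∈ B2 := by
    intro x
    rw [← hs2.un, mem_union]
  have hmemS : ∀ x, x ∈ S ↔ x ∈ A ∨ x ∈ B := by
    intro x
    rw [← hr.sep.un, mem_union]
  have hB2lt : B2.card < S.card := lt_of_le_of_lt (card_le_card hB2) hAlt
  have hlk2 : Lk (addK G (A ∩ B)) B2 (A2 ∩ B2) :=
    hc.ih _ _ _ (le_trans (le_of_lt hc2) hc.cX) hM2 (Or.inl hB2lt)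
  have hne2 : (B2 \ A2).Nonempty := by
    have h0 : 0 < r2 (addK G (A ∩ B)) A (B2 \ A2) := by
      have : (0 : ℝ) < (r2 (addK G (A ∩ B)) A (B2 \ A2) : ℝ) :=
        lt_of_le_of_lt (by positivity) hv2
      exact_mod_cast this
    obtain ⟨a, _, b, _, _, hb⟩ := r2_pos h0
    exact ⟨b, hb⟩
  have hcl : A ∩ B ⊆ A2 ∨ A ∩ B ⊆ B2 := by
    by_contra hcon
    rw [not_or] at hcon
    obtain ⟨h1, h2⟩ := hcon
    obtain ⟨c, hc1, hcA⟩ := not_subset.mp h1
    obtain ⟨d, hd1, hdB⟩ := not_subset.mp h2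
    have hcB : c ∈ B2 := by
      rcases (hmemA c).1 (mem_inter.1 hc1).1 with h | h
      · exact absurd h hcA
      · exact h
    have hdA : d ∈ A2 := by
      rcases (hmemA d).1 (mem_inter.1 hd1).1 with h | h
      · exact h
      · exact absurd h hdB
    refine hs2.no d (mem_sdiff.2 ⟨hdA, hdB⟩) c (mem_sdiff.2 ⟨hcB, hcA⟩) (Or.inr ⟨?_, hd1, hc1⟩)
    rintro rfl
    exact hcA hdA
  rcases hcl with hC | hC
  · -- the clique is in `A2`
    have hsep : Sep G S (A2 ∪ B) B2 := by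
      refine ⟨?_, ?_⟩
      · ext x
        have h1 := hmemA x
        have h2 := hmemS x
        simp only [mem_union]
        tauto
      · intro a haa b hbb hadj
        rw [mem_sdiff, mem_union] at haa hbb
        rw [not_or] at hbb
        obtain ⟨ha1, ha2⟩ := haa
        obtain ⟨hb1, hb2, hb3⟩ := hbb
        by_cases haA : a ∈ A2
        · exact hs2.no a (mem_sdiff.2 ⟨haA, ha2⟩) b (mem_sdiff.2 ⟨hb1, hb2⟩) (hle _ _ hadj)
        · have haB : a ∈ B := by
            rcases ha1 with h | h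
            · exact absurd h haA
            · exact h
          have haA' : a ∉ A := by
            intro h
            exact haA (hC (mem_inter.2 ⟨h, haB⟩))
          exact hr.sep.no b (mem_sdiff.2 ⟨hB2 hb1, hb3⟩) a (mem_sdiff.2 ⟨haB, haA'⟩) hadj.symm
    have hin : (A2 ∪ B) ∩ B2 = A2 ∩ B2 := by
      ext x
      simp only [mem_inter, mem_union]
      constructor
      · rintro ⟨h | h, h2⟩
        · exact ⟨h, h2⟩
        · exact ⟨hC (mem_inter.2 ⟨hB2 h2, h⟩), h2⟩
      · rintro ⟨h, h2⟩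
        exact ⟨Or.inl h, h2⟩
    have hsd : B2 \ (A2 ∪ B) = B2 \ A2 := by
      ext x
      simp only [mem_sdiff, mem_union, not_or]
      constructor
      · rintro ⟨h, h2, _⟩
        exact ⟨h, h2⟩
      · rintro ⟨h, h2⟩
        exact ⟨h, h2, fun h3 => h2 (hC (mem_inter.2 ⟨hB2 h, h3⟩))⟩
    have hm := hc.ms.m2 (A2 ∪ B) B2 hsep (subset_trans hX2 subset_union_left)
      (by rw [hin]; exact hc2)
    rw [hsd] at hm
    have hr2 : r2 (addK G (A ∩ B)) A (B2 \ A2) ≤ r2 G S (B2 \ A2) := by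
      apply r2_le_sub hAS
      intro a _ b _ hab hadj
      rcases hadj with h | ⟨_, h1, h2⟩
      · exact h
      · exfalso
        rcases hab with h | h
        · exact (mem_sdiff.1 h).2 (hC h1)
        · exact (mem_sdiff.1 h).2 (hC h2)
    have hr3 : (r2 (addK G (A ∩ B)) A (B2 \ A2) : ℝ) ≤ (r2 G S (B2 \ A2) : ℝ) := by
      exact_mod_cast hr2
    linarith
  · -- the clique is in `B2`
    have hsep : Sep G S A2 (B2 ∪ B) := by
      refine ⟨?_, ?_⟩
      · ext x
        have h1 := hmemA x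
        have h2 := hmemS x
        simp only [mem_union]
        tauto
      · intro a haa b hbb hadj
        rw [mem_sdiff, mem_union] at haa hbb
        rw [not_or] at haa
        obtain ⟨ha1, ha2, ha3⟩ := haa
        obtain ⟨hb1, hb2⟩ := hbb
        by_cases hbB : b ∈ B2
        · exact hs2.no a (mem_sdiff.2 ⟨ha1, ha2⟩) b (mem_sdiff.2 ⟨hbB, hb2⟩) (hle _ _ hadj)
        · have hbB' : b ∈ B := by
            rcases hb1 with h | h
            · exact absurd h hbB
            · exact h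
          have hbA' : b ∉ A := by
            intro h
            rcases (hmemA b).1 h with h | h
            · exact hb2 h
            · exact hbB h
          exact hr.sep.no a (mem_sdiff.2 ⟨hA2 ha1, ha3⟩) b (mem_sdiff.2 ⟨hbB', hbA'⟩) hadj
    have hin : A2 ∩ (B2 ∪ B) = A2 ∩ B2 := by
      ext x
      simp only [mem_inter, mem_union]
      constructor
      · rintro ⟨h, h2 | h2⟩
        · exact ⟨h, h2⟩
        · exact ⟨h, hC (mem_inter.2 ⟨hA2 h, h2⟩)⟩
      · rintro ⟨h, h2⟩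
        exact ⟨h, Or.inl h2⟩
    have hBC : B2 ∩ B = A ∩ B := by
      ext x
      simp only [mem_inter]
      constructor
      · rintro ⟨h, h2⟩
        exact ⟨hB2 h, h2⟩
      · rintro ⟨h, h2⟩
        exact ⟨hC (mem_inter.2 ⟨h, h2⟩), h2⟩
    have hlk : Lk G (B2 ∪ B) (A2 ∩ B2) := by
      apply reroute' inter_subset_right
      · rw [hBC]; exact hlk2
      · rw [hBC]; exact hr.lk
    have hrig : Rigid G S X A2 (B2 ∪ B) := by
      refine ⟨hsep, hX2, ?_, ?_⟩
      · obtain ⟨b, hb⟩ := hne2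
        rw [mem_sdiff] at hb
        exact ⟨b, mem_sdiff.2 ⟨mem_union_left _ hb.1, hb.2⟩⟩
      · rw [hin]; exact hlk
    have hcard : A2.card < n := by
      rw [← hAn]
      apply card_lt_card
      rw [ssubset_iff_subset_ne]
      refine ⟨hA2, fun h => ?_⟩
      obtain ⟨b, hb⟩ := hne2
      rw [mem_sdiff] at hb
      apply hb.2
      rw [h]
      exact hB2 hb.1
    exact IH A2.card hcard A2 (B2 ∪ B) rfl hrig (by rw [hin]; exact hc2)

theorem no_rigid_lt (hl : 0 ≤ lam) (hc : Crit lam N G S X s t) {A B : Finset V}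
    (hr : Rigid G S X A B) : ¬ (A ∩ B).card < X.card := by
  intro h
  exact no_rigid_aux hl hc A.card A B rfl hr h

theorem no_rigid_le (hl : 0 ≤ lam) (hc : Crit lam N G S X s t) {A B : Finset V}
    (hr : Rigid G S X A B) : ¬ (A ∩ B).card ≤ X.card := by
  intro _
  rcases menger_link hr.sep hr.XA (fun Z hZ _ => lk_mono hr.lk hZ) with h | h
  · exact hc.nl (h m s t hc.ter)
  · obtain ⟨A', B', h1, h2, h3, h4, h5, h6⟩ := h
    refine no_rigid_lt hl hc (A := A') (B := B') ⟨h1, h2, ?_, h6⟩ h5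
    obtain ⟨b, hb⟩ := hr.ne
    rw [mem_sdiff] at hb
    exact ⟨b, mem_sdiff.2 ⟨h4 hb.1, fun h => hb.2 (h3 h)⟩⟩

theorem no_linked {k : ℕ} (hl : 0 ≤ lam) (hN : N = 2 * k) (hc : Crit lam N G S X s t)
    {L : Finset V} (hL : L ⊆ S) (hLc : 2 * k ≤ L.card) : ¬ KL G L k := by
  intro hK
  have hXc : X.card ≤ 2 * k := by
    rw [← hN]; exact hc.cX
  have hsep : Sep G S S L := by
    refine ⟨union_eq_left.2 hL, ?_⟩
    intro a _ b hb
    rw [mem_sdiff] at hb
    exact absurd (hL hb.1) hb.2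
  rcases menger_link hsep hc.ms.XS (fun Z hZ hZc => kl_lk hK hLc
      (subset_trans hZ inter_subset_right) (le_trans hZc hXc)) with h | h
  · exact hc.nl (h m s t hc.ter)
  · obtain ⟨A', B', h1, h2, h3, h4, h5, h6⟩ := h
    refine no_rigid_lt hl hc (A := A') (B := B') ⟨h1, h2, ?_, h6⟩ h5
    rw [nonempty_iff_ne_empty]
    intro he
    rw [sdiff_eq_empty_iff_subset] at he
    have h7 : L ⊆ A' ∩ B' := fun x hx => mem_inter.2 ⟨he (h4 hx), h4 hx⟩
    have h8 := card_le_card h7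
    omega

end Pool.Agent.MP4432a5
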