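import Pool.Agent.Lib.MP_4432a5_co.Contr
import Pool.Agent.Lib.MP_4432a5_co.Rigid

/-!
# MP_4432a5_co, module CritCon: contraction of an edge of a critical pair

Proof. `G' = con G u v`, `S' = S.erase v`. Not `LkP G' S' X s t` by `lkp_con` and `nl`, so `(G', S', X)` is not massed (`ih`,
`|S'| < |S|`). Suppose its `m2` fails; let `(A', B')` be given by `massed_min`: `Massed lam G' B' (A' ∩ B')`.
(i) `u ∈ A' \ B'`: `(insert v A', B')` is a separation of `G[S]` (the `G`-neighbours of `v` are `u` and
`G'`-neighbours of `u`), same order, `B' \ insert v A' = B' \ A'`, `r2_con_le` (`u ∉ D`): contradiction to `m2` of `G`.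
(ii) `u ∈ B' \ A'`: `(A', insert v B')` is a separation of `G[S]` of the same order; `ih` (`|B'| < |S|`) gives
`Lk G' B' (A' ∩ B')`, so `Lk G (insert v B') (A' ∩ B')` by `lk_con`, and it is rigid: `no_rigid_lt`.
(iii) `u ∈ A' ∩ B'`: `A = insert v A'`, `B = insert v B'`, a separation of `G[S]` with `A ∩ B = insert v (A' ∩ B')` of order
`≤ |X|`, `B \ A = B' \ A'`, `2 lam |B \ A| < r2 G' S' (B' \ A') ≤ r2 G S (B \ A)` (`r2_con_le`), so `massed_sub` gives
`Massed lam G B (A ∩ B)`; `|B| < |S|` because otherwise `A' ⊆ B'`, `X ⊆ A' ∩ B'`; `ih`: `Lk G B (A ∩ B)`: `no_rigid_le`.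
So `m1` fails: `r2 G' S' (S' \ X) ≤ 2 lam (|S \ X| - 1)`; compare with `m1` of `G` and `r2_con_ge`
(`hp` follows from `cp` and the terminals being distinct: the only non-neighbour of `u` in `X` is its partner).
-/

set_option autoImplicit false
set_option linter.all false

open Finset
open scoped Classical

namespace Pool.Agent.MP4432a5

variable {V : Type*} {G : SimpleGraph V} {lam : ℝ} {N m : ℕ} {S X : Finset V}
  {s t : Fin m → V} {u v : V}

private theorem con_adj {a b : V} (hav : a ≠ v) (hbv : b ≠ v) (h : G.Adj a b) :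
    (con G u v).Adj a b := ⟨h.ne, hav, hbv, Or.inl h⟩

private theorem con_adj_u {b : V} (hbu : b ≠ u) (huv : u ≠ v) (hbv : b ≠ v) (h : G.Adj v b) :
    (con G u v).Adj u b := ⟨hbu.symm, huv, hbv, Or.inr (Or.inl ⟨rfl, h⟩)⟩

private theorem crit_con_m2 (hl : 0 ≤ lam) (hc : Crit lam N G S X s t) (hu : u ∈ S)
    (hv : v ∈ S \ X) (huv : G.Adj u v) :
    ∀ A B : Finset V, Sep (con G u v) (S.erase v) A B → X ⊆ A → (A ∩ B).card < X.card →
      (r2 (con G u v) (S.erase v) (B \ A) : ℝ) ≤ 2 * lam * ((B \ A).card : ℝ) := by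
  by_contra hm
  obtain ⟨A', B', hs, hX', hlt, hviol, hM⟩ := massed_min hm
  have hne : u ≠ v := huv.ne
  have hvS : v ∈ S := (mem_sdiff.1 hv).1
  have hvX : v ∉ X := (mem_sdiff.1 hv).2
  have hins : insert v (S.erase v) = S := insert_erase hvS
  have hvS' : v ∉ S.erase v := notMem_erase v S
  have hA' : A' ⊆ S.erase v := by
    rw [← hs.un]; exact subset_union_left
  have hB' : B' ⊆ S.erase v := by
    rw [← hs.un]; exact subset_union_right
  have hvA : v ∉ A' := fun h => hvS' (hA' h)
  have hvB : v ∉ B' := fun h => hvS' (hB' h)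
  have hmem : ∀ x, x ∈ S ↔ x = v ∨ x ∈ A' ∨ x ∈ B' := by
    intro x
    rw [← hins, mem_insert, ← hs.un, mem_union]
  have hBlt : B'.card < S.card :=
    lt_of_le_of_lt (card_le_card hB') (card_erase_lt_of_mem hvS)
  have hne2 : (B' \ A').Nonempty := by
    have h0 : 0 < r2 (con G u v) (S.erase v) (B' \ A') := by
      have : (0 : ℝ) < (r2 (con G u v) (S.erase v) (B' \ A') : ℝ) :=
        lt_of_le_of_lt (by positivity) hviol
      exact_mod_cast this
    obtain ⟨a, _, b, _, _, hb⟩ := r2_pos h0
    exact ⟨b, hb⟩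
  have huS' : u ∈ A' ∨ u ∈ B' := by
    rcases (hmem u).1 hu with h | h
    · exact absurd h hne
    · exact h
  by_cases huB : u ∈ B'
  · by_cases huA : u ∈ A'
    · -- `u` in the separator
      have hsep : Sep G S (insert v A') (insert v B') := by
        refine ⟨?_, ?_⟩
        · ext x
          have h1 := hmem x
          simp only [mem_union, mem_insert]
          tauto
        · intro a ha b hb hab
          rw [mem_sdiff, mem_insert, mem_insert, not_or] at ha hb
          obtain ⟨ha1, ha2, ha3⟩ := ha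
          obtain ⟨hb1, hb2, hb3⟩ := hb
          have ha4 : a ∈ A' := by
            rcases ha1 with h | h
            · exact absurd h ha2
            · exact h
          have hb4 : b ∈ B' := by
            rcases hb1 with h | h
            · exact absurd h hb2
            · exact h
          exact hs.no a (mem_sdiff.2 ⟨ha4, ha3⟩) b (mem_sdiff.2 ⟨hb4, hb3⟩)
            (con_adj ha2 hb2 hab)
      have hin : insert v A' ∩ insert v B' = insert v (A' ∩ B') := by
        ext x
        simp only [mem_inter, mem_insert]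
        tauto
      have hsd : insert v B' \ insert v A' = B' \ A' := by
        ext x
        simp only [mem_sdiff, mem_insert, not_or]
        constructor
        · rintro ⟨h1, h2, h3⟩
          exact ⟨h1.resolve_left h2, h3⟩
        · rintro ⟨h1, h2⟩
          exact ⟨Or.inr h1, fun h => hvB (h ▸ h1), h2⟩
      have hcard : (insert v A' ∩ insert v B').card ≤ X.card := by
        rw [hin, card_insert_of_notMem (fun h => hvA (mem_inter.1 h).1)]
        omega
      have hr : r2 (con G u v) (S.erase v) (B' \ A') ≤ r2 G S (B' \ A') := by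
        have h := r2_con_le (G := G) (u := u) (v := v) (T := S.erase v) (D := B' \ A') hvS'
          (fun h => (mem_sdiff.1 h).2 huA)
        rwa [hins] at h
      have hr' : (r2 (con G u v) (S.erase v) (B' \ A') : ℝ) ≤ (r2 G S (B' \ A') : ℝ) := by
        exact_mod_cast hr
      have hXA : X ⊆ insert v A' := hX'.trans (subset_insert v A')
      have hMB : Massed lam G (insert v B') (insert v A' ∩ insert v B') :=
        massed_sub hc.ms.m2 hsep hXA hcard (by rw [hsd]; linarith)
      have hBS : insert v B' ⊆ S := by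
        rw [← hsep.un]; exact subset_union_right
      have hBlt2 : (insert v B').card < S.card := by
        apply card_lt_card
        rw [ssubset_iff_subset_ne]
        refine ⟨hBS, fun h => ?_⟩
        have hAB : A' ⊆ B' := by
          intro x hx
          have hxS : x ∈ S := (hmem x).2 (Or.inr (Or.inl hx))
          rw [← h, mem_insert] at hxS
          rcases hxS with h1 | h1
          · exact absurd (h1 ▸ hx) hvA
          · exact h1
        have : X.card ≤ (A' ∩ B').card :=
          card_le_card (fun x hx => mem_inter.2 ⟨hX' hx, hAB (hX' hx)⟩)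
        omega
      have hlk : Lk G (insert v B') (insert v A' ∩ insert v B') :=
        hc.ih _ _ _ (hcard.trans hc.cX) hMB (Or.inl hBlt2)
      exact no_rigid_le hl hc (A := insert v A') (B := insert v B')
        ⟨hsep, hXA, by rw [hsd]; exact hne2, hlk⟩ hcard
    · -- `u` in `B' \ A'`
      have hsep : Sep G S A' (insert v B') := by
        refine ⟨?_, ?_⟩
        · ext x
          have h1 := hmem x
          simp only [mem_union, mem_insert]
          tauto
        · intro a ha b hb hab
          rw [mem_sdiff, mem_insert, not_or] at ha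
          rw [mem_sdiff, mem_insert] at hb
          obtain ⟨ha1, ha2, ha3⟩ := ha
          obtain ⟨hb1, hb2⟩ := hb
          rcases hb1 with rfl | hb1
          · have hau : a ≠ u := fun h => huA (h ▸ ha1)
            exact hs.no a (mem_sdiff.2 ⟨ha1, ha3⟩) u (mem_sdiff.2 ⟨huB, huA⟩)
              (con_adj_u hau hne ha2 hab.symm).symm
          · exact hs.no a (mem_sdiff.2 ⟨ha1, ha3⟩) b (mem_sdiff.2 ⟨hb1, hb2⟩)
              (con_adj ha2 (fun h => hvB (h ▸ hb1)) hab)
      have hin : A' ∩ insert v B' = A' ∩ B' := by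
        rw [inter_comm, insert_inter_of_notMem hvA, inter_comm]
      have hlk' : Lk (con G u v) B' (A' ∩ B') :=
        hc.ih _ _ _ ((le_of_lt hlt).trans hc.cX) hM (Or.inl hBlt)
      have hlk : Lk G (insert v B') (A' ∩ insert v B') := by
        rw [hin]
        exact lk_con huv hvB (fun h => hvA (mem_inter.1 h).1) hlk'
      exact no_rigid_lt hl hc (A := A') (B := insert v B')
        ⟨hsep, hX', ⟨v, mem_sdiff.2 ⟨mem_insert_self _ _, hvA⟩⟩, hlk⟩ (by rw [hin]; exact hlt)
  · -- `u` in `A' \ B'`
    have huA : u ∈ A' := huS'.resolve_right huB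
    have hsep : Sep G S (insert v A') B' := by
      refine ⟨?_, ?_⟩
      · ext x
        have h1 := hmem x
        simp only [mem_union, mem_insert]
        tauto
      · intro a ha b hb hab
        rw [mem_sdiff, mem_insert] at ha
        rw [mem_sdiff, mem_insert, not_or] at hb
        obtain ⟨ha1, ha2⟩ := ha
        obtain ⟨hb1, hb2, hb3⟩ := hb
        rcases ha1 with rfl | ha1
        · have hbu : b ≠ u := fun h => hb3 (h ▸ huA)
          exact hs.no u (mem_sdiff.2 ⟨huA, huB⟩) b (mem_sdiff.2 ⟨hb1, hb3⟩)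
            (con_adj_u hbu hne hb2 hab)
        · exact hs.no a (mem_sdiff.2 ⟨ha1, ha2⟩) b (mem_sdiff.2 ⟨hb1, hb3⟩)
            (con_adj (fun h => hvA (h ▸ ha1)) hb2 hab)
    have hin : insert v A' ∩ B' = A' ∩ B' := insert_inter_of_notMem hvB
    have hsd : B' \ insert v A' = B' \ A' := by
      ext x
      simp only [mem_sdiff, mem_insert, not_or]
      constructor
      · rintro ⟨h1, h2, h3⟩
        exact ⟨h1, h3⟩
      · rintro ⟨h1, h2⟩
        exact ⟨h1, fun h => hvB (h ▸ h1), h2⟩
    have hr : r2 (con G u v) (S.erase v) (B' \ A') ≤ r2 G S (B' \ A') := by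
      have h := r2_con_le (G := G) (u := u) (v := v) (T := S.erase v) (D := B' \ A') hvS'
        (fun h => huB (mem_sdiff.1 h).1)
      rwa [hins] at h
    have hr' : (r2 (con G u v) (S.erase v) (B' \ A') : ℝ) ≤ (r2 G S (B' \ A') : ℝ) := by
      exact_mod_cast hr
    have hm2 := hc.ms.m2 (insert v A') B' hsep (hX'.trans (subset_insert v A'))
      (by rw [hin]; exact hlt)
    rw [hsd] at hm2
    linarith

theorem crit_con (hl : 0 ≤ lam) (hc : Crit lam N G S X s t) (hu : u ∈ S) (hv : v ∈ S \ X)
    (huv : G.Adj u v) : lam - 2 < ((nb G S u ∩ nb G S v).card : ℝ) := by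
  have hvS : v ∈ S := (mem_sdiff.1 hv).1
  have hvX : v ∉ X := (mem_sdiff.1 hv).2
  have hins : insert v (S.erase v) = S := insert_erase hvS
  have hvS' : v ∉ S.erase v := notMem_erase v S
  have hnl : ¬ LkP (con G u v) (S.erase v) X s t := by
    intro h
    have h2 := lkp_con huv hvS' hvX h
    rw [hins] at h2
    exact hc.nl h2
  have hnm : ¬ Massed lam (con G u v) (S.erase v) X := fun h =>
    hnl (hc.ih _ _ _ hc.cX h (Or.inl (card_erase_lt_of_mem hvS)) m s t hc.ter)
  have hXS : X ⊆ S.erase v := fun x hx =>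
    mem_erase.2 ⟨fun h => hvX (h ▸ hx), hc.ms.XS hx⟩
  have hm1 : ¬ 2 * lam * ((S.erase v \ X).card : ℝ) <
      (r2 (con G u v) (S.erase v) (S.erase v \ X) : ℝ) := fun h =>
    hnm ⟨hXS, h, crit_con_m2 hl hc hu hv huv⟩
  have hp : u ∈ X → ∀ b ∈ X, ∀ b' ∈ X, b ≠ u → b' ≠ u → ¬ G.Adj u b → ¬ G.Adj u b' →
      b = b' := by
    intro huX b hb b' hb' hbu hbu' h h'
    obtain ⟨i, hi⟩ := (hc.cp u huX b hb hbu.symm).resolve_left h
    obtain ⟨j, hj⟩ := (hc.cp u huX b' hb' hbu'.symm).resolve_left h'
    rcases hi with ⟨h1, h2⟩ | ⟨h1, h2⟩ <;> rcases hj with ⟨h3, h4⟩ | ⟨h3, h4⟩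
    · rw [h2, h4, hc.ter.si i j (h1.symm.trans h3)]
    · exact absurd (h1.symm.trans h3) (hc.ter.st i j)
    · exact absurd (h3.symm.trans h1) (hc.ter.st j i)
    · rw [h2, h4, hc.ter.ti i j (h1.symm.trans h3)]
  have hge := r2_con_ge hu hv huv hp
  have hge' : (r2 G S (S \ X) : ℝ) ≤ (r2 (con G u v) (S.erase v) (S.erase v \ X) : ℝ) +
      2 * (2 + ((nb G S u ∩ nb G S v).card : ℝ)) := by exact_mod_cast hge
  have hcard : (S.erase v \ X).card + 1 = (S \ X).card := by
    have h1 : S.erase v \ X = (S \ X).erase v := by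
      ext x
      simp only [mem_sdiff, mem_erase]
      tauto
    rw [h1]
    exact card_erase_add_one hv
  have hcard' : ((S \ X).card : ℝ) = ((S.erase v \ X).card : ℝ) + 1 := by
    rw [← hcard]; push_cast; ring
  have h1 := hc.ms.m1
  rw [hcard'] at h1
  have h2 := not_lt.1 hm1
  nlinarith

end Pool.Agent.MP4432a5
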