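import Pool.Agent.Lib.MP_4432a5_co.CritDel

/-!
# MP_4432a5_co, module CritDeg: a vertex of small degree

Proof. `∑_{v ∈ S \ X} dg G S v` = number of adjacent ordered pairs `(v, b)`, `v ∈ S \ X`, `b ∈ S`, at most
`r2 G S (S \ X) ≤ 2 lam |S \ X| + 2` (`crit_del`); `S \ X ≠ ∅` (by `m1` and `lam ≥ 0`, `r2 > 0`). So some `v ∈ S \ X` has
`dg G S v ≤ 2 lam + 2`. `dg G S v ≠ 0`: otherwise `(G, S.erase v, X)` is massed: `r2` does not change
(no edge at `v`), `m2`: `(insert v A, B)` is a separation of `G[S]` for a separation `(A, B)` of `G[S.erase v]`, with the same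
`A ∩ B`, `B \ A` (`v ∉ B`); `ih` gives a linkage, contradiction to `nl`.
-/

set_option autoImplicit false
set_option linter.all false

open Finset
open scoped Classical

namespace Pool.Agent.MP4432a5

variable {V : Type*} {G : SimpleGraph V} {lam : ℝ} {N m : ℕ} {S X : Finset V}
  {s t : Fin m → V}

private theorem sum_dg_le (G : SimpleGraph V) (S X : Finset V) :
    ∑ v ∈ S \ X, dg G S v ≤ r2 G S (S \ X) := by
  have h1 : ∑ v ∈ S \ X, dg G S v = ((S \ X).sigma (fun v => nb G S v)).card := by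
    rw [Finset.card_sigma]
    rfl
  rw [h1, r2]
  refine Finset.card_le_card_of_injOn (fun p : (_ : V) × V => (p.1, p.2)) ?_ ?_
  · intro p hp
    simp only [Finset.coe_sigma, Set.mem_sigma_iff, Finset.mem_coe, Finset.mem_sdiff, nb,
      Finset.mem_filter] at hp
    simp only [Finset.coe_filter, Finset.mem_product, Set.mem_setOf_eq, Finset.mem_sdiff]
    exact ⟨⟨hp.1.1, hp.2.1⟩, hp.2.2, Or.inl hp.1⟩
  · intro p _ q _ h
    obtain ⟨a, b⟩ := p
    obtain ⟨c, d⟩ := q
    simp only [Prod.mk.injEq] at h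
    obtain ⟨rfl, rfl⟩ := h
    rfl

private theorem r2_mono_S {G : SimpleGraph V} {S S' A : Finset V} (h : S' ⊆ S) :
    r2 G S' A ≤ r2 G S A := by
  unfold r2
  exact Finset.card_le_card (Finset.filter_subset_filter _ (Finset.product_subset_product h h))

private theorem nb_nonempty (hlN : (N : ℝ) + 2 ≤ lam) (hc : Crit lam N G S X s t) {v : V}
    (hv : v ∈ S \ X) : (nb G S v).Nonempty := by
  by_contra hne
  rw [Finset.not_nonempty_iff_eq_empty] at hne
  have hno : ∀ w ∈ S, ¬ G.Adj v w := by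
    intro w hw hadj
    have : w ∈ nb G S v := by
      simp only [nb, Finset.mem_filter]
      exact ⟨hw, hadj⟩
    rw [hne] at this
    simp at this
  have hlam : 0 ≤ lam := by
    have : (0:ℝ) ≤ N := Nat.cast_nonneg N
    linarith
  rw [Finset.mem_sdiff] at hv
  obtain ⟨hvS, hvX⟩ := hv
  have hsub : S.erase v ⊆ S := Finset.erase_subset _ _
  have hXS' : X ⊆ S.erase v := by
    intro x hx
    rw [Finset.mem_erase]
    exact ⟨fun h => hvX (h ▸ hx), hc.ms.XS hx⟩
  have hms : Massed lam G (S.erase v) X := by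
    refine ⟨hXS', ?_, ?_⟩
    · have h1 : ((S.erase v \ X).card : ℝ) ≤ ((S \ X).card : ℝ) := by
        exact_mod_cast Finset.card_le_card (Finset.sdiff_subset_sdiff hsub (le_refl _))
      have h2 : r2 G S (S \ X) ≤ r2 G (S.erase v) (S.erase v \ X) := by
        unfold r2
        refine Finset.card_le_card ?_
        intro p hp
        simp only [Finset.mem_filter, Finset.mem_product, Finset.mem_sdiff] at hp
        simp only [Finset.mem_filter, Finset.mem_product, Finset.mem_sdiff, Finset.mem_erase]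
        obtain ⟨⟨h1, h2⟩, h3, h4⟩ := hp
        have h5 : p.1 ≠ v := fun h => hno p.2 h2 (h ▸ h3)
        have h6 : p.2 ≠ v := fun h => hno p.1 h1 (h ▸ h3.symm)
        refine ⟨⟨⟨h5, h1⟩, h6, h2⟩, h3, ?_⟩
        rcases h4 with h | h
        · exact Or.inl ⟨⟨h5, h.1⟩, h.2⟩
        · exact Or.inr ⟨⟨h6, h.1⟩, h.2⟩
      have h3 : (r2 G S (S \ X) : ℝ) ≤ (r2 G (S.erase v) (S.erase v \ X) : ℝ) := by
        exact_mod_cast h2
      have h4 := hc.ms.m1
      have h5 : 2 * lam * ((S.erase v \ X).card : ℝ) ≤ 2 * lam * ((S \ X).card : ℝ) := by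
        exact mul_le_mul_of_nonneg_left h1 (by linarith)
      linarith
    · intro A B hAB hXA hlt
      have hBS : B ⊆ S.erase v := by
        rw [← hAB.un]
        exact Finset.subset_union_right
      have hvB : v ∉ B := fun h => (Finset.mem_erase.mp (hBS h)).1 rfl
      have hsep : Sep G S (insert v A) B := by
        refine ⟨?_, ?_⟩
        · rw [Finset.insert_union, hAB.un, Finset.insert_erase hvS]
        · intro a ha b hb
          rw [Finset.mem_sdiff, Finset.mem_insert] at ha
          rw [Finset.mem_sdiff, Finset.mem_insert, not_or] at hb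
          rcases ha.1 with h | h
          · subst h
            exact hno b (hsub (hBS hb.1))
          · exact hAB.no a (Finset.mem_sdiff.mpr ⟨h, ha.2⟩) b (Finset.mem_sdiff.mpr ⟨hb.1, hb.2.2⟩)
      have e1 : insert v A ∩ B = A ∩ B := Finset.insert_inter_of_notMem hvB
      have e2 : B \ insert v A = B \ A := by
        ext x
        simp only [Finset.mem_sdiff, Finset.mem_insert, not_or]
        constructor
        · rintro ⟨h1, h2, h3⟩
          exact ⟨h1, h3⟩
        · rintro ⟨h1, h3⟩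
          exact ⟨h1, fun h => hvB (h ▸ h1), h3⟩
      have h1 := hc.ms.m2 (insert v A) B hsep (hXA.trans (Finset.subset_insert _ _))
        (by rw [e1]; exact hlt)
      rw [e2] at h1
      have h2 : (r2 G (S.erase v) (B \ A) : ℝ) ≤ (r2 G S (B \ A) : ℝ) := by
        exact_mod_cast r2_mono_S hsub
      linarith
  have hlk := hc.ih G (S.erase v) X hc.cX hms (Or.inl (Finset.card_erase_lt_of_mem hvS)) m s t
    hc.ter
  obtain ⟨W, hW1, hW2⟩ := hlk
  refine hc.nl ⟨W, fun i => ?_, hW2⟩
  obtain ⟨h1, h2⟩ := hW1 i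
  exact ⟨h1.trans hsub, h2⟩

theorem crit_deg (hlN : (N : ℝ) + 2 ≤ lam) (hc : Crit lam N G S X s t) :
    ∃ v ∈ S \ X, (dg G S v : ℝ) ≤ 2 * lam + 2 ∧ (nb G S v).Nonempty := by
  have hlam : 0 ≤ lam := by
    have : (0:ℝ) ≤ N := Nat.cast_nonneg N
    linarith
  have hne : (S \ X).Nonempty := by
    by_contra h
    rw [Finset.not_nonempty_iff_eq_empty] at h
    have h1 := hc.ms.m1
    rw [h] at h1
    have h2 : r2 G S ∅ = 0 := by
      unfold r2
      rw [Finset.card_eq_zero, Finset.filter_eq_empty_iff]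
      rintro p _ ⟨_, h3⟩
      simp at h3
    rw [h2] at h1
    simp at h1
  have hcard : (1:ℝ) ≤ ((S \ X).card : ℝ) := by
    exact_mod_cast hne.card_pos
  have key : ∃ v ∈ S \ X, (dg G S v : ℝ) ≤ 2 * lam + 2 := by
    by_contra hcon
    push Not at hcon
    have h1 : ∑ v ∈ S \ X, (2 * lam + 2) < ∑ v ∈ S \ X, (dg G S v : ℝ) :=
      Finset.sum_lt_sum_of_nonempty hne hcon
    rw [Finset.sum_const, nsmul_eq_mul] at h1
    have h2 : (∑ v ∈ S \ X, (dg G S v : ℝ)) ≤ (r2 G S (S \ X) : ℝ) := by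
      exact_mod_cast sum_dg_le G S X
    have h3 := crit_del hlN hc
    nlinarith
  obtain ⟨v, hv, hd⟩ := key
  exact ⟨v, hv, hd, nb_nonempty hlN hc hv⟩

end Pool.Agent.MP4432a5
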