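import Pool.Agent.Lib.MP_4432a5_co.CritCon

/-!
# MP_4432a5_co, module CritDel: deletion of an edge of a critical pair

Proof. Suppose `r2 G S (S \ X) > 2 lam |S \ X| + 2`. Take an edge `u v` with `u ∈ S`, `v ∈ S \ X` (`r2_pos`), `G' = del G u v`:
`r2 G' S (S \ X) = r2 G S (S \ X) - 2` (the ordered pairs `(u, v)`, `(v, u)`), so `m1` holds for `(G', S, X)` and its `r2` is
smaller; it is not linked (`G' ≤ G`, `nl`); by `ih` its `m2` fails for some `(A', B')`, `X ⊆ A'`, `|A' ∩ B'| < |X|`,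
`r2 G' S (B' \ A') > 2 lam |B' \ A'|`. If `(A', B')` is a separation of `G` too: contradiction to `m2` of `G` (`r2_mono`).
Otherwise one of `u, v` is in `A' \ B'`, the other in `B' \ A'`; call them `x`, `y`. Let `A = A'`,
`B = insert x B'`: a separation of `G[S]`, `A ∩ B = insert x (A' ∩ B')` of order `≤ |X|`, `B \ A = B' \ A'`,
`r2 G S (B \ A) ≥ r2 G' S (B' \ A') > 2 lam |B \ A|`, so `Massed lam G B (A ∩ B)` by `massed_sub`. If `|B| < |S|`: `ih` gives
`Lk G B (A ∩ B)`, rigid (`y ∈ B \ A`), contradiction to `no_rigid_le`. If `B = S`: `A' ⊆ insert x (A' ∩ B')`, `X ⊆ A'`,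
`|A' ∩ B'| < |X|` give `A' = X` and `x ∈ X`, so `x = u`, `y = v`, and all `G`-neighbours of `u` in `S` are in `X ∪ {v}` (the
`G'`-neighbours of `u` are not in `B' \ A' = S \ X`), so `u`, `v` have at most `|X| ≤ N` common neighbours:
contradiction to `crit_con` and `hlN`.
-/

set_option autoImplicit false
set_option linter.all false

open Finset
open scoped Classical

namespace Pool.Agent.MP4432a5

variable {V : Type*} {G : SimpleGraph V} {lam : ℝ} {N m : ℕ} {S X : Finset V}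
  {s t : Fin m → V}

private theorem del_adj {u v a b : V} (h : G.Adj a b) (h' : ¬ (del G u v).Adj a b) :
    (a = u ∧ b = v) ∨ (a = v ∧ b = u) := by
  by_contra hne
  rw [not_or] at hne
  exact h' ⟨h, hne.1, hne.2⟩

private theorem lkp_del {u v : V} (h : LkP (del G u v) S X s t) : LkP G S X s t := by
  obtain ⟨W, h1, h2⟩ := h
  refine ⟨W, fun i => ?_, h2⟩
  obtain ⟨a, b, c, d, e⟩ := h1 i
  exact ⟨a, b, c, d.mono (fun x _ y _ hxy => hxy.1), e⟩

theorem crit_del (hlN : (N : ℝ) + 2 ≤ lam) (hc : Crit lam N G S X s t) :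
    (r2 G S (S \ X) : ℝ) ≤ 2 * lam * ((S \ X).card : ℝ) + 2 := by
  by_contra hbig
  rw [not_le] at hbig
  have hN0 : (0 : ℝ) ≤ (N : ℝ) := Nat.cast_nonneg N
  have hl : 0 ≤ lam := by linarith
  have hpos : 0 < r2 G S (S \ X) := by
    have h0 : (0 : ℝ) < (r2 G S (S \ X) : ℝ) := by
      have h1 : (0 : ℝ) ≤ 2 * lam * ((S \ X).card : ℝ) := by positivity
      linarith
    exact_mod_cast h0
  obtain ⟨u, hu, v, hvS, huv, hv⟩ := r2_pos hpos
  have hvX : v ∉ X := (mem_sdiff.1 hv).2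
  -- the edge `u v` counts twice
  have ha : r2 G S (S \ X) ≤ r2 (del G u v) S (S \ X) + 2 := by
    have hsub : (S ×ˢ S).filter (fun p => G.Adj p.1 p.2 ∧ (p.1 ∈ S \ X ∨ p.2 ∈ S \ X)) ⊆
        insert (u, v) (insert (v, u) ((S ×ˢ S).filter
          (fun p => (del G u v).Adj p.1 p.2 ∧ (p.1 ∈ S \ X ∨ p.2 ∈ S \ X)))) := by
      rintro ⟨a, b⟩ hp
      rw [mem_filter] at hp
      rw [mem_insert, mem_insert, mem_filter]
      by_cases h : (del G u v).Adj a b
      · exact Or.inr (Or.inr ⟨hp.1, h, hp.2.2⟩)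
      · rcases del_adj hp.2.1 h with ⟨h1, h2⟩ | ⟨h1, h2⟩
        · exact Or.inl (by rw [Prod.mk.injEq]; exact ⟨h1, h2⟩)
        · exact Or.inr (Or.inl (by rw [Prod.mk.injEq]; exact ⟨h1, h2⟩))
    have h1 := card_le_card hsub
    have h2 := card_insert_le (u, v) (insert (v, u) ((S ×ˢ S).filter
          (fun p => (del G u v).Adj p.1 p.2 ∧ (p.1 ∈ S \ X ∨ p.2 ∈ S \ X))))
    have h3 := card_insert_le (v, u) ((S ×ˢ S).filter
          (fun p => (del G u v).Adj p.1 p.2 ∧ (p.1 ∈ S \ X ∨ p.2 ∈ S \ X)))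
    unfold r2
    omega
  have hb : r2 (del G u v) S (S \ X) < r2 G S (S \ X) := by
    unfold r2
    apply card_lt_card
    rw [ssubset_iff_of_subset]
    · refine ⟨(u, v), ?_, ?_⟩
      · rw [mem_filter, mem_product]
        exact ⟨⟨hu, hvS⟩, huv, Or.inr hv⟩
      · rw [mem_filter]
        rintro ⟨-, h, -⟩
        exact h.2.1 ⟨rfl, rfl⟩
    · intro p hp
      rw [mem_filter] at hp ⊢
      exact ⟨hp.1, hp.2.1.1, hp.2.2⟩
  have hnm : ¬ Massed lam (del G u v) S X := fun h =>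
    hc.nl (lkp_del (hc.ih (del G u v) S X hc.cX h (Or.inr ⟨rfl, hb⟩) m s t hc.ter))
  have hm1 : 2 * lam * ((S \ X).card : ℝ) < (r2 (del G u v) S (S \ X) : ℝ) := by
    have ha' : (r2 G S (S \ X) : ℝ) ≤ (r2 (del G u v) S (S \ X) : ℝ) + 2 := by
      exact_mod_cast ha
    linarith
  have hm2 : ¬ ∀ A B : Finset V, Sep (del G u v) S A B → X ⊆ A → (A ∩ B).card < X.card →
      (r2 (del G u v) S (B \ A) : ℝ) ≤ 2 * lam * ((B \ A).card : ℝ) := fun h =>
    hnm ⟨hc.ms.XS, hm1, h⟩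
  obtain ⟨A', B', hs, hX', hlt, hviol, -⟩ := massed_min hm2
  have hAS : A' ⊆ S := by rw [← hs.un]; exact subset_union_left
  have hBS : B' ⊆ S := by rw [← hs.un]; exact subset_union_right
  have hrm : (r2 (del G u v) S (B' \ A') : ℝ) ≤ (r2 G S (B' \ A') : ℝ) := by
    have h : r2 (del G u v) S (B' \ A') ≤ r2 G S (B' \ A') :=
      r2_mono (fun a _ b _ _ hab => hab.1)
    exact_mod_cast h
  by_cases hsG : Sep G S A' B'
  · have h := hc.ms.m2 A' B' hsG hX' hlt
    linarith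
  -- an edge of `G` between the two sides
  have hxy : ∃ x ∈ A' \ B', ∃ y ∈ B' \ A', G.Adj x y := by
    by_contra hno
    push Not at hno
    exact hsG ⟨hs.un, hno⟩
  obtain ⟨x, hx, y, hy, hadj⟩ := hxy
  have hxA : x ∈ A' := (mem_sdiff.1 hx).1
  have hxB : x ∉ B' := (mem_sdiff.1 hx).2
  have hyB : y ∈ B' := (mem_sdiff.1 hy).1
  have hyA : y ∉ A' := (mem_sdiff.1 hy).2
  have hcase := del_adj hadj (hs.no x hx y hy)
  have hsep : Sep G S A' (insert x B') := by
    refine ⟨?_, ?_⟩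
    · rw [union_insert, hs.un]
      exact insert_eq_of_mem (hAS hxA)
    · intro a ha' b hb' hab
      rw [mem_sdiff, mem_insert, not_or] at ha'
      rw [mem_sdiff, mem_insert] at hb'
      obtain ⟨ha1, ha2, ha3⟩ := ha'
      obtain ⟨hb1, hb2⟩ := hb'
      have hb3 : b ∈ B' := hb1.resolve_left (fun h => hb2 (h ▸ hxA))
      have h1 := del_adj hab (hs.no a (mem_sdiff.2 ⟨ha1, ha3⟩) b (mem_sdiff.2 ⟨hb3, hb2⟩))
      rcases h1 with ⟨h2, h3⟩ | ⟨h2, h3⟩ <;> rcases hcase with ⟨h4, h5⟩ | ⟨h4, h5⟩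
      · exact ha2 (h2.trans h4.symm)
      · exact hyA ((h2.trans h5.symm) ▸ ha1)
      · exact hyA ((h2.trans h5.symm) ▸ ha1)
      · exact ha2 (h2.trans h4.symm)
  have hin : A' ∩ insert x B' = insert x (A' ∩ B') := by
    ext z
    simp only [mem_inter, mem_insert]
    constructor
    · rintro ⟨h1, h2 | h2⟩
      · exact Or.inl h2
      · exact Or.inr ⟨h1, h2⟩
    · rintro (h | ⟨h1, h2⟩)
      · exact ⟨h ▸ hxA, Or.inl h⟩
      · exact ⟨h1, Or.inr h2⟩
  have hsd : insert x B' \ A' = B' \ A' := by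
    ext z
    simp only [mem_sdiff, mem_insert]
    constructor
    · rintro ⟨h1, h2⟩
      exact ⟨h1.resolve_left (fun h => h2 (h ▸ hxA)), h2⟩
    · rintro ⟨h1, h2⟩
      exact ⟨Or.inr h1, h2⟩
  have hcard : (A' ∩ insert x B').card ≤ X.card := by
    have h1 := card_insert_le x (A' ∩ B')
    rw [hin]
    omega
  have hM : Massed lam G (insert x B') (A' ∩ insert x B') :=
    massed_sub hc.ms.m2 hsep hX' hcard (by rw [hsd]; linarith)
  have hBS2 : insert x B' ⊆ S := insert_subset (hAS hxA) hBS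
  by_cases hlt2 : (insert x B').card < S.card
  · have hlk := hc.ih _ _ _ (hcard.trans hc.cX) hM (Or.inl hlt2)
    exact no_rigid_le hl hc (A := A') (B := insert x B')
      ⟨hsep, hX', by rw [hsd]; exact ⟨y, hy⟩, hlk⟩ hcard
  · have hBe : insert x B' = S := eq_of_subset_of_card_le hBS2 (not_lt.1 hlt2)
    have hAi : A' ⊆ insert x (A' ∩ B') := by
      intro z hz
      have h1 : z ∈ insert x B' := by rw [hBe]; exact hAS hz
      rw [mem_insert] at h1 ⊢
      rcases h1 with h1 | h1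
      · exact Or.inl h1
      · exact Or.inr (mem_inter.2 ⟨hz, h1⟩)
    have hAX : A' = X := by
      symm
      apply eq_of_subset_of_card_le hX'
      have h1 := card_le_card hAi
      have h2 := card_insert_le x (A' ∩ B')
      omega
    have hxX : x ∈ X := hAX ▸ hxA
    rcases hcase with ⟨h1, h2⟩ | ⟨h1, h2⟩
    · subst h1
      subst h2
      have hsub : nb G S x ∩ nb G S y ⊆ X := by
        intro w hw
        rw [mem_inter] at hw
        unfold nb at hw
        rw [mem_filter, mem_filter] at hw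
        obtain ⟨⟨hwS, hxw⟩, -, hyw⟩ := hw
        by_contra hwX
        have hwA : w ∉ A' := by rw [hAX]; exact hwX
        have hwB : w ∈ B' := by
          have h3 : w ∈ insert x B' := by rw [hBe]; exact hwS
          exact (mem_insert.1 h3).resolve_left (fun h => hwX (h ▸ hxX))
        rcases del_adj hxw (hs.no x hx w (mem_sdiff.2 ⟨hwB, hwA⟩)) with ⟨-, h3⟩ | ⟨h3, -⟩
        · exact hyw.ne h3.symm
        · exact huv.ne h3
      have h3 := crit_con hl hc hu hv huv
      have h4 : ((nb G S x ∩ nb G S y).card : ℝ) ≤ (N : ℝ) := by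
        exact_mod_cast (card_le_card hsub).trans hc.cX
      linarith
    · exact hvX (h1 ▸ hxX)

end Pool.Agent.MP4432a5
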