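import Pool.Agent.Lib.MP_4432a5_co.Cert

/-!
# MP_4432a5_co, module DCert: joining two strong vertices, and two consequences

`dcert`: `pick` a neighbour `x1` of `p1` for `F`, `D = ∅`, with certificate `(H1, E1, R1)`, then a neighbour `x2`
of `p2` for `F ∪ H1`, `D = E1`, with certificate `(H2, E2, R2)`; `y1 ∈ R1 ∩ X`, `y2 ∈ R2 ∩ X`;
`C ⊆ X \ ((E1 \ R1) ∪ (E2 \ R2))` connected with `y1, y2 ∈ C`; `Md.union`, `Md.addE`.

`link_strong`: `dcert` with `F = ∅` and `Md.next` with `A = {s L} ∪ R ∪ {t L}`.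

`shorten`: `dcert` with `F = {i}`, `Md.ext` with `h0 = i`, `A = q[0..a] ∪ R ∪ q[b..r]`, `R1 = ∅`, `Md.sys`:
a system with at most `|used W| + 2 cc j + 60 - (b - a - 1)` used vertices
(the vertices `q (a+1), ..., q (b-1)` are not used any more); compare with the optimum.
-/

set_option autoImplicit false
set_option linter.all false

open Finset
open scoped Classical

namespace Pool.Agent.MP4432a5

variable {V : Type*} {G : SimpleGraph V} {S : Finset V} {k l : ℕ} {s t : Fin k → V}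
  {W : Fin k → Finset V} {r : Fin k → ℕ} {q : Fin k → ℕ → V} {X : Finset V} {B R0 th : ℕ}

private theorem dc_free_E {x : V} {F : Finset (Fin k)}
    {D : Finset V} {n : ℕ} {H : Finset (Fin k)} {E R : Finset V} {W' : Fin k → Finset V}
    (h : Crt G S s t l W X R0 x F D n H E R W') {v : V} (hv : v ∈ R) (hf : v ∉ used W) :
    v ∈ E := by
  have h1 := h.md.rsub hv
  rw [Finset.mem_union] at h1
  rcases h1 with h1 | h1
  · obtain ⟨i, hi, hvi⟩ := Finset.mem_biUnion.1 h1
    exact absurd (mem_used.2 ⟨i, hvi⟩) hf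
  · exact h1

private theorem dc_E_used {x : V} {F : Finset (Fin k)}
    {D : Finset V} {n : ℕ} {H : Finset (Fin k)} {E R : Finset V} {W' : Fin k → Finset V}
    (h : Crt G S s t l W X R0 x F D n H E R W') : Disjoint E (used W) := by
  rw [Finset.disjoint_left]
  exact fun v hv => (Finset.mem_sdiff.1 (h.EU hv)).2

theorem dcert (c : NCtx G S s t l W r q X B R0 th) (j : ℕ) {p1 p2 : V}
    (h1 : p1 ∈ Str G S th (cl G S th l R0 W r q X j))
    (h2 : p2 ∈ Str G S th (cl G S th l R0 W r q X j)) (F : Finset (Fin k))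
    (hF : F.card + 2 * cc j ≤ B) :
    ∃ (H : Finset (Fin k)) (E R : Finset V) (W' : Fin k → Finset V),
      Md G s t W H E R W' ∧ (∀ h ∈ H, (h : ℕ) < l ∧ h ∉ F) ∧ E ⊆ S \ used W ∧
      E.card ≤ 2 * cc j + 60 ∧ Cn G R ∧ (∃ x ∈ R, G.Adj p1 x) ∧ ∃ x ∈ R, G.Adj p2 x := by
  have hcB : cc j ≤ B := by omega
  obtain ⟨x1, hx1, ha1, -, hF1⟩ := pick c j h1 F ∅ (by omega) (by simp)
  obtain ⟨H1, E1, R1, W1, c1⟩ := cert c j hcB x1 hx1 F ∅ (by omega) (by simpa using hcB)
    (Finset.notMem_empty _) hF1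
  have cF : (F ∪ H1).card ≤ F.card + cc j :=
    (Finset.card_union_le _ _).trans (by have := c1.Hc; omega)
  have cE := c1.Ec
  obtain ⟨x2, hx2, ha2, hD2, hF2⟩ := pick c j h2 (F ∪ H1) E1 (by omega) (by omega)
  obtain ⟨H2, E2, R2, W2, c2⟩ := cert c j hcB x2 hx2 (F ∪ H1) E1 (by omega) (by omega) hD2 hF2
  have hH2 : ∀ h ∈ H2, h ∉ F ∧ h ∉ H1 := fun h hh =>
    ⟨fun e => c2.HF h hh (Finset.mem_union_left _ e), fun e => c2.HF h hh
      (Finset.mem_union_right _ e)⟩
  have hE2 : ∀ v ∈ E2, v ∉ E1 := fun v hv => Finset.disjoint_left.1 c2.ED hv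
  have hXf : ∀ v ∈ X, v ∉ used W := fun v hv => (Finset.mem_sdiff.1 (c.XU hv)).2
  obtain ⟨y1, hy1⟩ := c1.RX
  obtain ⟨y2, hy2⟩ := c2.RX
  rw [Finset.mem_inter] at hy1 hy2
  have hy1E : y1 ∈ E1 := dc_free_E c1 hy1.1 (hXf _ hy1.2)
  have hy2E : y2 ∈ E2 := dc_free_E c2 hy2.1 (hXf _ hy2.2)
  set D' : Finset V := (E1 \ R1) ∪ (E2 \ R2) with hD'
  have hmD' : ∀ v, v ∈ D' ↔ (v ∈ E1 ∧ v ∉ R1) ∨ (v ∈ E2 ∧ v ∉ R2) := by
    intro v
    simp only [hD', Finset.mem_union, Finset.mem_sdiff]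
  have hD'c : D'.card ≤ B := by
    have g1 : D'.card ≤ (E1 \ R1).card + (E2 \ R2).card := Finset.card_union_le _ _
    have g2 : (E1 \ R1).card ≤ E1.card := Finset.card_le_card Finset.sdiff_subset
    have g3 : (E2 \ R2).card ≤ E2.card := Finset.card_le_card Finset.sdiff_subset
    have g4 := c2.Ec
    omega
  have hy1D : y1 ∈ X \ D' := by
    rw [Finset.mem_sdiff, hmD']
    refine ⟨hy1.2, ?_⟩
    rintro (h | h)
    · exact h.2 hy1.1
    · exact hE2 _ h.1 hy1E
  have hy2D : y2 ∈ X \ D' := by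
    rw [Finset.mem_sdiff, hmD']
    refine ⟨hy2.2, ?_⟩
    rintro (h | h)
    · exact hE2 _ hy2E h.1
    · exact h.2 hy2.1
  obtain ⟨C, hCX, hy1C, hy2C, hCn, hCc⟩ := c.hub D' hD'c y1 hy1D y2 hy2D
  have hC1 : ∀ v ∈ C, v ∈ X ∧ (v ∈ E1 → v ∈ R1) ∧ (v ∈ E2 → v ∈ R2) := by
    intro v hv
    have g1 := hCX hv
    rw [Finset.mem_sdiff, hmD'] at g1
    refine ⟨g1.1, fun e => ?_, fun e => ?_⟩
    · by_contra e2
      exact g1.2 (Or.inl ⟨e, e2⟩)
    · by_contra e2
      exact g1.2 (Or.inr ⟨e, e2⟩)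
  have hCf : Disjoint C (used W) := by
    rw [Finset.disjoint_left]
    exact fun v hv => hXf v (hC1 v hv).1
  obtain ⟨m1, -⟩ := Md.union c.opt.dj c1.md c2.md (by
    rw [Finset.disjoint_right]
    exact fun h hh => (hH2 h hh).2) (by
    rw [Finset.disjoint_right]
    exact hE2) (dc_E_used c1) (dc_E_used c2)
  have hE12 : Disjoint (E1 ∪ E2) (used W) := by
    rw [Finset.disjoint_union_left]
    exact ⟨dc_E_used c1, dc_E_used c2⟩
  have m2 := m1.addE (E1 := C) hE12 hCf (by
    rw [Finset.disjoint_left]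
    intro v hv hvE
    rw [Finset.mem_sdiff] at hv
    obtain ⟨hvC, hvR⟩ := hv
    have g1 := hC1 v hvC
    simp only [Finset.mem_union] at hvE hvR
    rcases hvE with hvE | hvE
    · exact hvR (Or.inl (g1.2.1 hvE))
    · exact hvR (Or.inr (g1.2.2 hvE)))
  refine ⟨_, _, _, _, m2, ?_, ?_, ?_, ?_, ?_, ?_⟩
  · intro h hh
    rw [Finset.mem_union] at hh
    rcases hh with hh | hh
    · exact ⟨c1.Hl h hh, c1.HF h hh⟩
    · exact ⟨c2.Hl h hh, (hH2 h hh).1⟩
  · refine Finset.union_subset (Finset.union_subset c1.EU c2.EU) ?_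
    intro v hv
    exact c.XU (hC1 v hv).1
  · have g1 : (E1 ∪ E2 ∪ C).card ≤ E1.card + E2.card + C.card := by
      refine (Finset.card_union_le _ _).trans (Nat.add_le_add_right ?_ _)
      exact Finset.card_union_le _ _
    have g2 := c2.Ec
    omega
  · have g1 : Cn G (R1 ∪ C) := Cn.union c1.cn hCn ⟨y1, Finset.mem_inter.2 ⟨hy1.1, hy1C⟩⟩
    have g2 := Cn.union g1 c2.cn
      ⟨y2, Finset.mem_inter.2 ⟨Finset.mem_union_right _ hy2C, hy2.1⟩⟩
    rwa [Finset.union_right_comm] at g2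
  · exact ⟨x1, Finset.mem_union_left _ (Finset.mem_union_left _ c1.xR), ha1⟩
  · exact ⟨x2, Finset.mem_union_left _ (Finset.mem_union_right _ c2.xR), ha2⟩

theorem link_strong (c : NCtx G S s t l W r q X B R0 th) (j : ℕ) (hB : 2 * cc j ≤ B)
    {L : Fin k} (hL : (L : ℕ) = l) (hs : s L ∈ Str G S th (cl G S th l R0 W r q X j))
    (ht : t L ∈ Str G S th (cl G S th l R0 W r q X j)) :
    ∃ W'' : Fin k → Finset V, Sys G S s t (l + 1) W'' ∧
      (used W'').card ≤ (used W).card + (2 * cc j + 60) := by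
  obtain ⟨H, E, R, W', md, hH, hE, hEc, hR, ⟨x, hx, hxa⟩, y, hy, hya⟩ :=
    dcert c j hs ht ∅ (by simpa using hB)
  have h1 : Cn G (insert (s L) (insert (t L) R)) :=
    Cn.insert_adj (Cn.insert_adj hR hy hya.symm) (Finset.mem_insert_of_mem hx) hxa.symm
  obtain ⟨W'', g1, g2⟩ := md.next c.opt.toSys (fun i hi => (hH i hi).1) hE hL
    (A := insert (s L) (insert (t L) R)) (Finset.mem_insert_self _ _)
    (Finset.mem_insert_of_mem (Finset.mem_insert_self _ _)) h1 (by
      intro v hv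
      simp only [Finset.mem_insert, Finset.mem_union, Finset.mem_singleton] at hv ⊢
      tauto)
  refine ⟨W'', g1, (Finset.card_le_card g2).trans ((Finset.card_union_le _ _).trans ?_)⟩
  omega

theorem shorten (c : NCtx G S s t l W r q X B R0 th) (j : ℕ) (hB : 1 + 2 * cc j ≤ B)
    {i : Fin k} (hi : (i : ℕ) < l) {a b : ℕ} (hab : a < b) (hb : b ≤ r i)
    (ha : q i a ∈ Str G S th (cl G S th l R0 W r q X j))
    (hb' : q i b ∈ Str G S th (cl G S th l R0 W r q X j)) :
    b ≤ a + (2 * cc j + 61) := by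
  obtain ⟨H, E, R, W', md, hH, hE, hEc, hR, ⟨x, hx, hxa⟩, y, hy, hya⟩ :=
    dcert c j ha hb' {i} (by simpa using hB)
  have hp := c.pth i hi
  have hiH : i ∉ H := fun h => (hH i h).2 (Finset.mem_singleton_self i)
  have hEu : Disjoint E (used W) := by
    rw [Finset.disjoint_left]
    exact fun v hv => (Finset.mem_sdiff.1 (hE hv)).2
  have hsupp : ∀ v ∈ W i, v ∉ H.biUnion W ∪ E := by
    intro v hv h
    rw [Finset.mem_union] at h
    rcases h with h | h
    · obtain ⟨h', hh', hv'⟩ := Finset.mem_biUnion.1 h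
      have hne : i ≠ h' := fun e => hiH (e ▸ hh')
      exact Finset.disjoint_left.1 (c.opt.dj i h' hne) hv hv'
    · exact Finset.disjoint_left.1 hEu h (mem_used.2 ⟨i, hv⟩)
  have hWR : ∀ v ∈ W i, v ∉ R := fun v hv h => hsupp v hv (md.rsub h)
  set A : Finset V := (Icc 0 a).image (q i) ∪ R ∪ (Icc b (r i)).image (q i) with hA
  have hAc : Cn G A := hp.bridge (i := a) (j := b) hab.le hb hR hx hy hxa hya
  have hmem : ∀ m, m ≤ r i → q i m ∈ W i := fun m hm => hp.mem.2 ⟨m, hm, rfl⟩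
  have hAW : A ⊆ W i ∪ R := by
    intro v hv
    simp only [hA, Finset.mem_union, Finset.mem_image, Finset.mem_Icc] at hv ⊢
    rcases hv with (⟨m, hm, rfl⟩ | hv) | ⟨m, hm, rfl⟩
    · exact Or.inl (hmem m (by omega))
    · exact Or.inr hv
    · exact Or.inl (hmem m (by omega))
  have hsA : s i ∈ A := by
    rw [hA]
    exact Finset.mem_union_left _ (Finset.mem_union_left _ (Finset.mem_image.2
      ⟨0, Finset.mem_Icc.2 ⟨le_rfl, Nat.zero_le _⟩, hp.z⟩))
  have htA : t i ∈ A := by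
    rw [hA]
    exact Finset.mem_union_right _ (Finset.mem_image.2
      ⟨r i, Finset.mem_Icc.2 ⟨hb, le_rfl⟩, hp.e⟩)
  have m1 := md.ext c.opt.dj hEu hiH (A := A) (R1 := ∅) hsA htA hAc hAW
    (Finset.empty_subset _) (Finset.disjoint_empty_right _)
  obtain ⟨g1, g2, -⟩ := m1.sys c.opt.toSys (fun h hh => by
    rw [Finset.mem_insert] at hh
    rcases hh with hh | hh
    · rw [hh]; exact hi
    · exact (hH h hh).1) hE
  have g3 := c.opt.mn _ g1
  set W'' : Fin k → Finset V := fun h => if h ∈ insert i H then Function.update W' i A h else W h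
    with hW''
  have g4 : pot (fun _ : V => 1) W = (used W).card := by
    rw [pot_eq c.opt.dj]
    simp
  have g5 : pot (fun _ : V => 1) W'' = (used W'').card := by
    rw [pot_eq g1.dj]
    simp
  rw [g4, g5] at g3
  set Q : Finset V := (Ioo a b).image (q i) with hQ
  have hQc : Q.card = b - a - 1 := by
    rw [hQ, Finset.card_image_of_injOn, Nat.card_Ioo]
    intro m hm m' hm' e
    rw [Finset.coe_Ioo, Set.mem_Ioo] at hm hm'
    exact hp.inj m m' (by omega) (by omega) e
  have hQu : Q ⊆ used W := by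
    intro v hv
    obtain ⟨m, hm, rfl⟩ := Finset.mem_image.1 hv
    rw [Finset.mem_Ioo] at hm
    exact mem_used.2 ⟨i, hmem m (by omega)⟩
  have hQn : ∀ v ∈ used W'', v ∉ Q := by
    intro v hv hvQ
    obtain ⟨m, hm, rfl⟩ := Finset.mem_image.1 hvQ
    rw [Finset.mem_Ioo] at hm
    have hmW := hmem m (by omega)
    obtain ⟨h, hh⟩ := mem_used.1 hv
    simp only [hW''] at hh
    by_cases e : h = i
    · rw [e, if_pos (Finset.mem_insert_self _ _), Function.update_self, hA] at hh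
      simp only [Finset.mem_union, Finset.mem_image, Finset.mem_Icc] at hh
      rcases hh with (⟨m', hm', e'⟩ | hh) | ⟨m', hm', e'⟩
      · have := hp.inj m' m (by omega) (by omega) e'
        omega
      · exact hWR _ hmW hh
      · have := hp.inj m' m (by omega) (by omega) e'
        omega
    · by_cases e2 : h ∈ H
      · rw [if_pos (Finset.mem_insert_of_mem e2), Function.update_of_ne e] at hh
        exact hsupp _ hmW (md.sub h e2 hh)
      · rw [if_neg (by
          rw [Finset.mem_insert]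
          rintro (e3 | e3)
          · exact e e3
          · exact e2 e3)] at hh
        exact Finset.disjoint_left.1 (c.opt.dj i h fun e3 => e e3.symm) hmW hh
  have g6 : used W'' ⊆ (used W \ Q) ∪ E := by
    intro v hv
    have h1 := g2 hv
    rw [Finset.mem_union] at h1
    rcases h1 with h1 | h1
    · exact Finset.mem_union_left _ (Finset.mem_sdiff.2 ⟨h1, hQn v hv⟩)
    · exact Finset.mem_union_right _ h1
  have g7 := (Finset.card_le_card g6).trans (Finset.card_union_le _ _)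
  rw [Finset.card_sdiff_of_subset hQu, hQc] at g7
  have g8 := Finset.card_le_card hQu
  rw [hQc] at g8
  omega

end Pool.Agent.MP4432a5
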