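import Mathlib

/-!
# MP_4432a5_co: definitions (helper1)

Paper text: /team-store/TEXT_4432a5.md. Everything is stated for finite subsets `S` of an arbitrary
vertex type. A linkage is a family of pairwise disjoint CONNECTED finite sets.
-/

set_option autoImplicit false
set_option linter.all false

open Finset
open scoped Classical

namespace Pool.Agent.MP4432a5

variable {V : Type*}

/-- neighbours of `v` in the finite set `S` -/
noncomputable def nb (G : SimpleGraph V) (S : Finset V) (v : V) : Finset V :=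
  S.filter (fun w => G.Adj v w)

/-- number of neighbours of `v` in `S` -/
noncomputable def dg (G : SimpleGraph V) (S : Finset V) (v : V) : ℕ := (nb G S v).card

/-- the finite set `W` is connected in `G` (the empty set is connected) -/
def Cn (G : SimpleGraph V) (W : Finset V) : Prop :=
  ∀ u ∈ W, ∀ v ∈ W, Relation.ReflTransGen (fun a b => G.Adj a b ∧ b ∈ W) u v

/-- `W` is the vertex set of the path `q 0, ..., q r` from `a` to `b` -/
structure IsPth (G : SimpleGraph V) (W : Finset V) (a b : V) (r : ℕ) (q : ℕ → V) : Prop where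
  z : q 0 = a
  e : q r = b
  adj : ∀ j, j < r → G.Adj (q j) (q (j + 1))
  inj : ∀ i j, i ≤ r → j ≤ r → q i = q j → i = j
  img : W = (range (r + 1)).image q

/-- `2k` distinct terminals in `S` -/
structure Ter {k : ℕ} (S : Finset V) (s t : Fin k → V) : Prop where
  sS : ∀ i, s i ∈ S
  tS : ∀ i, t i ∈ S
  si : ∀ i j, s i = s j → i = j
  ti : ∀ i j, t i = t j → i = j
  st : ∀ i j, s i ≠ t j

/-- a system of level `l`: disjoint sets `W i` containing `s i` and `t i`, connected for `i < l`,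
equal to `{s i, t i}` for `i ≥ l` -/
structure Sys (G : SimpleGraph V) (S : Finset V) {k : ℕ} (s t : Fin k → V) (l : ℕ)
    (W : Fin k → Finset V) : Prop where
  sub : ∀ i, W i ⊆ S
  sm : ∀ i, s i ∈ W i
  tm : ∀ i, t i ∈ W i
  dj : ∀ i j, i ≠ j → Disjoint (W i) (W j)
  cn : ∀ i : Fin k, (i : ℕ) < l → Cn G (W i)
  un : ∀ i : Fin k, l ≤ (i : ℕ) → W i = {s i, t i}

/-- all vertices used by a family; the free vertices are those of `S \ used W` -/
noncomputable def used {k : ℕ} (W : Fin k → Finset V) : Finset V := univ.biUnion W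

/-- total weight -/
def pot {k : ℕ} (ω : V → ℕ) (W : Fin k → Finset V) : ℕ := ∑ i, ∑ v ∈ W i, ω v

/-- a system of level `l` of minimal total weight -/
structure Opt (G : SimpleGraph V) (S : Finset V) {k : ℕ} (s t : Fin k → V) (l : ℕ) (ω : V → ℕ)
    (W : Fin k → Finset V) : Prop extends Sys G S s t l W where
  mn : ∀ W' : Fin k → Finset V, Sys G S s t l W' → pot ω W ≤ pot ω W'

/-- the graph induced on `S` is `k`-linked -/
def KL (G : SimpleGraph V) (S : Finset V) (k : ℕ) : Prop :=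
  ∀ s t : Fin k → V, Ter S s t → ∃ W, Sys G S s t k W

/-- A modification of the family `W` supported on the items `H` and the (free) vertices `E`,
with an additional set `R` of vertices inside the support, disjoint from the new sets. -/
structure Md (G : SimpleGraph V) {k : ℕ} (s t : Fin k → V) (W : Fin k → Finset V)
    (H : Finset (Fin k)) (E R : Finset V) (W' : Fin k → Finset V) : Prop where
  sm : ∀ h ∈ H, s h ∈ W' h
  tm : ∀ h ∈ H, t h ∈ W' h
  cn : ∀ h ∈ H, Cn G (W' h)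
  sub : ∀ h ∈ H, W' h ⊆ H.biUnion W ∪ E
  dj : ∀ h ∈ H, ∀ h' ∈ H, h ≠ h' → Disjoint (W' h) (W' h')
  rsub : R ⊆ H.biUnion W ∪ E
  rdj : ∀ h ∈ H, Disjoint (W' h) R

/-- robust connectivity of the hub `X` -/
def HubP (G : SimpleGraph V) (X : Finset V) (B : ℕ) : Prop :=
  ∀ D : Finset V, D.card ≤ B → ∀ u ∈ X \ D, ∀ v ∈ X \ D,
    ∃ C : Finset V, C ⊆ X \ D ∧ u ∈ C ∧ v ∈ C ∧ Cn G C ∧ C.card ≤ 60

/-- vertices of `S` with at least `th` neighbours in `K` -/
noncomputable def Str (G : SimpleGraph V) (S : Finset V) (th : ℕ) (K : Finset V) : Finset V :=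
  S.filter (fun v => th ≤ dg G K v)

/-- vertices of the path `q 0, ..., q r` strictly between two vertices of `A` -/
noncomputable def Sg (A : Finset V) (r : ℕ) (q : ℕ → V) : Finset V :=
  ((range (r + 1)).filter
    (fun i => ∃ a b, a < i ∧ i < b ∧ b ≤ r ∧ q a ∈ A ∧ q b ∈ A)).image q

/-- one step of the closure -/
noncomputable def stp (G : SimpleGraph V) (S : Finset V) (th : ℕ) {k : ℕ} (l R0 : ℕ)
    (W : Fin k → Finset V) (r : Fin k → ℕ) (q : Fin k → ℕ → V) (K : Finset V) : Finset V :=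
  K ∪ ((S \ used W) ∩ Str G S th K) ∪
    (univ.filter (fun h : Fin k => (h : ℕ) < l ∧ (W h).card ≤ R0 ∧
      (Sg (Str G S th K) (r h) (q h) ∩ Str G S th K).Nonempty)).biUnion
        (fun h => Sg (Str G S th K) (r h) (q h))

/-- the closure of the hub `X` after `j` steps -/
noncomputable def cl (G : SimpleGraph V) (S : Finset V) (th : ℕ) {k : ℕ} (l R0 : ℕ)
    (W : Fin k → Finset V) (r : Fin k → ℕ) (q : Fin k → ℕ → V) (X : Finset V) : ℕ → Finset V
  | 0 => X
  | j + 1 => stp G S th l R0 W r q (cl G S th l R0 W r q X j)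

/-- complexity of certificates -/
def cc : ℕ → ℕ
  | 0 => 1
  | n + 1 => 4 * cc n + 100

/-- data for linking one more pair in `K ∪ T` (`T` independent), see `LinkPair`, `LinkStep` -/
structure LCtx (G : SimpleGraph V) (K T : Finset V) {k : ℕ} (s t : Fin k → V) (l : ℕ)
    (W : Fin k → Finset V) (Y : Finset V) : Prop where
  dKT : Disjoint K T
  ind : ∀ a ∈ T, ∀ b ∈ T, ¬ G.Adj a b
  card : (K ∪ T).card ≤ 10 * k
  ter : Ter (K ∪ T) s t
  sys : Sys G (K ∪ T) s t l W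
  pth : ∀ i : Fin k, (i : ℕ) < l → ∃ r q, IsPth G (W i) (s i) (t i) r q
  Ysub : Y ⊆ K
  Yfree : ∀ y ∈ Y, y ∉ used W
  Ycard : (1 / 10000 : ℝ) * k ≤ Y.card
  Y3 : ∀ y ∈ Y, ∀ i : Fin k, (i : ℕ) < l → (nb G (W i) y).card ≤ 3
  Y3' : ∀ y ∈ Y, ∀ i : Fin k, (i : ℕ) < l → (nb G (W i) y).card = 3 →
    ∃ w ∈ nb G (W i) y, w ≠ s i ∧ w ≠ t i ∧ Cn G (insert y ((W i).erase w))
  com : ∀ u ∈ K, ∀ y ∈ Y,
    ((2 : ℝ) + 1 / 10000) * k ≤ ((nb G (K ∪ T) u ∩ nb G (K ∪ T) y).card : ℝ)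
  deg : ∀ z ∈ T, ((2 : ℝ) + 1 / 10000) * k ≤ (dg G K z : ℝ)

/-! ## Part I: massed graphs -/

/-- the pairs `s i, t i` can be joined inside `S` by disjoint connected sets avoiding the other
vertices of `X` -/
def LkP (G : SimpleGraph V) (S X : Finset V) {m : ℕ} (s t : Fin m → V) : Prop :=
  ∃ W : Fin m → Finset V,
    (∀ i, W i ⊆ S ∧ s i ∈ W i ∧ t i ∈ W i ∧ Cn G (W i) ∧ W i ∩ X ⊆ {s i, t i}) ∧
    ∀ i j, i ≠ j → Disjoint (W i) (W j)

/-- `X` is linked in `S` -/
def Lk (G : SimpleGraph V) (S X : Finset V) : Prop :=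
  ∀ (m : ℕ) (s t : Fin m → V), Ter X s t → LkP G S X s t

/-- twice the number of edges of `G[S]` with at least one end in `A` -/
noncomputable def r2 (G : SimpleGraph V) (S A : Finset V) : ℕ :=
  ((S ×ˢ S).filter (fun p => G.Adj p.1 p.2 ∧ (p.1 ∈ A ∨ p.2 ∈ A))).card

/-- separations of `G[S]` -/
structure Sep (G : SimpleGraph V) (S A B : Finset V) : Prop where
  un : A ∪ B = S
  no : ∀ a ∈ A \ B, ∀ b ∈ B \ A, ¬ G.Adj a b

/-- massed pairs (Thomas and Wollan) -/
structure Massed (lam : ℝ) (G : SimpleGraph V) (S X : Finset V) : Prop where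
  XS : X ⊆ S
  m1 : 2 * lam * ((S \ X).card : ℝ) < (r2 G S (S \ X) : ℝ)
  m2 : ∀ A B : Finset V, Sep G S A B → X ⊆ A → (A ∩ B).card < X.card →
    (r2 G S (B \ A) : ℝ) ≤ 2 * lam * ((B \ A).card : ℝ)

/-- contraction of `v` into `u` (the vertex `v` becomes isolated) -/
def con (G : SimpleGraph V) (u v : V) : SimpleGraph V where
  Adj a b := a ≠ b ∧ a ≠ v ∧ b ≠ v ∧ (G.Adj a b ∨ (a = u ∧ G.Adj v b) ∨ (b = u ∧ G.Adj v a))
  symm := ⟨by
    rintro a b ⟨h1, h2, h3, h4⟩
    refine ⟨h1.symm, h3, h2, ?_⟩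
    rcases h4 with h | h | h
    · exact Or.inl h.symm
    · exact Or.inr (Or.inr h)
    · exact Or.inr (Or.inl h)⟩
  loopless := ⟨fun a h => h.1 rfl⟩

/-- all edges inside `C` are added -/
def addK (G : SimpleGraph V) (C : Finset V) : SimpleGraph V where
  Adj a b := G.Adj a b ∨ (a ≠ b ∧ a ∈ C ∧ b ∈ C)
  symm := ⟨by
    rintro a b (h | ⟨h1, h2, h3⟩)
    · exact Or.inl h.symm
    · exact Or.inr ⟨h1.symm, h3, h2⟩⟩
  loopless := ⟨fun a h => by
    rcases h with h | h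
    · exact G.loopless.irrefl a h
    · exact h.1 rfl⟩

/-- the edge `u v` is deleted -/
def del (G : SimpleGraph V) (u v : V) : SimpleGraph V where
  Adj a b := G.Adj a b ∧ ¬ (a = u ∧ b = v) ∧ ¬ (a = v ∧ b = u)
  symm := ⟨by
    rintro a b ⟨h1, h2, h3⟩
    exact ⟨h1.symm, fun h => h3 ⟨h.2, h.1⟩, fun h => h2 ⟨h.2, h.1⟩⟩⟩
  loopless := ⟨fun a h => G.loopless.irrefl a h.1⟩

/-- edges inside `X` are replaced by all edges except the pairs `s i, t i` -/
def cpl (G : SimpleGraph V) (X : Finset V) {m : ℕ} (s t : Fin m → V) : SimpleGraph V where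
  Adj a b := (G.Adj a b ∧ ¬ (a ∈ X ∧ b ∈ X)) ∨
    (a ≠ b ∧ a ∈ X ∧ b ∈ X ∧ ∀ i, ¬ (a = s i ∧ b = t i) ∧ ¬ (a = t i ∧ b = s i))
  symm := ⟨by
    rintro a b (⟨h1, h2⟩ | ⟨h1, h2, h3, h4⟩)
    · exact Or.inl ⟨h1.symm, fun h => h2 ⟨h.2, h.1⟩⟩
    · exact Or.inr ⟨h1.symm, h3, h2, fun i =>
        ⟨fun h => (h4 i).2 ⟨h.2, h.1⟩, fun h => (h4 i).1 ⟨h.2, h.1⟩⟩⟩⟩
  loopless := ⟨fun a h => by
    rcases h with h | h
    · exact G.loopless.irrefl a h.1
    · exact h.1 rfl⟩

/-- A minimal counterexample to `massed implies linked`, with the edges inside `X` completed.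
`N` bounds the size of `X`. -/
structure Crit (lam : ℝ) (N : ℕ) (G : SimpleGraph V) (S X : Finset V) {m : ℕ}
    (s t : Fin m → V) : Prop where
  ms : Massed lam G S X
  cX : X.card ≤ N
  ter : Ter X s t
  nl : ¬ LkP G S X s t
  cp : ∀ a ∈ X, ∀ b ∈ X, a ≠ b → G.Adj a b ∨ ∃ i, (a = s i ∧ b = t i) ∨ (a = t i ∧ b = s i)
  np : ∀ i, ¬ G.Adj (s i) (t i)
  ih : ∀ (G' : SimpleGraph V) (S' X' : Finset V), X'.card ≤ N → Massed lam G' S' X' →
    (S'.card < S.card ∨ (S'.card = S.card ∧ r2 G' S' (S' \ X') < r2 G S (S \ X))) →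
    Lk G' S' X'

end Pool.Agent.MP4432a5
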