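import Pool.Agent.Lib.MP_4432a5_co.MdApi

/-!
# MP_4432a5_co, module Handle: neighbours of terminals in `T`

Proof. `z ∈ T` has at least `(2 + e) k > 2 k` neighbours in `K`. Call `p ∈ K` bad if it is used and not of
the second kind. A bad `p` in an item `i ≥ l` is `s i` or `t i`. A bad `p` in an item `i < l`, `p = q n`: if `n = 0` then
`p = s i`; if `n > 0` and no `q a` with `a < n` is in `K` then `n = 1` and `s i ∈ T` (`q 0` and `q 1` would both be
in `T` if `n ≥ 2`, but they are adjacent); similarly at the other end: `n = r` or (`n = r - 1` and `t i ∈ T`).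
So in each item at most one bad vertex for the `s`-side (`s i` if `s i ∈ K`, `q 1` if `s i ∈ T`) and at most one
for the `t`-side: at most `2 k` bad vertices altogether.
-/

set_option autoImplicit false
set_option linter.all false

open Finset
open scoped Classical

namespace Pool.Agent.MP4432a5

variable {V : Type*} {G : SimpleGraph V} {K T : Finset V} {k l : ℕ} {s t : Fin k → V}
  {W : Fin k → Finset V} {Y : Finset V} {r : Fin k → ℕ} {q : Fin k → ℕ → V}

theorem exists_handle (c : LCtx G K T s t l W Y) (hk : 1 ≤ k)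
    (hq : ∀ i : Fin k, (i : ℕ) < l → IsPth G (W i) (s i) (t i) (r i) (q i)) {z : V} (hz : z ∈ T) :
    ∃ p ∈ K, G.Adj z p ∧ (p ∉ used W ∨ ∃ i : Fin k, (i : ℕ) < l ∧ ∃ n, 0 < n ∧ n < r i ∧
      q i n = p ∧ (∃ a, a < n ∧ q i a ∈ K) ∧ ∃ b, n < b ∧ b ≤ r i ∧ q i b ∈ K) := by
  set α : Fin k → V := fun i => if s i ∈ K then s i else q i 1 with hα
  set β : Fin k → V := fun i => if t i ∈ K then t i else q i (r i - 1) with hβ
  have hbad : ((univ : Finset (Fin k)).image α ∪ (univ : Finset (Fin k)).image β).card ≤ 2 * k := by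
    refine (card_union_le _ _).trans ?_
    have h1 : ((univ : Finset (Fin k)).image α).card ≤ k := by
      simpa using (card_image_le (s := (univ : Finset (Fin k))) (f := α))
    have h2 : ((univ : Finset (Fin k)).image β).card ≤ k := by
      simpa using (card_image_le (s := (univ : Finset (Fin k))) (f := β))
    omega
  have hdeg : 2 * k < (nb G K z).card := by
    have h1 := c.deg z hz
    have hk' : (1 : ℝ) ≤ k := by exact_mod_cast hk
    have h2 : ((2 * k : ℕ) : ℝ) < ((nb G K z).card : ℝ) := by
      have h3 : ((dg G K z : ℕ) : ℝ) = ((nb G K z).card : ℝ) := rfl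
      rw [← h3]
      push_cast
      linarith
    exact_mod_cast h2
  obtain ⟨p, hp, hpb⟩ : ∃ p ∈ nb G K z,
      p ∉ ((univ : Finset (Fin k)).image α ∪ (univ : Finset (Fin k)).image β) := by
    by_contra hcon
    push Not at hcon
    have h1 := card_le_card (show nb G K z ⊆ _ from hcon)
    omega
  have hpK : p ∈ K := (mem_filter.1 hp).1
  have hadj : G.Adj z p := (mem_filter.1 hp).2
  have hα' : ∀ i, α i ≠ p := fun i h =>
    hpb (mem_union_left _ (mem_image.2 ⟨i, mem_univ _, h⟩))
  have hβ' : ∀ i, β i ≠ p := fun i h =>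
    hpb (mem_union_right _ (mem_image.2 ⟨i, mem_univ _, h⟩))
  have hs : ∀ i, s i ≠ p := by
    intro i h
    have h1 : s i ∈ K := h ▸ hpK
    exact hα' i (by simp only [hα, if_pos h1]; exact h)
  have ht : ∀ i, t i ≠ p := by
    intro i h
    have h1 : t i ∈ K := h ▸ hpK
    exact hβ' i (by simp only [hβ, if_pos h1]; exact h)
  refine ⟨p, hpK, hadj, ?_⟩
  by_cases hu : p ∈ used W
  swap
  · exact Or.inl hu
  right
  obtain ⟨i, -, hi⟩ := mem_biUnion.1 hu
  by_cases hil : (i : ℕ) < l
  swap
  · exfalso
    rw [c.sys.un i (not_lt.1 hil)] at hi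
    rcases mem_insert.1 hi with h | h
    · exact hs i h.symm
    · exact ht i (mem_singleton.1 h).symm
  have P := hq i hil
  have hWm : ∀ j, j ≤ r i → q i j ∈ K ∪ T := by
    intro j hj
    apply c.sys.sub i
    rw [P.img]
    exact mem_image.2 ⟨j, mem_range.2 (by omega), rfl⟩
  have hT : ∀ j, j ≤ r i → q i j ∉ K → q i j ∈ T := by
    intro j hj h
    rcases mem_union.1 (hWm j hj) with h1 | h1
    · exact absurd h1 h
    · exact h1
  rw [P.img] at hi
  obtain ⟨n, hn, hnp⟩ := mem_image.1 hi
  have hnr : n ≤ r i := by have := mem_range.1 hn; omega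
  have hn0 : 0 < n := by
    rcases Nat.eq_zero_or_pos n with h | h
    · exfalso
      rw [h, P.z] at hnp
      exact hs i hnp
    · exact h
  have hnr' : n < r i := by
    rcases Nat.lt_or_eq_of_le hnr with h | h
    · exact h
    · exfalso
      rw [h, P.e] at hnp
      exact ht i hnp
  refine ⟨i, hil, n, hn0, hnr', hnp, ?_, ?_⟩
  · by_contra hcon
    push Not at hcon
    have h0 : q i 0 ∉ K := hcon 0 hn0
    rcases Nat.lt_or_ge 1 n with h1 | h1
    · exact c.ind _ (hT 0 (by omega) h0) _ (hT 1 (by omega) (hcon 1 h1)) (P.adj 0 (by omega))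
    · have hn1 : n = 1 := by omega
      rw [P.z] at h0
      exact hα' i (by simp only [hα, if_neg h0]; rw [← hnp, hn1])
  · by_contra hcon
    push Not at hcon
    have h0 : q i (r i) ∉ K := hcon (r i) hnr' le_rfl
    rcases Nat.lt_or_ge n (r i - 1) with h1 | h1
    · have h2 : q i (r i - 1) ∉ K := hcon (r i - 1) h1 (by omega)
      have h3 := P.adj (r i - 1) (by omega)
      rw [show r i - 1 + 1 = r i by omega] at h3
      exact c.ind _ (hT (r i - 1) (by omega) h2) _ (hT (r i) le_rfl h0) h3
    · have hn1 : n = r i - 1 := by omega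
      rw [P.e] at h0
      exact hβ' i (by simp only [hβ, if_neg h0]; rw [← hnp, hn1])

end Pool.Agent.MP4432a5
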