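import Pool.Agent.Lib.MP_4432a5_co.LinkPair
import Pool.Agent.Lib.MP_4432a5_co.Handle
import Pool.Agent.Lib.MP_4432a5_co.Break

/-!
# MP_4432a5_co, module LinkStep: linking one more pair

Proof. Fix paths `r, q` of the items `< l` (choice from `c.pth`). Let `a = s L`, `b = t L` (both in
`K ∪ T`, `W L = {a, b}`). For a terminal `z ∈ {a, b}`: if `z ∈ K` its handle is `p = z`; if `z ∈ T` let `p` be as in
`exists_handle` (free, or `p = q i n` splitting the item `i < l` into two parts which meet `K`).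
Case A: both handles equal (only possible if both terminals are in `T`). Then `A = {a, p, b}`; if `p` is free,
`Md.triv {p}` and `Md.next`; if `p = q i n`: `link3` with `F = {i}` and three times the pair `q i a', q i b'`
(`D = ∅`), `Md.subR`, `Md.break` with `m = n`, then `Md.next`.
Case B: both handles in the same item `i`, `p_a = q i n`, `p_b = q i n'`, `n ≠ n'`: with `m = min n n'`,
`m' = max n n'` free the segment `q[m..m']` (`Md.break` with `link3`-pair `q i a', q i b'`, `a' < m`, `b' > m'`),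
`A = {a, b} ∪ q[m..m']`.
Case C: otherwise the handles are different and (if both are in items `< l`) in different items. `link3`
with the pairs `(p_a, p_b)`, `(q i a', q i b')` (if `p_a = q i n`, else any pair), `(q i' a'', q i' b'')` (if
`p_b = q i' n'`, else any pair), `F` = the broken items, `D` = the free handles;
then `Md.addE` with the free handles, `Md.break` for the broken items (at most two), and `Md.next` with
`A = {a, b} ∪ {p_a, p_b} ∪ R1`.
In all cases `|E| ≤ 9 + 2`. `Md.next` gives `used W'' ⊆ used W ∪ E`.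
It is convenient to prove first a lemma that treats one terminal: given a modification with
remaining set `R1 ∪ R2`, `h0 ∉ H`, etc.
-/

set_option autoImplicit false
set_option linter.all false

open Finset
open scoped Classical

namespace Pool.Agent.MP4432a5

variable {V : Type*} {G : SimpleGraph V} {K T : Finset V} {k l : ℕ} {s t : Fin k → V}
  {W : Fin k → Finset V} {Y : Finset V}

private theorem ls_disj {S E : Finset V} {W : Fin k → Finset V} (h : E ⊆ S \ used W) :
    Disjoint E (used W) := by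
  rw [Finset.disjoint_left]
  intro a ha
  exact (Finset.mem_sdiff.mp (h ha)).2

/-- the data of a handle `p` of the terminal `z`; `F` is the broken item -/
private def Hd (G : SimpleGraph V) (K : Finset V) {k : ℕ} (l : ℕ) (W : Fin k → Finset V)
    (r : Fin k → ℕ) (q : Fin k → ℕ → V) (z p : V) (F : Finset (Fin k)) : Prop :=
  (p = z ∧ F = ∅) ∨ (G.Adj z p ∧ p ∉ used W ∧ F = ∅) ∨
    (G.Adj z p ∧ ∃ i : Fin k, F = {i} ∧ (i : ℕ) < l ∧ ∃ n, 0 < n ∧ n < r i ∧
      q i n = p ∧ (∃ a, a < n ∧ q i a ∈ K) ∧ ∃ b, n < b ∧ b ≤ r i ∧ q i b ∈ K)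

private theorem exists_hd {r : Fin k → ℕ} {q : Fin k → ℕ → V} (c : LCtx G K T s t l W Y)
    (hk : 1 ≤ k) (hq : ∀ i : Fin k, (i : ℕ) < l → IsPth G (W i) (s i) (t i) (r i) (q i))
    {z : V} (hz : z ∈ K ∪ T) : ∃ p ∈ K, ∃ F, Hd G K l W r q z p F := by
  rcases mem_union.mp hz with hz | hz
  · exact ⟨z, hz, ∅, Or.inl ⟨rfl, rfl⟩⟩
  · obtain ⟨p, hp, ha, h⟩ := exists_handle c hk hq hz
    rcases h with h | ⟨i, hi, n, h1, h2, h3, h4, h5⟩
    · exact ⟨p, hp, ∅, Or.inr (Or.inl ⟨ha, h, rfl⟩)⟩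
    · exact ⟨p, hp, {i}, Or.inr (Or.inr ⟨ha, i, rfl, hi, n, h1, h2, h3, h4, h5⟩)⟩

/-- treating one terminal -/
private theorem treat {r : Fin k → ℕ} {q : Fin k → ℕ → V} (c : LCtx G K T s t l W Y)
    (hq : ∀ i : Fin k, (i : ℕ) < l → IsPth G (W i) (s i) (t i) (r i) (q i))
    {z p : V} {F : Finset (Fin k)} (hp : p ∈ K) (hd : Hd G K l W r q z p F) :
    F.card ≤ 1 ∧ (∀ i ∈ F, (i : ℕ) < l) ∧ ∃ x ∈ K, ∃ y ∈ K, ∃ F0 : Finset V,
      F0 ⊆ {p} ∧ F0 ⊆ (K ∪ T) \ used W ∧
      ∀ (H : Finset (Fin k)) (E R Q : Finset V) (W' : Fin k → Finset V),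
        Md G s t W H E (R ∪ Q) W' → Disjoint E (used W) → p ∉ E → Disjoint H F → Disjoint R Q →
        Cn G Q → (∃ u ∈ Q, G.Adj x u) → (∃ u ∈ Q, G.Adj y u) →
        ∃ (P : Finset V) (W'' : Fin k → Finset V), Md G s t W (F ∪ H) (E ∪ F0) (P ∪ R) W'' ∧
          ((p = z ∧ P = ∅) ∨ (G.Adj z p ∧ P = {p} ∧ p ∉ R ∪ Q)) := by
  rcases hd with ⟨h1, h2⟩ | ⟨ha, h1, h2⟩ | ⟨ha, i, hF, hi, n, h1, h2, h3, ⟨a, h4, h4'⟩, b, h5, h5', h5''⟩
  · subst h2
    refine ⟨by simp, by simp, p, hp, p, hp, ∅, by simp, by simp, ?_⟩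
    intro H E R Q W' m _ _ _ _ _ _ _
    refine ⟨∅, W', ?_, Or.inl ⟨h1, rfl⟩⟩
    rw [Finset.empty_union, Finset.union_empty, Finset.empty_union]
    exact m.subR subset_union_left
  · subst h2
    refine ⟨by simp, by simp, p, hp, p, hp, {p}, Finset.Subset.refl _, ?_, ?_⟩
    · intro v hv
      rw [mem_singleton] at hv
      subst hv
      exact mem_sdiff.mpr ⟨mem_union_left _ hp, h1⟩
    intro H E R Q W' m hE hpE _ _ _ _ _
    have hpR : p ∉ R ∪ Q := by
      intro hpR
      rcases mem_union.mp (m.rsub hpR) with h | h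
      · obtain ⟨j, hj, hj'⟩ := mem_biUnion.mp h
        exact h1 (mem_used.mpr ⟨j, hj'⟩)
      · exact hpE h
    refine ⟨{p}, W', ?_, Or.inr ⟨ha, rfl, hpR⟩⟩
    rw [Finset.empty_union, Finset.union_comm {p} R]
    refine (m.subR subset_union_left).addE hE (disjoint_singleton_left.mpr h1) ?_
    rw [Finset.disjoint_left]
    intro v hv hvE
    have := (mem_sdiff.mp hv).1
    rw [mem_singleton] at this
    subst this
    exact hpE hvE
  · subst hF
    have hpW : p ∈ W i := (hq i hi).mem.mpr ⟨n, by omega, h3⟩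
    refine ⟨by simp, ?_, q i a, h4', q i b, h5'', ∅, by simp, by simp, ?_⟩
    · intro j hj
      rw [mem_singleton] at hj
      subst hj
      exact hi
    intro H E R Q W' m hE hpE hHF hRQ hQ hx hy
    have hiH : i ∉ H := fun h => Finset.disjoint_left.mp hHF h (mem_singleton_self i)
    have hpR : p ∉ R ∪ Q := by
      intro hpR
      rcases mem_union.mp (m.rsub hpR) with h | h
      · obtain ⟨j, hj, hj'⟩ := mem_biUnion.mp h
        have hji : j ≠ i := by
          rintro rfl
          exact hiH hj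
        exact Finset.disjoint_left.mp (c.sys.dj j i hji) hj' hpW
      · exact hpE h
    obtain ⟨A, hA⟩ := Md.break c.sys.dj m hE hRQ hiH (hq i hi) h4 (le_refl n) h5 h5' hQ hx hy
    refine ⟨{p}, Function.update W' i A, ?_, Or.inr ⟨ha, rfl, hpR⟩⟩
    rw [Finset.union_empty]
    have e1 : ({i} : Finset (Fin k)) ∪ H = insert i H := by
      rw [Finset.insert_eq]
    have e2 : ({p} : Finset V) = (Icc n n).image (q i) := by
      rw [Finset.Icc_self, Finset.image_singleton, h3]
    rw [e1, e2]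
    exact hA

/-- both handles in the same item -/
private theorem same_item {r : Fin k → ℕ} {q : Fin k → ℕ → V} (c : LCtx G K T s t l W Y)
    (hk : 10 ^ 20 ≤ k) {L : Fin k} (hL : (L : ℕ) = l)
    (hq : ∀ i : Fin k, (i : ℕ) < l → IsPth G (W i) (s i) (t i) (r i) (q i))
    {z z' : V} (hz : ({z, z'} : Finset V) = {s L, t L}) {i : Fin k} (hi : (i : ℕ) < l)
    {n n' a b : ℕ} (ha : a < n) (hn : n ≤ n') (hb : n' < b) (hbr : b ≤ r i)
    (haK : q i a ∈ K) (hbK : q i b ∈ K) (h1 : G.Adj z (q i n)) (h2 : G.Adj z' (q i n')) :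
    ∃ (W'' : Fin k → Finset V) (E : Finset V), Sys G (K ∪ T) s t (l + 1) W'' ∧
      used W'' ⊆ used W ∪ E ∧ E.card ≤ 20 := by
  obtain ⟨H, E, R1, R2, R3, W', m, f, e, _, k1, _, _, _, n1, _, _, x1, y1, _⟩ :=
    link3 c hk haK hbK haK hbK haK hbK {i} ∅ (by simp) (by simp)
  have hiH : i ∉ H := fun h => (f i h).2 (mem_singleton_self i)
  have m' : Md G s t W H E (∅ ∪ R1) W' := by
    apply m.subR
    intro v hv
    rw [Finset.empty_union] at hv
    exact mem_union_left _ (mem_union_left _ hv)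
  obtain ⟨A, hA⟩ := Md.break c.sys.dj m' (ls_disj e) (Finset.disjoint_empty_left _) hiH (hq i hi)
    ha hn hb hbr n1 x1 y1
  have hseg : Cn G ((Icc n n').image (q i)) := cn_seg (fun j _ hj => (hq i hi).adj j (by omega))
  have hmn : q i n ∈ (Icc n n').image (q i) := mem_image_of_mem _ (mem_Icc.mpr ⟨le_refl _, hn⟩)
  have hmn' : q i n' ∈ (Icc n n').image (q i) := mem_image_of_mem _ (mem_Icc.mpr ⟨hn, le_refl _⟩)
  have hc1 : Cn G (insert z' ((Icc n n').image (q i))) := hseg.insert_adj hmn' h2.symm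
  have hc2 : Cn G (insert z (insert z' ((Icc n n').image (q i)))) :=
    hc1.insert_adj (mem_insert_of_mem hmn) h1.symm
  have hsub : ({s L, t L} : Finset V) ⊆ insert z (insert z' ((Icc n n').image (q i))) := by
    rw [← hz]
    intro v hv
    rcases mem_insert.mp hv with h | h
    · rw [h]; exact mem_insert_self _ _
    · rw [mem_singleton] at h
      rw [h]; exact mem_insert_of_mem (mem_insert_self _ _)
  obtain ⟨W'', hW, hu⟩ := hA.next (l := l) c.sys (by
    intro h hh
    rcases mem_insert.mp hh with hh | hh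
    · rw [hh]; exact hi
    · exact (f h hh).1) e hL (hsub (by simp)) (hsub (by simp)) hc2 (by
    intro v hv
    rcases mem_insert.mp hv with h | h
    · apply mem_union_left
      rw [← hz, h]
      exact mem_insert_self _ _
    · rcases mem_insert.mp h with h | h
      · apply mem_union_left
        rw [← hz, h]
        exact mem_insert_of_mem (mem_singleton_self _)
      · exact mem_union_right _ (mem_union_left _ h))
  exact ⟨W'', E, hW, hu, by omega⟩

/-- both handles equal and free -/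
private theorem same_free (c : LCtx G K T s t l W Y) {L : Fin k} (hL : (L : ℕ) = l) {p : V}
    (hp : p ∈ K) (hf : p ∉ used W) (h1 : G.Adj (s L) p) (h2 : G.Adj (t L) p) :
    ∃ (W'' : Fin k → Finset V) (E : Finset V), Sys G (K ∪ T) s t (l + 1) W'' ∧
      used W'' ⊆ used W ∪ E ∧ E.card ≤ 20 := by
  have m : Md G s t W ∅ {p} {p} W := Md.triv {p}
  have hc1 : Cn G (insert (t L) ({p} : Finset V)) :=
    (cn_singleton p).insert_adj (mem_singleton_self p) h2.symm
  have hc2 : Cn G (insert (s L) (insert (t L) ({p} : Finset V))) :=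
    hc1.insert_adj (mem_insert_of_mem (mem_singleton_self p)) h1.symm
  obtain ⟨W'', hW, hu⟩ := m.next (l := l) c.sys (by simp) (by
    intro v hv
    rw [mem_singleton] at hv
    subst hv
    exact mem_sdiff.mpr ⟨mem_union_left _ hp, hf⟩) hL (mem_insert_self _ _)
    (mem_insert_of_mem (mem_insert_self _ _)) hc2 (by
    intro v hv
    simp only [mem_insert, mem_singleton, mem_union] at hv ⊢
    tauto)
  exact ⟨W'', {p}, hW, hu, by simp⟩

/-- different handles, not in the same item -/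
private theorem diff_case {r : Fin k → ℕ} {q : Fin k → ℕ → V} (c : LCtx G K T s t l W Y)
    (hk : 10 ^ 20 ≤ k) {L : Fin k} (hL : (L : ℕ) = l)
    (hq : ∀ i : Fin k, (i : ℕ) < l → IsPth G (W i) (s i) (t i) (r i) (q i))
    {p p' : V} {F F' : Finset (Fin k)} (hp : p ∈ K) (hp' : p' ∈ K)
    (hd : Hd G K l W r q (s L) p F) (hd' : Hd G K l W r q (t L) p' F') (hne : p ≠ p')
    (hFF : Disjoint F F') :
    ∃ (W'' : Fin k → Finset V) (E : Finset V), Sys G (K ∪ T) s t (l + 1) W'' ∧
      used W'' ⊆ used W ∪ E ∧ E.card ≤ 20 := by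
  obtain ⟨c1, c2, x, hx, y, hy, F0, c3, c4, T1⟩ := treat c hq hp hd
  obtain ⟨c1', c2', x', hx', y', hy', F0', c3', c4', T1'⟩ := treat c hq hp' hd'
  have hF : (F ∪ F').card ≤ 10 := le_trans (card_union_le _ _) (by omega)
  have hD : ({p, p'} : Finset V).card ≤ 20 := le_trans (card_le_two) (by omega)
  obtain ⟨H, E, R1, R2, R3, W', m, f, e, d, k1, d12, d13, d23, n1, n2, n3, u1, v1, u2, v2, u3, v3⟩ :=
    link3 c hk hp hp' hx hy hx' hy' (F ∪ F') {p, p'} hF hD
  have hE := ls_disj e
  have hpE : p ∉ E := fun h => Finset.disjoint_left.mp d h (by simp)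
  have hpE' : p' ∉ E := fun h => Finset.disjoint_left.mp d h (by simp)
  have hHF' : Disjoint H F' := by
    rw [Finset.disjoint_left]
    intro h h1 h2
    exact (f h h1).2 (mem_union_right _ h2)
  have hHF : Disjoint H F := by
    rw [Finset.disjoint_left]
    intro h h1 h2
    exact (f h h1).2 (mem_union_left _ h2)
  obtain ⟨P', W1, m1, g1⟩ := T1' H E (R1 ∪ R2) R3 W' m hE hpE' hHF'
    (Finset.disjoint_union_left.mpr ⟨d13, d23⟩) n3 u3 v3
  have hP' : p' ∉ R2 ∨ P' = ∅ := by
    rcases g1 with ⟨_, g⟩ | ⟨_, _, g⟩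
    · exact Or.inr g
    · left
      intro h
      exact g (mem_union_left _ (mem_union_right _ h))
  have hPP' : P' ⊆ {p'} := by
    rcases g1 with ⟨_, g⟩ | ⟨_, g, _⟩
    · rw [g]; simp
    · rw [g]
  have m2 : Md G s t W (F' ∪ H) (E ∪ F0') ((P' ∪ R1) ∪ R2) W1 := by
    rw [Finset.union_assoc]; exact m1
  have hE0 : E ∪ F0' ⊆ (K ∪ T) \ used W := union_subset e c4'
  have hpE0 : p ∉ E ∪ F0' := by
    intro h
    rcases mem_union.mp h with h | h
    · exact hpE h
    · have := c3' h
      rw [mem_singleton] at this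
      exact hne this
  have hHF2 : Disjoint (F' ∪ H) F := Finset.disjoint_union_left.mpr ⟨hFF.symm, hHF⟩
  have hd2 : Disjoint (P' ∪ R1) R2 := by
    refine Finset.disjoint_union_left.mpr ⟨?_, d12⟩
    rw [Finset.disjoint_left]
    intro v hv hv2
    rcases hP' with h | h
    · have := hPP' hv
      rw [mem_singleton] at this
      subst this
      exact h hv2
    · rw [h] at hv
      simp at hv
  obtain ⟨P, W2, m3, g2⟩ := T1 (F' ∪ H) (E ∪ F0') (P' ∪ R1) R2 W1 m2 (ls_disj hE0) hpE0 hHF2 hd2 n2 u2 v2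
  -- the new set
  have hA0 : Cn G (insert (t L) (P' ∪ R1)) := by
    obtain ⟨w, hw, hw'⟩ := v1
    rcases g1 with ⟨g, g'⟩ | ⟨ga, g, _⟩
    · rw [g', Finset.empty_union, ← g]
      exact n1.insert_adj hw hw'.symm
    · rw [g]
      have h1 : Cn G (insert p' R1) := n1.insert_adj hw hw'.symm
      have h2 : Cn G (insert (t L) (insert p' R1)) :=
        h1.insert_adj (mem_insert_self _ _) ga.symm
      rw [← Finset.insert_eq]
      exact h2
  have hA1 : Cn G (insert (s L) (P ∪ insert (t L) (P' ∪ R1))) := by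
    obtain ⟨w, hw, hw'⟩ := u1
    have hwm : w ∈ insert (t L) (P' ∪ R1) := mem_insert_of_mem (mem_union_right _ hw)
    rcases g2 with ⟨g, g'⟩ | ⟨ga, g, _⟩
    · rw [g', Finset.empty_union, ← g]
      exact hA0.insert_adj hwm hw'.symm
    · rw [g]
      have h1 : Cn G (insert p (insert (t L) (P' ∪ R1))) := hA0.insert_adj hwm hw'.symm
      have h2 : Cn G (insert (s L) (insert p (insert (t L) (P' ∪ R1)))) :=
        h1.insert_adj (mem_insert_self _ _) ga.symm
      rw [← Finset.insert_eq]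
      exact h2
  obtain ⟨W'', hW, hu⟩ := m3.next (l := l) c.sys (by
    intro h hh
    rcases mem_union.mp hh with hh | hh
    · exact c2 h hh
    · rcases mem_union.mp hh with hh | hh
      · exact c2' h hh
      · exact (f h hh).1) (union_subset hE0 c4) hL (mem_insert_self _ _)
    (mem_insert_of_mem (mem_union_right _ (mem_insert_self _ _))) hA1 (by
    intro v hv
    simp only [mem_insert, mem_singleton, mem_union] at hv ⊢
    tauto)
  refine ⟨W'', _, hW, hu, ?_⟩
  have q1 := card_union_le (E ∪ F0') F0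
  have q2 := card_union_le E F0'
  have q3 := card_le_card c3
  have q4 := card_le_card c3'
  rw [card_singleton] at q3 q4
  omega

theorem link_step (c : LCtx G K T s t l W Y) (hk : 10 ^ 20 ≤ k) {L : Fin k} (hL : (L : ℕ) = l) :
    ∃ (W'' : Fin k → Finset V) (E : Finset V), Sys G (K ∪ T) s t (l + 1) W'' ∧
      used W'' ⊆ used W ∪ E ∧ E.card ≤ 20 := by
  have hpth : ∃ (r : Fin k → ℕ) (q : Fin k → ℕ → V), ∀ i : Fin k, (i : ℕ) < l →
      IsPth G (W i) (s i) (t i) (r i) (q i) := by
    have h : ∀ i : Fin k, ∃ (r : ℕ) (q : ℕ → V), (i : ℕ) < l → IsPth G (W i) (s i) (t i) r q := by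
      intro i
      by_cases hi : (i : ℕ) < l
      · obtain ⟨r, q, h⟩ := c.pth i hi
        exact ⟨r, q, fun _ => h⟩
      · exact ⟨0, fun _ => s i, fun h => absurd h hi⟩
    choose r q h using h
    exact ⟨r, q, h⟩
  obtain ⟨r, q, hq⟩ := hpth
  have hk1 : 1 ≤ k := le_trans (by norm_num) hk
  have hWL : W L = {s L, t L} := c.sys.un L (le_of_eq hL.symm)
  have hsL : s L ∈ W L := c.sys.sm L
  have htL : t L ∈ W L := c.sys.tm L
  have hnot : ∀ v ∈ W L, ∀ i : Fin k, (i : ℕ) < l → v ∉ W i := by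
    intro v hv i hi hvi
    have hne : L ≠ i := by
      rintro rfl
      omega
    exact Finset.disjoint_left.mp (c.sys.dj L i hne) hv hvi
  obtain ⟨p, hp, F, hd⟩ := exists_hd c hk1 hq (c.ter.sS L)
  obtain ⟨p', hp', F', hd'⟩ := exists_hd c hk1 hq (c.ter.tS L)
  by_cases hFF : Disjoint F F'
  · by_cases hne : p = p'
    · subst hne
      -- both free
      rcases hd with ⟨h1, h2⟩ | ⟨ha, h1, h2⟩ | ⟨ha, i, hF, hi, n, h1, h2, h3, _⟩
      · subst h1
        rcases hd' with ⟨h1', _⟩ | ⟨_, h1', _⟩ | ⟨_, i', _, hi', n', _, h2', h3', _⟩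
        · exact absurd h1' (c.ter.st L L)
        · exact absurd (mem_used.mpr ⟨L, hsL⟩) h1'
        · exact absurd ((hq i' hi').mem.mpr ⟨n', by omega, h3'⟩) (hnot _ hsL i' hi')
      · rcases hd' with ⟨h1', _⟩ | ⟨ha', h1', _⟩ | ⟨_, i', _, hi', n', _, h2', h3', _⟩
        · subst h1'
          exact absurd (mem_used.mpr ⟨L, htL⟩) h1
        · exact same_free c hL hp h1 ha ha'
        · exact absurd (mem_used.mpr ⟨i', (hq i' hi').mem.mpr ⟨n', by omega, h3'⟩⟩) h1
      · have hpi : p ∈ W i := (hq i hi).mem.mpr ⟨n, by omega, h3⟩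
        rcases hd' with ⟨h1', _⟩ | ⟨_, h1', _⟩ | ⟨_, i', hF', hi', n', _, h2', h3', _⟩
        · subst h1'
          exact absurd hpi (hnot _ htL i hi)
        · exact absurd (mem_used.mpr ⟨i, hpi⟩) h1'
        · have hpi' : p ∈ W i' := (hq i' hi').mem.mpr ⟨n', by omega, h3'⟩
          have hii : i ≠ i' := by
            rintro rfl
            subst hF
            subst hF'
            exact Finset.disjoint_left.mp hFF (mem_singleton_self i) (mem_singleton_self i)
          exact absurd hpi' (Finset.disjoint_left.mp (c.sys.dj i i' hii) hpi)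
    · exact diff_case c hk hL hq hp hp' hd hd' hne hFF
  · rw [Finset.not_disjoint_iff] at hFF
    obtain ⟨j, hj, hj'⟩ := hFF
    rcases hd with ⟨_, h2⟩ | ⟨_, _, h2⟩ |
      ⟨ha, i, hF, hi, n, h1, h2, h3, ⟨a, h4, h4'⟩, b, h5, h5', h5''⟩
    · subst h2; simp at hj
    · subst h2; simp at hj
    rcases hd' with ⟨_, g2⟩ | ⟨_, _, g2⟩ |
      ⟨ga, i', gF, gi, n', g1, g2, g3, ⟨a', g4, g4'⟩, b', g5, g5', g5''⟩
    · subst g2; simp at hj'
    · subst g2; simp at hj'
    subst hF
    subst gF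
    rw [mem_singleton] at hj hj'
    subst hj
    subst hj'
    subst h3
    subst g3
    rcases le_total n n' with hnn | hnn
    · exact same_item c hk hL hq rfl hi h4 hnn g5 g5' h4' g5'' ha ga
    · exact same_item c hk hL hq (Finset.pair_comm _ _) hi g4 hnn h5 h5' g4' h5'' ga ha

end Pool.Agent.MP4432a5
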