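import Pool.Agent.Lib.MP_4432a5_co.ClaimSA
import Pool.Agent.Lib.MP_4432a5_co.LinkStep

/-!
# MP_4432a5_co, module LemmaA

Proof. Fix terminals, `ω = |S| + 1` on `K`, `1` elsewhere. Induction on `l ≤ k`: there is a system of level `l`
with `K \ used W ≠ ∅`. `l = 0`: `sys_zero`, `card_used_zero`, `|K| > 2 k`. Step: the optimum `W` of level `l`
(`exists_opt`) has `|used W ∩ K| ≤ |used W_old ∩ K| < |K|` (`Opt.card_le` with `N = |S|`, since `T` has total weight
`|T| ≤ N`); `claimSA`; `link_step`; the new system has `|K \ used W''| ≥ |K \ used W| - 20 ≥ e k - 20 > 0`.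
-/

set_option autoImplicit false
set_option linter.all false

open Finset
open scoped Classical

namespace Pool.Agent.MP4432a5

variable {V : Type*} {G : SimpleGraph V} {K T : Finset V} {k : ℕ}

theorem lemmaA (hk : 10 ^ 20 ≤ k) (hdis : Disjoint K T) (hind : ∀ a ∈ T, ∀ b ∈ T, ¬ G.Adj a b)
    (hcard : (K ∪ T).card ≤ 10 * k) (hK : 2 * k < K.card)
    (hd1 : ∀ u ∈ K, (3 + 1 / 10000) * (k : ℝ) ≤ dg G (K ∪ T) u)
    (hd2 : ∀ u ∈ K, ((K ∪ T).card : ℝ) + (2 + 1 / 10000) * k ≤ 2 * dg G (K ∪ T) u)
    (hd3 : ∀ z ∈ T, (2 + 1 / 10000) * (k : ℝ) ≤ dg G K z) : KL G (K ∪ T) k := by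
  intro s t hter
  obtain ⟨ω, hω⟩ : ∃ ω : V → ℕ, ω = fun v => if v ∈ K then (K ∪ T).card + 1 else 1 := ⟨_, rfl⟩
  have hωK : ∀ v ∈ K, ω v = (K ∪ T).card + 1 := by
    intro v hv
    rw [hω]
    simp only [hv, if_true]
  have hωn : ∀ v, v ∉ K → ω v = 1 := by
    intro v hv
    rw [hω]
    simp only [hv, if_false]
  have hωT : ∀ v ∈ T, ω v = 1 := fun v hv => hωn v (Finset.disjoint_right.mp hdis hv)
  have hsum : ∑ v ∈ (K ∪ T) \ K, ω v ≤ (K ∪ T).card := by
    rw [Finset.sum_congr rfl fun v hv => hωn v (Finset.mem_sdiff.mp hv).2]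
    simp only [Finset.sum_const, smul_eq_mul, mul_one]
    exact Finset.card_le_card Finset.sdiff_subset
  have key : ∀ l, l ≤ k → ∃ W : Fin k → Finset V, Sys G (K ∪ T) s t l W ∧
      (K \ used W).Nonempty := by
    intro l
    induction l with
    | zero =>
      intro _
      refine ⟨fun i => {s i, t i}, sys_zero hter, ?_⟩
      by_contra hne
      rw [Finset.not_nonempty_iff_eq_empty, Finset.sdiff_eq_empty_iff_subset] at hne
      have h1 := Finset.card_le_card hne
      rw [card_used_zero hter] at h1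
      omega
    | succ l ih =>
      intro hl
      obtain ⟨W0, h0, hf0⟩ := ih (by omega)
      obtain ⟨W, hopt⟩ := exists_opt h0 ω
      have hcl : (used W ∩ K).card ≤ (used W0 ∩ K).card :=
        hopt.card_le h0 hωK hsum Finset.subset_union_left
      have hfree : (K \ used W).Nonempty := by
        rw [← Finset.card_pos] at hf0 ⊢
        have e1 := Finset.card_sdiff_add_card_inter K (used W)
        have e2 := Finset.card_sdiff_add_card_inter K (used W0)
        rw [Finset.inter_comm] at e1 e2
        omega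
      have c := claimSA hdis hind hcard hd1 hd2 hd3 hter hωK hωT hopt hfree
      obtain ⟨W'', E, hS, hU, hE⟩ := link_step c hk (L := ⟨l, hl⟩) rfl
      refine ⟨W'', hS, ?_⟩
      have hY : 20 < (K \ used W).card := by
        have h1 := c.Ycard
        have h2 : (10 : ℝ) ^ 20 ≤ k := by exact_mod_cast hk
        have h3 : (20 : ℝ) < (K \ used W).card := by
          refine lt_of_lt_of_le ?_ h1
          nlinarith
        exact_mod_cast h3
      have hsub : K \ used W ⊆ (K \ used W'') ∪ E := by
        intro v hv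
        rw [Finset.mem_sdiff] at hv
        rw [Finset.mem_union, Finset.mem_sdiff]
        by_cases h1 : v ∈ E
        · exact Or.inr h1
        · refine Or.inl ⟨hv.1, fun h2 => ?_⟩
          rcases Finset.mem_union.mp (hU h2) with h3 | h3
          · exact hv.2 h3
          · exact h1 h3
      have h4 := (Finset.card_le_card hsub).trans (Finset.card_union_le _ _)
      rw [← Finset.card_pos]
      omega
  obtain ⟨W, hW, -⟩ := key k le_rfl
  exact ⟨W, hW⟩

end Pool.Agent.MP4432a5
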