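import Pool.Agent.Lib.MP_4432a5_co.SBCount
import Pool.Agent.Lib.MP_4432a5_co.LinkStep

/-!
# MP_4432a5_co, module LemmaB

Proof. `Hi`, `ω` as in `SBCount`. `claimSB`: `LCtx G K ∅ s t l W ((K \ Hi) \ used W)`: `Ycard` is `sb_many`; `Y3`, `Y3'` from
`sb_window`, `nb_three`; `com`: for `u ∈ K`, `y ∈ K \ Hi`: `|N(u) ∩ N(y)| ≥ |K| - m(u) - m(y) ≥
|K| - (1 + 2e) k - (|K| - (3 + 4e) k) = (2 + 2e) k`. `pth`: `Opt.path`.
`lemmaB`: as `lemmaA`, induction on `l ≤ k`: a system of level `l` with `used W ≠ K`; the optimum uses no more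
vertices (`Opt.card_le'`, `N = |K|`), `claimSB`, `link_step`; at most 20 more vertices, and at least `e k` were free.
-/

set_option autoImplicit false
set_option linter.all false

open Finset
open scoped Classical

namespace Pool.Agent.MP4432a5

variable {V : Type*} {G : SimpleGraph V} {K Hi : Finset V} {k l : ℕ}

private theorem lb_pos {ω : V → ℕ} (hw : SBw K Hi ω) : ∀ v ∈ K,
    K.card + 1 ≤ ω v ∧ ω v ≤ K.card + 2 := by
  intro v hv
  by_cases h : v ∈ Hi
  · rw [hw.hi v h]
    omega
  · rw [hw.lo v (Finset.mem_sdiff.mpr ⟨hv, h⟩)]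
    omega

theorem claimSB {s t : Fin k → V} {W : Fin k → Finset V} {ω : V → ℕ} (hk : 1 ≤ k)
    (hK : 2 * k < K.card) (hcard : K.card ≤ 10 * k)
    (hm : ∀ u ∈ K, (K.card : ℝ) - dg G K u ≤ (1 + 2 / 10000) * k)
    (hsum : ∑ u ∈ K, ((K.card : ℝ) - dg G K u) ≤
      ((K.card : ℝ) - (3 + 4 / 10000) * k) * (K.card - 2 * k) - (k : ℝ) ^ 2 / 100)
    (hHi : Hi = K.filter (fun u => (K.card : ℝ) - (3 + 4 / 10000) * k ≤ (K.card : ℝ) - dg G K u))
    (hter : Ter K s t) (hw : SBw K Hi ω) (hopt : Opt G K s t l ω W)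
    (hfree : (K \ used W).Nonempty) : LCtx G K ∅ s t l W ((K \ Hi) \ used W) := by
  have hpos : ∀ v ∈ K, 0 < ω v := fun v hv => by
    have := lb_pos hw v hv
    omega
  have hY : ∀ y ∈ (K \ Hi) \ used W, y ∈ K ∧ y ∉ Hi ∧ y ∉ used W := by
    intro y hy
    rw [Finset.mem_sdiff, Finset.mem_sdiff] at hy
    exact ⟨hy.1.1, hy.1.2, hy.2⟩
  refine
    { dKT := Finset.disjoint_empty_right K
      ind := fun a ha => absurd ha (Finset.notMem_empty a)
      card := by rw [Finset.union_empty]; exact hcard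
      ter := by rw [Finset.union_empty]; exact hter
      sys := by rw [Finset.union_empty]; exact hopt.toSys
      pth := fun i hi => hopt.path hpos i hi
      Ysub := fun y hy => (hY y hy).1
      Yfree := fun y hy => (hY y hy).2.2
      Ycard := sb_many hk hK hcard hm hsum hHi hter hw hopt hfree
      Y3 := fun y hy i _ => sb_three hw hopt (hY y hy).1 (hY y hy).2.2 i
      Y3' := ?_
      com := ?_
      deg := fun z hz => absurd hz (Finset.notMem_empty z) }
  · intro y hy i hi h3
    obtain ⟨hyK, -, hyu⟩ := hY y hy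
    obtain ⟨r, q, hq⟩ := hopt.path hpos i hi
    have hyW : y ∉ W i := fun h => hyu (mem_used.mpr ⟨i, h⟩)
    exact (nb_three hq hyW (sb_window hw hopt hyK hyu hi hq)).2 h3
  · intro u hu y hy
    obtain ⟨hyK, hyH, -⟩ := hY y hy
    rw [Finset.union_empty]
    have h1 := hm u hu
    have h2 : (3 + 4 / 10000) * (k : ℝ) < dg G K y := by
      by_contra hcon
      apply hyH
      rw [hHi, Finset.mem_filter]
      exact ⟨hyK, by linarith [not_lt.mp hcon]⟩
    have h3 : (nb G K u ∪ nb G K y).card ≤ K.card :=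
      Finset.card_le_card (Finset.union_subset (Finset.filter_subset _ _)
        (Finset.filter_subset _ _))
    have h4 := Finset.card_union_add_card_inter (nb G K u) (nb G K y)
    have h5 : (dg G K u : ℝ) + dg G K y ≤ K.card + ((nb G K u ∩ nb G K y).card : ℝ) := by
      have : dg G K u + dg G K y ≤ K.card + (nb G K u ∩ nb G K y).card := by
        unfold dg
        omega
      exact_mod_cast this
    have h6 : (0 : ℝ) ≤ k := Nat.cast_nonneg k
    nlinarith

theorem lemmaB (hk : 10 ^ 20 ≤ k) (hK : 2 * k < K.card) (hcard : K.card ≤ 10 * k)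
    (hm : ∀ u ∈ K, (K.card : ℝ) - dg G K u ≤ (1 + 2 / 10000) * k)
    (hsum : ∑ u ∈ K, ((K.card : ℝ) - dg G K u) ≤
      ((K.card : ℝ) - (3 + 4 / 10000) * k) * (K.card - 2 * k) - (k : ℝ) ^ 2 / 100) :
    KL G K k := by
  intro s t hter
  obtain ⟨Hi, hHi⟩ : ∃ Hi : Finset V, Hi = K.filter (fun u =>
    (K.card : ℝ) - (3 + 4 / 10000) * k ≤ (K.card : ℝ) - dg G K u) := ⟨_, rfl⟩
  obtain ⟨ω, hω⟩ : ∃ ω : V → ℕ, ω = fun v => if v ∈ Hi then K.card + 1 else K.card + 2 :=
    ⟨_, rfl⟩
  have hw : SBw K Hi ω := by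
    refine ⟨?_, ?_, ?_⟩
    · rw [hHi]
      exact Finset.filter_subset _ _
    · intro v hv
      rw [hω]
      simp only [hv, if_true]
    · intro v hv
      have := (Finset.mem_sdiff.mp hv).2
      rw [hω]
      simp only [this, if_false]
  have hk1 : 1 ≤ k := le_trans (Nat.one_le_pow _ _ (by norm_num)) hk
  have key : ∀ l, l ≤ k → ∃ W : Fin k → Finset V, Sys G K s t l W ∧
      (K \ used W).Nonempty := by
    intro l
    induction l with
    | zero =>
      intro _
      refine ⟨fun i => {s i, t i}, sys_zero hter, ?_⟩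
      by_contra hne
      rw [Finset.not_nonempty_iff_eq_empty, Finset.sdiff_eq_empty_iff_subset] at hne
      have h1 := Finset.card_le_card hne
      rw [card_used_zero hter] at h1
      omega
    | succ l ih =>
      intro hl
      obtain ⟨W0, h0, hf0⟩ := ih (by omega)
      obtain ⟨W, hopt⟩ := exists_opt h0 ω
      have hcl : (used W).card ≤ (used W0).card :=
        hopt.card_le' h0 (le_refl K.card) (lb_pos hw)
      have hfree : (K \ used W).Nonempty := by
        rw [← Finset.card_pos] at hf0 ⊢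
        rw [Finset.card_sdiff_of_subset hopt.toSys.used_sub]
        rw [Finset.card_sdiff_of_subset h0.used_sub] at hf0
        omega
      have c := claimSB hk1 hK hcard hm hsum hHi hter hw hopt hfree
      obtain ⟨W'', E, hS, hU, hE⟩ := link_step c hk (L := ⟨l, hl⟩) rfl
      rw [Finset.union_empty] at hS
      refine ⟨W'', hS, ?_⟩
      have hY : 20 < (K \ used W).card := by
        have h1 := c.Ycard
        have h2 : (10 : ℝ) ^ 20 ≤ k := by exact_mod_cast hk
        have h4 : (((K \ Hi) \ used W).card : ℝ) ≤ (K \ used W).card := by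
          exact_mod_cast Finset.card_le_card
            (Finset.sdiff_subset_sdiff Finset.sdiff_subset (Finset.Subset.refl _))
        have h3 : (20 : ℝ) < (K \ used W).card := by
          refine lt_of_lt_of_le ?_ (h1.trans h4)
          nlinarith
        exact_mod_cast h3
      have hsub : K \ used W ⊆ (K \ used W'') ∪ E := by
        intro v hv
        rw [Finset.mem_sdiff] at hv
        rw [Finset.mem_union, Finset.mem_sdiff]
        by_cases h1 : v ∈ E
        · exact Or.inr h1
        · refine Or.inl ⟨hv.1, fun h2 => ?_⟩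
          rcases Finset.mem_union.mp (hU h2) with h3 | h3
          · exact hv.2 h3
          · exact h1 h3
      have h4 := (Finset.card_le_card hsub).trans (Finset.card_union_le _ _)
      rw [← Finset.card_pos]
      omega
  obtain ⟨W, hW, -⟩ := key k le_rfl
  exact ⟨W, hW⟩

end Pool.Agent.MP4432a5
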