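import Pool.Agent.Lib.MP_4432a5_co.Extract
import Pool.Agent.Lib.MP_4432a5_co.LemmaA
import Pool.Agent.Lib.MP_4432a5_co.LemmaB

/-!
# MP_4432a5_co, module DenseMain

`e = 1/10000`, `c = 37/8`. If `KL G S k` take `L = S` (`|S| ≥ dg ≥ 2k`). Otherwise `extract` gives `K, T`. From
`2|K| + |T| ≤ (2c + e) k`, `|T| ≤ (2 + e) k`: `|K| + |T| ≤ (c + 1 + e) k`; a vertex of `K` shows `|K| + |T| ≥ (c - e) k`, so
`|K| ≥ (c - 2 - 2e) k > 2 k`. Let `T' = {z ∈ T : (2 + e) k ≤ dg G K z}`, `y = |T \ T'|`.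
Case 1: `y ≤ (c - 3 - 4e) k`. `G'` = `G` without the edges inside `T'`; `lemmaA` for `G'`, `K`, `T'` (for `u ∈ K`:
`dg (K ∪ T') u ≥ (c - e) k - y ≥ (3 + 3e) k`, and `2 (c - e) k - 2 y ≥ |K| + |T| - y + (2 + e) k`), then `KL.mono`; `L = K ∪ T'`.
Case 2: `y > (c - 3 - 4e) k`. `lemmaB` for `K`: `|K| - dg G K u ≤ |K| + |T| - (c - e) k ≤ (1 + 2e) k`;
`∑_{u ∈ K} dg G K u ≥ (c - e) k |K| - ∑_{z ∈ T} dg G K z ≥ (c - e) k |K| - |K| (|T| - y) - (2 + e) k y`; the numerical
inequality (`num_main`): with `κ = |K|/k`, `τ = |T|/k`: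
`(κ - 3 - 4e)(κ - 2) - 1/100 - κ (κ + τ - c + e) + (κ - 2 - e)(c - 3 - 4e) ≥ 0` for
`0 ≤ τ ≤ 2 + e`, `2κ + τ ≤ 2c + e`, `κ ≥ 2`.
(main part `κ (5/4 - τ) + 11/4 ≥ 1/32`.) `L = K`.
-/

set_option autoImplicit false
set_option linter.all false

open Finset
open scoped Classical

universe u

namespace Pool.Agent.MP4432a5

theorem num_main {κ τ y e : ℝ} (he : e = 1 / 10000) (hτ : 0 ≤ τ) (hτ2 : τ ≤ 2 + e)
    (h : 2 * κ + τ ≤ 37 / 4 + e) (hκ : 2 + e ≤ κ) (hy : 37 / 8 - 3 - 4 * e ≤ y) :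
    κ * (κ + τ - 37 / 8 + e) - (κ - 2 - e) * y ≤
      (κ - (3 + 4 * e)) * (κ - 2) - 1 / 100 := by
  have h1 : (κ - 2 - e) * (37 / 8 - 3 - 4 * e) ≤ (κ - 2 - e) * y :=
    mul_le_mul_of_nonneg_left hy (by linarith)
  have h2 : -(27 / 10 + 3 / 100) ≤ κ * (5 / 4 - 9 * e - τ) := by
    rcases le_total 0 (5 / 4 - 9 * e - τ) with h3 | h3
    · have h4 : 0 ≤ κ := by rw [he] at hκ; linarith
      have := mul_nonneg h4 h3
      linarith
    · have h4 : (37 / 4 + e - τ) / 2 * (5 / 4 - 9 * e - τ) ≤ κ * (5 / 4 - 9 * e - τ) :=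
        mul_le_mul_of_nonpos_right (by linarith) h3
      have h5 : 0 ≤ 2 + e - τ := by linarith
      have h6 : (37 / 4 + e - τ) * (5 / 4 - 9 * e - τ) =
          (29 / 4) * (-3 / 4 - 10 * e) + (2 + e - τ) * (29 / 4 - 3 / 4 - 10 * e) +
            (2 + e - τ) ^ 2 := by ring
      have h7 : 0 ≤ (2 + e - τ) * (29 / 4 - 3 / 4 - 10 * e) :=
        mul_nonneg h5 (by rw [he]; norm_num)
      have h8 := sq_nonneg (2 + e - τ)
      have h9 : (29 / 4 : ℝ) * (-3 / 4 - 10 * e) = -(87 / 16) - 145 / 2 * e := by ring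
      rw [he] at *
      linarith
  have h3 : (κ - (3 + 4 * e)) * (κ - 2) - 1 / 100 - (κ * (κ + τ - 37 / 8 + e) -
      (κ - 2 - e) * (37 / 8 - 3 - 4 * e)) =
      κ * (5 / 4 - 9 * e - τ) + (11 / 4 - 1 / 100) + (16 - 13 / 8) * e + 4 * e ^ 2 := by ring
  have h4 : 0 ≤ 4 * e ^ 2 := by positivity
  have h5 : 0 ≤ (16 - 13 / 8) * e := by rw [he]; norm_num
  linarith

private theorem dm_nb_sub {V : Type u} {G : SimpleGraph V} {A B : Finset V} (h : A ⊆ B) (v : V) :
    nb G A v ⊆ nb G B v := Finset.filter_subset_filter _ h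

private theorem dm_dg_le_card {V : Type u} (G : SimpleGraph V) (A : Finset V) (v : V) :
    dg G A v ≤ A.card := Finset.card_le_card (Finset.filter_subset _ _)

private theorem dm_dg_union {V : Type u} (G : SimpleGraph V) (A B : Finset V) (v : V) :
    dg G (A ∪ B) v ≤ dg G A v + dg G B v := by
  unfold dg nb
  rw [Finset.filter_union]
  exact Finset.card_union_le _ _

private theorem dm_dg_disj {V : Type u} (G : SimpleGraph V) {A B : Finset V} (h : Disjoint A B)
    (v : V) : dg G (A ∪ B) v = dg G A v + dg G B v := by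
  unfold dg nb
  rw [Finset.filter_union]
  exact Finset.card_union_of_disjoint (Finset.disjoint_filter_filter h)

private theorem dm_double {V : Type u} (G : SimpleGraph V) (A B : Finset V) :
    ∑ u ∈ A, dg G B u = ∑ z ∈ B, dg G A z := by
  unfold dg nb
  simp only [Finset.card_filter]
  rw [Finset.sum_comm]
  refine Finset.sum_congr rfl fun z _ => Finset.sum_congr rfl fun u _ => ?_
  simp only [G.adj_comm]

/-- the graph without the edges inside `X` -/
private def dmG {V : Type u} (G : SimpleGraph V) (X : Finset V) : SimpleGraph V where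
  Adj a b := G.Adj a b ∧ ¬ (a ∈ X ∧ b ∈ X)
  symm := ⟨fun _ _ h => ⟨h.1.symm, fun h2 => h.2 ⟨h2.2, h2.1⟩⟩⟩
  loopless := ⟨fun a h => G.loopless.irrefl a h.1⟩

private theorem dm_nb_of_notMem {V : Type u} (G : SimpleGraph V) (X A : Finset V) {u : V}
    (hu : u ∉ X) : dg (dmG G X) A u = dg G A u := by
  unfold dg nb
  congr 1
  refine Finset.filter_congr fun w _ => ?_
  exact ⟨fun h => h.1, fun h => ⟨h, fun h2 => hu h2.1⟩⟩

private theorem dm_nb_disj {V : Type u} (G : SimpleGraph V) (X A : Finset V) (hA : Disjoint A X)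
    (u : V) : dg (dmG G X) A u = dg G A u := by
  unfold dg nb
  congr 1
  refine Finset.filter_congr fun w hw => ?_
  exact ⟨fun h => h.1, fun h => ⟨h, fun h2 => (Finset.disjoint_left.mp hA hw) h2.2⟩⟩

theorem dense_main : ∃ k0 : ℕ, ∀ k ≥ k0, ∀ (V : Type u) (G : SimpleGraph V) (S : Finset V),
    S.Nonempty → (S.card : ℝ) ≤ 37 / 4 * k + 2 → (∀ v ∈ S, 37 / 8 * (k : ℝ) - 2 ≤ dg G S v) →
    ∃ L : Finset V, L ⊆ S ∧ 2 * k ≤ L.card ∧ KL G L k := by
  obtain ⟨k1, hk1⟩ := extract.{u}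
  refine ⟨max k1 (10 ^ 20), fun k hk V G S hne hS hdg => ?_⟩
  have hk20 : 10 ^ 20 ≤ k := (le_max_right _ _).trans hk
  have hkR : (10 ^ 20 : ℝ) ≤ k := by exact_mod_cast hk20
  have hkpos : (0 : ℝ) < k := lt_of_lt_of_le (by positivity) hkR
  by_cases hKL : KL G S k
  · refine ⟨S, subset_rfl, ?_, hKL⟩
    obtain ⟨v, hv⟩ := hne
    have h1 := hdg v hv
    have h2 : (dg G S v : ℝ) ≤ S.card := by exact_mod_cast dm_dg_le_card G S v
    have h3 : (2 * k : ℝ) ≤ S.card := by linarith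
    exact_mod_cast h3
  obtain ⟨K, T, hKS, hTS, hdis, hKne, hT, h2KT, hdeg⟩ :=
    hk1 k ((le_max_left _ _).trans hk) V G S hne hS hdg hKL
  obtain ⟨Kc, hKc⟩ : ∃ Kc : ℝ, Kc = K.card := ⟨_, rfl⟩
  obtain ⟨Tc, hTc⟩ : ∃ Tc : ℝ, Tc = T.card := ⟨_, rfl⟩
  have hT0 : 0 ≤ Tc := by rw [hTc]; positivity
  rw [← hTc] at hT h2KT
  rw [← hKc] at h2KT
  have hcardKT : ((K ∪ T).card : ℝ) = Kc + Tc := by
    rw [hKc, hTc, Finset.card_union_of_disjoint hdis]
    push_cast
    ring
  have hlow : (37 / 8 - 1 / 10000) * (k : ℝ) ≤ Kc + Tc := by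
    obtain ⟨u, hu⟩ := hKne
    have h1 := hdeg u hu
    have h2 : (dg G (K ∪ T) u : ℝ) ≤ (K ∪ T).card := by
      exact_mod_cast dm_dg_le_card G (K ∪ T) u
    rw [hcardKT] at h2
    linarith
  have hKlow : (37 / 8 - 2 - 2 / 10000) * (k : ℝ) ≤ Kc := by linarith
  have hKTup : Kc + Tc ≤ (37 / 8 + 1 + 1 / 10000) * (k : ℝ) := by linarith
  have hK2 : 2 * k < K.card := by
    have : (2 * k : ℝ) < K.card := by rw [← hKc]; linarith
    exact_mod_cast this
  obtain ⟨T', hT'⟩ : ∃ T' : Finset V, T' = T.filter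
    (fun z => (2 + 1 / 10000) * (k : ℝ) ≤ dg G K z) := ⟨_, rfl⟩
  have hT'T : T' ⊆ T := by rw [hT']; exact Finset.filter_subset _ _
  obtain ⟨y, hy⟩ : ∃ y : ℝ, y = (T \ T').card := ⟨_, rfl⟩
  have hy0 : 0 ≤ y := by rw [hy]; positivity
  have hcardT' : (T'.card : ℝ) = Tc - y := by
    have h1 : (T \ T').card + T'.card = T.card := Finset.card_sdiff_add_card_eq_card hT'T
    have h2 : ((T \ T').card : ℝ) + T'.card = T.card := by exact_mod_cast h1
    rw [hTc, hy]
    linarith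
  have hdis' : Disjoint K T' := hdis.mono_right hT'T
  have hTun : K ∪ T = (K ∪ T') ∪ (T \ T') := by
    rw [Finset.union_assoc, Finset.union_sdiff_of_subset hT'T]
  by_cases hcase : y ≤ (37 / 8 - 3 - 4 / 10000) * (k : ℝ)
  · -- Case 1
    have hcardKT' : ((K ∪ T').card : ℝ) = Kc + Tc - y := by
      rw [Finset.card_union_of_disjoint hdis']
      push_cast
      rw [hcardT', ← hKc]
      ring
    have hdg' : ∀ u ∈ K, (37 / 8 - 1 / 10000) * (k : ℝ) - y ≤ dg (dmG G T') (K ∪ T') u := by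
      intro u hu
      have hu' : u ∉ T' := fun h => Finset.disjoint_left.mp hdis' hu h
      rw [dm_nb_of_notMem G T' (K ∪ T') hu']
      have h1 := hdeg u hu
      have h2 : (dg G (K ∪ T) u : ℝ) ≤ dg G (K ∪ T') u + dg G (T \ T') u := by
        rw [hTun]
        exact_mod_cast dm_dg_union G (K ∪ T') (T \ T') u
      have h3 : (dg G (T \ T') u : ℝ) ≤ y := by
        rw [hy]
        exact_mod_cast dm_dg_le_card G (T \ T') u
      linarith
    have hA : KL (dmG G T') (K ∪ T') k := by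
      refine lemmaA hk20 hdis' ?_ ?_ hK2 ?_ ?_ ?_
      · intro a ha b hb h
        exact h.2 ⟨ha, hb⟩
      · have : ((K ∪ T').card : ℝ) ≤ 10 * k := by rw [hcardKT']; linarith
        exact_mod_cast this
      · intro u hu
        have := hdg' u hu
        linarith
      · intro u hu
        have := hdg' u hu
        rw [hcardKT']
        linarith
      · intro z hz
        rw [dm_nb_disj G T' K hdis' z]
        rw [hT'] at hz
        exact (Finset.mem_filter.mp hz).2
    refine ⟨K ∪ T', Finset.union_subset hKS (hT'T.trans hTS), ?_, ?_⟩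
    · exact hK2.le.trans (Finset.card_le_card Finset.subset_union_left)
    · exact KL.mono hA fun a b h => h.1
  · -- Case 2
    push Not at hcase
    have hdgK : ∀ u ∈ K, (37 / 8 - 1 / 10000) * (k : ℝ) ≤ dg G K u + dg G T u := by
      intro u hu
      have h1 := hdeg u hu
      rw [dm_dg_disj G hdis u] at h1
      push_cast at h1
      exact h1
    have hsumT : (∑ u ∈ K, (dg G T u : ℝ)) ≤ Kc * (Tc - y) + (2 + 1 / 10000) * k * y := by
      have h1 : (∑ u ∈ K, (dg G T u : ℝ)) = ∑ z ∈ T, (dg G K z : ℝ) := by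
        exact_mod_cast dm_double G K T
      rw [h1, ← Finset.sum_sdiff hT'T]
      have h2 : ∑ z ∈ T \ T', (dg G K z : ℝ) ≤ (2 + 1 / 10000) * k * y := by
        have h3 : ∑ z ∈ T \ T', (dg G K z : ℝ) ≤ ∑ z ∈ T \ T', (2 + 1 / 10000) * (k : ℝ) := by
          refine Finset.sum_le_sum fun z hz => ?_
          obtain ⟨hz1, hz2⟩ := Finset.mem_sdiff.mp hz
          rw [hT', Finset.mem_filter] at hz2
          by_contra hcon
          push Not at hcon
          exact hz2 ⟨hz1, hcon.le⟩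
        rw [Finset.sum_const, nsmul_eq_mul, ← hy] at h3
        linarith
      have h4 : ∑ z ∈ T', (dg G K z : ℝ) ≤ Kc * (Tc - y) := by
        have h3 : ∑ z ∈ T', (dg G K z : ℝ) ≤ ∑ z ∈ T', Kc := by
          refine Finset.sum_le_sum fun z _ => ?_
          rw [hKc]
          exact_mod_cast dm_dg_le_card G K z
        rw [Finset.sum_const, nsmul_eq_mul, hcardT'] at h3
        linarith
      linarith
    have hB : KL G K k := by
      refine lemmaB hk20 hK2 ?_ ?_ ?_
      · have : (K.card : ℝ) ≤ 10 * k := by rw [← hKc]; linarith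
        exact_mod_cast this
      · intro u hu
        have h1 := hdgK u hu
        have h2 : (dg G T u : ℝ) ≤ Tc := by
          rw [hTc]
          exact_mod_cast dm_dg_le_card G T u
        rw [← hKc]
        linarith
      · rw [Finset.sum_sub_distrib, Finset.sum_const, nsmul_eq_mul, ← hKc]
        have h1 : (37 / 8 - 1 / 10000) * (k : ℝ) * Kc ≤
            ∑ u ∈ K, (dg G K u : ℝ) + ∑ u ∈ K, (dg G T u : ℝ) := by
          rw [← Finset.sum_add_distrib]
          have h2 := Finset.sum_le_sum hdgK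
          rw [Finset.sum_const, nsmul_eq_mul, ← hKc] at h2
          linarith
        have h3 := num_main (κ := Kc / k) (τ := Tc / k) (y := y / k) (e := 1 / 10000) rfl
          (by positivity) (by rw [div_le_iff₀ hkpos]; linarith)
          (by
            have : 2 * (Kc / k) + Tc / k = (2 * Kc + Tc) / k := by ring
            rw [this, div_le_iff₀ hkpos]
            linarith)
          (by rw [le_div_iff₀ hkpos]; linarith)
          (by rw [le_div_iff₀ hkpos]; linarith)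
        have h4 := mul_le_mul_of_nonneg_left h3 (sq_nonneg (k : ℝ))
        have e1 : (k : ℝ) ^ 2 * (Kc / k * (Kc / k + Tc / k - 37 / 8 + 1 / 10000) -
            (Kc / k - 2 - 1 / 10000) * (y / k)) =
            Kc * (Kc + Tc - 37 / 8 * k + 1 / 10000 * k) - (Kc - 2 * k - 1 / 10000 * k) * y := by
          field_simp
        have e2 : (k : ℝ) ^ 2 * ((Kc / k - (3 + 4 * (1 / 10000))) * (Kc / k - 2) - 1 / 100) =
            (Kc - (3 + 4 / 10000) * k) * (Kc - 2 * k) - (k : ℝ) ^ 2 / 100 := by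
          field_simp
        rw [e1, e2] at h4
        refine le_trans ?_ h4
        nlinarith
    exact ⟨K, hKS, hK2.le, hB⟩

end Pool.Agent.MP4432a5
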