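import Pool.Agent.Lib.MP_4432a5_co.NearSep

/-!
# MP_4432a5_co, module Extract: the Corollary of Part III

Let `e = 1/10000`, `η = e ^ 2 / 100`, `S = K0 ∪ T ∪ M0` from `near_sep` (`|S| ≤ 37k/4 + 2 ≤ 10 k`,
`dg ≥ 37k/8 - 2 ≥ 4 k`).
If `|M0| ≤ |K0|` take `K := M0`: `2|K| + |T| ≤ |S| ≤ 37k/4 + 2`, and `u ∈ M0` has at least
`37k/8 - 2 - η k` neighbours in `K ∪ T`.
Otherwise `K := {u ∈ K0 : dg G M0 u ≤ (e/2) k}`. Double counting of the edges between `K0` and `M0`: at most
`η k |M0| ≤ 10 η k ^ 2`, so at most `20 η k / e = e k / 5` vertices are removed; `|K| ≥ k/2 - e k/5 > 0`;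
`u ∈ K` has at least `37k/8 - 2 - (e/2) k - (e/5) k` neighbours in `K ∪ T`;
`2|K| + |T| ≤ 2|K0| + |T| ≤ |S|`.
-/

set_option autoImplicit false
set_option linter.all false

open Finset
open scoped Classical

universe u

namespace Pool.Agent.MP4432a5

private theorem dg_un {V : Type*} (G : SimpleGraph V) {A B : Finset V} (h : Disjoint A B) (u : V) :
    dg G (A ∪ B) u = dg G A u + dg G B u := by
  unfold dg nb
  rw [Finset.filter_union, Finset.card_union_of_disjoint (Finset.disjoint_filter_filter h)]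

private theorem dg_mono {V : Type*} (G : SimpleGraph V) {A B : Finset V} (h : A ⊆ B) (u : V) :
    dg G A u ≤ dg G B u :=
  Finset.card_le_card (Finset.filter_subset_filter _ h)

private theorem dg_card {V : Type*} (G : SimpleGraph V) (A : Finset V) (u : V) :
    dg G A u ≤ A.card := Finset.card_filter_le _ _

private theorem dg_count {V : Type*} (G : SimpleGraph V) (A B : Finset V) :
    ∑ u ∈ A, (dg G B u : ℝ) = ∑ v ∈ B, (dg G A v : ℝ) := by
  have h1 : ∀ (X : Finset V) (u : V), (dg G X u : ℝ) = ∑ v ∈ X, if G.Adj u v then (1 : ℝ) else 0 := by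
    intro X u
    unfold dg nb
    rw [Finset.card_filter]
    push_cast
    rfl
  simp_rw [h1]
  rw [Finset.sum_comm]
  refine Finset.sum_congr rfl fun v _ => Finset.sum_congr rfl fun u _ => ?_
  simp only [G.adj_comm]

theorem extract : ∃ k0 : ℕ, ∀ k ≥ k0, ∀ (V : Type u) (G : SimpleGraph V) (S : Finset V),
    S.Nonempty → (S.card : ℝ) ≤ 37 / 4 * k + 2 → (∀ v ∈ S, 37 / 8 * (k : ℝ) - 2 ≤ dg G S v) →
    ¬ KL G S k →
    ∃ K T : Finset V, K ⊆ S ∧ T ⊆ S ∧ Disjoint K T ∧ K.Nonempty ∧
      (T.card : ℝ) ≤ (2 + 1 / 10000) * k ∧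
      2 * (K.card : ℝ) + T.card ≤ (37 / 4 + 1 / 10000) * k ∧
      ∀ u ∈ K, (37 / 8 - 1 / 10000) * (k : ℝ) ≤ dg G (K ∪ T) u := by
  obtain ⟨k0, hk0⟩ := near_sep.{u} (1 / 10000000000) (by norm_num)
  refine ⟨max k0 100000, fun k hk V G S hS hc hd hnl => ?_⟩
  have hk1 : k0 ≤ k := le_trans (le_max_left _ _) hk
  have hk2 : (100000 : ℝ) ≤ k := by exact_mod_cast le_trans (le_max_right _ _) hk
  have hkk : (0 : ℝ) ≤ k := by linarith
  have hc' : S.card ≤ 10 * k := by
    have : (S.card : ℝ) ≤ ((10 * k : ℕ) : ℝ) := by push_cast; linarith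
    exact_mod_cast this
  have hd' : ∀ v ∈ S, 4 * k ≤ dg G S v := by
    intro v hv
    have h := hd v hv
    have : ((4 * k : ℕ) : ℝ) ≤ (dg G S v : ℝ) := by push_cast; linarith
    exact_mod_cast this
  obtain ⟨K0, T, M0, hKT, hKM, hTM, hun, hTc, hKc, hMn, hM⟩ := hk0 k hk1 V G S hS hc' hd' hnl
  have hK0S : K0 ⊆ S := by
    rw [← hun]; intro x hx; simp [hx]
  have hTS : T ⊆ S := by
    rw [← hun]; intro x hx; simp [hx]
  have hM0S : M0 ⊆ S := by
    rw [← hun]; intro x hx; simp [hx]
  have hdj : Disjoint (K0 ∪ T) M0 := Finset.disjoint_union_left.2 ⟨hKM, hTM⟩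
  have hcard : (S.card : ℝ) = K0.card + T.card + M0.card := by
    rw [← hun, Finset.card_union_of_disjoint hdj, Finset.card_union_of_disjoint hKT]
    push_cast; ring
  have hdeg : ∀ u, (dg G S u : ℝ) = dg G K0 u + dg G T u + dg G M0 u := by
    intro u
    rw [← hun, dg_un G hdj, dg_un G hKT]
    push_cast; ring
  by_cases hle : M0.card ≤ K0.card
  · refine ⟨M0, T, hM0S, hTS, hTM.symm, hMn, hTc, ?_, ?_⟩
    · have : (M0.card : ℝ) ≤ K0.card := by exact_mod_cast hle
      nlinarith
    · intro u hu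
      have h1 := hd u (hM0S hu)
      have h2 := hM u hu
      rw [dg_un G hTM.symm]
      push_cast
      have h3 := hdeg u
      nlinarith
  · push_neg at hle
    have hle' : (K0.card : ℝ) ≤ M0.card := by exact_mod_cast hle.le
    set K : Finset V := K0.filter (fun u => (dg G M0 u : ℝ) ≤ 1 / 20000 * k) with hK
    set R : Finset V := K0.filter (fun u => ¬ (dg G M0 u : ℝ) ≤ 1 / 20000 * k) with hR
    have hKs : K ⊆ K0 := Finset.filter_subset _ _
    have hKR : (K.card : ℝ) + R.card = K0.card := by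
      have := Finset.card_filter_add_card_filter_not (s := K0)
        (p := fun u => (dg G M0 u : ℝ) ≤ 1 / 20000 * k)
      exact_mod_cast this
    have hKRu : K ∪ R = K0 := Finset.filter_union_filter_not_eq _ _
    have hKRd : Disjoint K R := Finset.disjoint_filter_filter_not _ _ _
    have hMc : (M0.card : ℝ) ≤ 10 * k := by
      have h1 : (M0.card : ℝ) ≤ S.card := by exact_mod_cast Finset.card_le_card hM0S
      linarith
    have hRc : (R.card : ℝ) * (1 / 20000 * k) ≤ M0.card * (1 / 10000000000 * k) := by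
      calc (R.card : ℝ) * (1 / 20000 * k) = ∑ u ∈ R, (1 / 20000 * (k : ℝ)) := by
            rw [Finset.sum_const, nsmul_eq_mul]
        _ ≤ ∑ u ∈ R, (dg G M0 u : ℝ) := by
            refine Finset.sum_le_sum fun u hu => ?_
            have := (Finset.mem_filter.1 hu).2
            linarith
        _ ≤ ∑ u ∈ K0, (dg G M0 u : ℝ) := by
            refine Finset.sum_le_sum_of_subset_of_nonneg (Finset.filter_subset _ _) ?_
            intros; positivity
        _ = ∑ v ∈ M0, (dg G K0 v : ℝ) := dg_count G K0 M0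
        _ ≤ ∑ v ∈ M0, (1 / 10000000000 * (k : ℝ)) := Finset.sum_le_sum fun v hv => hM v hv
        _ = M0.card * (1 / 10000000000 * k) := by rw [Finset.sum_const, nsmul_eq_mul]
    have hRb : (R.card : ℝ) ≤ 1 / 50000 * k := by
      have hk3 : (0 : ℝ) < k := by linarith
      have h1 : (R.card : ℝ) * (1 / 20000) ≤ M0.card * (1 / 10000000000) := by
        have : (R.card * (1 / 20000) : ℝ) * k ≤ (M0.card * (1 / 10000000000)) * k := by
          nlinarith
        exact le_of_mul_le_mul_right this hk3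
      nlinarith
    have hKc' : (k : ℝ) ≤ 2 * K0.card := by exact_mod_cast hKc
    refine ⟨K, T, hKs.trans hK0S, hTS, ?_, ?_, hTc, ?_, ?_⟩
    · exact Finset.disjoint_of_subset_left hKs hKT
    · rw [← Finset.card_pos]
      have : (0 : ℝ) < K.card := by nlinarith
      exact_mod_cast this
    · have : (K.card : ℝ) ≤ K0.card := by exact_mod_cast Finset.card_le_card hKs
      nlinarith
    · intro u hu
      have h1 := hd u (hK0S (hKs hu))
      have h2 := (Finset.mem_filter.1 hu).2
      rw [dg_un G (Finset.disjoint_of_subset_left hKs hKT)]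
      push_cast
      have h3 := hdeg u
      have h4 : (dg G K0 u : ℝ) = dg G K u + dg G R u := by
        rw [← hKRu, dg_un G hKRd]; push_cast; ring
      have h5 : (dg G R u : ℝ) ≤ R.card := by exact_mod_cast dg_card G R u
      nlinarith

end Pool.Agent.MP4432a5
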