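import Pool.Agent.Lib.MP_4432a5_co.Conn

/-!
# MP_4432a5_co, module RBasic: `r2`, `Sep`, `Lk`

`r2 G S A` = number of ordered pairs `(a, b) ∈ S × S`, adjacent, with `a ∈ A` or `b ∈ A`.
-/

set_option autoImplicit false
set_option linter.all false

open Finset
open scoped Classical

namespace Pool.Agent.MP4432a5

variable {V : Type*} {G H : SimpleGraph V} {S X A B Z L : Finset V} {k : ℕ}

theorem r2_mono (h : ∀ a ∈ S, ∀ b ∈ S, (a ∈ A ∨ b ∈ A) → G.Adj a b → H.Adj a b) :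
    r2 G S A ≤ r2 H S A := by
  unfold r2
  refine card_le_card fun p hp => ?_
  rw [mem_filter, mem_product] at hp ⊢
  exact ⟨hp.1, h _ hp.1.1 _ hp.1.2 hp.2.2 hp.2.1, hp.2.2⟩

/-- all edges with an end in `B \ A` are inside `B` -/
theorem r2_sep (h : Sep G S A B) : r2 G S (B \ A) = r2 G B (B \ A) := by
  unfold r2
  congr 1
  have hBS : B ⊆ S := by
    rw [← h.un]; exact subset_union_right
  have key : ∀ x ∈ B \ A, ∀ y ∈ S, G.Adj x y → y ∈ B := by
    intro x hx y hy hxy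
    by_contra hyB
    have hyA : y ∈ A := by
      rw [← h.un, mem_union] at hy
      exact hy.resolve_right hyB
    exact h.no y (mem_sdiff.2 ⟨hyA, hyB⟩) x hx hxy.symm
  ext ⟨a, b⟩
  rw [mem_filter, mem_filter, mem_product, mem_product]
  constructor
  · rintro ⟨⟨ha, hb⟩, hab, hor⟩
    refine ⟨?_, hab, hor⟩
    rcases hor with h1 | h1
    · exact ⟨(mem_sdiff.1 h1).1, key a h1 b hb hab⟩
    · exact ⟨key b h1 a ha hab.symm, (mem_sdiff.1 h1).1⟩
  · rintro ⟨⟨ha, hb⟩, hab, hor⟩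
    exact ⟨⟨hBS ha, hBS hb⟩, hab, hor⟩

/-- `r2 G S (S \ X)` splits along a separation (`X ⊆ A`) -/
theorem r2_split (h : Sep G S A B) (hX : X ⊆ A) :
    r2 G S (S \ X) = r2 G A (A \ X) + r2 G S (B \ A) := by
  unfold r2
  have hAS : A ⊆ S := by
    rw [← h.un]; exact subset_union_left
  have hBS : B ⊆ S := by
    rw [← h.un]; exact subset_union_right
  have hS : ∀ x ∈ S, x ∉ B \ A → x ∈ A := by
    intro x hx hxB
    by_contra hxA
    rw [← h.un, mem_union] at hx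
    exact hxB (mem_sdiff.2 ⟨hx.resolve_left hxA, hxA⟩)
  rw [← card_union_of_disjoint]
  · congr 1
    ext ⟨a, b⟩
    simp only [mem_union, mem_filter, mem_product]
    constructor
    · rintro ⟨⟨ha, hb⟩, hab, hor⟩
      by_cases h1 : a ∈ B \ A ∨ b ∈ B \ A
      · exact Or.inr ⟨⟨ha, hb⟩, hab, h1⟩
      · have h2 := hS a ha (fun h => h1 (Or.inl h))
        have h3 := hS b hb (fun h => h1 (Or.inr h))
        refine Or.inl ⟨⟨h2, h3⟩, hab, ?_⟩
        rcases hor with h4 | h4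
        · exact Or.inl (mem_sdiff.2 ⟨h2, (mem_sdiff.1 h4).2⟩)
        · exact Or.inr (mem_sdiff.2 ⟨h3, (mem_sdiff.1 h4).2⟩)
    · rintro (⟨⟨ha, hb⟩, hab, hor⟩ | ⟨⟨ha, hb⟩, hab, hor⟩)
      · refine ⟨⟨hAS ha, hAS hb⟩, hab, ?_⟩
        rcases hor with h4 | h4
        · exact Or.inl (mem_sdiff.2 ⟨hAS ha, (mem_sdiff.1 h4).2⟩)
        · exact Or.inr (mem_sdiff.2 ⟨hAS hb, (mem_sdiff.1 h4).2⟩)
      · refine ⟨⟨ha, hb⟩, hab, ?_⟩
        rcases hor with h4 | h4
        · exact Or.inl (mem_sdiff.2 ⟨ha, fun hx => (mem_sdiff.1 h4).2 (hX hx)⟩)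
        · exact Or.inr (mem_sdiff.2 ⟨hb, fun hx => (mem_sdiff.1 h4).2 (hX hx)⟩)
  · rw [disjoint_left]
    rintro ⟨a, b⟩ h1 h2
    simp only [mem_filter, mem_product, mem_sdiff] at h1 h2
    rcases h2.2.2 with h3 | h3
    · exact h3.2 h1.1.1
    · exact h3.2 h1.1.2

theorem r2_pos (h : 0 < r2 G S A) : ∃ a ∈ S, ∃ b ∈ S, G.Adj a b ∧ b ∈ A := by
  unfold r2 at h
  obtain ⟨⟨a, b⟩, hp⟩ := card_pos.1 h
  simp only [mem_filter, mem_product] at hp
  obtain ⟨⟨ha, hb⟩, hab, h1 | h1⟩ := hp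
  · exact ⟨b, hb, a, ha, hab.symm, h1⟩
  · exact ⟨a, ha, b, hb, hab, h1⟩

theorem lk_mono (h : Lk G S X) (hZ : Z ⊆ X) : Lk G S Z := by
  intro m s t ht
  obtain ⟨W, h1, h2⟩ := h m s t ⟨fun i => hZ (ht.sS i), fun i => hZ (ht.tS i), ht.si, ht.ti, ht.st⟩
  refine ⟨W, fun i => ?_, h2⟩
  obtain ⟨a, b, c, d, e⟩ := h1 i
  exact ⟨a, b, c, d, fun x hx => e (mem_inter.2 ⟨(mem_inter.1 hx).1, hZ (mem_inter.1 hx).2⟩)⟩

/-- Pair up the remaining vertices of `Z`: choose `2 k` distinct vertices of `L` containing `Z`, in an order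
extending the given pairs (there are `m ≤ k` of them, since `2 m ≤ |Z| ≤ 2 k`); the other `k - m`
sets contain the remaining vertices of `Z`. -/
theorem kl_lk (h : KL G L k) (hL : 2 * k ≤ L.card) (hZ : Z ⊆ L) (hZc : Z.card ≤ 2 * k) :
    Lk G L Z := by
  intro m s t ht
  obtain ⟨T, hT⟩ : ∃ T : Finset V, T = univ.image s ∪ univ.image t := ⟨_, rfl⟩
  have hTZ : T ⊆ Z := by
    intro x hx
    rw [hT, mem_union, mem_image, mem_image] at hx
    rcases hx with ⟨i, _, rfl⟩ | ⟨i, _, rfl⟩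
    · exact ht.sS i
    · exact ht.tS i
  have hTc : T.card = 2 * m := by
    rw [hT, card_union_of_disjoint, card_image_of_injective _ (fun i j hij => ht.si i j hij),
      card_image_of_injective _ (fun i j hij => ht.ti i j hij), card_univ, Fintype.card_fin]
    · omega
    · rw [disjoint_left]
      intro x hx hx'
      rw [mem_image] at hx hx'
      obtain ⟨i, _, rfl⟩ := hx
      obtain ⟨j, _, hj⟩ := hx'
      exact ht.st i j hj.symm
  have hmk : m ≤ k := by
    have := card_le_card hTZ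
    omega
  have hTL : T ⊆ L := hTZ.trans hZ
  obtain ⟨U, hZU, hUL, hU⟩ := exists_subsuperset_card_eq
    (s := Z \ T) (t := L \ T) (n := 2 * (k - m)) (sdiff_subset_sdiff hZ (Subset.refl T))
    (by rw [card_sdiff_of_subset hTZ]; omega) (by rw [card_sdiff_of_subset hTL]; omega)
  obtain ⟨E, hEi, hEm, hEs⟩ : ∃ E : Fin (2 * (k - m)) → V, (∀ i j, E i = E j → i = j) ∧
      (∀ i, E i ∈ U) ∧ ∀ x ∈ U, ∃ i, E i = x := by
    let F := U.equivFinOfCardEq hU
    refine ⟨fun i => (F.symm i : V), fun i j hij => ?_, fun i => (F.symm i).2, fun x hx => ?_⟩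
    · exact F.symm.injective (Subtype.ext hij)
    · exact ⟨F ⟨x, hx⟩, by simp⟩
  have hUT : ∀ x ∈ U, x ∉ T := fun x hx => (mem_sdiff.1 (hUL hx)).2
  have hsT : ∀ i, s i ∈ T := fun i => by
    rw [hT]; exact mem_union_left _ (mem_image_of_mem _ (mem_univ _))
  have htT : ∀ i, t i ∈ T := fun i => by
    rw [hT]; exact mem_union_right _ (mem_image_of_mem _ (mem_univ _))
  obtain ⟨s', hs', hs''⟩ : ∃ s' : Fin k → V,
      (∀ (i : Fin k) (hi : (i : ℕ) < m), s' i = s ⟨i, hi⟩) ∧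
      (∀ (i : Fin k) (hi : ¬ (i : ℕ) < m), s' i = E ⟨(i : ℕ) - m, by have := i.2; omega⟩) := by
    refine ⟨fun i => if hi : (i : ℕ) < m then s ⟨i, hi⟩ else
      E ⟨(i : ℕ) - m, by have := i.2; omega⟩, fun i hi => ?_, fun i hi => ?_⟩
    · simp only [dif_pos hi]
    · simp only [dif_neg hi]
  obtain ⟨t', ht', ht''⟩ : ∃ t' : Fin k → V,
      (∀ (i : Fin k) (hi : (i : ℕ) < m), t' i = t ⟨i, hi⟩) ∧
      (∀ (i : Fin k) (hi : ¬ (i : ℕ) < m),
        t' i = E ⟨(i : ℕ) - m + (k - m), by have := i.2; omega⟩) := by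
    refine ⟨fun i => if hi : (i : ℕ) < m then t ⟨i, hi⟩ else
      E ⟨(i : ℕ) - m + (k - m), by have := i.2; omega⟩, fun i hi => ?_, fun i hi => ?_⟩
    · simp only [dif_pos hi]
    · simp only [dif_neg hi]
  have hter : Ter L s' t' := by
    refine ⟨fun i => ?_, fun i => ?_, fun i j hij => ?_, fun i j hij => ?_, fun i j hij => ?_⟩
    · by_cases hi : (i : ℕ) < m
      · rw [hs' i hi]; exact hTL (hsT _)
      · rw [hs'' i hi]; exact (mem_sdiff.1 (hUL (hEm _))).1
    · by_cases hi : (i : ℕ) < m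
      · rw [ht' i hi]; exact hTL (htT _)
      · rw [ht'' i hi]; exact (mem_sdiff.1 (hUL (hEm _))).1
    · by_cases hi : (i : ℕ) < m <;> by_cases hj : (j : ℕ) < m
      · rw [hs' i hi, hs' j hj] at hij
        have := ht.si _ _ hij
        rw [Fin.mk.injEq] at this
        exact Fin.ext this
      · rw [hs' i hi, hs'' j hj] at hij
        exact (hUT _ (hEm _) (hij ▸ hsT _)).elim
      · rw [hs'' i hi, hs' j hj] at hij
        exact (hUT _ (hEm _) (hij.symm ▸ hsT _)).elim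
      · rw [hs'' i hi, hs'' j hj] at hij
        have := hEi _ _ hij
        rw [Fin.mk.injEq] at this
        exact Fin.ext (by omega)
    · by_cases hi : (i : ℕ) < m <;> by_cases hj : (j : ℕ) < m
      · rw [ht' i hi, ht' j hj] at hij
        have := ht.ti _ _ hij
        rw [Fin.mk.injEq] at this
        exact Fin.ext this
      · rw [ht' i hi, ht'' j hj] at hij
        exact (hUT _ (hEm _) (hij ▸ htT _)).elim
      · rw [ht'' i hi, ht' j hj] at hij
        exact (hUT _ (hEm _) (hij.symm ▸ htT _)).elim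
      · rw [ht'' i hi, ht'' j hj] at hij
        have := hEi _ _ hij
        rw [Fin.mk.injEq] at this
        exact Fin.ext (by omega)
    · by_cases hi : (i : ℕ) < m <;> by_cases hj : (j : ℕ) < m
      · rw [hs' i hi, ht' j hj] at hij
        exact ht.st _ _ hij
      · rw [hs' i hi, ht'' j hj] at hij
        exact (hUT _ (hEm _) (hij ▸ hsT _)).elim
      · rw [hs'' i hi, ht' j hj] at hij
        exact (hUT _ (hEm _) (hij.symm ▸ htT _)).elim
      · rw [hs'' i hi, ht'' j hj] at hij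
        have := hEi _ _ hij
        rw [Fin.mk.injEq] at this
        have h1 := i.2
        omega
  have hcov : ∀ z ∈ Z, ∃ j, z = s' j ∨ z = t' j := by
    intro z hz
    by_cases hzT : z ∈ T
    · rw [hT, mem_union, mem_image, mem_image] at hzT
      rcases hzT with ⟨i, _, rfl⟩ | ⟨i, _, rfl⟩
      · exact ⟨⟨i, lt_of_lt_of_le i.2 hmk⟩, Or.inl (by rw [hs' _ i.2])⟩
      · exact ⟨⟨i, lt_of_lt_of_le i.2 hmk⟩, Or.inr (by rw [ht' _ i.2])⟩
    · obtain ⟨r, hr⟩ := hEs z (hZU (mem_sdiff.2 ⟨hz, hzT⟩))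
      have h1 := r.2
      by_cases hrk : (r : ℕ) < k - m
      · refine ⟨⟨r + m, by omega⟩, Or.inl ?_⟩
        rw [hs'' _ (by simp), ← hr]
        congr 1
        exact Fin.ext (by simp)
      · refine ⟨⟨r - (k - m) + m, by omega⟩, Or.inr ?_⟩
        rw [ht'' _ (by simp), ← hr]
        congr 1
        refine Fin.ext ?_
        simp only
        omega
  obtain ⟨W, hW⟩ := h s' t' hter
  refine ⟨fun i => W ⟨i, lt_of_lt_of_le i.2 hmk⟩, fun i => ?_, fun i j hij => ?_⟩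
  · have e1 : s' ⟨i, lt_of_lt_of_le i.2 hmk⟩ = s i := by rw [hs' _ i.2]
    have e2 : t' ⟨i, lt_of_lt_of_le i.2 hmk⟩ = t i := by rw [ht' _ i.2]
    refine ⟨hW.sub _, ?_, ?_, hW.cn _ (lt_of_lt_of_le i.2 hmk), fun z hz => ?_⟩
    · rw [← e1]; exact hW.sm _
    · rw [← e2]; exact hW.tm _
    · rw [mem_inter] at hz
      obtain ⟨j, hj⟩ := hcov z hz.2
      have hzj : z ∈ W j := by
        rcases hj with hj | hj
        · rw [hj]; exact hW.sm _
        · rw [hj]; exact hW.tm _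
      have hji : j = ⟨i, lt_of_lt_of_le i.2 hmk⟩ := by
        by_contra hne
        exact disjoint_left.1 (hW.dj _ _ hne) hzj hz.1
      subst hji
      rw [e1, e2] at hj
      simpa using hj
  · refine hW.dj _ _ fun hc => hij ?_
    rw [Fin.mk.injEq] at hc
    exact Fin.ext hc

end Pool.Agent.MP4432a5
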