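import Pool.Agent.Lib.MP_4432a5_co.PDefs
import Pool.Agent.Lib.MP_4432a5_co.RBasic

/-!
# MP_4432a5_co, module KConn

`kconn_deg`: otherwise delete the neighbours of `v`; `v` is isolated and there is another vertex.
`kconn_sep`: if both `A \ B` and `B \ A` were nonempty, deleting `A ∩ B` would disconnect the graph.
`kconn_massed`: `m1`: `∑_v dg G univ v ≥ (37/4) n |V|`; `r2 G univ (univ \ X) = ∑_v dg - #{adjacent ordered pairs in X} ≥
(37/4) n |V| - |X| (|X| - 1) > (37/4) n (|V| - |X|)` because `1 ≤ |X| ≤ 2 n`. `m2`: `|A ∩ B| < |X| ≤ 2 n`, `X ⊆ A`, so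
`A \ B ≠ ∅`, hence `B \ A = ∅` by `kconn_sep` and both sides are `0`.
-/

set_option autoImplicit false
set_option linter.all false

open Finset
open scoped Classical

namespace Pool.Agent.MP4432a5

variable {V : Type*} [Fintype V] {G : SimpleGraph V}

theorem kconn_sep {k : ℕ} (h : IsKConn G k) {A B : Finset V} (hs : Sep G univ A B)
    (hc : (A ∩ B).card < k) : A \ B = ∅ ∨ B \ A = ∅ := by
  by_contra hcon
  rw [not_or] at hcon
  obtain ⟨a, ha⟩ := Finset.nonempty_iff_ne_empty.2 hcon.1
  obtain ⟨b, hb⟩ := Finset.nonempty_iff_ne_empty.2 hcon.2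
  have hconn := h.2 (A ∩ B) hc
  have haD : a ∈ (((A ∩ B : Finset V) : Set V)ᶜ) := by
    rw [Finset.mem_sdiff] at ha
    simp [ha.2]
  have hbD : b ∈ (((A ∩ B : Finset V) : Set V)ᶜ) := by
    rw [Finset.mem_sdiff] at hb
    simp [hb.2]
  have hr := hconn.preconnected ⟨a, haD⟩ ⟨b, hbD⟩
  rw [SimpleGraph.reachable_iff_reflTransGen] at hr
  have key : ∀ y : (((A ∩ B : Finset V) : Set V)ᶜ : Set V),
      Relation.ReflTransGen (G.induce (((A ∩ B : Finset V) : Set V)ᶜ)).Adj ⟨a, haD⟩ y →
      (y : V) ∈ A \ B := by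
    intro y hy
    induction hy with
    | refl => exact ha
    | @tail y z _ hyz ih =>
      have hz : (z : V) ∉ A ∩ B := by
        have := z.2
        rwa [Set.mem_compl_iff, Finset.mem_coe] at this
      have hzu : (z : V) ∈ A ∪ B := by
        rw [hs.un]
        exact Finset.mem_univ _
      have hadj : G.Adj (y : V) (z : V) := hyz
      by_contra hzA
      refine hs.no _ ih _ ?_ hadj
      rw [Finset.mem_sdiff] at hzA ⊢
      rw [Finset.mem_inter] at hz
      rw [Finset.mem_union] at hzu
      tauto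
  have h1 := key _ hr
  rw [Finset.mem_sdiff] at h1 hb
  exact hb.2 h1.1

theorem kconn_deg {k : ℕ} (h : IsKConn G k) (v : V) : k ≤ dg G univ v := by
  by_contra hcon
  rw [not_le] at hcon
  have hv : v ∉ nb G univ v := by
    unfold nb
    rw [Finset.mem_filter]
    exact fun h => G.loopless.irrefl v h.2
  have hs : Sep G univ (insert v (nb G univ v)) (univ.erase v) := by
    constructor
    · ext x
      simp only [Finset.mem_union, Finset.mem_insert, Finset.mem_erase, Finset.mem_univ, and_true,
        iff_true]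
      tauto
    · intro a ha b hb hab
      rw [Finset.mem_sdiff] at ha hb
      have hav : a = v := by
        by_contra hne
        exact ha.2 (Finset.mem_erase.2 ⟨hne, Finset.mem_univ _⟩)
      subst hav
      refine hb.2 (Finset.mem_insert_of_mem ?_)
      unfold nb
      exact Finset.mem_filter.2 ⟨Finset.mem_univ _, hab⟩
  have hi : insert v (nb G univ v) ∩ univ.erase v = nb G univ v := by
    ext x
    simp only [Finset.mem_inter, Finset.mem_insert, Finset.mem_erase, Finset.mem_univ, and_true]
    constructor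
    · rintro ⟨h1 | h1, h2⟩
      · exact absurd h1 h2
      · exact h1
    · intro h1
      exact ⟨Or.inr h1, fun h2 => hv (h2 ▸ h1)⟩
  have hlt : (insert v (nb G univ v)).card < Fintype.card V := by
    have h1 := Finset.card_insert_le v (nb G univ v)
    have h2 := h.1
    unfold dg at hcon
    omega
  obtain ⟨w, hw⟩ : ∃ w, w ∉ insert v (nb G univ v) := by
    by_contra hall
    push Not at hall
    rw [Finset.eq_univ_iff_forall.2 hall, Finset.card_univ] at hlt
    exact lt_irrefl _ hlt
  rcases kconn_sep h hs (by rw [hi]; exact hcon) with h1 | h1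
  · have : v ∈ insert v (nb G univ v) \ univ.erase v := by simp
    rw [h1] at this
    exact absurd this (Finset.notMem_empty _)
  · have : w ∈ univ.erase v \ insert v (nb G univ v) := by
      rw [Finset.mem_sdiff]
      refine ⟨Finset.mem_erase.2 ⟨fun h2 => hw (by rw [h2]; exact Finset.mem_insert_self _ _),
        Finset.mem_univ _⟩, hw⟩
    rw [h1] at this
    exact absurd this (Finset.notMem_empty _)

theorem IsKConn.mono {k k' : ℕ} (h : IsKConn G k) (hk : k' ≤ k) : IsKConn G k' :=
  ⟨lt_of_le_of_lt hk h.1, fun D hD => h.2 D (lt_of_lt_of_le hD hk)⟩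

/-- the sum of the degrees as a number of ordered pairs -/
private theorem kc_sum : ∑ v : V, dg G univ v =
    ((univ ×ˢ univ : Finset (V × V)).filter (fun p => G.Adj p.1 p.2)).card := by
  unfold dg nb
  rw [Finset.card_filter, Finset.sum_product]
  refine Finset.sum_congr rfl fun v _ => ?_
  rw [Finset.card_filter]

private theorem kc_r2 (X : Finset V) :
    ∑ v : V, dg G univ v ≤ r2 G univ (univ \ X) + X.card * (X.card - 1) := by
  rw [kc_sum]
  unfold r2
  have h1 : ((univ ×ˢ univ : Finset (V × V)).filter (fun p => G.Adj p.1 p.2)) ⊆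
      ((univ ×ˢ univ : Finset (V × V)).filter
        (fun p => G.Adj p.1 p.2 ∧ (p.1 ∈ univ \ X ∨ p.2 ∈ univ \ X))) ∪ X.offDiag := by
    intro p hp
    rw [Finset.mem_filter] at hp
    rw [Finset.mem_union, Finset.mem_filter, Finset.mem_offDiag]
    by_cases h1 : p.1 ∈ X
    · by_cases h2 : p.2 ∈ X
      · exact Or.inr ⟨h1, h2, hp.2.ne⟩
      · exact Or.inl ⟨hp.1, hp.2, Or.inr (by simp [h2])⟩
    · exact Or.inl ⟨hp.1, hp.2, Or.inl (by simp [h1])⟩
  refine (Finset.card_le_card h1).trans ((Finset.card_union_le _ _).trans ?_)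
  rw [Finset.offDiag_card, Nat.mul_sub, mul_one]

theorem kconn_massed {n : ℕ} (h : IsKConn G (2 * n))
    (he : 37 * n * Fintype.card V ≤ 4 * ∑ v : V, dg G univ v) {X : Finset V} (hX : X.Nonempty)
    (hXc : X.card ≤ 2 * n) : Massed (37 / 8 * (n : ℝ)) G univ X := by
  have hX1 : 1 ≤ X.card := Finset.card_pos.2 hX
  refine ⟨Finset.subset_univ _, ?_, ?_⟩
  · have h1 := kc_r2 (G := G) X
    have h2 : (univ \ X).card + X.card = Fintype.card V := by
      rw [Finset.card_sdiff_add_card_eq_card (Finset.subset_univ X), Finset.card_univ]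
    have h3 : ((X.card - 1 : ℕ) : ℝ) = (X.card : ℝ) - 1 := by
      rw [Nat.cast_sub hX1, Nat.cast_one]
    have h1' : ((∑ v : V, dg G univ v : ℕ) : ℝ) ≤
        (r2 G univ (univ \ X) : ℝ) + X.card * ((X.card : ℝ) - 1) := by
      rw [← h3]
      exact_mod_cast h1
    have h2' : ((univ \ X).card : ℝ) + X.card = Fintype.card V := by exact_mod_cast h2
    have he' : 37 * (n : ℝ) * Fintype.card V ≤ 4 * ((∑ v : V, dg G univ v : ℕ) : ℝ) := by
      exact_mod_cast he
    have h4 : (X.card : ℝ) ≤ 2 * n := by exact_mod_cast hXc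
    have h5 : (1 : ℝ) ≤ X.card := by exact_mod_cast hX1
    rw [← h2'] at he'
    nlinarith
  · intro A B hs hXA hc
    have h1 : (A \ B).Nonempty := by
      rw [← Finset.card_pos]
      have h2 := Finset.card_le_card hXA
      have h3 := Finset.card_sdiff_add_card_inter A B
      omega
    rcases kconn_sep h hs (lt_of_lt_of_le hc hXc) with h2 | h2
    · rw [h2] at h1
      exact absurd h1 Finset.not_nonempty_empty
    · rw [h2]
      have h3 : r2 G univ (∅ : Finset V) = 0 := by
        unfold r2
        simp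
      rw [h3]
      simp

end Pool.Agent.MP4432a5
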