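import Pool.Agent.Lib.MP_4432a5_co.CritDeg

/-!
# MP_4432a5_co, module MassedLk: Theorem R

`massed_cpl`, `lkp_cpl`: edges with an end outside `X` are the same in `G` and `cpl G X s t`; a linking set `W` has
`W ∩ X ⊆ {s i, t i}`, and `s i, t i` are not adjacent in `cpl G X s t`, so it is connected in `G`.

`massed_lk`: strong induction on `(|S|, r2 G S (S \ X))` lexicographically. If `(G, S, X)` is a counterexample
with pairs `s, t` then `(cpl G X s t, S, X)` is `Crit` (`N = 2 k`; `r2` is unchanged). `crit_deg` gives `v`;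
`Nv = nb G S v`, `|Nv| ≤ 2 lam + 2`, and every `u ∈ Nv` has `dg G Nv u = |nb G S u ∩ nb G S v| ≥ lam - 2` (`crit_con`).
`HD` gives `L ⊆ Nv`: `no_linked`.
-/

set_option autoImplicit false
set_option linter.all false

open Finset
open scoped Classical

namespace Pool.Agent.MP4432a5

variable {V : Type*} {G : SimpleGraph V} {lam : ℝ} {k m : ℕ} {S X : Finset V}
  {s t : Fin m → V}

private theorem cpl_adj_of_notMem {a b : V} (h : ¬ (a ∈ X ∧ b ∈ X)) :
    (cpl G X s t).Adj a b ↔ G.Adj a b := by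
  constructor
  · rintro (⟨h1, _⟩ | ⟨_, h2, h3, _⟩)
    · exact h1
    · exact absurd ⟨h2, h3⟩ h
  · intro h1
    exact Or.inl ⟨h1, h⟩

private theorem r2_cpl_aux {D : Finset V} (hD : ∀ x ∈ D, x ∉ X) :
    r2 (cpl G X s t) S D = r2 G S D := by
  unfold r2
  congr 1
  ext ⟨a, b⟩
  simp only [mem_filter, mem_product]
  constructor
  · rintro ⟨h1, h2, h3⟩
    refine ⟨h1, (cpl_adj_of_notMem ?_).1 h2, h3⟩
    rintro ⟨h4, h5⟩
    rcases h3 with h3 | h3
    · exact hD _ h3 h4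
    · exact hD _ h3 h5
  · rintro ⟨h1, h2, h3⟩
    refine ⟨h1, (cpl_adj_of_notMem ?_).2 h2, h3⟩
    rintro ⟨h4, h5⟩
    rcases h3 with h3 | h3
    · exact hD _ h3 h4
    · exact hD _ h3 h5

theorem r2_cpl : r2 (cpl G X s t) S (S \ X) = r2 G S (S \ X) :=
  r2_cpl_aux fun _ hx => (mem_sdiff.1 hx).2

theorem massed_cpl (h : Massed lam G S X) : Massed lam (cpl G X s t) S X := by
  refine ⟨h.XS, ?_, ?_⟩
  · rw [r2_cpl]
    exact h.m1
  · intro A B hs hX hc
    have hD : ∀ x ∈ B \ A, x ∉ X := fun x hx hxX => (mem_sdiff.1 hx).2 (hX hxX)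
    rw [r2_cpl_aux hD]
    refine h.m2 A B ⟨hs.un, ?_⟩ hX hc
    intro a ha b hb hab
    refine hs.no a ha b hb ((cpl_adj_of_notMem ?_).2 hab)
    rintro ⟨_, h5⟩
    exact hD b hb h5

theorem lkp_cpl (h : LkP (cpl G X s t) S X s t) : LkP G S X s t := by
  obtain ⟨W, hW, hd⟩ := h
  refine ⟨W, fun i => ?_, hd⟩
  obtain ⟨h1, h2, h3, h4, h5⟩ := hW i
  refine ⟨h1, h2, h3, h4.mono ?_, h5⟩
  intro x hx y hy hxy
  by_cases hX : x ∈ X ∧ y ∈ X
  · have hx1 := h5 (mem_inter.2 ⟨hx, hX.1⟩)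
    have hy1 := h5 (mem_inter.2 ⟨hy, hX.2⟩)
    rw [mem_insert, mem_singleton] at hx1 hy1
    rcases hxy with ⟨_, h6⟩ | ⟨h6, _, _, h7⟩
    · exact absurd hX h6
    · exfalso
      rcases hx1 with e1 | e1 <;> rcases hy1 with e2 | e2
      · exact h6 (e1.trans e2.symm)
      · exact (h7 i).1 ⟨e1, e2⟩
      · exact (h7 i).2 ⟨e1, e2⟩
      · exact h6 (e1.trans e2.symm)
  · exact (cpl_adj_of_notMem hX).1 hxy

private theorem massed_lk_aux (hlk : (2 : ℝ) * k + 2 ≤ lam)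
    (HD : ∀ (G : SimpleGraph V) (S : Finset V), S.Nonempty → (S.card : ℝ) ≤ 2 * lam + 2 →
      (∀ v ∈ S, lam - 2 ≤ dg G S v) → ∃ L : Finset V, L ⊆ S ∧ 2 * k ≤ L.card ∧ KL G L k)
    (G : SimpleGraph V) (S X : Finset V) (hX : X.card ≤ 2 * k) (h : Massed lam G S X)
    (ih : ∀ (G' : SimpleGraph V) (S' X' : Finset V), X'.card ≤ 2 * k → Massed lam G' S' X' →
      (S'.card < S.card ∨ (S'.card = S.card ∧ r2 G' S' (S' \ X') < r2 G S (S \ X))) →
      Lk G' S' X') : Lk G S X := by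
  intro m s t ht
  by_contra hnl
  have hl : 0 ≤ lam := by
    have : (0 : ℝ) ≤ (2 : ℝ) * k + 2 := by positivity
    linarith
  have hc : Crit lam (2 * k) (cpl G X s t) S X s t := by
    refine ⟨massed_cpl h, hX, ht, fun h' => hnl (lkp_cpl h'), ?_, ?_, ?_⟩
    · intro a ha b hb hab
      by_cases he : ∃ i, (a = s i ∧ b = t i) ∨ (a = t i ∧ b = s i)
      · exact Or.inr he
      · refine Or.inl (Or.inr ⟨hab, ha, hb, fun i => ?_⟩)
        exact ⟨fun h' => he ⟨i, Or.inl h'⟩, fun h' => he ⟨i, Or.inr h'⟩⟩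
    · rintro i (⟨_, h2⟩ | ⟨_, _, _, h4⟩)
      · exact h2 ⟨ht.sS i, ht.tS i⟩
      · exact (h4 i).1 ⟨rfl, rfl⟩
    · intro G' S' X' h1 h2 h3
      refine ih G' S' X' h1 h2 ?_
      rwa [r2_cpl] at h3
  have hlN : ((2 * k : ℕ) : ℝ) + 2 ≤ lam := by
    push_cast
    exact hlk
  obtain ⟨v, hv, hdeg, hne⟩ := crit_deg hlN hc
  have hD := HD (cpl G X s t) (nb (cpl G X s t) S v) hne (by
    unfold dg at hdeg
    exact hdeg) (by
    intro u hu
    rw [mem_nb] at hu
    have h1 := crit_con hl hc hu.1 hv hu.2.symm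
    have h2 : nb (cpl G X s t) (nb (cpl G X s t) S v) u =
        nb (cpl G X s t) S u ∩ nb (cpl G X s t) S v := by
      ext w
      simp only [mem_nb, mem_inter]
      tauto
    unfold dg
    rw [h2]
    exact h1.le)
  obtain ⟨L, hL1, hL2, hL3⟩ := hD
  have hLS : L ⊆ S := fun x hx => (mem_nb.1 (hL1 hx)).1
  exact no_linked hl rfl hc hLS hL2 hL3

theorem massed_lk (hlk : (2 : ℝ) * k + 2 ≤ lam)
    (HD : ∀ (G : SimpleGraph V) (S : Finset V), S.Nonempty → (S.card : ℝ) ≤ 2 * lam + 2 →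
      (∀ v ∈ S, lam - 2 ≤ dg G S v) → ∃ L : Finset V, L ⊆ S ∧ 2 * k ≤ L.card ∧ KL G L k)
    (G : SimpleGraph V) (S X : Finset V) (hX : X.card ≤ 2 * k) (h : Massed lam G S X) :
    Lk G S X := by
  have key : ∀ n r : ℕ, ∀ (G : SimpleGraph V) (S X : Finset V), S.card = n →
      r2 G S (S \ X) = r → X.card ≤ 2 * k → Massed lam G S X → Lk G S X := by
    intro n
    induction n using Nat.strong_induction_on with
    | _ n ihn =>
      intro r
      induction r using Nat.strong_induction_on with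
      | _ r ihr =>
        intro G S X hn hr hX h
        refine massed_lk_aux hlk HD G S X hX h ?_
        intro G' S' X' h1 h2 h3
        rcases h3 with h3 | ⟨h3, h4⟩
        · exact ihn S'.card (hn ▸ h3) _ G' S' X' rfl rfl h1 h2
        · exact ihr (r2 G' S' (S' \ X')) (hr ▸ h4) G' S' X' (h3.trans hn) rfl h1 h2
  exact key _ _ G S X rfl rfl hX h

end Pool.Agent.MP4432a5
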