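import Pool.Agent.Lib.MP_4432a5_co.PDefs
import Pool.Agent.Lib.MP_4432a5_co.Conn

/-!
# MP_4432a5_co, module PairOf: linked implies pair-connected

`walk_of_pth`: induction on `r` (or `Walk` from the chain `q 0, ..., q r`).

`pair_of_lk`. Ends: `f : Fin n ⊕ Fin n → V`, `f = Sum.elim a b`, `T0 = univ.image f`. For each `v ∈ T0` choose a
representative end `ρ v` with `f (ρ v) = v`. The other ends: `ι = {e : ρ (f e) ≠ e}`, `|ι| = 2 n - |T0|`. For `e ∈ ι` the set
`N_e` of the neighbours of `f e` outside `T0` has at least `2 n - (|T0| - 1) ≥ |ι|` elements; Hall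
(`Finset.all_card_le_biUnion_card_iff_exists_injective`) gives an injective choice `x e ∈ N_e`; put `x e = f e` for the
representatives. `x` is injective on all ends; `s i = x (inl i)`, `t i = x (inr i)`, `X = image x` (`|X| = 2 n`, `T0 ⊆ X`).
`hL` gives `W i`; the set `W i ∪ {a i, b i}` is connected; take a path in it (`exists_pth`). If
`x ∈ (W i ∪ {a i, b i}) ∩ (W j ∪ {a j, b j})`, then `x ∈ T0` (the `W`s are disjoint), and
`x ∈ W i ∩ T0 ⊆ {s i, t i}` implies `x = a i` or `x = b i` (an element `s i` of `T0` is a representative, `s i = a i`).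
-/

set_option autoImplicit false
set_option linter.all false

open Finset
open scoped Classical

namespace Pool.Agent.MP4432a5

variable {V : Type*} {G : SimpleGraph V}

private lemma walk_aux {q : ℕ → V} (n : ℕ) (h : ∀ j, j < n → G.Adj (q j) (q (j + 1))) :
    ∃ p : G.Walk (q 0) (q n), p.support = (List.range (n + 1)).map q := by
  induction n with
  | zero => exact ⟨SimpleGraph.Walk.nil, by simp⟩
  | succ n ih =>
    obtain ⟨p, hp⟩ := ih (fun j hj => h j (Nat.lt_succ_of_lt hj))
    refine ⟨p.concat (h n (Nat.lt_succ_self n)), ?_⟩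
    rw [SimpleGraph.Walk.support_concat, hp, List.range_succ (n := n + 1), List.map_append]
    simp

theorem walk_of_pth {W : Finset V} {a b : V} {r : ℕ} {q : ℕ → V} (h : IsPth G W a b r q) :
    ∃ p : G.Walk a b, p.IsPath ∧ ∀ x ∈ p.support, x ∈ W := by
  obtain ⟨p, hp⟩ := walk_aux r h.adj
  have h1 : p.IsPath := by
    apply SimpleGraph.Walk.IsPath.mk'
    rw [hp]
    apply List.Nodup.map_on _ List.nodup_range
    intro x hx y hy hxy
    rw [List.mem_range] at hx hy
    exact h.inj x y (Nat.lt_succ_iff.1 hx) (Nat.lt_succ_iff.1 hy) hxy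
  have h2 : ∀ x ∈ p.support, x ∈ W := by
    intro x hx
    rw [hp, List.mem_map] at hx
    obtain ⟨m, hm, rfl⟩ := hx
    rw [h.img, Finset.mem_image]
    exact ⟨m, by rw [Finset.mem_range]; exact List.mem_range.1 hm, rfl⟩
  have hz := h.z
  have he := h.e
  subst hz
  subst he
  exact ⟨p, h1, h2⟩

private def num {n : ℕ} : Fin n ⊕ Fin n → ℕ
  | Sum.inl i => i
  | Sum.inr i => n + i

private lemma num_inj {n : ℕ} {e e' : Fin n ⊕ Fin n} (h : num e = num e') : e = e' := by
  rcases e with i | i <;> rcases e' with j | j <;> simp only [num] at h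
  · exact congrArg _ (Fin.ext h)
  · have := i.2; omega
  · have := j.2; omega
  · exact congrArg _ (Fin.ext (by omega))

/-- the end `e` is the first one at its vertex -/
private def Rep {n : ℕ} (f : Fin n ⊕ Fin n → V) (e : Fin n ⊕ Fin n) : Prop :=
  ∀ e', f e' = f e → num e ≤ num e'

private lemma rep_inj {n : ℕ} {f : Fin n ⊕ Fin n → V} {e e' : Fin n ⊕ Fin n} (h : Rep f e)
    (h' : Rep f e') (hf : f e = f e') : e = e' :=
  num_inj (le_antisymm (h e' hf.symm) (h' e hf))

private lemma exists_rep {n : ℕ} (f : Fin n ⊕ Fin n → V) (e : Fin n ⊕ Fin n) :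
    ∃ e', Rep f e' ∧ f e' = f e := by
  obtain ⟨e', he', hm⟩ := Finset.exists_min_image (univ.filter (fun e' => f e' = f e)) num
    ⟨e, by simp⟩
  rw [Finset.mem_filter] at he'
  refine ⟨e', fun e'' h => hm e'' ?_, he'.2⟩
  rw [Finset.mem_filter]
  exact ⟨mem_univ _, h.trans he'.2⟩

/-- Hall's choice of terminals -/
private lemma choose_ends [Fintype V] {n : ℕ} (hd : ∀ v : V, 2 * n ≤ dg G univ v)
    (f : Fin n ⊕ Fin n → V) :
    ∃ x : Fin n ⊕ Fin n → V, Function.Injective x ∧ (∀ e, x e = f e ∨ G.Adj (f e) (x e)) ∧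
      (∀ e, x e ∈ univ.image f → x e = f e) ∧ univ.image f ⊆ univ.image x := by
  set T0 : Finset V := univ.image f with hT0
  set N : {e // ¬ Rep f e} → Finset V := fun e => nb G univ (f e.1) \ T0 with hN
  have hcard : (univ.filter (fun e => Rep f e)).card = T0.card := by
    have h1 : (univ.filter (fun e => Rep f e)).image f = T0 := by
      ext v
      rw [hT0, Finset.mem_image, Finset.mem_image]
      constructor
      · rintro ⟨e, -, he⟩
        exact ⟨e, mem_univ _, he⟩
      · rintro ⟨e, -, he⟩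
        obtain ⟨e', h1, h2⟩ := exists_rep f e
        exact ⟨e', by rw [Finset.mem_filter]; exact ⟨mem_univ _, h1⟩, h2.trans he⟩
    rw [← h1, Finset.card_image_of_injOn]
    intro e he e' he' hee
    have h2 : Rep f e := (Finset.mem_filter.1 (Finset.mem_coe.1 he)).2
    have h3 : Rep f e' := (Finset.mem_filter.1 (Finset.mem_coe.1 he')).2
    exact rep_inj h2 h3 hee
  have htot : T0.card + Fintype.card {e // ¬ Rep f e} = 2 * n := by
    have h1 := Finset.card_filter_add_card_filter_not (s := (univ : Finset (Fin n ⊕ Fin n)))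
      (fun e => Rep f e)
    rw [hcard, Finset.card_univ, Fintype.card_sum, Fintype.card_fin] at h1
    have h2 : Fintype.card {e // ¬ Rep f e} = (univ.filter (fun e => ¬ Rep f e)).card :=
      Fintype.card_subtype _
    omega
  have hNc : ∀ e : {e // ¬ Rep f e}, Fintype.card {e // ¬ Rep f e} ≤ (N e).card := by
    intro e
    have h1 := hd (f e.1)
    unfold dg at h1
    have h2 : (nb G univ (f e.1) ∩ T0) ⊆ T0.erase (f e.1) := by
      intro v hv
      rw [Finset.mem_inter] at hv
      rw [Finset.mem_erase]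
      refine ⟨?_, hv.2⟩
      rintro rfl
      have h3 : G.Adj (f e.1) (f e.1) := by
        have := hv.1
        unfold nb at this
        exact (Finset.mem_filter.1 this).2
      exact G.loopless.irrefl _ h3
    have h3 := Finset.card_le_card h2
    have h4 : f e.1 ∈ T0 := Finset.mem_image_of_mem _ (mem_univ _)
    rw [Finset.card_erase_of_mem h4] at h3
    have h5 : 0 < T0.card := Finset.card_pos.2 ⟨_, h4⟩
    have h6 := Finset.card_sdiff_add_card_inter (nb G univ (f e.1)) T0
    have h7 : (N e).card = (nb G univ (f e.1) \ T0).card := rfl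
    omega
  obtain ⟨x', hx'i, hx'⟩ := (Finset.all_card_le_biUnion_card_iff_exists_injective N).1 (by
    intro s
    rcases s.eq_empty_or_nonempty with rfl | ⟨e, he⟩
    · simp
    · calc s.card ≤ Fintype.card {e // ¬ Rep f e} := Finset.card_le_univ s
        _ ≤ (N e).card := hNc e
        _ ≤ (s.biUnion N).card := Finset.card_le_card (Finset.subset_biUnion_of_mem N he))
  have hx'T : ∀ e, x' e ∉ T0 := fun e => (Finset.mem_sdiff.1 (hx' e)).2
  have hx'A : ∀ e, G.Adj (f e.1) (x' e) := fun e => by
    have := (Finset.mem_sdiff.1 (hx' e)).1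
    unfold nb at this
    exact (Finset.mem_filter.1 this).2
  have hfT : ∀ e, f e ∈ T0 := fun e => Finset.mem_image_of_mem _ (mem_univ _)
  refine ⟨fun e => if h : Rep f e then f e else x' ⟨e, h⟩, ?_, ?_, ?_, ?_⟩
  · intro e e' hee
    by_cases h : Rep f e <;> by_cases h' : Rep f e' <;> simp only [h, h', dif_pos, dif_neg,
      not_false_eq_true] at hee
    · exact rep_inj h h' hee
    · exact absurd (hee ▸ hfT e) (hx'T _)
    · exact absurd (hee ▸ hfT e') (hx'T _)
    · exact congrArg Subtype.val (hx'i hee)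
  · intro e
    by_cases h : Rep f e
    · left
      simp [h]
    · right
      simp only [h, dif_neg, not_false_eq_true]
      exact hx'A ⟨e, h⟩
  · intro e he
    by_cases h : Rep f e
    · simp [h]
    · simp only [h, dif_neg, not_false_eq_true] at he
      exact absurd he (hx'T _)
  · intro v hv
    rw [hT0, Finset.mem_image] at hv
    obtain ⟨e, -, rfl⟩ := hv
    obtain ⟨e', h1, h2⟩ := exists_rep f e
    rw [Finset.mem_image]
    exact ⟨e', mem_univ _, by simp only [h1, dif_pos]; exact h2⟩

private lemma cn_add {W : Finset V} (hW : Cn G W) {u v : V} (hu : u ∈ W) (h : u = v ∨ G.Adj v u) :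
    Cn G (insert v W) := by
  rcases h with rfl | h
  · rw [Finset.insert_eq_of_mem hu]
    exact hW
  · exact hW.insert_adj hu h.symm

theorem pair_of_lk [Fintype V] {n : ℕ} (hc : 2 * n ≤ Fintype.card V)
    (hd : ∀ v : V, 2 * n ≤ dg G univ v) (hL : ∀ X : Finset V, X.card ≤ 2 * n → Lk G univ X) :
    PairConn G n := by
  refine ⟨hc, fun a b => ?_⟩
  obtain ⟨x, hxi, hxA, hxT, hTX⟩ := choose_ends hd (Sum.elim a b)
  set X : Finset V := univ.image x with hX
  have hXc : X.card ≤ 2 * n := by
    refine (Finset.card_image_le).trans ?_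
    rw [Finset.card_univ, Fintype.card_sum, Fintype.card_fin]
    omega
  have hmX : ∀ e, x e ∈ X := fun e => Finset.mem_image_of_mem _ (mem_univ _)
  have hter : Ter X (fun i : Fin n => x (Sum.inl i)) (fun i : Fin n => x (Sum.inr i)) := by
    refine ⟨fun i => hmX _, fun i => hmX _, fun i j h => ?_, fun i j h => ?_, fun i j h => ?_⟩
    · exact Sum.inl_injective (hxi h)
    · exact Sum.inr_injective (hxi h)
    · exact absurd (hxi h) Sum.inl_ne_inr
  obtain ⟨W, hW, hdj⟩ := hL X hXc n _ _ hter
  set U : Fin n → Finset V := fun i => insert (a i) (insert (b i) (W i)) with hU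
  have hUc : ∀ i, Cn G (U i) := by
    intro i
    obtain ⟨-, hs, ht, hcn, -⟩ := hW i
    have h1 : Cn G (insert (b i) (W i)) := cn_add hcn ht (hxA (Sum.inr i))
    exact cn_add h1 (Finset.mem_insert_of_mem hs) (hxA (Sum.inl i))
  have hsec : ∀ i j, i ≠ j → ∀ v, v ∈ U i → v ∈ U j → v = a i ∨ v = b i := by
    intro i j hij v hvi hvj
    simp only [hU, Finset.mem_insert] at hvi hvj
    rcases hvi with h | h | h
    · exact Or.inl h
    · exact Or.inr h
    · have hvT : v ∈ univ.image (Sum.elim a b) := by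
        rcases hvj with h' | h' | h'
        · exact Finset.mem_image.2 ⟨Sum.inl j, mem_univ _, h'.symm⟩
        · exact Finset.mem_image.2 ⟨Sum.inr j, mem_univ _, h'.symm⟩
        · exact absurd h' (Finset.disjoint_left.1 (hdj i j hij) h)
      obtain ⟨-, -, -, -, hsub⟩ := hW i
      have h2 := hsub (Finset.mem_inter.2 ⟨h, hTX hvT⟩)
      rw [Finset.mem_insert, Finset.mem_singleton] at h2
      rcases h2 with h2 | h2
      · left
        have h4 : v = x (Sum.inl i) := h2
        have h3 := hxT (Sum.inl i) (h4 ▸ hvT)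
        rw [h4, h3]
        rfl
      · right
        have h4 : v = x (Sum.inr i) := h2
        have h3 := hxT (Sum.inr i) (h4 ▸ hvT)
        rw [h4, h3]
        rfl
  have hP : ∀ i, ∃ p : G.Walk (a i) (b i), p.IsPath ∧ ∀ v ∈ p.support, v ∈ U i := by
    intro i
    obtain ⟨W', hW', r, q, hq⟩ := exists_pth (hUc i) (a := a i) (b := b i)
      (Finset.mem_insert_self _ _) (Finset.mem_insert_of_mem (Finset.mem_insert_self _ _))
    obtain ⟨p, hp, hps⟩ := walk_of_pth hq
    exact ⟨p, hp, fun v hv => hW' (hps v hv)⟩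
  choose P hP1 hP2 using hP
  refine ⟨P, hP1, fun i j hij v hvi hvj => ⟨?_, ?_⟩⟩
  · exact hsec i j hij v (hP2 i v hvi) (hP2 j v hvj)
  · exact hsec j i hij.symm v (hP2 j v hvj) (hP2 i v hvi)

end Pool.Agent.MP4432a5
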