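import Pool.Agent.Lib.MP_4432a5_co.DenseMain
import Pool.Agent.Lib.MP_4432a5_co.MassedLk
import Pool.Agent.Lib.MP_4432a5_co.KConn
import Pool.Agent.Lib.MP_4432a5_co.PairOf

/-!
# MP_4432a5_co, module Final

`main_avg`: `dense_main`, `massed_lk` with `lam = 37 n / 8`, `kconn_massed` (for `X = ∅` linkedness is trivial: no pairs),
`pair_of_lk` (`kconn_deg`).
`main_conn`: a `k`-connected graph with `37 n ≤ 4 k` is `2 n`-connected and has
`4 ∑ dg ≥ 4 k |V| ≥ 37 n |V|`.
`main_g`: `Nat.sInf_le`.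
-/

set_option autoImplicit false
set_option linter.all false

open Finset
open scoped Classical

namespace Pool.Agent.MP4432a5

theorem main_avg : ∃ n0 : ℕ, ∀ n ≥ n0, ∀ (V : Type) [Fintype V] (G : SimpleGraph V),
    IsKConn G (2 * n) → 37 * n * Fintype.card V ≤ 4 * ∑ v : V, dg G univ v →
    PairConn G n := by
  obtain ⟨k0, hk0⟩ := dense_main.{0}
  refine ⟨max k0 1, fun n hn V _ G hG he => ?_⟩
  have h1 : k0 ≤ n := le_trans (le_max_left _ _) hn
  have h2 : 1 ≤ n := le_trans (le_max_right _ _) hn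
  have h2' : (1 : ℝ) ≤ n := by exact_mod_cast h2
  refine pair_of_lk hG.1.le (kconn_deg hG) (fun X hX => ?_)
  rcases X.eq_empty_or_nonempty with rfl | hne
  · intro m s t ht
    have hm : m = 0 := by
      rcases Nat.eq_zero_or_pos m with h | h
      · exact h
      · exact absurd (ht.sS ⟨0, h⟩) (Finset.notMem_empty _)
    subst hm
    exact ⟨fun i => i.elim0, fun i => i.elim0, fun i => i.elim0⟩
  · refine massed_lk (lam := 37 / 8 * (n : ℝ)) (k := n) (by linarith) ?_ G univ X hX
      (kconn_massed hG he hne hX)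
    intro G' S hS hc hd
    exact hk0 n h1 V G' S hS (by linarith) hd

theorem main_conn {n : ℕ} (h : ∀ (V : Type) [Fintype V] (G : SimpleGraph V),
    IsKConn G (2 * n) → 37 * n * Fintype.card V ≤ 4 * ∑ v : V, dg G univ v → PairConn G n)
    {k : ℕ} (hk : 37 * n ≤ 4 * k) (V : Type) [Fintype V] (G : SimpleGraph V)
    (hG : IsKConn G k) : PairConn G n := by
  refine h V G (hG.mono (by omega)) ?_
  have h1 : k * Fintype.card V ≤ ∑ v : V, dg G univ v := by
    calc k * Fintype.card V = ∑ _v : V, k := by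
          rw [Finset.sum_const, Finset.card_univ, smul_eq_mul, mul_comm]
      _ ≤ _ := Finset.sum_le_sum (fun v _ => kconn_deg hG v)
  calc 37 * n * Fintype.card V ≤ 4 * k * Fintype.card V := Nat.mul_le_mul_right _ hk
    _ = 4 * (k * Fintype.card V) := by ring
    _ ≤ _ := Nat.mul_le_mul_left _ h1

theorem main_g {n : ℕ} (h : ∀ k : ℕ, 37 * n ≤ 4 * k → ∀ (V : Type) [Fintype V]
    (G : SimpleGraph V), IsKConn G k → PairConn G n) : g n ≤ (37 * n + 3) / 4 := by
  refine Nat.sInf_le ?_
  exact h _ (by omega)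

end Pool.Agent.MP4432a5
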