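import Pool.Agent.Lib.MP_4432a5_co.MdApi

/-!
# MP_4432a5_co, module Good: good vertices of `Y`

`Rp G W s t Y i w`: the vertices of `Y` that can replace the vertex `w` of the item `i`.

`exists_good`: double counting of the pairs `(y, w)`, `w ∈ W i`, `y ∈ Rp i w`, `|Rp i w| ≤ 60`: at most
`60 |K ∪ T| ≤ 600 k` (the items are disjoint). `|Y \ D| ≥ k / 10000 - 60 ≥ k / 20000`, so if every `y ∈ Y \ D`
were in more than `10 ^ 8` such items there would be more than `10 ^ 8 k / 20000 = 5000 k` pairs.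
-/

set_option autoImplicit false
set_option linter.all false

open Finset
open scoped Classical

namespace Pool.Agent.MP4432a5

variable {V : Type*} {G : SimpleGraph V} {K T : Finset V} {k l : ℕ} {s t : Fin k → V}
  {W : Fin k → Finset V} {Y : Finset V}

noncomputable def Rp (G : SimpleGraph V) {k : ℕ} (W : Fin k → Finset V) (s t : Fin k → V)
    (Y : Finset V) (i : Fin k) (w : V) : Finset V :=
  Y.filter (fun v => w ∈ nb G (W i) v ∧ w ≠ s i ∧ w ≠ t i ∧ Cn G (insert v ((W i).erase w)))

/-- items in which `y` can replace a vertex that few others can replace -/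
noncomputable def badIt (G : SimpleGraph V) {k : ℕ} (W : Fin k → Finset V) (s t : Fin k → V)
    (Y : Finset V) (y : V) : Finset (Fin k) :=
  univ.filter (fun i => ∃ w ∈ W i, y ∈ Rp G W s t Y i w ∧ (Rp G W s t Y i w).card ≤ 60)

private theorem sum_card_le (c : LCtx G K T s t l W Y) :
    ∑ i, (W i).card ≤ 10 * k := by
  have h1 : (univ.biUnion W).card = ∑ i, (W i).card :=
    card_biUnion (fun i _ j _ hij => c.sys.dj i j hij)
  rw [← h1]
  refine (card_le_card ?_).trans c.card
  intro v hv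
  obtain ⟨i, -, hi⟩ := mem_biUnion.1 hv
  exact c.sys.sub i hi

private theorem badIt_card_le (y : V) :
    (badIt G W s t Y y).card ≤
      ∑ i, ((W i).filter (fun w => y ∈ Rp G W s t Y i w ∧ (Rp G W s t Y i w).card ≤ 60)).card := by
  have h1 : (badIt G W s t Y y).card = ∑ i : Fin k, if i ∈ badIt G W s t Y y then 1 else 0 := by
    rw [← Finset.card_filter]
    congr 1
    ext i
    simp
  rw [h1]
  refine sum_le_sum (fun i _ => ?_)
  split_ifs with h
  · obtain ⟨-, w, hw, h2, h3⟩ := mem_filter.1 h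
    exact card_pos.2 ⟨w, mem_filter.2 ⟨hw, h2, h3⟩⟩
  · exact Nat.zero_le _

private theorem sum_badIt_le (c : LCtx G K T s t l W Y) (A : Finset V) :
    ∑ y ∈ A, (badIt G W s t Y y).card ≤ 600 * k := by
  calc ∑ y ∈ A, (badIt G W s t Y y).card
      ≤ ∑ y ∈ A, ∑ i, ((W i).filter
          (fun w => y ∈ Rp G W s t Y i w ∧ (Rp G W s t Y i w).card ≤ 60)).card :=
        sum_le_sum (fun y _ => badIt_card_le y)
    _ = ∑ i, ∑ y ∈ A, ((W i).filter
          (fun w => y ∈ Rp G W s t Y i w ∧ (Rp G W s t Y i w).card ≤ 60)).card := sum_comm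
    _ ≤ ∑ i, 60 * (W i).card := by
        refine sum_le_sum (fun i _ => ?_)
        have h1 : ∀ y ∈ A, ((W i).filter
            (fun w => y ∈ Rp G W s t Y i w ∧ (Rp G W s t Y i w).card ≤ 60)).card
            = ∑ w ∈ W i, if y ∈ Rp G W s t Y i w ∧ (Rp G W s t Y i w).card ≤ 60 then 1 else 0 :=
          fun y _ => card_filter _ _
        rw [sum_congr rfl h1, sum_comm, mul_comm, ← smul_eq_mul, ← sum_const]
        refine sum_le_sum (fun w _ => ?_)
        rw [← card_filter]
        by_cases h : (Rp G W s t Y i w).card ≤ 60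
        · refine (card_le_card ?_).trans h
          intro y hy
          exact (mem_filter.1 hy).2.1
        · have : (A.filter (fun y => y ∈ Rp G W s t Y i w ∧ (Rp G W s t Y i w).card ≤ 60)) = ∅ := by
            refine filter_eq_empty_iff.2 (fun y _ hy => h hy.2)
          rw [this]
          simp
    _ = 60 * ∑ i, (W i).card := by rw [mul_sum]
    _ ≤ 60 * (10 * k) := Nat.mul_le_mul_left _ (sum_card_le c)
    _ = 600 * k := by ring

theorem exists_good (c : LCtx G K T s t l W Y) (hk : 10 ^ 20 ≤ k) (D : Finset V)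
    (hD : D.card ≤ 60) : ∃ y ∈ Y, y ∉ D ∧ (badIt G W s t Y y).card ≤ 10 ^ 8 := by
  by_contra hcon
  push Not at hcon
  have h1 : ∀ y ∈ Y \ D, 10 ^ 8 ≤ (badIt G W s t Y y).card := fun y hy =>
    (hcon y (mem_sdiff.1 hy).1 (mem_sdiff.1 hy).2).le
  have h2 : (Y \ D).card * 10 ^ 8 ≤ 600 * k := by
    refine le_trans ?_ (sum_badIt_le c (Y \ D))
    rw [← smul_eq_mul, ← sum_const]
    exact sum_le_sum h1
  have h3 : Y.card ≤ (Y \ D).card + 60 := by
    have := le_card_sdiff D Y
    omega
  have h4 := c.Ycard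
  have h5 : ((Y \ D).card : ℝ) * 10 ^ 8 ≤ 600 * (k : ℝ) := by exact_mod_cast h2
  have h6 : (Y.card : ℝ) ≤ ((Y \ D).card : ℝ) + 60 := by exact_mod_cast h3
  have h7 : (10 : ℝ) ^ 20 ≤ (k : ℝ) := by exact_mod_cast hk
  have h8 : (1000000 : ℝ) ≤ (k : ℝ) := le_trans (by norm_num) h7
  nlinarith

end Pool.Agent.MP4432a5
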