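import Pool.Agent.Lib.MP_4432a5_co.Conn

/-!
# MP_4432a5_co, module ShortCn: short connections in a connected set of large minimum degree

Proof. Take `C ⊆ Z` connected with `u, v ∈ C` of minimal cardinality; by `exists_pth` and minimality `C` is
the vertex set of a path `q 0, ..., q r`. Every `z ∈ Z` has at most 3 neighbours in `C`: if
`z ~ q a`, `z ~ q b` with `a + 3 ≤ b` then `q[0..a] ∪ {z} ∪ q[b..r]` is connected (`IsPth.bridge` with
`C := {z}`), contains `u, v` and has fewer vertices. Double counting of the pairs `(c, z)`, `c ∈ C`,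
`z ∈ Z`, adjacent: `d |C| ≤ 3 |Z| ≤ 60 d`.
-/

set_option autoImplicit false
set_option linter.all false

open Finset
open scoped Classical

namespace Pool.Agent.MP4432a5

variable {V : Type*} {G : SimpleGraph V}

private theorem sc_nb3 {W : Finset V} {a b z : V} {r : ℕ} {q : ℕ → V} (h : IsPth G W a b r q)
    (hv : ∀ i j, i < j → j ≤ r → G.Adj z (q i) → G.Adj z (q j) → j ≤ i + 2) :
    (nb G W z).card ≤ 3 := by
  rcases (nb G W z).eq_empty_or_nonempty with he | hne
  · rw [he]; simp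
  · obtain ⟨i, hi, hai, hw⟩ := nb_window h hv hne
    have hs : nb G W z ⊆ {q i, q (i + 1), q (i + 2)} := by
      intro w hw'
      rcases hw w hw' with h1 | ⟨_, h1⟩ | ⟨_, h1⟩ <;> simp [h1]
    exact (card_le_card hs).trans card_le_three

theorem short_cn {Z : Finset V} (hZ : Cn G Z) {d : ℕ} (hd : ∀ v ∈ Z, d ≤ dg G Z v)
    (hc : 3 * Z.card ≤ 60 * d) (hd0 : 0 < d) {u v : V} (hu : u ∈ Z) (hv : v ∈ Z) :
    ∃ C : Finset V, C ⊆ Z ∧ u ∈ C ∧ v ∈ C ∧ Cn G C ∧ C.card ≤ 60 := by
  let F : Finset (Finset V) := Z.powerset.filter (fun C => u ∈ C ∧ v ∈ C ∧ Cn G C)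
  have hF : F.Nonempty := ⟨Z, by simp [F, hu, hv, hZ]⟩
  obtain ⟨C, hCF, hmin⟩ := exists_min_image F card hF
  simp only [F, mem_filter, mem_powerset] at hCF
  obtain ⟨hCZ, huC, hvC, hCc⟩ := hCF
  obtain ⟨W, hWC, r, q, hp⟩ := exists_pth hCc huC hvC
  have hWZ : W ⊆ Z := hWC.trans hCZ
  have hle : ∀ D : Finset V, D ⊆ Z → u ∈ D → v ∈ D → Cn G D → r + 1 ≤ D.card := by
    intro D hD h1 h2 h3
    have h4 : C.card ≤ D.card := hmin D (by simp [F, hD, h1, h2, h3])
    have h5 : W.card ≤ C.card := card_le_card hWC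
    rw [hp.card] at h5
    omega
  have huW : u ∈ W := hp.mem.2 ⟨0, by omega, hp.z⟩
  have hvW : v ∈ W := hp.mem.2 ⟨r, le_rfl, hp.e⟩
  have hqW : ∀ n, n ≤ r → q n ∈ W := fun n hn => hp.mem.2 ⟨n, hn, rfl⟩
  refine ⟨W, hWZ, huW, hvW, hp.cn, ?_⟩
  have hwin : ∀ z ∈ Z, ∀ i j, i < j → j ≤ r → G.Adj z (q i) → G.Adj z (q j) → j ≤ i + 2 := by
    intro z hz i j hij hj h1 h2
    by_contra hcon
    push Not at hcon
    have hb := hp.bridge (i := i) (j := j) hij.le hj (cn_singleton z) (mem_singleton_self z)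
      (mem_singleton_self z) h1.symm h2.symm
    have hcard : ((Icc 0 i).image q ∪ {z} ∪ (Icc j r).image q).card ≤ (i + 1) + 1 + (r + 1 - j) := by
      refine (card_union_le _ _).trans (Nat.add_le_add ((card_union_le _ _).trans
        (Nat.add_le_add ?_ (by simp))) ?_)
      · exact card_image_le.trans (by simp)
      · exact card_image_le.trans (by simp)
    have hsub : (Icc 0 i).image q ∪ {z} ∪ (Icc j r).image q ⊆ Z := by
      intro x hx
      simp only [mem_union, mem_image, mem_Icc, mem_singleton] at hx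
      rcases hx with (⟨n, hn, rfl⟩ | rfl) | ⟨n, hn, rfl⟩
      · exact hWZ (hqW n (by omega))
      · exact hz
      · exact hWZ (hqW n (by omega))
    have h3 := hle _ hsub (by
      simp only [mem_union, mem_image, mem_Icc]
      exact Or.inl (Or.inl ⟨0, by omega, hp.z⟩)) (by
      simp only [mem_union, mem_image, mem_Icc]
      exact Or.inr ⟨r, by omega, hp.e⟩) hb
    omega
  have h1 : ∑ c ∈ W, (nb G Z c).card = ∑ z ∈ Z, (nb G W z).card := by
    have := sum_card_bipartiteAbove_eq_sum_card_bipartiteBelow (s := W) (t := Z)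
      (fun c z => G.Adj c z)
    have e1 : ∀ c, bipartiteAbove (fun c z => G.Adj c z) Z c = nb G Z c := fun c => rfl
    have e2 : ∀ z, bipartiteBelow (fun c z => G.Adj c z) W z = nb G W z := by
      intro z
      ext w
      simp [bipartiteBelow, nb, G.adj_comm]
    simp only [e1, e2] at this
    exact this
  have h2 : W.card * d ≤ ∑ c ∈ W, (nb G Z c).card := by
    rw [← smul_eq_mul]
    exact card_nsmul_le_sum _ _ _ (fun c hcW => hd c (hWZ hcW))
  have h3 : ∑ z ∈ Z, (nb G W z).card ≤ Z.card * 3 := by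
    rw [← smul_eq_mul]
    exact sum_le_card_nsmul _ _ _ (fun z hz => sc_nb3 hp (hwin z hz))
  have h4 : W.card * d ≤ 60 * d := by omega
  exact Nat.le_of_mul_le_mul_right h4 hd0

end Pool.Agent.MP4432a5
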