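import Pool.Agent.Lib.MP_4432a5_co.Robust
import Pool.Agent.Lib.MP_4432a5_co.ShortCn

/-!
# MP_4432a5_co, module Hub

Proof. `exists_robust` gives `X`. `|X| ≥ k - 3 B` since a vertex of `X` has that many neighbours in `X`.
For `|D| ≤ B` every vertex of `X \ D` has at least `d := k - 4 B ≥ 3 k / 4` neighbours in `X \ D`, and
`3 |X \ D| ≤ 30 k ≤ 60 d`, so `short_cn` applies.
-/

set_option autoImplicit false
set_option linter.all false

open Finset
open scoped Classical

namespace Pool.Agent.MP4432a5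

variable {V : Type*} {G : SimpleGraph V}

theorem exists_hub {U : Finset V} {k B : ℕ} (hU : U.Nonempty) (hc : U.card ≤ 10 * k)
    (hd : ∀ v ∈ U, k ≤ dg G U v) (hB : 16 * (B + 1) ≤ k) :
    ∃ X : Finset V, X ⊆ U ∧ k ≤ 2 * X.card ∧ HubP G X B := by
  obtain ⟨X, hXU, ⟨x, hx⟩, hXd, hXc⟩ := exists_robust hU hc hd hB
  refine ⟨X, hXU, ?_, ?_⟩
  · have h1 := hXd x hx
    have h2 : dg G X x ≤ X.card := card_filter_le _ _
    omega
  · intro D hD u hu v hv
    have hZ : (X \ D).card ≤ 10 * k :=
      (card_le_card (sdiff_subset.trans hXU)).trans hc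
    refine short_cn (d := k - 4 * B) (hXc D hD) ?_ (by omega) (by omega) hu hv
    intro z hz
    have hzX : z ∈ X := (mem_sdiff.1 hz).1
    have h1 := hXd z hzX
    have h2 : nb G X z ⊆ nb G (X \ D) z ∪ D := by
      intro w hw
      rw [nb, mem_filter] at hw
      by_cases hwD : w ∈ D
      · exact mem_union_right _ hwD
      · refine mem_union_left _ ?_
        rw [nb, mem_filter]
        exact ⟨mem_sdiff.2 ⟨hw.1, hwD⟩, hw.2⟩
    have h3 : dg G X z ≤ dg G (X \ D) z + D.card :=
      (card_le_card h2).trans (card_union_le _ _)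
    omega

end Pool.Agent.MP4432a5
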