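import Pool.Agent.Lib.MP_4432a5_co.Good

/-!
# MP_4432a5_co, module LinkOne: joining `u ∈ K` and a good `y` by one vertex

Proof. `P = N(u) ∩ N(y) ∩ (K ∪ T)` has at least `(2 + e) k` elements (`com`). If `x ∈ P` is free and not
in `D`: `H = ∅`, `E = {x}`. Otherwise `P \ D ⊆ used W`, so `|P ∩ used W| ≥ (2 + e) k - 50`. Every item `i ≥ l` contains
at most 2 elements of `P` (`W i = {s i, t i}`), every item `i < l` at most 3 (`Y3`), so at least `e k - 50` items
`i < l` contain exactly 3, and then `P ∩ W i = nb G (W i) y`. Discard the items of `F` (at most 40) and of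
`badIt y` (at most `10 ^ 8`). For a remaining item `i` let `w` be as in `Y3'`: `y ∈ Rp i w`, so
`|Rp i w| > 60 > |D|`; take `v ∈ Rp i w \ D`: `H = {i}`, `E = {v}`, `W' i = insert v ((W i).erase w)`, `x = w`
(`v ∈ Y` is free, `w ∈ P`).
-/

set_option autoImplicit false
set_option linter.all false

open Finset
open scoped Classical

namespace Pool.Agent.MP4432a5

variable {V : Type*} {G : SimpleGraph V} {K T : Finset V} {k l : ℕ} {s t : Fin k → V}
  {W : Fin k → Finset V} {Y : Finset V}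

private theorem lo_used {v : V} : v ∈ used W ↔ ∃ i, v ∈ W i := by
  unfold used
  simp only [mem_biUnion, mem_univ, true_and]

private theorem lo_nb {S : Finset V} {v w : V} : w ∈ nb G S v ↔ w ∈ S ∧ G.Adj v w := by
  unfold nb
  exact mem_filter

/-- many items contain three common neighbours -/
private theorem lo_many (c : LCtx G K T s t l W Y) {y : V} (hy : y ∈ Y) (P : Finset V)
    (hPy : P ⊆ nb G (K ∪ T) y) (D : Finset V) (hD : D.card ≤ 50)
    (hP : ((2 : ℝ) + 1 / 10000) * k ≤ (P.card : ℝ)) (hu : ∀ x ∈ P, x ∉ D → x ∈ used W) :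
    (k : ℝ) / 10000 - 50 ≤
      ((univ.filter (fun i : Fin k => (i : ℕ) < l ∧ 3 ≤ (P ∩ W i).card)).card : ℝ) := by
  set B := univ.filter (fun i : Fin k => (i : ℕ) < l ∧ 3 ≤ (P ∩ W i).card) with hB
  have h1 : P \ D ⊆ univ.biUnion (fun i => P ∩ W i) := by
    intro x hx
    obtain ⟨hxP, hxD⟩ := mem_sdiff.1 hx
    obtain ⟨i, hi⟩ := lo_used.1 (hu x hxP hxD)
    exact mem_biUnion.2 ⟨i, mem_univ i, mem_inter.2 ⟨hxP, hi⟩⟩
  have h2 : (P \ D).card ≤ ∑ i, (P ∩ W i).card := (card_le_card h1).trans card_biUnion_le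
  have h3 : ∀ i, (P ∩ W i).card ≤ 2 + (if i ∈ B then 1 else 0) := by
    intro i
    by_cases hil : (i : ℕ) < l
    · have h4 : P ∩ W i ⊆ nb G (W i) y := by
        intro x hx
        obtain ⟨hxP, hxW⟩ := mem_inter.1 hx
        exact lo_nb.2 ⟨hxW, (lo_nb.1 (hPy hxP)).2⟩
      have h5 := (card_le_card h4).trans (c.Y3 y hy i hil)
      by_cases h6 : 3 ≤ (P ∩ W i).card
      · have h7 : i ∈ B := mem_filter.2 ⟨mem_univ i, hil, h6⟩
        rw [if_pos h7]
        exact h5
      · omega
    · have h4 : (P ∩ W i).card ≤ (W i).card := card_le_card inter_subset_right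
      have h5 : (W i).card ≤ 2 := by
        rw [c.sys.un i (not_lt.1 hil)]
        exact card_le_two
      omega
  have h4 : ∑ i, (P ∩ W i).card ≤ 2 * k + B.card := by
    refine (sum_le_sum (fun i _ => h3 i)).trans ?_
    rw [sum_add_distrib, sum_const, card_univ, Fintype.card_fin, smul_eq_mul, ← card_filter]
    have h5 : (univ.filter (fun i => i ∈ B)) = B := by
      ext i
      simp
    rw [h5]
    omega
  have h5 : P.card ≤ (P \ D).card + 50 := by
    have := le_card_sdiff D P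
    omega
  have h6 : P.card ≤ 2 * k + B.card + 50 := by omega
  have h7 : (P.card : ℝ) ≤ 2 * (k : ℝ) + (B.card : ℝ) + 50 := by exact_mod_cast h6
  linarith

theorem link_one (c : LCtx G K T s t l W Y) (hk : 10 ^ 20 ≤ k) {y : V} (hy : y ∈ Y)
    (hg : (badIt G W s t Y y).card ≤ 10 ^ 8) {u : V} (hu : u ∈ K) (F : Finset (Fin k))
    (D : Finset V) (hF : F.card ≤ 40) (hD : D.card ≤ 50) :
    ∃ (H : Finset (Fin k)) (E : Finset V) (x : V) (W' : Fin k → Finset V),
      Md G s t W H E {x} W' ∧ (∀ h ∈ H, (h : ℕ) < l ∧ h ∉ F) ∧ H.card ≤ 1 ∧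
      E ⊆ (K ∪ T) \ used W ∧ Disjoint E D ∧ E.card ≤ 1 ∧ G.Adj u x ∧ G.Adj y x := by
  set P := nb G (K ∪ T) u ∩ nb G (K ∪ T) y with hPdef
  have hPc := c.com u hu y hy
  by_cases hc : ∃ x ∈ P, x ∉ D ∧ x ∉ used W
  · obtain ⟨x, hxP, hxD, hxW⟩ := hc
    obtain ⟨hxu, hxy⟩ := mem_inter.1 hxP
    refine ⟨∅, {x}, x, W, Md.triv {x}, ?_, ?_, ?_, ?_, ?_, (lo_nb.1 hxu).2, (lo_nb.1 hxy).2⟩
    · intro h hh
      simp at hh
    · simp
    · intro z hz
      rw [mem_singleton.1 hz]
      exact mem_sdiff.2 ⟨(lo_nb.1 hxu).1, hxW⟩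
    · exact disjoint_singleton_left.2 hxD
    · simp
  · push Not at hc
    have hmany := lo_many c hy P inter_subset_right D hD hPc hc
    set B := univ.filter (fun i : Fin k => (i : ℕ) < l ∧ 3 ≤ (P ∩ W i).card) with hB
    have h1 : (F ∪ badIt G W s t Y y).card < B.card := by
      have h2 : (F ∪ badIt G W s t Y y).card ≤ 40 + 10 ^ 8 :=
        (card_union_le _ _).trans (add_le_add hF hg)
      have h30 : (10 : ℝ) ^ 20 ≤ (k : ℝ) := by exact_mod_cast hk
      have h3 : (100000000000000 : ℝ) ≤ (k : ℝ) := le_trans (by norm_num) h30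
      have h4 : ((40 + 10 ^ 8 : ℕ) : ℝ) < (B.card : ℝ) := by
        refine lt_of_lt_of_le ?_ hmany
        norm_num
        linarith
      have h5 : (40 + 10 ^ 8 : ℕ) < B.card := by exact_mod_cast h4
      omega
    obtain ⟨i, hiB, hiF⟩ := exists_mem_notMem_of_card_lt_card h1
    obtain ⟨-, hil, hi3⟩ := mem_filter.1 hiB
    have hiF1 : i ∉ F := fun h => hiF (mem_union_left _ h)
    have hib : i ∉ badIt G W s t Y y := fun h => hiF (mem_union_right _ h)
    have hsub : P ∩ W i ⊆ nb G (W i) y := by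
      intro x hx
      obtain ⟨hxP, hxW⟩ := mem_inter.1 hx
      exact lo_nb.2 ⟨hxW, (lo_nb.1 (mem_inter.1 hxP).2).2⟩
    have hY3 := c.Y3 y hy i hil
    have hle := card_le_card hsub
    have heq : P ∩ W i = nb G (W i) y := eq_of_subset_of_card_le hsub (by omega)
    have hc3 : (nb G (W i) y).card = 3 := by omega
    obtain ⟨w, hw, hws, hwt, hwc⟩ := c.Y3' y hy i hil hc3
    have hyR : y ∈ Rp G W s t Y i w := mem_filter.2 ⟨hy, hw, hws, hwt, hwc⟩
    have hwW : w ∈ W i := (lo_nb.1 hw).1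
    have hbig : 60 < (Rp G W s t Y i w).card := by
      by_contra hcon
      exact hib (mem_filter.2 ⟨mem_univ i, w, hwW, hyR, not_lt.1 hcon⟩)
    obtain ⟨v, hvR, hvD⟩ := exists_mem_notMem_of_card_lt_card
      (show D.card < (Rp G W s t Y i w).card by omega)
    obtain ⟨hvY, hvw, -, -, hvc⟩ := mem_filter.1 hvR
    have hvfree : v ∉ used W := c.Yfree v hvY
    have hvw' : v ≠ w := by
      rintro rfl
      exact hvfree (lo_used.2 ⟨i, hwW⟩)
    have hwP : w ∈ P := by
      rw [← heq] at hw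
      exact (mem_inter.1 hw).1
    refine ⟨{i}, {v}, w, fun _ => insert v ((W i).erase w), ?_, ?_, ?_, ?_, ?_, ?_,
      (lo_nb.1 (mem_inter.1 hwP).1).2, (lo_nb.1 (mem_inter.1 hwP).2).2⟩
    · refine ⟨?_, ?_, ?_, ?_, ?_, ?_, ?_⟩
      · intro h hh
        rw [mem_singleton.1 hh]
        exact mem_insert_of_mem (mem_erase.2 ⟨hws.symm, c.sys.sm i⟩)
      · intro h hh
        rw [mem_singleton.1 hh]
        exact mem_insert_of_mem (mem_erase.2 ⟨hwt.symm, c.sys.tm i⟩)
      · intro h hh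
        exact hvc
      · intro h hh z hz
        rcases mem_insert.1 hz with h1 | h1
        · exact mem_union_right _ (mem_singleton.2 h1)
        · exact mem_union_left _ (mem_biUnion.2 ⟨i, mem_singleton_self i, mem_of_mem_erase h1⟩)
      · intro h hh h' hh' hne
        exact absurd ((mem_singleton.1 hh).trans (mem_singleton.1 hh').symm) hne
      · intro z hz
        rw [mem_singleton.1 hz]
        exact mem_union_left _ (mem_biUnion.2 ⟨i, mem_singleton_self i, hwW⟩)
      · intro h hh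
        rw [disjoint_singleton_right]
        intro h1
        rcases mem_insert.1 h1 with h2 | h2
        · exact hvw' h2.symm
        · exact (mem_erase.1 h2).1 rfl
    · intro h hh
      rw [mem_singleton.1 hh]
      exact ⟨hil, hiF1⟩
    · simp
    · intro z hz
      rw [mem_singleton.1 hz]
      exact mem_sdiff.2 ⟨mem_union_left _ (c.Ysub hvY), hvfree⟩
    · exact disjoint_singleton_left.2 hvD
    · simp

end Pool.Agent.MP4432a5
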