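import Pool.Agent.Lib.MP_4432a5_co.LinkOne

/-!
# MP_4432a5_co, module LinkPair: joining vertices of `K`

`link_pair`: `y ∈ Y \ D` good (`exists_good`); `link_one` for `u`, `F`, `insert y D`: `(H1, E1, x1)`; `link_one` for `u'`,
`F ∪ H1`, `insert y D ∪ E1`: `(H2, E2, x2)`; `Md.union`, `Md.addE` with `{y}`; `R = {x1} ∪ {x2} ∪ {y}`.

`link3`: three applications with growing forbidden sets.
-/

set_option autoImplicit false
set_option linter.all false

open Finset
open scoped Classical

namespace Pool.Agent.MP4432a5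

variable {V : Type*} {G : SimpleGraph V} {K T : Finset V} {k l : ℕ} {s t : Fin k → V}
  {W : Fin k → Finset V} {Y : Finset V}

private theorem cn_star {R : Finset V} {y : V} (hy : y ∈ R)
    (h : ∀ x ∈ R, x = y ∨ G.Adj y x) : Cn G R := by
  intro a ha b hb
  have h1 : Relation.ReflTransGen (fun a b => G.Adj a b ∧ b ∈ R) a y := by
    rcases h a ha with h1 | h1
    · rw [h1]
    · exact Relation.ReflTransGen.single ⟨h1.symm, hy⟩
  have h2 : Relation.ReflTransGen (fun a b => G.Adj a b ∧ b ∈ R) y b := by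
    rcases h b hb with h2 | h2
    · rw [h2]
    · exact Relation.ReflTransGen.single ⟨h2, hb⟩
  exact h1.trans h2

private theorem disj_used {S E : Finset V} {W : Fin k → Finset V} (h : E ⊆ S \ used W) :
    Disjoint E (used W) := by
  rw [Finset.disjoint_left]
  intro a ha
  exact (Finset.mem_sdiff.mp (h ha)).2

theorem link_pair (c : LCtx G K T s t l W Y) (hk : 10 ^ 20 ≤ k) {u u' : V} (hu : u ∈ K)
    (hu' : u' ∈ K) (F : Finset (Fin k)) (D : Finset V) (hF : F.card ≤ 20) (hD : D.card ≤ 40) :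
    ∃ (H : Finset (Fin k)) (E R : Finset V) (W' : Fin k → Finset V),
      Md G s t W H E R W' ∧ (∀ h ∈ H, (h : ℕ) < l ∧ h ∉ F) ∧ H.card ≤ 2 ∧
      E ⊆ (K ∪ T) \ used W ∧ Disjoint E D ∧ E.card ≤ 3 ∧ Cn G R ∧ (∃ x ∈ R, G.Adj u x) ∧
      ∃ x ∈ R, G.Adj u' x := by
  obtain ⟨y, hyY, hyD, hyg⟩ := exists_good c hk D (by omega)
  have hc1 : (insert y D).card ≤ 50 := le_trans (Finset.card_insert_le _ _) (by omega)
  obtain ⟨H1, E1, x1, W1, m1, f1, g1, e1, d1, k1, a1, b1⟩ :=
    link_one c hk hyY hyg hu F (insert y D) (by omega) hc1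
  have hc2 : (F ∪ H1).card ≤ 40 := le_trans (Finset.card_union_le _ _) (by omega)
  have hc3 : (insert y D ∪ E1).card ≤ 50 := by
    have h1 := Finset.card_union_le (insert y D) E1
    have h2 := Finset.card_insert_le y D
    omega
  obtain ⟨H2, E2, x2, W2, m2, f2, g2, e2, d2, k2, a2, b2⟩ :=
    link_one c hk hyY hyg hu' (F ∪ H1) (insert y D ∪ E1) hc2 hc3
  have hH : Disjoint H1 H2 := by
    rw [Finset.disjoint_left]
    intro a ha hb
    exact (f2 a hb).2 (Finset.mem_union_right _ ha)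
  have hE : Disjoint E1 E2 := by
    rw [Finset.disjoint_left]
    intro a ha hb
    exact (Finset.disjoint_left.mp d2 hb) (Finset.mem_union_right _ ha)
  have hy1 : y ∉ E1 := fun h => (Finset.disjoint_left.mp d1 h) (Finset.mem_insert_self _ _)
  have hy2 : y ∉ E2 := fun h =>
    (Finset.disjoint_left.mp d2 h) (Finset.mem_union_left _ (Finset.mem_insert_self _ _))
  have hu1 := disj_used e1
  have hu2 := disj_used e2
  obtain ⟨m3, hR⟩ := Md.union c.sys.dj m1 m2 hH hE hu1 hu2
  have m4 := m3.addE (E1 := {y}) (Finset.disjoint_union_left.mpr ⟨hu1, hu2⟩)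
    (Finset.disjoint_singleton_left.mpr (c.Yfree y hyY))
    (by
      rw [Finset.disjoint_left]
      intro a ha hb
      have ha1 := (Finset.mem_sdiff.mp ha).1
      rw [Finset.mem_singleton] at ha1
      subst ha1
      rcases Finset.mem_union.mp hb with h | h
      · exact hy1 h
      · exact hy2 h)
  refine ⟨H1 ∪ H2, (E1 ∪ E2) ∪ {y}, ({x1} ∪ {x2}) ∪ {y}, _, m4, ?_, ?_, ?_, ?_, ?_, ?_, ?_, ?_⟩
  · intro h hh
    rcases Finset.mem_union.mp hh with h1 | h1
    · exact f1 h h1
    · exact ⟨(f2 h h1).1, fun h2 => (f2 h h1).2 (Finset.mem_union_left _ h2)⟩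
  · exact le_trans (Finset.card_union_le _ _) (by omega)
  · intro a ha
    rcases Finset.mem_union.mp ha with h | h
    · rcases Finset.mem_union.mp h with h | h
      · exact e1 h
      · exact e2 h
    · rw [Finset.mem_singleton] at h
      subst h
      exact Finset.mem_sdiff.mpr ⟨Finset.mem_union_left _ (c.Ysub hyY), c.Yfree _ hyY⟩
  · rw [Finset.disjoint_left]
    intro a ha hb
    rcases Finset.mem_union.mp ha with h | h
    · rcases Finset.mem_union.mp h with h | h
      · exact (Finset.disjoint_left.mp d1 h) (Finset.mem_insert_of_mem hb)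
      · exact (Finset.disjoint_left.mp d2 h)
          (Finset.mem_union_left _ (Finset.mem_insert_of_mem hb))
    · rw [Finset.mem_singleton] at h
      subst h
      exact hyD hb
  · have h1 := Finset.card_union_le (E1 ∪ E2) {y}
    have h2 := Finset.card_union_le E1 E2
    have h3 := Finset.card_singleton y
    omega
  · apply cn_star (y := y)
    · exact Finset.mem_union_right _ (Finset.mem_singleton_self _)
    · intro x hx
      rcases Finset.mem_union.mp hx with h | h
      · rcases Finset.mem_union.mp h with h | h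
        · rw [Finset.mem_singleton] at h
          subst h
          exact Or.inr b1
        · rw [Finset.mem_singleton] at h
          subst h
          exact Or.inr b2
      · exact Or.inl (Finset.mem_singleton.mp h)
  · exact ⟨x1, Finset.mem_union_left _ (Finset.mem_union_left _ (Finset.mem_singleton_self _)), a1⟩
  · exact ⟨x2, Finset.mem_union_left _ (Finset.mem_union_right _ (Finset.mem_singleton_self _)), a2⟩

theorem link3 (c : LCtx G K T s t l W Y) (hk : 10 ^ 20 ≤ k) {u1 v1 u2 v2 u3 v3 : V}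
    (h1 : u1 ∈ K) (h1' : v1 ∈ K) (h2 : u2 ∈ K) (h2' : v2 ∈ K) (h3 : u3 ∈ K) (h3' : v3 ∈ K)
    (F : Finset (Fin k)) (D : Finset V) (hF : F.card ≤ 10) (hD : D.card ≤ 20) :
    ∃ (H : Finset (Fin k)) (E R1 R2 R3 : Finset V) (W' : Fin k → Finset V),
      Md G s t W H E (R1 ∪ R2 ∪ R3) W' ∧ (∀ h ∈ H, (h : ℕ) < l ∧ h ∉ F) ∧
      E ⊆ (K ∪ T) \ used W ∧ Disjoint E D ∧ E.card ≤ 9 ∧
      Disjoint R1 R2 ∧ Disjoint R1 R3 ∧ Disjoint R2 R3 ∧ Cn G R1 ∧ Cn G R2 ∧ Cn G R3 ∧
      (∃ x ∈ R1, G.Adj u1 x) ∧ (∃ x ∈ R1, G.Adj v1 x) ∧ (∃ x ∈ R2, G.Adj u2 x) ∧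
      (∃ x ∈ R2, G.Adj v2 x) ∧ (∃ x ∈ R3, G.Adj u3 x) ∧ ∃ x ∈ R3, G.Adj v3 x := by
  obtain ⟨H1, E1, R1, W1, m1, f1, g1, e1, d1, k1, n1, a1, b1⟩ :=
    link_pair c hk h1 h1' F D (by omega) (by omega)
  have hc1 : (F ∪ H1).card ≤ 20 := le_trans (Finset.card_union_le _ _) (by omega)
  have hc2 : (D ∪ E1).card ≤ 40 := le_trans (Finset.card_union_le _ _) (by omega)
  obtain ⟨H2, E2, R2, W2, m2, f2, g2, e2, d2, k2, n2, a2, b2⟩ :=
    link_pair c hk h2 h2' (F ∪ H1) (D ∪ E1) hc1 hc2
  have hc3 : (F ∪ H1 ∪ H2).card ≤ 20 := by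
    have q1 := Finset.card_union_le (F ∪ H1) H2
    have q2 := Finset.card_union_le F H1
    omega
  have hc4 : (D ∪ E1 ∪ E2).card ≤ 40 := by
    have q1 := Finset.card_union_le (D ∪ E1) E2
    have q2 := Finset.card_union_le D E1
    omega
  obtain ⟨H3, E3, R3, W3, m3, f3, g3, e3, d3, k3, n3, a3, b3⟩ :=
    link_pair c hk h3 h3' (F ∪ H1 ∪ H2) (D ∪ E1 ∪ E2) hc3 hc4
  have hu1 := disj_used e1
  have hu2 := disj_used e2
  have hu3 := disj_used e3
  have hH12 : Disjoint H1 H2 := by
    rw [Finset.disjoint_left]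
    intro a ha hb
    exact (f2 a hb).2 (Finset.mem_union_right _ ha)
  have hE12 : Disjoint E1 E2 := by
    rw [Finset.disjoint_left]
    intro a ha hb
    exact (Finset.disjoint_left.mp d2 hb) (Finset.mem_union_right _ ha)
  have hH123 : Disjoint (H1 ∪ H2) H3 := by
    rw [Finset.disjoint_left]
    intro a ha hb
    rcases Finset.mem_union.mp ha with h | h
    · exact (f3 a hb).2 (Finset.mem_union_left _ (Finset.mem_union_right _ h))
    · exact (f3 a hb).2 (Finset.mem_union_right _ h)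
  have hE123 : Disjoint (E1 ∪ E2) E3 := by
    rw [Finset.disjoint_left]
    intro a ha hb
    rcases Finset.mem_union.mp ha with h | h
    · exact (Finset.disjoint_left.mp d3 hb) (Finset.mem_union_left _ (Finset.mem_union_right _ h))
    · exact (Finset.disjoint_left.mp d3 hb) (Finset.mem_union_right _ h)
  obtain ⟨m12, r12⟩ := Md.union c.sys.dj m1 m2 hH12 hE12 hu1 hu2
  obtain ⟨m123, r123⟩ := Md.union c.sys.dj m12 m3 hH123 hE123
    (Finset.disjoint_union_left.mpr ⟨hu1, hu2⟩) hu3
  rw [Finset.disjoint_union_left] at r123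
  refine ⟨H1 ∪ H2 ∪ H3, E1 ∪ E2 ∪ E3, R1, R2, R3, _, m123, ?_, ?_, ?_, ?_, r12, r123.1, r123.2,
    n1, n2, n3, a1, b1, a2, b2, a3, b3⟩
  · intro h hh
    rcases Finset.mem_union.mp hh with hh | hh
    · rcases Finset.mem_union.mp hh with hh | hh
      · exact f1 h hh
      · exact ⟨(f2 h hh).1, fun q => (f2 h hh).2 (Finset.mem_union_left _ q)⟩
    · exact ⟨(f3 h hh).1, fun q => (f3 h hh).2
        (Finset.mem_union_left _ (Finset.mem_union_left _ q))⟩
  · exact Finset.union_subset (Finset.union_subset e1 e2) e3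
  · rw [Finset.disjoint_union_left, Finset.disjoint_union_left]
    refine ⟨⟨d1, ?_⟩, ?_⟩
    · rw [Finset.disjoint_left]
      intro a ha hb
      exact (Finset.disjoint_left.mp d2 ha) (Finset.mem_union_left _ hb)
    · rw [Finset.disjoint_left]
      intro a ha hb
      exact (Finset.disjoint_left.mp d3 ha)
        (Finset.mem_union_left _ (Finset.mem_union_left _ hb))
  · have q1 := Finset.card_union_le (E1 ∪ E2) E3
    have q2 := Finset.card_union_le E1 E2
    omega

end Pool.Agent.MP4432a5
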