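import Pool.Agent.Lib.MP_4432a5_co.RBasic

/-!
# MP_4432a5_co, module MassedSub: massed sub-pairs

`massed_sub`: `m1` by `r2_sep`. `m2`: for a separation `(A3, B3)` of `G[B]` with `A ∩ B ⊆ A3` and
`|A3 ∩ B3| < |A ∩ B|`, the pair `(A ∪ A3, B3)` is a separation of `G[S]`, `(A ∪ A3) ∩ B3 = A3 ∩ B3` (since
`A ∩ B3 ⊆ A ∩ B ⊆ A3`), `B3 \ (A ∪ A3) = B3 \ A3`; use `hm2` and `r2_sep` (twice: both `r2 G S (B3 \ A3)` and
`r2 G B (B3 \ A3)` equal `r2 G B3 (B3 \ A3)`).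

`massed_min`: take a violating separation `(A2, B2)` with `|B2|` minimal. `m1`: `r2_sep`. `m2`: for a separation
`(A3, B3)` of `G[B2]` with `A2 ∩ B2 ⊆ A3`, `|A3 ∩ B3| < |A2 ∩ B2|`: if it violated the bound, `(A2 ∪ A3, B3)` would be
a violating separation of `G[S]`, so `|B3| ≥ |B2|`, `B3 = B2`, `A3 ∩ B3 = A3 ⊇ A2 ∩ B2`, contradiction.
-/

set_option autoImplicit false
set_option linter.all false

open Finset
open scoped Classical

namespace Pool.Agent.MP4432a5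

variable {V : Type*} {G : SimpleGraph V} {lam : ℝ} {S X : Finset V}

private theorem sep_comb {A B A3 B3 : Finset V} (hs : Sep G S A B) (h3 : Sep G B A3 B3)
    (hA : A ∩ B ⊆ A3) :
    Sep G S (A ∪ A3) B3 ∧ (A ∪ A3) ∩ B3 = A3 ∩ B3 ∧ B3 \ (A ∪ A3) = B3 \ A3 ∧
      r2 G S (B3 \ A3) = r2 G B (B3 \ A3) := by
  have hB3 : B3 ⊆ B := by
    rw [← h3.un]; exact subset_union_right
  have hx : ∀ x ∈ B3, x ∈ A → x ∈ A3 := fun x hx hxA => hA (mem_inter.2 ⟨hxA, hB3 hx⟩)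
  have h1 : Sep G S (A ∪ A3) B3 := by
    refine ⟨?_, ?_⟩
    · rw [union_assoc, h3.un, hs.un]
    · intro a ha b hb
      rw [mem_sdiff, mem_union] at ha hb
      obtain ⟨ha1, ha2⟩ := ha
      obtain ⟨hb1, hb2⟩ := hb
      rw [not_or] at hb2
      by_cases haA3 : a ∈ A3
      · exact h3.no a (mem_sdiff.2 ⟨haA3, ha2⟩) b (mem_sdiff.2 ⟨hb1, hb2.2⟩)
      · have haA : a ∈ A := ha1.resolve_right haA3
        have haB : a ∉ B := fun h => haA3 (hA (mem_inter.2 ⟨haA, h⟩))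
        exact hs.no a (mem_sdiff.2 ⟨haA, haB⟩) b (mem_sdiff.2 ⟨hB3 hb1, hb2.1⟩)
  have h2 : B3 \ (A ∪ A3) = B3 \ A3 := by
    ext x
    rw [mem_sdiff, mem_sdiff, mem_union, not_or]
    constructor
    · rintro ⟨h1, h2⟩
      exact ⟨h1, h2.2⟩
    · rintro ⟨h1, h2⟩
      exact ⟨h1, fun h => h2 (hx x h1 h), h2⟩
  refine ⟨h1, ?_, h2, ?_⟩
  · ext x
    rw [mem_inter, mem_inter, mem_union]
    constructor
    · rintro ⟨h1 | h1, h2⟩
      · exact ⟨hx x h2 h1, h2⟩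
      · exact ⟨h1, h2⟩
    · rintro ⟨h1, h2⟩
      exact ⟨Or.inr h1, h2⟩
  · have e1 := r2_sep h1
    rw [h2] at e1
    rw [e1, r2_sep h3]

theorem massed_sub {A B : Finset V}
    (hm2 : ∀ A B : Finset V, Sep G S A B → X ⊆ A → (A ∩ B).card < X.card →
      (r2 G S (B \ A) : ℝ) ≤ 2 * lam * ((B \ A).card : ℝ))
    (hs : Sep G S A B) (hX : X ⊆ A) (hc : (A ∩ B).card ≤ X.card)
    (h1 : 2 * lam * ((B \ A).card : ℝ) < (r2 G S (B \ A) : ℝ)) :
    Massed lam G B (A ∩ B) := by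
  have hd : B \ (A ∩ B) = B \ A := by
    ext x
    rw [mem_sdiff, mem_sdiff, mem_inter]
    tauto
  refine ⟨inter_subset_right, ?_, ?_⟩
  · rw [hd, ← r2_sep hs]
    exact h1
  · intro A3 B3 h3 hA hlt
    obtain ⟨e1, e2, e3, e4⟩ := sep_comb hs h3 hA
    have h5 := hm2 (A ∪ A3) B3 e1 (hX.trans subset_union_left)
      (by rw [e2]; exact lt_of_lt_of_le hlt hc)
    rw [e3, e4] at h5
    exact h5

theorem massed_min
    (hm2 : ¬ ∀ A B : Finset V, Sep G S A B → X ⊆ A → (A ∩ B).card < X.card →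
      (r2 G S (B \ A) : ℝ) ≤ 2 * lam * ((B \ A).card : ℝ)) :
    ∃ A B : Finset V, Sep G S A B ∧ X ⊆ A ∧ (A ∩ B).card < X.card ∧
      2 * lam * ((B \ A).card : ℝ) < (r2 G S (B \ A) : ℝ) ∧ Massed lam G B (A ∩ B) := by
  have hex : ∃ n : ℕ, ∃ A B : Finset V, B.card = n ∧ Sep G S A B ∧ X ⊆ A ∧
      (A ∩ B).card < X.card ∧ 2 * lam * ((B \ A).card : ℝ) < (r2 G S (B \ A) : ℝ) := by
    by_contra hne
    refine hm2 fun A B hs hX hc => ?_
    by_contra hlt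
    exact hne ⟨B.card, A, B, rfl, hs, hX, hc, not_le.1 hlt⟩
  obtain ⟨A, B, hBn, hs, hX, hc, h1⟩ := Nat.find_spec hex
  have hmin : ∀ A' B' : Finset V, Sep G S A' B' → X ⊆ A' → (A' ∩ B').card < X.card →
      2 * lam * ((B' \ A').card : ℝ) < (r2 G S (B' \ A') : ℝ) → B.card ≤ B'.card := by
    intro A' B' g1 g2 g3 g4
    rw [hBn]
    exact Nat.find_min' hex ⟨A', B', rfl, g1, g2, g3, g4⟩
  refine ⟨A, B, hs, hX, hc, h1, ?_⟩
  have hd : B \ (A ∩ B) = B \ A := by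
    ext x
    rw [mem_sdiff, mem_sdiff, mem_inter]
    tauto
  refine ⟨inter_subset_right, ?_, ?_⟩
  · rw [hd, ← r2_sep hs]
    exact h1
  · intro A3 B3 h3 hA hlt
    obtain ⟨e1, e2, e3, e4⟩ := sep_comb hs h3 hA
    by_contra hgt
    rw [not_le, ← e4, ← e3] at hgt
    have h5 := hmin (A ∪ A3) B3 e1 (hX.trans subset_union_left)
      (by rw [e2]; exact hlt.trans hc) hgt
    have hB3 : B3 ⊆ B := by
      rw [← h3.un]; exact subset_union_right
    have h6 : B3 = B := eq_of_subset_of_card_le hB3 h5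
    have hA3 : A3 ⊆ B := by
      rw [← h3.un]; exact subset_union_left
    have h7 : A ∩ B ⊆ A3 ∩ B3 := by
      rw [h6]
      exact subset_inter hA inter_subset_right
    exact absurd (card_le_card h7) (not_le.2 hlt)

end Pool.Agent.MP4432a5
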