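import Pool.Agent.Lib.MP_4432a5_co.SysOpt

/-!
# MP_4432a5_co, module MdApi: modifications (structure `Md`)

All are set bookkeeping: the supports `H.biUnion W ∪ E` of modifications with disjoint `H` and
disjoint free `E` are disjoint.
-/

set_option autoImplicit false
set_option linter.all false

open Finset
open scoped Classical

namespace Pool.Agent.MP4432a5

variable {V : Type*} {G : SimpleGraph V} {S : Finset V} {k l : ℕ} {s t : Fin k → V}
  {W W' W1 W2 : Fin k → Finset V} {H H1 H2 : Finset (Fin k)} {E E1 E2 R R1 R2 : Finset V}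

private theorem md_mu {k : ℕ} {W : Fin k → Finset V} {v : V} :
    v ∈ used W ↔ ∃ i, v ∈ W i := by
  unfold used
  simp only [mem_biUnion, mem_univ, true_and]

/-- the trivial modification -/
theorem Md.triv (E : Finset V) : Md G s t W ∅ E E W := by
  refine ⟨?_, ?_, ?_, ?_, ?_, ?_, ?_⟩
  · intro h hh; simp at hh
  · intro h hh; simp at hh
  · intro h hh; simp at hh
  · intro h hh; simp at hh
  · intro h hh; simp at hh
  · exact subset_union_right
  · intro h hh; simp at hh

theorem Md.subR (h : Md G s t W H E R W') (hR : R1 ⊆ R) : Md G s t W H E R1 W' := by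
  exact ⟨h.sm, h.tm, h.cn, h.sub, h.dj, hR.trans h.rsub,
    fun i hi => Disjoint.mono_right hR (h.rdj i hi)⟩

/-- union of two modifications with disjoint supports -/
theorem Md.union (hd : ∀ i j, i ≠ j → Disjoint (W i) (W j))
    (h1 : Md G s t W H1 E1 R1 W1) (h2 : Md G s t W H2 E2 R2 W2) (hH : Disjoint H1 H2)
    (hE : Disjoint E1 E2) (hf1 : Disjoint E1 (used W)) (hf2 : Disjoint E2 (used W)) :
    Md G s t W (H1 ∪ H2) (E1 ∪ E2) (R1 ∪ R2) (fun i => if i ∈ H1 then W1 i else W2 i) ∧
      Disjoint R1 R2 := by
  have hS : Disjoint (H1.biUnion W ∪ E1) (H2.biUnion W ∪ E2) := by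
    rw [Finset.disjoint_left]
    intro v h1v h2v
    rw [mem_union, mem_biUnion] at h1v h2v
    rcases h1v with ⟨a, ha, hva⟩ | hv1
    · rcases h2v with ⟨b, hb, hvb⟩ | hv2
      · have hab : a ≠ b := by
          rintro rfl
          exact Finset.disjoint_left.mp hH ha hb
        exact Finset.disjoint_left.mp (hd a b hab) hva hvb
      · exact Finset.disjoint_left.mp hf2 hv2 (md_mu.mpr ⟨a, hva⟩)
    · rcases h2v with ⟨b, hb, hvb⟩ | hv2
      · exact Finset.disjoint_left.mp hf1 hv1 (md_mu.mpr ⟨b, hvb⟩)
      · exact Finset.disjoint_left.mp hE hv1 hv2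
  have hin : ∀ {i}, i ∈ H2 → i ∉ H1 := fun {i} h2i h1i => Finset.disjoint_left.mp hH h1i h2i
  have s1 : H1.biUnion W ∪ E1 ⊆ (H1 ∪ H2).biUnion W ∪ (E1 ∪ E2) := by
    apply union_subset_union
    · exact biUnion_subset_biUnion_of_subset_left _ subset_union_left
    · exact subset_union_left
  have s2 : H2.biUnion W ∪ E2 ⊆ (H1 ∪ H2).biUnion W ∪ (E1 ∪ E2) := by
    apply union_subset_union
    · exact biUnion_subset_biUnion_of_subset_left _ subset_union_right
    · exact subset_union_right
  refine ⟨⟨?_, ?_, ?_, ?_, ?_, ?_, ?_⟩, Disjoint.mono h1.rsub h2.rsub hS⟩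
  · intro i hi
    by_cases hi1 : i ∈ H1
    · simp only [hi1, if_true]; exact h1.sm i hi1
    · have hi2 : i ∈ H2 := (mem_union.mp hi).resolve_left hi1
      simp only [hi1, if_false]; exact h2.sm i hi2
  · intro i hi
    by_cases hi1 : i ∈ H1
    · simp only [hi1, if_true]; exact h1.tm i hi1
    · have hi2 : i ∈ H2 := (mem_union.mp hi).resolve_left hi1
      simp only [hi1, if_false]; exact h2.tm i hi2
  · intro i hi
    by_cases hi1 : i ∈ H1
    · simp only [hi1, if_true]; exact h1.cn i hi1
    · have hi2 : i ∈ H2 := (mem_union.mp hi).resolve_left hi1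
      simp only [hi1, if_false]; exact h2.cn i hi2
  · intro i hi
    by_cases hi1 : i ∈ H1
    · simp only [hi1, if_true]; exact (h1.sub i hi1).trans s1
    · have hi2 : i ∈ H2 := (mem_union.mp hi).resolve_left hi1
      simp only [hi1, if_false]; exact (h2.sub i hi2).trans s2
  · intro i hi j hj hij
    by_cases hi1 : i ∈ H1
    · by_cases hj1 : j ∈ H1
      · simp only [hi1, hj1, if_true]; exact h1.dj i hi1 j hj1 hij
      · have hj2 : j ∈ H2 := (mem_union.mp hj).resolve_left hj1
        simp only [hi1, hj1, if_true, if_false]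
        exact Disjoint.mono (h1.sub i hi1) (h2.sub j hj2) hS
    · have hi2 : i ∈ H2 := (mem_union.mp hi).resolve_left hi1
      by_cases hj1 : j ∈ H1
      · simp only [hi1, hj1, if_true, if_false]
        exact (Disjoint.mono (h1.sub j hj1) (h2.sub i hi2) hS).symm
      · have hj2 : j ∈ H2 := (mem_union.mp hj).resolve_left hj1
        simp only [hi1, hj1, if_false]; exact h2.dj i hi2 j hj2 hij
  · exact union_subset (h1.rsub.trans s1) (h2.rsub.trans s2)
  · intro i hi
    by_cases hi1 : i ∈ H1
    · simp only [hi1, if_true]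
      rw [disjoint_union_right]
      exact ⟨h1.rdj i hi1, Disjoint.mono (h1.sub i hi1) h2.rsub hS⟩
    · have hi2 : i ∈ H2 := (mem_union.mp hi).resolve_left hi1
      simp only [hi1, if_false]
      rw [disjoint_union_right]
      exact ⟨(Disjoint.mono h1.rsub (h2.sub i hi2) hS).symm, h2.rdj i hi2⟩

/-- adding free vertices -/
theorem Md.addE (h : Md G s t W H E R W') (hf : Disjoint E (used W)) (hf1 : Disjoint E1 (used W))
    (hE : Disjoint (E1 \ R) E) : Md G s t W H (E ∪ E1) (R ∪ E1) W' := by
  have s1 : H.biUnion W ∪ E ⊆ H.biUnion W ∪ (E ∪ E1) :=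
    union_subset_union (Finset.Subset.refl _) subset_union_left
  refine ⟨h.sm, h.tm, h.cn, fun i hi => (h.sub i hi).trans s1, h.dj, ?_, ?_⟩
  · apply union_subset (h.rsub.trans s1)
    exact subset_union_right.trans subset_union_right
  · intro i hi
    rw [disjoint_union_right]
    refine ⟨h.rdj i hi, ?_⟩
    rw [Finset.disjoint_left]
    intro v hv hv1
    by_cases hvR : v ∈ R
    · exact Finset.disjoint_left.mp (h.rdj i hi) hv hvR
    · have := h.sub i hi hv
      rw [mem_union, mem_biUnion] at this
      rcases this with ⟨a, ha, hva⟩ | hvE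
      · exact Finset.disjoint_left.mp hf1 hv1 (md_mu.mpr ⟨a, hva⟩)
      · exact Finset.disjoint_left.mp hE (mem_sdiff.mpr ⟨hv1, hvR⟩) hvE

/-- one more item `h0` is modified: it gets `A`, and `R1` remains -/
theorem Md.ext (hd : ∀ i j, i ≠ j → Disjoint (W i) (W j)) (h : Md G s t W H E R W')
    (hf : Disjoint E (used W)) {h0 : Fin k} (hh : h0 ∉ H) {A : Finset V} (hs : s h0 ∈ A)
    (ht : t h0 ∈ A) (hc : Cn G A) (hA : A ⊆ W h0 ∪ R) (hR : R1 ⊆ W h0 ∪ R)
    (hdj : Disjoint A R1) :
    Md G s t W (insert h0 H) E R1 (Function.update W' h0 A) := by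
  have s1 : H.biUnion W ∪ E ⊆ (insert h0 H).biUnion W ∪ E :=
    union_subset_union (biUnion_subset_biUnion_of_subset_left _ (subset_insert _ _))
      (Finset.Subset.refl _)
  have s0 : W h0 ∪ R ⊆ (insert h0 H).biUnion W ∪ E := by
    apply union_subset
    · intro v hv
      exact mem_union_left _ (mem_biUnion.mpr ⟨h0, mem_insert_self _ _, hv⟩)
    · exact h.rsub.trans s1
  have hdis : ∀ i ∈ H, Disjoint (W' i) (W h0 ∪ R) := by
    intro i hi
    rw [disjoint_union_right]
    refine ⟨?_, h.rdj i hi⟩
    rw [Finset.disjoint_left]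
    intro v hv hv0
    have := h.sub i hi hv
    rw [mem_union, mem_biUnion] at this
    rcases this with ⟨a, ha, hva⟩ | hvE
    · have hab : a ≠ h0 := by
        rintro rfl
        exact hh ha
      exact Finset.disjoint_left.mp (hd a h0 hab) hva hv0
    · exact Finset.disjoint_left.mp hf hvE (md_mu.mpr ⟨h0, hv0⟩)
  have hne : ∀ i ∈ H, i ≠ h0 := by
    rintro i hi rfl
    exact hh hi
  have hup : ∀ i ∈ H, Function.update W' h0 A i = W' i := fun i hi =>
    Function.update_of_ne (hne i hi) _ _
  refine ⟨?_, ?_, ?_, ?_, ?_, hR.trans s0, ?_⟩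
  · intro i hi
    rcases mem_insert.mp hi with rfl | hi
    · rw [Function.update_self]; exact hs
    · rw [hup i hi]; exact h.sm i hi
  · intro i hi
    rcases mem_insert.mp hi with rfl | hi
    · rw [Function.update_self]; exact ht
    · rw [hup i hi]; exact h.tm i hi
  · intro i hi
    rcases mem_insert.mp hi with rfl | hi
    · rw [Function.update_self]; exact hc
    · rw [hup i hi]; exact h.cn i hi
  · intro i hi
    rcases mem_insert.mp hi with rfl | hi
    · rw [Function.update_self]; exact hA.trans s0
    · rw [hup i hi]; exact (h.sub i hi).trans s1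
  · intro i hi j hj hij
    rcases mem_insert.mp hi with hi0 | hi1
    · rcases mem_insert.mp hj with hj0 | hj1
      · exact absurd (hi0.trans hj0.symm) hij
      · rw [hi0, Function.update_self, hup j hj1]
        exact (Disjoint.mono_right hA (hdis j hj1)).symm
    · rcases mem_insert.mp hj with hj0 | hj1
      · rw [hj0, Function.update_self, hup i hi1]
        exact Disjoint.mono_right hA (hdis i hi1)
      · rw [hup i hi1, hup j hj1]; exact h.dj i hi1 j hj1 hij
  · intro i hi
    rcases mem_insert.mp hi with rfl | hi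
    · rw [Function.update_self]; exact hdj
    · rw [hup i hi]; exact Disjoint.mono_right hR (hdis i hi)

/-- applying a modification -/
theorem Md.sys (hS : Sys G S s t l W) (h : Md G s t W H E R W') (hH : ∀ i ∈ H, (i : ℕ) < l)
    (hE : E ⊆ S \ used W) :
    Sys G S s t l (fun i => if i ∈ H then W' i else W i) ∧
      used (fun i => if i ∈ H then W' i else W i) ⊆ used W ∪ E ∧
      Disjoint R (used (fun i => if i ∈ H then W' i else W i)) := by
  have hsupp : ∀ j, j ∉ H → Disjoint (H.biUnion W ∪ E) (W j) := by
    intro j hj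
    rw [Finset.disjoint_left]
    intro v hv hvj
    rw [mem_union, mem_biUnion] at hv
    rcases hv with ⟨a, ha, hva⟩ | hvE
    · have hab : a ≠ j := by
        rintro rfl
        exact hj ha
      exact Finset.disjoint_left.mp (hS.dj a j hab) hva hvj
    · exact (mem_sdiff.mp (hE hvE)).2 (md_mu.mpr ⟨j, hvj⟩)
  have hsub : H.biUnion W ∪ E ⊆ S := by
    apply union_subset
    · intro v hv
      obtain ⟨a, ha, hva⟩ := mem_biUnion.mp hv
      exact hS.sub a hva
    · exact hE.trans sdiff_subset
  have hsu : H.biUnion W ∪ E ⊆ used W ∪ E := by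
    apply union_subset_union _ (Finset.Subset.refl _)
    intro v hv
    obtain ⟨a, ha, hva⟩ := mem_biUnion.mp hv
    exact md_mu.mpr ⟨a, hva⟩
  refine ⟨⟨?_, ?_, ?_, ?_, ?_, ?_⟩, ?_, ?_⟩
  · intro i
    by_cases hi : i ∈ H
    · simp only [hi, if_true]; exact (h.sub i hi).trans hsub
    · simp only [hi, if_false]; exact hS.sub i
  · intro i
    by_cases hi : i ∈ H
    · simp only [hi, if_true]; exact h.sm i hi
    · simp only [hi, if_false]; exact hS.sm i
  · intro i
    by_cases hi : i ∈ H
    · simp only [hi, if_true]; exact h.tm i hi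
    · simp only [hi, if_false]; exact hS.tm i
  · intro i j hij
    by_cases hi : i ∈ H
    · by_cases hj : j ∈ H
      · simp only [hi, hj, if_true]; exact h.dj i hi j hj hij
      · simp only [hi, hj, if_true, if_false]
        exact Disjoint.mono_left (h.sub i hi) (hsupp j hj)
    · by_cases hj : j ∈ H
      · simp only [hi, hj, if_true, if_false]
        exact (Disjoint.mono_left (h.sub j hj) (hsupp i hi)).symm
      · simp only [hi, hj, if_false]; exact hS.dj i j hij
  · intro i hil
    by_cases hi : i ∈ H
    · simp only [hi, if_true]; exact h.cn i hi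
    · simp only [hi, if_false]; exact hS.cn i hil
  · intro i hil
    have hi : i ∉ H := fun hi => absurd (hH i hi) (not_lt.mpr hil)
    simp only [hi, if_false]; exact hS.un i hil
  · intro v hv
    obtain ⟨i, hvi⟩ := md_mu.mp hv
    by_cases hi : i ∈ H
    · simp only [hi, if_true] at hvi
      exact hsu (h.sub i hi hvi)
    · simp only [hi, if_false] at hvi
      exact mem_union_left _ (md_mu.mpr ⟨i, hvi⟩)
  · rw [Finset.disjoint_left]
    intro v hvR hv
    obtain ⟨i, hvi⟩ := md_mu.mp hv
    by_cases hi : i ∈ H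
    · simp only [hi, if_true] at hvi
      exact Finset.disjoint_left.mp (h.rdj i hi) hvi hvR
    · simp only [hi, if_false] at hvi
      exact Finset.disjoint_left.mp (hsupp i hi) (h.rsub hvR) hvi

/-- applying a modification and linking the next pair -/
theorem Md.next (hS : Sys G S s t l W) (h : Md G s t W H E R W') (hH : ∀ i ∈ H, (i : ℕ) < l)
    (hE : E ⊆ S \ used W) {L : Fin k} (hL : (L : ℕ) = l) {A : Finset V} (hs : s L ∈ A)
    (ht : t L ∈ A) (hc : Cn G A) (hA : A ⊆ {s L, t L} ∪ R) :
    ∃ W'' : Fin k → Finset V, Sys G S s t (l + 1) W'' ∧ used W'' ⊆ used W ∪ E := by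
  obtain ⟨h1, h2, h3⟩ := Md.sys hS h hH hE
  set W0 : Fin k → Finset V := fun i => if i ∈ H then W' i else W i with hW0
  have hLH : L ∉ H := fun hL' => absurd (hH L hL') (by omega)
  have hW0L : W0 L = {s L, t L} := h1.un L (by omega)
  have hRS : R ⊆ used W ∪ E := by
    refine h.rsub.trans (union_subset_union ?_ (Finset.Subset.refl _))
    intro v hv
    obtain ⟨a, ha, hva⟩ := mem_biUnion.mp hv
    exact md_mu.mpr ⟨a, hva⟩
  have hAU : A ⊆ used W ∪ E := by
    refine hA.trans (union_subset ?_ hRS)
    intro v hv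
    rw [← hW0L] at hv
    exact h2 (md_mu.mpr ⟨L, hv⟩)
  have hUS : used W ∪ E ⊆ S := by
    apply union_subset
    · intro v hv
      obtain ⟨i, hvi⟩ := md_mu.mp hv
      exact hS.sub i hvi
    · exact hE.trans sdiff_subset
  have hdA : ∀ i, i ≠ L → Disjoint (W0 i) A := by
    intro i hi
    refine Disjoint.mono_right hA ?_
    rw [disjoint_union_right]
    constructor
    · rw [← hW0L]; exact h1.dj i L hi
    · rw [Finset.disjoint_left]
      intro v hv hvR
      exact Finset.disjoint_left.mp h3 hvR (md_mu.mpr ⟨i, hv⟩)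
  refine ⟨Function.update W0 L A, ⟨?_, ?_, ?_, ?_, ?_, ?_⟩, ?_⟩
  · intro i
    by_cases hi : i = L
    · subst hi; rw [Function.update_self]; exact hAU.trans hUS
    · rw [Function.update_of_ne hi]; exact h1.sub i
  · intro i
    by_cases hi : i = L
    · subst hi; rw [Function.update_self]; exact hs
    · rw [Function.update_of_ne hi]; exact h1.sm i
  · intro i
    by_cases hi : i = L
    · subst hi; rw [Function.update_self]; exact ht
    · rw [Function.update_of_ne hi]; exact h1.tm i
  · intro i j hij
    by_cases hi : i = L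
    · subst hi
      rw [Function.update_self, Function.update_of_ne (Ne.symm hij)]
      exact (hdA j (Ne.symm hij)).symm
    · by_cases hj : j = L
      · subst hj
        rw [Function.update_self, Function.update_of_ne hi]
        exact hdA i hi
      · rw [Function.update_of_ne hi, Function.update_of_ne hj]
        exact h1.dj i j hij
  · intro i hil
    by_cases hi : i = L
    · subst hi; rw [Function.update_self]; exact hc
    · rw [Function.update_of_ne hi]
      apply h1.cn i
      have : (i : ℕ) ≠ (L : ℕ) := fun hh => hi (Fin.ext hh)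
      omega
  · intro i hil
    have hi : i ≠ L := by
      rintro rfl
      omega
    rw [Function.update_of_ne hi]
    exact h1.un i (by omega)
  · intro v hv
    obtain ⟨i, hvi⟩ := md_mu.mp hv
    by_cases hi : i = L
    · subst hi
      rw [Function.update_self] at hvi
      exact hAU hvi
    · rw [Function.update_of_ne hi] at hvi
      exact h2 (md_mu.mpr ⟨i, hvi⟩)

end Pool.Agent.MP4432a5
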