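import Pool.Agent.Lib.MP_4432a5_co.RBasic
import Pool.Agent.Lib.MP_ed9a33_co.Menger

/-!
# MP_4432a5_co, module MengerC: Menger's theorem inside a finite set

From `Pool.Agent.Lib.MP_ed9a33_co.Menger.main` with the arcs `E = {(a, b) ∈ A1 ×ˢ A1 : G.Adj a b}`, `A := Z`,
`B := C`, `k := |Z|`, and `Menger.cut` (cut the lists at their first vertex in `C`): `|Z|` disjoint lists,
hence each vertex of `Z` is the head of exactly one of them; `P z` = the vertices of the list
starting at `z`, `e z` its last vertex.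
`Fan`: let `|D| < |Z|`; if there is no walk from `Z` to `C` avoiding `D`, put
`A' = D' ∪ {v ∈ A1 : v reachable from Z \ D avoiding D}`, `B' = A1 \ (reachable vertices)` where `D' = D ∩ A1`: a separation
of `G[A1]` with `Z ⊆ A'`, `C ⊆ B'`, `A' ∩ B' ⊆ D`, contradiction to `h`.
-/

set_option autoImplicit false
set_option linter.all false

open Finset
open scoped Classical

namespace Pool.Agent.MP4432a5

variable {V : Type*} {G : SimpleGraph V}

open Pool.Agent.Lib.MP_ed9a33_co in
private theorem menger_fan {A1 Z C : Finset V} (hZ : Z ⊆ A1) (hC : C ⊆ A1)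
    (h : ∀ A' B' : Finset V, Sep G A1 A' B' → Z ⊆ A' → C ⊆ B' → Z.card ≤ (A' ∩ B').card) :
    Fan (Menger.Ar ((A1 ×ˢ A1).filter (fun p => G.Adj p.1 p.2))) Z C Z.card := by
  intro X hX
  by_contra hcon
  set R : V → V → Prop := Menger.Ar ((A1 ×ˢ A1).filter (fun p => G.Adj p.1 p.2)) with hR
  have hno : ∀ a ∈ Z, a ∉ X → ∀ b ∈ C, ¬ Rch R X a b := by
    intro a ha haX b hb hab
    exact hcon ⟨a, ha, haX, b, hb, hab⟩
  set Rc : Finset V := A1.filter (fun v => ∃ a ∈ Z, a ∉ X ∧ Rch R X a v) with hRc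
  have hRcX : ∀ v ∈ Rc, v ∉ X := by
    intro v hv
    obtain ⟨-, a, ha, haX, hr⟩ := Finset.mem_filter.1 hv
    rcases Menger.rch_end hr with h1 | h1
    · rw [h1]; exact haX
    · exact h1
  have hsep : Sep G A1 ((X ∩ A1) ∪ Rc) (A1 \ Rc) := by
    constructor
    · ext v
      simp only [Finset.mem_union, Finset.mem_inter, Finset.mem_sdiff]
      constructor
      · rintro ((⟨-, h1⟩ | h1) | ⟨h1, -⟩)
        · exact h1
        · exact (Finset.mem_filter.1 h1).1
        · exact h1
      · intro h1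
        by_cases h2 : v ∈ Rc
        · exact Or.inl (Or.inr h2)
        · exact Or.inr ⟨h1, h2⟩
    · intro a ha b hb hab
      obtain ⟨ha1, ha2⟩ := Finset.mem_sdiff.1 ha
      obtain ⟨hb1, hb2⟩ := Finset.mem_sdiff.1 hb
      have haA : a ∈ A1 := by
        rcases Finset.mem_union.1 ha1 with h1 | h1
        · exact (Finset.mem_inter.1 h1).2
        · exact (Finset.mem_filter.1 h1).1
      have haR : a ∈ Rc := by
        by_contra h1
        exact ha2 (Finset.mem_sdiff.2 ⟨haA, h1⟩)
      obtain ⟨hbA, hbR⟩ := Finset.mem_sdiff.1 hb1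
      have hbX : b ∉ X := fun h1 =>
        hb2 (Finset.mem_union_left _ (Finset.mem_inter.2 ⟨h1, hbA⟩))
      obtain ⟨-, z, hz, hzX, hr⟩ := Finset.mem_filter.1 haR
      apply hbR
      refine Finset.mem_filter.2 ⟨hbA, z, hz, hzX, Relation.ReflTransGen.tail hr ⟨?_, hbX⟩⟩
      exact Finset.mem_filter.2 ⟨Finset.mem_product.2 ⟨haA, hbA⟩, hab⟩
  have h1 := h _ _ hsep ?_ ?_
  · have h2 : ((X ∩ A1) ∪ Rc) ∩ (A1 \ Rc) ⊆ X := by
      intro v hv
      obtain ⟨hv1, hv2⟩ := Finset.mem_inter.1 hv
      rcases Finset.mem_union.1 hv1 with h3 | h3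
      · exact (Finset.mem_inter.1 h3).1
      · exact absurd h3 (Finset.mem_sdiff.1 hv2).2
    have h3 := Finset.card_le_card h2
    omega
  · intro z hz
    by_cases hzX : z ∈ X
    · exact Finset.mem_union_left _ (Finset.mem_inter.2 ⟨hzX, hZ hz⟩)
    · exact Finset.mem_union_right _
        (Finset.mem_filter.2 ⟨hZ hz, z, hz, hzX, Relation.ReflTransGen.refl⟩)
  · intro c hc
    refine Finset.mem_sdiff.2 ⟨hC hc, fun h1 => ?_⟩
    obtain ⟨-, z, hz, hzX, hr⟩ := Finset.mem_filter.1 h1
    exact hno z hz hzX c hc hr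

private theorem chain_sub {A1 : Finset V} (l : List V) : ∀ v, v ∈ A1 →
    (v :: l).IsChain (fun a b => (a, b) ∈ (A1 ×ˢ A1).filter (fun p => G.Adj p.1 p.2)) →
    ∀ u ∈ v :: l, u ∈ A1 := by
  induction l with
  | nil =>
    intro v hv _ u hu
    rw [List.mem_singleton] at hu
    rw [hu]; exact hv
  | cons w l ih =>
    intro v hv hc u hu
    rw [List.isChain_cons_cons] at hc
    have hw : w ∈ A1 := (Finset.mem_product.1 (Finset.mem_filter.1 hc.1).1).2
    rcases List.mem_cons.1 hu with rfl | hu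
    · exact hv
    · exact ih w hw hc.2 u hu

private theorem chain_cn {A1 : Finset V} (l : List V) : ∀ v,
    (v :: l).IsChain (fun a b => (a, b) ∈ (A1 ×ˢ A1).filter (fun p => G.Adj p.1 p.2)) →
    Cn G (v :: l).toFinset := by
  induction l with
  | nil =>
    intro v _
    have h1 : [v].toFinset = ({v} : Finset V) := by simp
    rw [h1]
    exact cn_singleton v
  | cons w l ih =>
    intro v hc
    rw [List.isChain_cons_cons] at hc
    have h1 : (v :: w :: l).toFinset = insert v (w :: l).toFinset := List.toFinset_cons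
    rw [h1]
    exact (ih w hc.2).insert_adj (a := w) (by simp) ((Finset.mem_filter.1 hc.1).2).symm

theorem menger_sets {A1 Z C : Finset V} (hZ : Z ⊆ A1) (hC : C ⊆ A1)
    (h : ∀ A' B' : Finset V, Sep G A1 A' B' → Z ⊆ A' → C ⊆ B' → Z.card ≤ (A' ∩ B').card) :
    ∃ (P : V → Finset V) (e : V → V),
      (∀ z ∈ Z, P z ⊆ A1 ∧ z ∈ P z ∧ Cn G (P z) ∧ P z ∩ C = {e z}) ∧
      ∀ z ∈ Z, ∀ z' ∈ Z, z ≠ z' → Disjoint (P z) (P z') := by
  obtain ⟨Q, hQ, hQd⟩ := Pool.Agent.Lib.MP_ed9a33_co.Menger.main Z.card _ Z C (menger_fan hZ hC h)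
  have hcut := fun i => Pool.Agent.Lib.MP_ed9a33_co.Menger.cut C (Q i) (hQ i).2.2.2
  choose L hL1 hL2 hL3 hL4 using hcut
  -- the properties of the lists
  have hpr : ∀ i, ∃ a ∈ Z, ∃ l, L i = a :: l ∧
      (a :: l).IsChain (fun a b => (a, b) ∈ (A1 ×ˢ A1).filter (fun p => G.Adj p.1 p.2)) := by
    intro i
    obtain ⟨c1, c2, ⟨a, haA, ha⟩, -⟩ := hQ i
    obtain ⟨t, ht⟩ := hL1 i
    rw [← ht, List.isChain_append] at c1
    rw [← ht] at ha
    cases hp : L i with
    | nil => exact absurd hp (hL2 i)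
    | cons w q =>
      rw [hp] at ha c1
      have hwa : w = a := by simpa using ha
      subst hwa
      exact ⟨w, haA, q, rfl, c1.1⟩
  choose a haZ l hal hch using hpr
  have hLd : ∀ i j, i ≠ j → (L i).Disjoint (L j) := by
    intro i j hij v hv hv'
    exact hQd i j hij ((hL1 i).subset hv) ((hL1 j).subset hv')
  have ainj : Function.Injective a := by
    intro i j hij
    by_contra hne
    refine hLd i j hne (a := a i) ?_ ?_
    · rw [hal i]; simp
    · rw [hal j, hij]; simp
  have hsurj : ∀ z ∈ Z, ∃ i, a i = z := by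
    have himg : Finset.univ.image a = Z := by
      apply Finset.eq_of_subset_of_card_le
      · intro t ht
        obtain ⟨i, -, rfl⟩ := Finset.mem_image.1 ht
        exact haZ i
      · rw [Finset.card_image_of_injective _ ainj, Finset.card_univ, Fintype.card_fin]
    intro z hz
    rw [← himg] at hz
    obtain ⟨i, -, hi⟩ := Finset.mem_image.1 hz
    exact ⟨i, hi⟩
  choose b hbC hb using hL3
  -- the last vertex is the only one in `C`
  have hlast : ∀ i, (L i).toFinset ∩ C = {b i} := by
    intro i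
    ext v
    rw [Finset.mem_inter, Finset.mem_singleton, List.mem_toFinset]
    constructor
    · rintro ⟨hv, hvC⟩
      have h1 : L i = (L i).dropLast ++ [b i] := (List.dropLast_append_getLast? _ (hb i)).symm
      rw [h1, List.mem_append, List.mem_singleton] at hv
      rcases hv with hv | hv
      · exact absurd hvC (hL4 i v hv)
      · exact hv
    · rintro rfl
      exact ⟨List.mem_of_getLast? (hb i), hbC i⟩
  refine ⟨fun z => if hz : z ∈ Z then (L (hsurj z hz).choose).toFinset else ∅,
    fun z => if hz : z ∈ Z then b (hsurj z hz).choose else z, ?_, ?_⟩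
  · intro z hz
    have hi := (hsurj z hz).choose_spec
    simp only [dif_pos hz]
    set i := (hsurj z hz).choose with hidef
    refine ⟨?_, ?_, ?_, hlast i⟩
    · intro v hv
      rw [List.mem_toFinset, hal i] at hv
      exact chain_sub (l i) (a i) (hZ (haZ i)) (hch i) v hv
    · rw [List.mem_toFinset, hal i, hi]
      simp
    · rw [hal i]
      exact chain_cn (l i) (a i) (hch i)
  · intro z hz z' hz' hne
    simp only [dif_pos hz, dif_pos hz']
    have hi := (hsurj z hz).choose_spec
    have hi' := (hsurj z' hz').choose_spec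
    have hij : (hsurj z hz).choose ≠ (hsurj z' hz').choose := by
      intro h1
      apply hne
      rw [← hi, ← hi', h1]
    rw [Finset.disjoint_left]
    intro v hv hv'
    rw [List.mem_toFinset] at hv hv'
    exact hLd _ _ hij hv hv'

end Pool.Agent.MP4432a5
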