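import Pool.Agent.Lib.MP_4432a5_co.MdApi

/-!
# MP_4432a5_co: standing assumptions of Part III (near separations)
-/

set_option autoImplicit false
set_option linter.all false

open Finset
open scoped Classical

namespace Pool.Agent.MP4432a5

variable {V : Type*}

/-- standing assumptions of Part III -/
structure NCtx (G : SimpleGraph V) (S : Finset V) {k : ℕ} (s t : Fin k → V) (l : ℕ)
    (W : Fin k → Finset V) (r : Fin k → ℕ) (q : Fin k → ℕ → V) (X : Finset V)
    (B R0 th : ℕ) : Prop where
  opt : Opt G S s t l (fun _ => 1) W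
  pth : ∀ i : Fin k, (i : ℕ) < l → IsPth G (W i) (s i) (t i) (r i) (q i)
  XU : X ⊆ S \ used W
  hub : HubP G X B
  hth : B * R0 + B < th

/-- A certificate: a modification avoiding the items `F` and the free vertices `D`, of size at
most `c`, leaving a connected set `R` which contains `x` and meets the hub. -/
structure Crt (G : SimpleGraph V) (S : Finset V) {k : ℕ} (s t : Fin k → V) (l : ℕ)
    (W : Fin k → Finset V) (X : Finset V) (R0 : ℕ) (x : V) (F : Finset (Fin k)) (D : Finset V)
    (c : ℕ) (H : Finset (Fin k)) (E R : Finset V) (W' : Fin k → Finset V) : Prop where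
  md : Md G s t W H E R W'
  Hl : ∀ h ∈ H, (h : ℕ) < l
  HF : ∀ h ∈ H, h ∉ F
  Hc : H.card ≤ c
  EU : E ⊆ S \ used W
  ED : Disjoint E D
  Ec : E.card ≤ c
  cn : Cn G R
  xR : x ∈ R
  RX : (R ∩ X).Nonempty

/-- certificates of size `c` exist for `x`, for all `F`, `D` with `|F| + c ≤ B`, `|D| + c ≤ B` -/
def HasCrt (G : SimpleGraph V) (S : Finset V) {k : ℕ} (s t : Fin k → V) (l : ℕ)
    (W : Fin k → Finset V) (X : Finset V) (B R0 : ℕ) (c : ℕ) (x : V) : Prop :=
  ∀ (F : Finset (Fin k)) (D : Finset V), F.card + c ≤ B → D.card + c ≤ B → x ∉ D →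
    (∀ h ∈ F, x ∉ W h) →
    ∃ (H : Finset (Fin k)) (E R : Finset V) (W' : Fin k → Finset V),
      Crt G S s t l W X R0 x F D c H E R W'

variable {G : SimpleGraph V} {S : Finset V} {k l : ℕ} {s t : Fin k → V}
  {W : Fin k → Finset V} {r : Fin k → ℕ} {q : Fin k → ℕ → V} {X : Finset V} {B R0 th : ℕ}

/-- the vertices of the closure are free or on short items -/
theorem cl_loc (c : NCtx G S s t l W r q X B R0 th) : ∀ j, ∀ x ∈ cl G S th l R0 W r q X j,
    x ∈ S ∧ (x ∉ used W ∨ ∃ h : Fin k, (h : ℕ) < l ∧ (W h).card ≤ R0 ∧ x ∈ W h) := by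
  intro j
  induction j with
  | zero =>
    intro x hx
    have h1 := c.XU hx
    rw [Finset.mem_sdiff] at h1
    exact ⟨h1.1, Or.inl h1.2⟩
  | succ j ih =>
    intro x hx
    have hx' : x ∈ stp G S th l R0 W r q (cl G S th l R0 W r q X j) := hx
    unfold stp at hx'
    rw [Finset.mem_union, Finset.mem_union] at hx'
    rcases hx' with (h | h) | h
    · exact ih x h
    · rw [Finset.mem_inter, Finset.mem_sdiff] at h
      exact ⟨h.1.1, Or.inl h.1.2⟩
    · rw [Finset.mem_biUnion] at h
      obtain ⟨i, hi, hxi⟩ := h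
      rw [Finset.mem_filter] at hi
      unfold Sg at hxi
      rw [Finset.mem_image] at hxi
      obtain ⟨a, ha, rfl⟩ := hxi
      rw [Finset.mem_filter] at ha
      have hW : q i a ∈ W i := by
        rw [(c.pth i hi.2.1).img]
        exact Finset.mem_image_of_mem _ ha.1
      exact ⟨c.opt.sub i hW, Or.inr ⟨i, hi.2.1, hi.2.2.1, hW⟩⟩

theorem cl_mono {i j : ℕ} (h : i ≤ j) : cl G S th l R0 W r q X i ⊆ cl G S th l R0 W r q X j := by
  induction h with
  | refl => exact Finset.Subset.refl _
  | step _ ih =>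
    refine Finset.Subset.trans ih ?_
    intro x hx
    show x ∈ stp G S th l R0 W r q _
    unfold stp
    rw [Finset.mem_union, Finset.mem_union]
    exact Or.inl (Or.inl hx)

theorem cc_mono {i j : ℕ} (h : i ≤ j) : cc i ≤ cc j := by
  induction h with
  | refl => exact Nat.le_refl _
  | step _ ih =>
    refine Nat.le_trans ih ?_
    show cc _ ≤ 4 * cc _ + 100
    omega

end Pool.Agent.MP4432a5
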