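import Pool.Agent.Lib.MP_4432a5_co.TCount
import Pool.Agent.Lib.MP_4432a5_co.Hub

/-!
# MP_4432a5_co, module NearSep: near separations (Lemma S)

`nctx`: let `W` be optimum (weights 1) of level `l` with free vertices `U = S \ used W ≠ ∅`. By `Opt.seg` and
`nb_three` a free vertex has at most 3 neighbours in every item `i < l`, and at most 2 in every item
`i ≥ l`, so `dg U ≥ 4 k - 3 k = k`; `exists_hub`; `Opt.path` gives the paths. Also `|U| ≥ k + 1`
(`U` nonempty and a vertex has `k` neighbours in `U`).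

`near_alt`: constants `J = 300000`, `B = 8 cc J + 100`, `R0 = 200000 (2 cc J + 64)`, `th = B R0 + B + 1`. Either some
`j < J` has `|cl (j+1) \ cl j| ≤ k / 20000` and `s L` or `t L` not in `Str (cl j)`, or for some `j < J` both are
in `Str (cl j)` and `link_strong` applies (some `j < J` has `|cl (j+1) \ cl j| ≤ k / 20000`, otherwise
`|cl J| > J k / 20000 > 10 k`). In the first case `K = cl j`, `T = Str (cl j) \ K`, `M = S \ (K ∪ T)`; `s L`, `t L`
are not in `K` by `cl_loc` (they lie in the item `L ≥ l`);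
`|T| ≤ |Str (cl j) \ cl (j+1)| + |cl (j+1) \ cl j| ≤ 2 k + k / 20000 + k / 20000` by `tcount`.

`near_sep`: if `¬ KL`, take terminals for which there is no level-`k` system; by induction on `l ≤ k` there is a
system of level `l` with nonempty free set, or the first alternative occurs (free vertices remain
since `|U| ≥ k + 1 > 2 cc J + 60`; the optimum of the next level uses no more vertices, `Opt.card_one`).
-/

set_option autoImplicit false
set_option linter.all false

open Finset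
open scoped Classical

universe u

namespace Pool.Agent.MP4432a5

private theorem nctx_three {V : Type*} {G : SimpleGraph V} {S : Finset V} {k l : ℕ}
    {s t : Fin k → V} {W : Fin k → Finset V} (ho : Opt G S s t l (fun _ => 1) W) {v : V}
    (hv : v ∈ S \ used W) (i : Fin k) : (nb G (W i) v).card ≤ 3 := by
  rw [mem_sdiff] at hv
  obtain ⟨hvS, hvu⟩ := hv
  by_cases hi : (i : ℕ) < l
  · obtain ⟨r, q, hq⟩ := ho.path (fun _ _ => Nat.one_pos) i hi
    have hvW : v ∉ W i := fun h => hvu (mem_used.mpr ⟨i, h⟩)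
    refine (nb_three hq hvW ?_).1
    intro a b hab hb h1 h2
    have h3 := ho.seg hi hq hvS hvu hab hb h1 h2
    simp only [sum_const, Nat.card_Ioo, smul_eq_mul, mul_one] at h3
    omega
  · have h1 : W i = {s i, t i} := ho.un i (by omega)
    calc (nb G (W i) v).card ≤ (W i).card := card_le_card (filter_subset _ _)
      _ ≤ 2 := by rw [h1]; exact card_le_two
      _ ≤ 3 := by omega

private theorem nctx_deg {V : Type*} {G : SimpleGraph V} {S : Finset V} {k l : ℕ}
    {s t : Fin k → V} {W : Fin k → Finset V} (hd : ∀ v ∈ S, 4 * k ≤ dg G S v)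
    (ho : Opt G S s t l (fun _ => 1) W) {v : V} (hv : v ∈ S \ used W) :
    k ≤ dg G (S \ used W) v := by
  have hvS : v ∈ S := (mem_sdiff.mp hv).1
  have h1 : nb G S v ⊆ nb G (S \ used W) v ∪ univ.biUnion (fun i => nb G (W i) v) := by
    intro w hw
    rw [mem_nb] at hw
    rw [mem_union]
    by_cases h : w ∈ used W
    · right
      obtain ⟨i, hi⟩ := mem_used.mp h
      rw [mem_biUnion]
      exact ⟨i, mem_univ _, mem_nb.mpr ⟨hi, hw.2⟩⟩
    · left
      exact mem_nb.mpr ⟨mem_sdiff.mpr ⟨hw.1, h⟩, hw.2⟩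
  have h2 : (univ.biUnion (fun i => nb G (W i) v)).card ≤ k * 3 := by
    have h3 := card_biUnion_le_card_mul (univ : Finset (Fin k)) (fun i => nb G (W i) v) 3
      (fun i _ => nctx_three ho hv i)
    simpa using h3
  have h3 : dg G S v ≤ dg G (S \ used W) v + k * 3 := by
    calc dg G S v = (nb G S v).card := rfl
      _ ≤ _ := card_le_card h1
      _ ≤ _ := card_union_le _ _
      _ ≤ _ := Nat.add_le_add_left h2 _
  have h4 := hd v hvS
  omega

theorem nctx {V : Type*} {G : SimpleGraph V} {S : Finset V} {k l : ℕ} {s t : Fin k → V}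
    {W : Fin k → Finset V} {B R0 th : ℕ} (hS : S.card ≤ 10 * k) (hd : ∀ v ∈ S, 4 * k ≤ dg G S v)
    (ho : Opt G S s t l (fun _ => 1) W) (hU : (S \ used W).Nonempty) (hB : 16 * (B + 1) ≤ k)
    (hth : B * R0 + B < th) :
    k + 1 ≤ (S \ used W).card ∧
    ∃ (r : Fin k → ℕ) (q : Fin k → ℕ → V) (X : Finset V),
      NCtx G S s t l W r q X B R0 th ∧ k ≤ 2 * X.card := by
  have hdeg : ∀ v ∈ S \ used W, k ≤ dg G (S \ used W) v := fun v hv => nctx_deg hd ho hv
  refine ⟨?_, ?_⟩
  · obtain ⟨v, hv⟩ := hU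
    have h1 : insert v (nb G (S \ used W) v) ⊆ S \ used W := by
      intro w hw
      rcases mem_insert.mp hw with rfl | hw
      · exact hv
      · exact (mem_nb.mp hw).1
    have h2 : v ∉ nb G (S \ used W) v := fun h => G.loopless.irrefl v (mem_nb.mp h).2
    have h3 := card_le_card h1
    rw [card_insert_of_notMem h2] at h3
    have h4 := hdeg v hv
    unfold dg at h4
    omega
  · obtain ⟨X, hX1, hX2, hX3⟩ := exists_hub hU
      ((card_le_card sdiff_subset).trans hS) hdeg hB
    obtain ⟨v, hv⟩ := hU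
    have hp : ∀ i : Fin k, ∃ (r : ℕ) (q : ℕ → V), (i : ℕ) < l → IsPth G (W i) (s i) (t i) r q := by
      intro i
      by_cases hi : (i : ℕ) < l
      · obtain ⟨r, q, hq⟩ := ho.path (fun _ _ => Nat.one_pos) i hi
        exact ⟨r, q, fun _ => hq⟩
      · exact ⟨0, fun _ => v, fun h => absurd h hi⟩
    choose r q hq using hp
    exact ⟨r, q, X, ⟨ho, hq, hX1, hX3, hth⟩, hX2⟩

/-- number of steps -/
irreducible_def cJ : ℕ := 300000

/-- robustness -/
irreducible_def cB : ℕ := 8 * cc cJ + 100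

/-- length of short items -/
irreducible_def cR : ℕ := 200000 * (2 * cc cJ + 64)

/-- threshold for strong vertices -/
irreducible_def cT : ℕ := cB * cR + cB + 1

private theorem cl_grow {V : Type*} {G : SimpleGraph V} {S : Finset V} {k l : ℕ} {s t : Fin k → V}
    {W : Fin k → Finset V} {r : Fin k → ℕ} {q : Fin k → ℕ → V} {X : Finset V} {B R0 th : ℕ}
    (c : NCtx G S s t l W r q X B R0 th) (m : ℕ) :
    ∀ J, (∀ j < J, k < 20000 * (cl G S th l R0 W r q X (j + 1) \ cl G S th l R0 W r q X j).card) →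
      J * k ≤ 20000 * (cl G S th l R0 W r q X J).card := by
  intro J
  induction J with
  | zero => intro _; simp
  | succ J ih =>
    intro h
    have h1 := ih (fun j hj => h j (by omega))
    have h2 := h J (by omega)
    have h3 : (cl G S th l R0 W r q X (J + 1) \ cl G S th l R0 W r q X J).card +
        (cl G S th l R0 W r q X J).card = (cl G S th l R0 W r q X (J + 1)).card :=
      card_sdiff_add_card_eq_card (cl_mono (Nat.le_succ J))
    have h4 : (J + 1) * k = J * k + k := by ring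
    omega

private theorem near_first {V : Type*} {G : SimpleGraph V} {S : Finset V} {k l : ℕ}
    {s t : Fin k → V} {W : Fin k → Finset V} {r : Fin k → ℕ} {q : Fin k → ℕ → V} {X : Finset V}
    {B R0 th : ℕ} (c : NCtx G S s t l W r q X B R0 th) (hX : k ≤ 2 * X.card) (j : ℕ)
    (hT : ((Str G S th (cl G S th l R0 W r q X j) \ cl G S th l R0 W r q X j).card : ℝ) ≤
      (2 + 1 / 10000) * k) {z : V} (hzS : z ∈ S)
    (hz : z ∉ Str G S th (cl G S th l R0 W r q X j))
    (hz' : z ∉ cl G S th l R0 W r q X j) :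
    ∃ K T M : Finset V, Disjoint K T ∧ Disjoint K M ∧ Disjoint T M ∧ K ∪ T ∪ M = S ∧
      (T.card : ℝ) ≤ (2 + 1 / 10000) * k ∧ k ≤ 2 * K.card ∧ M.Nonempty ∧
      ∀ v ∈ M, dg G K v < th := by
  have hKS : cl G S th l R0 W r q X j ⊆ S := fun x hx => (cl_loc c j x hx).1
  have hSS : Str G S th (cl G S th l R0 W r q X j) ⊆ S := filter_subset _ _
  have hXK : X ⊆ cl G S th l R0 W r q X j := by
    have h1 : cl G S th l R0 W r q X 0 ⊆ cl G S th l R0 W r q X j := cl_mono (Nat.zero_le j)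
    exact h1
  refine ⟨cl G S th l R0 W r q X j,
    Str G S th (cl G S th l R0 W r q X j) \ cl G S th l R0 W r q X j,
    S \ (cl G S th l R0 W r q X j ∪
      (Str G S th (cl G S th l R0 W r q X j) \ cl G S th l R0 W r q X j)),
    disjoint_sdiff, ?_, ?_, ?_, hT, ?_, ?_, ?_⟩
  · exact disjoint_sdiff.mono_left subset_union_left
  · exact disjoint_sdiff.mono_left subset_union_right
  · rw [union_sdiff_of_subset]
    exact union_subset hKS (sdiff_subset.trans hSS)
  · have h1 := card_le_card hXK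
    omega
  · refine ⟨z, ?_⟩
    rw [mem_sdiff, mem_union, mem_sdiff]
    exact ⟨hzS, fun h => h.elim hz' (fun h => hz h.1)⟩
  · intro v hv
    rw [mem_sdiff, mem_union, mem_sdiff] at hv
    by_contra hlt
    have h1 : v ∈ Str G S th (cl G S th l R0 W r q X j) :=
      mem_filter.mpr ⟨hv.1, not_lt.mp hlt⟩
    exact hv.2 (by
      by_cases h2 : v ∈ cl G S th l R0 W r q X j
      · exact Or.inl h2
      · exact Or.inr ⟨h1, h2⟩)

private theorem near_alt_aux {V : Type*} {G : SimpleGraph V} {S : Finset V} {k l : ℕ}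
    {s t : Fin k → V} {W : Fin k → Finset V} {r : Fin k → ℕ} {q : Fin k → ℕ → V} {X : Finset V}
    {B R0 th C : ℕ} (hS : S.card ≤ 10 * k) (hk : 1 ≤ k)
    (c : NCtx G S s t l W r q X B R0 th) (hX : k ≤ 2 * X.card) {L : Fin k} (hL : (L : ℕ) = l)
    (hC : ∀ j, j ≤ 300000 → cc j ≤ C) (hB : B = 8 * C + 100) (hR : R0 = 200000 * (2 * C + 64)) :
    (∃ W'' : Fin k → Finset V, Sys G S s t (l + 1) W'' ∧
      (used W'').card ≤ (used W).card + (2 * C + 60)) ∨
    ∃ K T M : Finset V, Disjoint K T ∧ Disjoint K M ∧ Disjoint T M ∧ K ∪ T ∪ M = S ∧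
      (T.card : ℝ) ≤ (2 + 1 / 10000) * k ∧ k ≤ 2 * K.card ∧ M.Nonempty ∧
      ∀ v ∈ M, dg G K v < th := by
  obtain ⟨J, hJ⟩ : ∃ J : ℕ, J = 300000 := ⟨_, rfl⟩
  obtain ⟨j, hj, hjk⟩ : ∃ j, j < J ∧
      20000 * (cl G S th l R0 W r q X (j + 1) \ cl G S th l R0 W r q X j).card ≤ k := by
    by_contra hcon
    push Not at hcon
    have h1 := cl_grow c 0 J hcon
    have h2 : (cl G S th l R0 W r q X J).card ≤ S.card :=
      card_le_card (fun x hx => (cl_loc c J x hx).1)
    rw [hJ] at h1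
    rw [hJ] at h2
    generalize (cl G S th l R0 W r q X 300000).card = N at h1 h2
    omega
  have hcj : cc j ≤ C := hC j (by omega)
  by_cases hst : s L ∈ Str G S th (cl G S th l R0 W r q X j) ∧
      t L ∈ Str G S th (cl G S th l R0 W r q X j)
  · left
    obtain ⟨W'', h1, h2⟩ := link_strong c j (by omega) hL hst.1 hst.2
    exact ⟨W'', h1, by omega⟩
  · right
    have hT : ((Str G S th (cl G S th l R0 W r q X j) \ cl G S th l R0 W r q X j).card : ℝ) ≤
        (2 + 1 / 10000) * k := by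
      have h1 := tcount c j (by omega)
      have h2 : (Str G S th (cl G S th l R0 W r q X j) \ cl G S th l R0 W r q X j).card ≤
          (Str G S th (cl G S th l R0 W r q X j) \ cl G S th l R0 W r q X (j + 1)).card +
          (cl G S th l R0 W r q X (j + 1) \ cl G S th l R0 W r q X j).card := by
        refine (card_le_card ?_).trans (card_union_le _ _)
        intro x hx
        rw [mem_sdiff] at hx
        rw [mem_union, mem_sdiff, mem_sdiff]
        by_cases h3 : x ∈ cl G S th l R0 W r q X (j + 1)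
        · exact Or.inr ⟨h3, hx.2⟩
        · exact Or.inl ⟨hx.1, h3⟩
      set N := (Str G S th (cl G S th l R0 W r q X j) \ cl G S th l R0 W r q X j).card
      set N1 := (Str G S th (cl G S th l R0 W r q X j) \ cl G S th l R0 W r q X (j + 1)).card
      set N2 := (cl G S th l R0 W r q X (j + 1) \ cl G S th l R0 W r q X j).card
      have h3 : R0 * N1 ≤ 2 * k * R0 + (2 * C + 64) * (10 * k) := by
        refine h1.trans (Nat.add_le_add_left ?_ _)
        exact Nat.mul_le_mul (by omega) hS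
      have h4 : (2 * C + 64) * (200000 * N1) ≤ (2 * C + 64) * (400010 * k) := by
        have h5 : (2 * C + 64) * (200000 * N1) = R0 * N1 := by rw [hR]; ring
        have h6 : (2 * C + 64) * (400010 * k) = 2 * k * R0 + (2 * C + 64) * (10 * k) := by
          rw [hR]; ring
        rw [h5, h6]; exact h3
      have h5 : 200000 * N1 ≤ 400010 * k := Nat.le_of_mul_le_mul_left h4 (by omega)
      have h6 : 10000 * N ≤ 20001 * k := by omega
      have h7 : (10000 : ℝ) * N ≤ 20001 * k := by exact_mod_cast h6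
      linarith
    have hnot : ∀ z, z ∈ W L → z ∉ cl G S th l R0 W r q X j := by
      intro z hz hzc
      rcases (cl_loc c j z hzc).2 with h1 | ⟨h, h1, -, h2⟩
      · exact h1 (mem_used.mpr ⟨L, hz⟩)
      · have h3 : h ≠ L := by
          rintro rfl
          omega
        exact disjoint_left.mp (c.opt.dj h L h3) h2 hz
    rcases not_and_or.mp hst with h1 | h1
    · exact near_first c hX j hT (c.opt.sub L (c.opt.sm L)) h1 (hnot _ (c.opt.sm L))
    · exact near_first c hX j hT (c.opt.sub L (c.opt.tm L)) h1 (hnot _ (c.opt.tm L))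

theorem near_alt {V : Type*} {G : SimpleGraph V} {S : Finset V} {k l : ℕ} {s t : Fin k → V}
    {W : Fin k → Finset V} {r : Fin k → ℕ} {q : Fin k → ℕ → V} {X : Finset V}
    (hS : S.card ≤ 10 * k) (hk : 1 ≤ k)
    (c : NCtx G S s t l W r q X cB cR cT) (hX : k ≤ 2 * X.card) {L : Fin k} (hL : (L : ℕ) = l) :
    (∃ W'' : Fin k → Finset V, Sys G S s t (l + 1) W'' ∧
      (used W'').card ≤ (used W).card + (2 * cc cJ + 60)) ∨
    ∃ K T M : Finset V, Disjoint K T ∧ Disjoint K M ∧ Disjoint T M ∧ K ∪ T ∪ M = S ∧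
      (T.card : ℝ) ≤ (2 + 1 / 10000) * k ∧ k ≤ 2 * K.card ∧ M.Nonempty ∧
      ∀ v ∈ M, dg G K v < cT := by
  obtain ⟨C, hCC⟩ : ∃ C, C = cc cJ := ⟨_, rfl⟩
  have hC : ∀ j, j ≤ 300000 → cc j ≤ C := by
    intro j hj
    rw [hCC]
    have h1 : j ≤ cJ := by rw [cJ_def]; exact hj
    exact cc_mono (i := j) (j := cJ) h1
  have hB : cB = 8 * C + 100 := by rw [cB_def, hCC]
  have hR : cR = 200000 * (2 * C + 64) := by
    rw [hCC]
    exact cR_def
  rw [← hCC]
  exact near_alt_aux hS hk c hX hL hC hB hR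

private theorem near_sep_aux (C B R0 th : ℕ) (hC : ∀ j, j ≤ 300000 → cc j ≤ C)
    (hB : B = 8 * C + 100) (hR : R0 = 200000 * (2 * C + 64)) (hth : B * R0 + B < th)
    {k : ℕ} (hk1 : 1 ≤ k) (hkB : 16 * (B + 1) ≤ k) (V : Type u)
    (G : SimpleGraph V) (S : Finset V) (hS0 : S.Nonempty) (hS : S.card ≤ 10 * k)
    (hd : ∀ v ∈ S, 4 * k ≤ dg G S v) (hKL : ¬ KL G S k) :
    ∃ K T M : Finset V, Disjoint K T ∧ Disjoint K M ∧ Disjoint T M ∧ K ∪ T ∪ M = S ∧
      (T.card : ℝ) ≤ (2 + 1 / 10000) * k ∧ k ≤ 2 * K.card ∧ M.Nonempty ∧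
      ∀ v ∈ M, dg G K v < th := by
  by_contra hcon
  apply hKL
  intro s t hter
  have hS4 : 4 * k ≤ S.card := by
    obtain ⟨v, hv⟩ := hS0
    exact (hd v hv).trans (card_le_card (filter_subset _ _))
  have main : ∀ l, l ≤ k → ∃ W : Fin k → Finset V, Sys G S s t l W ∧ (S \ used W).Nonempty := by
    intro l
    induction l with
    | zero =>
      intro _
      refine ⟨_, sys_zero hter, ?_⟩
      rw [← card_pos]
      have h1 := le_card_sdiff (used (fun i => ({s i, t i} : Finset V))) S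
      rw [card_used_zero hter] at h1
      omega
    | succ l ih =>
      intro hl
      obtain ⟨W0, hW0, hf0⟩ := ih (by omega)
      obtain ⟨W, hW⟩ := exists_opt hW0 (fun _ => 1)
      have hle := hW.card_one hW0
      have hus : used W ⊆ S := hW.toSys.used_sub
      have hus0 : used W0 ⊆ S := hW0.used_sub
      have hf : (S \ used W).Nonempty := by
        rw [← card_pos] at hf0 ⊢
        rw [card_sdiff_of_subset hus0] at hf0
        rw [card_sdiff_of_subset hus]
        omega
      obtain ⟨h1, r, q, X, c, hX⟩ := nctx hS hd hW hf hkB hth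
      rcases near_alt_aux hS hk1 c hX (L := ⟨l, by omega⟩) rfl hC hB hR with ⟨W'', h2, h3⟩ | h2
      · refine ⟨W'', h2, ?_⟩
        have hus2 : used W'' ⊆ S := h2.used_sub
        rw [← card_pos, card_sdiff_of_subset hus2]
        rw [card_sdiff_of_subset hus] at h1
        omega
      · exact absurd h2 hcon
  obtain ⟨W, hW, -⟩ := main k le_rfl
  exact ⟨W, hW⟩

theorem near_sep (η : ℝ) (hη : 0 < η) : ∃ k0 : ℕ, ∀ k ≥ k0, ∀ (V : Type u)
    (G : SimpleGraph V) (S : Finset V), S.Nonempty → S.card ≤ 10 * k →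
    (∀ v ∈ S, 4 * k ≤ dg G S v) → ¬ KL G S k →
    ∃ K T M : Finset V, Disjoint K T ∧ Disjoint K M ∧ Disjoint T M ∧ K ∪ T ∪ M = S ∧
      (T.card : ℝ) ≤ (2 + 1 / 10000) * k ∧ k ≤ 2 * K.card ∧ M.Nonempty ∧
      ∀ v ∈ M, (dg G K v : ℝ) ≤ η * k := by
  obtain ⟨C, hCC⟩ : ∃ C, C = cc cJ := ⟨_, rfl⟩
  have hC : ∀ j, j ≤ 300000 → cc j ≤ C := by
    intro j hj
    rw [hCC]
    have h1 : j ≤ cJ := by rw [cJ_def]; exact hj
    exact cc_mono (i := j) (j := cJ) h1
  obtain ⟨B, hB⟩ : ∃ B, B = 8 * C + 100 := ⟨_, rfl⟩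
  obtain ⟨R0, hR⟩ : ∃ R0, R0 = 200000 * (2 * C + 64) := ⟨_, rfl⟩
  obtain ⟨th, hth⟩ : ∃ th, B * R0 + B < th := ⟨B * R0 + B + 1, Nat.lt_succ_self _⟩
  refine ⟨max (16 * (B + 1)) ⌈(th : ℝ) / η⌉₊, ?_⟩
  intro k hk V G S hS0 hS hd hKL
  have hk1 : 16 * (B + 1) ≤ k := (le_max_left _ _).trans hk
  have hk2 : (th : ℝ) ≤ η * k := by
    have h1 : (th : ℝ) / η ≤ k := (Nat.le_ceil _).trans (by
      exact_mod_cast (le_max_right _ _).trans hk)
    rw [div_le_iff₀ hη] at h1
    linarith
  obtain ⟨K, T, M, h1, h2, h3, h4, h5, h6, h7, h8⟩ :=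
    near_sep_aux C B R0 th hC hB hR hth (by omega) hk1 V G S hS0 hS hd hKL
  refine ⟨K, T, M, h1, h2, h3, h4, h5, h6, h7, fun v hv => ?_⟩
  have h9 : (dg G K v : ℝ) ≤ th := by exact_mod_cast (h8 v hv).le
  linarith

end Pool.Agent.MP4432a5
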