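import Pool.Agent.Lib.MP_4432a5_co.Defs

/-!
# MP_4432a5_co: the public definitions (pair-connectivity)
-/

set_option autoImplicit false
set_option linter.all false

open Finset
open scoped Classical

namespace Pool.Agent.MP4432a5

/-- `k`-connected: more than `k` vertices, and the graph stays connected after deleting any set of
fewer than `k` vertices -/
def IsKConn {V : Type*} [Fintype V] (G : SimpleGraph V) (k : ℕ) : Prop :=
  k < Fintype.card V ∧ ∀ D : Finset V, D.card < k → (G.induce ((D : Set V)ᶜ)).Connected

/-- `n`-pair-connected: at least `2 n` vertices, and for all pairs `(a i, b i)`, `i < n`, there are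
paths `P i` from `a i` to `b i` such that a common vertex of two of them is an end of both. -/
def PairConn {V : Type*} [Fintype V] (G : SimpleGraph V) (n : ℕ) : Prop :=
  2 * n ≤ Fintype.card V ∧ ∀ a b : Fin n → V, ∃ P : ∀ i, G.Walk (a i) (b i),
    (∀ i, (P i).IsPath) ∧ ∀ i j, i ≠ j → ∀ x, x ∈ (P i).support → x ∈ (P j).support →
      (x = a i ∨ x = b i) ∧ (x = a j ∨ x = b j)

/-- the least `k` such that every `k`-connected graph is `n`-pair-connected -/
noncomputable def g (n : ℕ) : ℕ :=
  sInf {k : ℕ | ∀ (V : Type) [Fintype V] (G : SimpleGraph V), IsKConn G k → PairConn G n}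

end Pool.Agent.MP4432a5
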