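import Pool.Agent.Lib.MP_4432a5_co.NDefs

/-!
# MP_4432a5_co, module Pick: choosing a neighbour which is not forbidden

Proof. `p` has at least `th > B R0 + B` neighbours in `K = cl j`; at most `|D| ≤ B` of them are in `D`
and at most `|F| R0 ≤ B R0` in the items of `F` (by `cl_loc` the vertices of `K` that lie in some item
`W h` lie in a short one; the items are disjoint, so if `x ∈ W h`, `h ∈ F`, then `|W h| ≤ R0`).
-/

set_option autoImplicit false
set_option linter.all false

open Finset
open scoped Classical

namespace Pool.Agent.MP4432a5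

variable {V : Type*} {G : SimpleGraph V} {S : Finset V} {k l : ℕ} {s t : Fin k → V}
  {W : Fin k → Finset V} {r : Fin k → ℕ} {q : Fin k → ℕ → V} {X : Finset V} {B R0 th : ℕ}

theorem pick (c : NCtx G S s t l W r q X B R0 th) (j : ℕ) {p : V}
    (hp : p ∈ Str G S th (cl G S th l R0 W r q X j)) (F : Finset (Fin k)) (D : Finset V)
    (hF : F.card ≤ B) (hD : D.card ≤ B) :
    ∃ x ∈ cl G S th l R0 W r q X j, G.Adj p x ∧ x ∉ D ∧ ∀ h ∈ F, x ∉ W h := by
  by_contra hcon
  push Not at hcon
  have hdeg : th ≤ (nb G (cl G S th l R0 W r q X j) p).card := by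
    unfold Str at hp
    exact (Finset.mem_filter.mp hp).2
  have hsub : nb G (cl G S th l R0 W r q X j) p ⊆
      D ∪ (F.filter (fun h => (W h).card ≤ R0)).biUnion W := by
    intro x hx
    unfold nb at hx
    rw [Finset.mem_filter] at hx
    by_cases hxD : x ∈ D
    · exact Finset.mem_union_left _ hxD
    · obtain ⟨h, hhF, hxh⟩ := hcon x hx.1 hx.2 hxD
      refine Finset.mem_union_right _ ?_
      rw [Finset.mem_biUnion]
      refine ⟨h, ?_, hxh⟩
      rw [Finset.mem_filter]
      refine ⟨hhF, ?_⟩
      rcases (cl_loc c j x hx.1).2 with h1 | ⟨h', _, h2, h3⟩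
      · exact absurd (Finset.mem_biUnion.mpr ⟨h, Finset.mem_univ _, hxh⟩) h1
      · have : h = h' := by
          by_contra hne
          exact Finset.disjoint_left.mp (c.opt.dj h h' hne) hxh h3
        rw [this]
        exact h2
  have h1 := Finset.card_le_card hsub
  have h2 := Finset.card_union_le D ((F.filter (fun h => (W h).card ≤ R0)).biUnion W)
  have h3 : ((F.filter (fun h => (W h).card ≤ R0)).biUnion W).card ≤
      (F.filter (fun h => (W h).card ≤ R0)).card * R0 := by
    refine Finset.card_biUnion_le_card_mul _ _ _ ?_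
    intro h hh
    exact (Finset.mem_filter.mp hh).2
  have h4 : (F.filter (fun h => (W h).card ≤ R0)).card * R0 ≤ B * R0 :=
    Nat.mul_le_mul_right _ (le_trans (Finset.card_filter_le _ _) hF)
  have h5 := c.hth
  omega

end Pool.Agent.MP4432a5
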