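import Pool.Agent.Lib.MP_4432a5_co.Conn

/-!
# MP_4432a5_co, module Robust: a subset that stays connected after deleting `B` vertices

Proof. Induction on `i ≤ 4` (or on the cardinality): suppose `U_i ⊆ U` is nonempty,
`2 ^ i * |U_i| ≤ 10 k` and every vertex of `U_i` has at least `k - i B` neighbours in `U_i`. If
`U_i \ D` is not connected for some `|D| ≤ B`, then `U_i \ D = P ∪ Q` with `P`, `Q` nonempty, disjoint
and no edges between them (`P` = the vertices reachable from a vertex `u` inside `U_i \ D`); the smaller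
of `P`, `Q` is `U_{i+1}`. Since `|U_i| ≥ k - i B` (degree) and `16 (B + 1) ≤ k`, `i = 4` is impossible
(`16 (k - 4 B) > 10 k`), so the process stops with `i ≤ 3`.
-/

set_option autoImplicit false
set_option linter.all false

open Finset
open scoped Classical

namespace Pool.Agent.MP4432a5

variable {V : Type*} {G : SimpleGraph V}

private theorem rb_step (G : SimpleGraph V) {W : Finset V} {k B i : ℕ} (hc : 2 ^ i * W.card ≤ 10 * k)
    (hd : ∀ v ∈ W, k ≤ dg G W v + i * B) :
    (∀ D : Finset V, D.card ≤ B → Cn G (W \ D)) ∨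
      ∃ W' : Finset V, W' ⊆ W ∧ W'.Nonempty ∧ 2 ^ (i + 1) * W'.card ≤ 10 * k ∧
        ∀ v ∈ W', k ≤ dg G W' v + (i + 1) * B := by
  by_contra hcon
  push Not at hcon
  obtain ⟨⟨D, hD, hnc⟩, hno⟩ := hcon
  unfold Cn at hnc
  push Not at hnc
  obtain ⟨u, hu, v, hv, huv⟩ := hnc
  set P : Finset V := (W \ D).filter
    (fun w => Relation.ReflTransGen (fun a b => G.Adj a b ∧ b ∈ W \ D) u w) with hP
  set Q : Finset V := (W \ D).filter
    (fun w => ¬ Relation.ReflTransGen (fun a b => G.Adj a b ∧ b ∈ W \ D) u w) with hQ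
  have hPu : u ∈ P := by rw [hP, mem_filter]; exact ⟨hu, Relation.ReflTransGen.refl⟩
  have hQv : v ∈ Q := by rw [hQ, mem_filter]; exact ⟨hv, huv⟩
  have hcard : P.card + Q.card ≤ W.card := by
    have h1 : P.card + Q.card = (W \ D).card := by
      rw [hP, hQ]
      exact card_filter_add_card_filter_not _
    rw [h1]
    exact card_le_card sdiff_subset
  -- no edges between P and Q
  have hno_edge : ∀ a ∈ P, ∀ b ∈ Q, ¬ G.Adj a b := by
    intro a ha b hb hab
    rw [hP, mem_filter] at ha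
    rw [hQ, mem_filter] at hb
    exact hb.2 (ha.2.tail ⟨hab, hb.1⟩)
  -- degrees
  have key : ∀ T T' : Finset V, T ⊆ W → (∀ a ∈ T, ∀ b ∈ T', ¬ G.Adj a b) →
      (∀ w ∈ W \ D, w ∈ T ∨ w ∈ T') → ∀ a ∈ T, dg G W a ≤ dg G T a + B := by
    intro T T' hT hTT hcov a ha
    unfold dg
    have h1 : nb G W a ⊆ nb G T a ∪ D := by
      intro w hw
      unfold nb at *
      rw [mem_filter] at hw
      rw [mem_union, mem_filter]
      by_cases hwD : w ∈ D
      · exact Or.inr hwD
      · left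
        rcases hcov w (mem_sdiff.2 ⟨hw.1, hwD⟩) with h | h
        · exact ⟨h, hw.2⟩
        · exact absurd hw.2 (hTT a ha w h)
    calc (nb G W a).card ≤ (nb G T a ∪ D).card := card_le_card h1
      _ ≤ (nb G T a).card + D.card := card_union_le _ _
      _ ≤ (nb G T a).card + B := by omega
  have hPW : P ⊆ W := fun w hw => (mem_sdiff.1 (mem_filter.1 hw).1).1
  have hQW : Q ⊆ W := fun w hw => (mem_sdiff.1 (mem_filter.1 hw).1).1
  have hcov : ∀ w ∈ W \ D, w ∈ P ∨ w ∈ Q := by
    intro w hw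
    by_cases h : Relation.ReflTransGen (fun a b => G.Adj a b ∧ b ∈ W \ D) u w
    · left; rw [hP, mem_filter]; exact ⟨hw, h⟩
    · right; rw [hQ, mem_filter]; exact ⟨hw, h⟩
  have hpow : 2 ^ (i + 1) = 2 * 2 ^ i := by ring
  rcases le_total P.card Q.card with hle | hle
  · obtain ⟨w, hw, hlt⟩ := hno P hPW ⟨u, hPu⟩ (by
      rw [hpow]
      have h2 : 2 ^ i * (2 * P.card) ≤ 2 ^ i * W.card := Nat.mul_le_mul_left _ (by omega)
      calc 2 * 2 ^ i * P.card = 2 ^ i * (2 * P.card) := by ring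
        _ ≤ 10 * k := h2.trans hc)
    have h3 := key P Q hPW hno_edge hcov w hw
    have h4 := hd w (hPW hw)
    have h5 : (i + 1) * B = i * B + B := by ring
    omega
  · obtain ⟨w, hw, hlt⟩ := hno Q hQW ⟨v, hQv⟩ (by
      rw [hpow]
      have h2 : 2 ^ i * (2 * Q.card) ≤ 2 ^ i * W.card := Nat.mul_le_mul_left _ (by omega)
      calc 2 * 2 ^ i * Q.card = 2 ^ i * (2 * Q.card) := by ring
        _ ≤ 10 * k := h2.trans hc)
    have h3 := key Q P hQW (fun a ha b hb hab => hno_edge b hb a ha hab.symm)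
      (fun w hw => (hcov w hw).symm) w hw
    have h4 := hd w (hQW hw)
    have h5 : (i + 1) * B = i * B + B := by ring
    omega

theorem exists_robust {U : Finset V} {k B : ℕ} (hU : U.Nonempty) (hc : U.card ≤ 10 * k)
    (hd : ∀ v ∈ U, k ≤ dg G U v) (hB : 16 * (B + 1) ≤ k) :
    ∃ X : Finset V, X ⊆ U ∧ X.Nonempty ∧ (∀ v ∈ X, k ≤ dg G X v + 3 * B) ∧
      ∀ D : Finset V, D.card ≤ B → Cn G (X \ D) := by
  have h0 : ∀ v ∈ U, k ≤ dg G U v + 0 * B := fun v hv => by have := hd v hv; omega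
  rcases rb_step G (i := 0) (by simpa using hc) h0 with h | ⟨U1, s1, n1, c1, d1⟩
  · exact ⟨U, subset_refl _, hU, fun v hv => by have := hd v hv; omega, h⟩
  rcases rb_step G c1 d1 with h | ⟨U2, s2, n2, c2, d2⟩
  · exact ⟨U1, s1, n1, fun v hv => by have := d1 v hv; omega, h⟩
  rcases rb_step G c2 d2 with h | ⟨U3, s3, n3, c3, d3⟩
  · exact ⟨U2, s2.trans s1, n2, fun v hv => by have := d2 v hv; omega, h⟩
  rcases rb_step G c3 d3 with h | ⟨U4, s4, n4, c4, d4⟩
  · exact ⟨U3, s3.trans (s2.trans s1), n3, fun v hv => by have := d3 v hv; omega, h⟩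
  exfalso
  obtain ⟨v, hv⟩ := n4
  have h1 := d4 v hv
  have h2 : dg G U4 v ≤ U4.card := card_le_card (filter_subset _ _)
  omega

end Pool.Agent.MP4432a5
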