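import Pool.Agent.Lib.MP_4432a5_co.SBFree

/-!
# MP_4432a5_co, module SBCount: the counting in Lemma B

Notation: `m(u) = |K| - dg G K u`, `θ = |K| - (3 + 4 e) k > 0` (real, `e = 1/10000`), `Hi = {u ∈ K : θ ≤ m(u)}`.
`sb_many`: the set `K \ Hi` contains at least `e k` free vertices.
Proof. Let `Y = (K \ Hi) \ used W` and suppose `|Y| < e k`.
(1) There is a free `y ∈ Hi`: if `Y = ∅` every free vertex is in `Hi`; otherwise take `v ∈ Y`:
`dg G K v = |K| - m(v) > (3 + 4 e) k`, at most `3 k` used neighbours (`sb_three`), so more than `4 e k > |Y|` free vertices.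
(2) Let `F = (Hi \ used W) ∪ swp y`. Every `x ∈ F` is in `Hi` and has at most 2 neighbours in each item outside
(interior ∩ Hi) (`sb_nonHi`, `sb_swap`).
(3) Let `A = Hi \ {terminals}`, `Z = K \ A`, `Zu = Z ∩ used W`, `n = |Zu| - 2 k` (`≥ 0`, all `2k` terminals are in `Zu`);
`Z \ used W = Y`; so `|A| = |K| - 2 k - n - |Y|`. Every `x ∈ F` has at most `2 k` neighbours in `Zu`, so
at least `n` non-neighbours in `Zu` (counting `x` itself if `x ∈ Zu`).
(4) `|F| ≥ dg G K y - 2 k - |Y|` by `sb_count` (sum over the items: `dg ≤ 2 k + |swp y| + |free|`,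
`|free| = |Hi \ used W| + |Y|`, `swp y` and `Hi \ used W` are disjoint), so
`|F| ≥ |K| - (3 + 2 e) k - |Y| ≥ θ` (from `m(y) ≤ (1 + 2 e) k` and `|Y| < e k`).
(5) `∑_{u ∈ K} m(u) = ∑_{A} m + ∑_{Z} m ≥ θ |A| + |F| n ≥ θ (|K| - 2 k - n - |Y|) + θ n ≥ θ (|K| - 2 k) - θ e k`
(`∑_{u ∈ Z} m(u) ≥ #{(u, x) : u ∈ Zu, x ∈ F, not adjacent} ≥ |F| n`),
and `θ ≤ 7 k`, `7 e k ^ 2 < k ^ 2 / 100`: contradiction to `hsum`.
`θ > 0` follows from `hsum`, because the sum is `≥ 0` and `|K| > 2 k`.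
-/

set_option autoImplicit false
set_option linter.all false

open Finset
open scoped Classical

namespace Pool.Agent.MP4432a5

variable {V : Type*} {G : SimpleGraph V} {K Hi : Finset V} {k l : ℕ} {s t : Fin k → V}
  {W : Fin k → Finset V} {ω : V → ℕ}

private theorem sbc_used (v : V) :
    (nb G (used W) v).card ≤ ∑ i, (nb G (W i) v).card := by
  have h : nb G (used W) v ⊆ univ.biUnion (fun i => nb G (W i) v) := by
    intro x hx
    rw [mem_nb, mem_used] at hx
    obtain ⟨⟨i, hi⟩, hx⟩ := hx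
    exact mem_biUnion.2 ⟨i, mem_univ i, mem_nb.2 ⟨hi, hx⟩⟩
  exact (card_le_card h).trans card_biUnion_le

private theorem sbc_split (A : Finset V) (v : V) :
    (nb G A v).card ≤ (nb G (used W) v).card + (nb G (A \ used W) v).card := by
  refine le_trans (card_le_card ?_) (card_union_le _ _)
  intro x hx
  rw [mem_nb] at hx
  rw [mem_union, mem_nb, mem_nb, mem_sdiff]
  by_cases h : x ∈ used W
  · exact Or.inl ⟨h, hx.2⟩
  · exact Or.inr ⟨⟨hx.1, h⟩, hx.2⟩

private theorem sbc_m (u : V) :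
    (K.card : ℝ) - dg G K u = ((K.filter (fun x => ¬ G.Adj u x)).card : ℝ) := by
  have h := card_filter_add_card_filter_not (s := K) (fun x => G.Adj u x)
  have h' : ((K.filter (fun x => G.Adj u x)).card : ℝ) +
      ((K.filter (fun x => ¬ G.Adj u x)).card : ℝ) = (K.card : ℝ) := by exact_mod_cast h
  unfold dg nb
  linarith

/-- a free vertex of `Hi` -/
private theorem sbc_y (hHi : Hi = K.filter
      (fun u => (K.card : ℝ) - (3 + 4 / 10000) * k ≤ (K.card : ℝ) - dg G K u))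
    (hw : SBw K Hi ω) (hopt : Opt G K s t l ω W)
    (hfree : (K \ used W).Nonempty)
    (hY : (((K \ Hi) \ used W).card : ℝ) < (1 / 10000 : ℝ) * k) :
    ∃ y ∈ Hi, y ∉ used W := by
  obtain ⟨v, hv⟩ := hfree
  rw [mem_sdiff] at hv
  by_cases hvH : v ∈ Hi
  · exact ⟨v, hvH, hv.2⟩
  have h1 : (3 + 4 / 10000) * (k : ℝ) < dg G K v := by
    by_contra hle
    rw [not_lt] at hle
    apply hvH
    rw [hHi, mem_filter]
    exact ⟨hv.1, by linarith⟩
  have h2 : (nb G (used W) v).card ≤ 3 * k := by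
    refine (sbc_used v).trans ?_
    have h : ∑ i, (nb G (W i) v).card ≤ ∑ _i : Fin k, 3 :=
      sum_le_sum fun i _ => sb_three hw hopt hv.1 hv.2 i
    rw [sum_const, card_univ, Fintype.card_fin, smul_eq_mul] at h
    omega
  have h3 := sbc_split (G := G) (W := W) K v
  have h4 : ((nb G K v).card : ℝ) ≤ 3 * k + ((nb G (K \ used W) v).card : ℝ) := by
    exact_mod_cast (show (nb G K v).card ≤ 3 * k + (nb G (K \ used W) v).card by omega)
  by_contra hno
  push Not at hno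
  have h5 : nb G (K \ used W) v ⊆ (K \ Hi) \ used W := by
    intro x hx
    rw [mem_nb, mem_sdiff] at hx
    rw [mem_sdiff, mem_sdiff]
    exact ⟨⟨hx.1.1, fun h => hx.1.2 (hno x h)⟩, hx.1.2⟩
  have h6 : ((nb G (K \ used W) v).card : ℝ) ≤ (((K \ Hi) \ used W).card : ℝ) := by
    exact_mod_cast card_le_card h5
  unfold dg at h1
  have hk0 : (0 : ℝ) ≤ k := Nat.cast_nonneg k
  linarith

private theorem sbc_Zu (hw : SBw K Hi ω) (hopt : Opt G K s t l ω W)
    {x : V} (hx : ∀ i : Fin k,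
      ((nb G (W i) x).filter (fun w => w ∉ Hi ∨ w = s i ∨ w = t i)).card ≤ 2) :
    (nb G ((K \ (Hi.filter (fun u => ∀ i, u ≠ s i ∧ u ≠ t i))) ∩ used W) x).card ≤ 2 * k := by
  have hsub : nb G ((K \ (Hi.filter (fun u => ∀ i, u ≠ s i ∧ u ≠ t i))) ∩ used W) x ⊆
      univ.biUnion (fun i => (nb G (W i) x).filter (fun w => w ∉ Hi ∨ w = s i ∨ w = t i)) := by
    intro w hw'
    rw [mem_nb, mem_inter, mem_sdiff, mem_filter, mem_used] at hw'
    obtain ⟨⟨⟨hwK, hwA⟩, i, hi⟩, hadj⟩ := hw'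
    rw [mem_biUnion]
    refine ⟨i, mem_univ i, mem_filter.2 ⟨mem_nb.2 ⟨hi, hadj⟩, ?_⟩⟩
    by_cases hwH : w ∈ Hi
    · right
      have h1 : ¬ ∀ i, w ≠ s i ∧ w ≠ t i := fun h => hwA ⟨hwH, h⟩
      push Not at h1
      obtain ⟨j, hj⟩ := h1
      have hwj : w ∈ W j := by
        by_cases h : w = s j
        · rw [h]; exact hopt.sm j
        · rw [hj h]; exact hopt.tm j
      have hij : i = j := by
        by_contra hne
        exact disjoint_left.1 (hopt.dj i j hne) hi hwj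
      subst hij
      by_cases h : w = s i
      · exact Or.inl h
      · exact Or.inr (hj h)
    · exact Or.inl hwH
  refine (card_le_card hsub).trans (card_biUnion_le.trans ?_)
  have h : ∑ i : Fin k, ((nb G (W i) x).filter (fun w => w ∉ Hi ∨ w = s i ∨ w = t i)).card ≤
      ∑ _i : Fin k, 2 := sum_le_sum fun i _ => hx i
  rw [sum_const, card_univ, Fintype.card_fin, smul_eq_mul] at h
  omega

theorem sb_many (hk : 1 ≤ k) (hK : 2 * k < K.card) (hcard : K.card ≤ 10 * k)
    (hm : ∀ u ∈ K, (K.card : ℝ) - dg G K u ≤ (1 + 2 / 10000) * k)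
    (hsum : ∑ u ∈ K, ((K.card : ℝ) - dg G K u) ≤
      ((K.card : ℝ) - (3 + 4 / 10000) * k) * (K.card - 2 * k) - (k : ℝ) ^ 2 / 100)
    (hHi : Hi = K.filter (fun u => (K.card : ℝ) - (3 + 4 / 10000) * k ≤ (K.card : ℝ) - dg G K u))
    (hter : Ter K s t) (hw : SBw K Hi ω) (hopt : Opt G K s t l ω W)
    (hfree : (K \ used W).Nonempty) :
    (1 / 10000 : ℝ) * k ≤ ((K \ Hi) \ used W).card := by
  by_contra hY
  rw [not_le] at hY
  have hkR : (1 : ℝ) ≤ k := by exact_mod_cast hk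
  have hKR : 2 * (k : ℝ) < K.card := by exact_mod_cast hK
  have hcR : (K.card : ℝ) ≤ 10 * k := by exact_mod_cast hcard
  obtain ⟨θ, hθ⟩ : ∃ θ : ℝ, θ = (K.card : ℝ) - (3 + 4 / 10000) * k := ⟨_, rfl⟩
  rw [← hθ] at hsum
  have hθ0 : 0 < θ := by
    have h1 : (0 : ℝ) ≤ ∑ u ∈ K, ((K.card : ℝ) - dg G K u) := by
      refine sum_nonneg fun u _ => ?_
      rw [sbc_m]
      exact Nat.cast_nonneg _
    have h2 : 0 < θ * ((K.card : ℝ) - 2 * k) := by nlinarith
    exact pos_of_mul_pos_left h2 (by linarith)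
  have hθ7 : θ ≤ 7 * k := by rw [hθ]; linarith
  obtain ⟨y, hy, hyu⟩ := sbc_y hHi hw hopt hfree hY
  have hHK : Hi ⊆ K := hw.sub
  have hyK : y ∈ K := hHK hy
  -- the set `F`
  obtain ⟨F, hF⟩ : ∃ F : Finset V, F = (Hi \ used W) ∪ swp G l W s t y := ⟨_, rfl⟩
  have hswu : swp G l W s t y ⊆ used W := filter_subset _ _
  have hFH : ∀ x ∈ F, x ∈ Hi ∧ ∀ i : Fin k,
      ((nb G (W i) x).filter (fun w => w ∉ Hi ∨ w = s i ∨ w = t i)).card ≤ 2 := by
    intro x hx
    rw [hF, mem_union] at hx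
    rcases hx with hx | hx
    · rw [mem_sdiff] at hx
      exact ⟨hx.1, fun i => sb_nonHi hw hopt hx.1 hx.2 i⟩
    · by_cases hk0 : Nonempty (Fin k)
      · obtain ⟨i0⟩ := hk0
        exact ⟨(sb_swap hw hopt hy hyu hx i0).1, fun i => (sb_swap hw hopt hy hyu hx i).2⟩
      · exact absurd ⟨⟨0, by omega⟩⟩ hk0
  -- the sets `A`, `Z`, `Zu`
  obtain ⟨A, hA⟩ : ∃ A : Finset V, A = Hi.filter (fun u => ∀ i, u ≠ s i ∧ u ≠ t i) := ⟨_, rfl⟩
  obtain ⟨Zu, hZu⟩ : ∃ Zu : Finset V, Zu = (K \ A) ∩ used W := ⟨_, rfl⟩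
  have hAH : A ⊆ Hi := by rw [hA]; exact filter_subset _ _
  have hAK : A ⊆ K := hAH.trans hHK
  have hZuK : Zu ⊆ K := by
    rw [hZu]
    exact inter_subset_left.trans sdiff_subset
  have hTZ : used (fun i => ({s i, t i} : Finset V)) ⊆ Zu := by
    intro x hx
    rw [mem_used] at hx
    obtain ⟨i, hi⟩ := hx
    rw [mem_insert, mem_singleton] at hi
    rw [hZu, mem_inter, mem_sdiff, mem_used, hA, mem_filter]
    rcases hi with h | h
    · refine ⟨⟨by rw [h]; exact hter.sS i, fun h' => (h'.2 i).1 h⟩, i, by rw [h]; exact hopt.sm i⟩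
    · refine ⟨⟨by rw [h]; exact hter.tS i, fun h' => (h'.2 i).2 h⟩, i, by rw [h]; exact hopt.tm i⟩
  have hZ2 : 2 * k ≤ Zu.card := by
    rw [← card_used_zero hter]
    exact card_le_card hTZ
  -- `K` is the disjoint union of `A`, `Zu`, `Y`
  have hpart : A.card + Zu.card + ((K \ Hi) \ used W).card = K.card := by
    have d1 : Disjoint A Zu := by
      rw [disjoint_left]
      intro x hx hx'
      rw [hZu, mem_inter, mem_sdiff] at hx'
      exact hx'.1.2 hx
    have d2 : Disjoint (A ∪ Zu) ((K \ Hi) \ used W) := by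
      rw [disjoint_left]
      intro x hx hx'
      rw [mem_sdiff, mem_sdiff] at hx'
      rw [mem_union] at hx
      rcases hx with hx | hx
      · exact hx'.1.2 (hAH hx)
      · rw [hZu, mem_inter] at hx
        exact hx'.2 hx.2
    rw [← card_union_of_disjoint d1, ← card_union_of_disjoint d2]
    congr 1
    ext x
    rw [mem_union, mem_union, mem_sdiff, mem_sdiff, hZu, mem_inter, mem_sdiff]
    constructor
    · rintro ((h | h) | h)
      · exact hAK h
      · exact h.1.1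
      · exact h.1.1
    · intro hxK
      by_cases hxA : x ∈ A
      · exact Or.inl (Or.inl hxA)
      · by_cases hxu : x ∈ used W
        · exact Or.inl (Or.inr ⟨⟨hxK, hxA⟩, hxu⟩)
        · right
          refine ⟨⟨hxK, fun hxH => hxA ?_⟩, hxu⟩
          rw [hA, mem_filter]
          refine ⟨hxH, fun i => ⟨fun h => hxu ?_, fun h => hxu ?_⟩⟩
          · exact mem_used.2 ⟨i, by rw [h]; exact hopt.sm i⟩
          · exact mem_used.2 ⟨i, by rw [h]; exact hopt.tm i⟩
  -- (4) `|F| ≥ θ`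
  have hFc : θ ≤ (F.card : ℝ) := by
    have h1 := sbc_split (G := G) (W := W) K y
    have h2 : (nb G (used W) y).card ≤ 2 * k + (swp G l W s t y).card := by
      refine (sbc_used y).trans ?_
      have h3 : ∑ i, (nb G (W i) y).card ≤ ∑ i : Fin k, (2 + (swp G l W s t y ∩ W i).card) :=
        sum_le_sum fun i _ => sb_count hw hopt hy hyu i
      have h4 : ∑ i : Fin k, (swp G l W s t y ∩ W i).card ≤ (swp G l W s t y).card := by
        rw [← card_biUnion]
        · refine card_le_card fun x hx => ?_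
          obtain ⟨i, -, hi⟩ := mem_biUnion.1 hx
          exact (mem_inter.1 hi).1
        · intro i _ j _ hij
          exact (hopt.dj i j hij).mono inter_subset_right inter_subset_right
      rw [sum_add_distrib, sum_const, card_univ, Fintype.card_fin, smul_eq_mul] at h3
      omega
    have h3 : (nb G (K \ used W) y).card ≤ (Hi \ used W).card + ((K \ Hi) \ used W).card := by
      refine (card_le_card ?_).trans (card_union_le _ _)
      intro x hx
      rw [mem_nb, mem_sdiff] at hx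
      rw [mem_union, mem_sdiff, mem_sdiff, mem_sdiff]
      by_cases h : x ∈ Hi
      · exact Or.inl ⟨h, hx.1.2⟩
      · exact Or.inr ⟨⟨hx.1.1, h⟩, hx.1.2⟩
    have h4 : F.card = (Hi \ used W).card + (swp G l W s t y).card := by
      rw [hF]
      apply card_union_of_disjoint
      rw [disjoint_left]
      intro x hx hx'
      exact (mem_sdiff.1 hx).2 (hswu hx')
    have h5 : dg G K y ≤ 2 * k + F.card + ((K \ Hi) \ used W).card := by
      unfold dg
      omega
    have h6 : (dg G K y : ℝ) ≤ 2 * k + (F.card : ℝ) + (((K \ Hi) \ used W).card : ℝ) := by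
      exact_mod_cast h5
    have h7 := hm y hyK
    rw [hθ]
    linarith
  -- (5) the double counting
  have hFn : ∀ x ∈ F, Zu.card - 2 * k ≤ (Zu.filter (fun u => ¬ G.Adj x u)).card := by
    intro x hx
    have h1 := sbc_Zu hw hopt (hFH x hx).2
    rw [← hA, ← hZu] at h1
    have h2 := card_filter_add_card_filter_not (s := Zu) (fun u => G.Adj x u)
    unfold nb at h1
    omega
  have hdc : ∑ x ∈ F, (Zu.filter (fun u => ¬ G.Adj x u)).card ≤
      ∑ u ∈ Zu, (K.filter (fun x => ¬ G.Adj u x)).card := by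
    have h1 : ∑ x ∈ F, (Zu.filter (fun u => ¬ G.Adj x u)).card =
        ∑ u ∈ Zu, (F.filter (fun x => ¬ G.Adj x u)).card := by
      exact sum_card_bipartiteAbove_eq_sum_card_bipartiteBelow (fun x u => ¬ G.Adj x u)
    rw [h1]
    refine sum_le_sum fun u _ => card_le_card fun x hx => ?_
    rw [mem_filter] at hx ⊢
    exact ⟨hHK (hFH x hx.1).1, fun h => hx.2 h.symm⟩
  have hZs : (F.card : ℝ) * ((Zu.card : ℝ) - 2 * k) ≤
      ∑ u ∈ Zu, ((K.card : ℝ) - dg G K u) := by
    have h1 : F.card * (Zu.card - 2 * k) ≤ ∑ u ∈ Zu, (K.filter (fun x => ¬ G.Adj u x)).card := by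
      refine le_trans ?_ hdc
      rw [← smul_eq_mul, ← sum_const]
      exact sum_le_sum hFn
    have h2 : ((F.card * (Zu.card - 2 * k) : ℕ) : ℝ) ≤
        ((∑ u ∈ Zu, (K.filter (fun x => ¬ G.Adj u x)).card : ℕ) : ℝ) := by exact_mod_cast h1
    rw [Nat.cast_mul, Nat.cast_sub hZ2, Nat.cast_mul, Nat.cast_ofNat, Nat.cast_sum] at h2
    refine h2.trans (le_of_eq (sum_congr rfl fun u _ => ?_))
    rw [sbc_m]
  have hAs : θ * (A.card : ℝ) ≤ ∑ u ∈ A, ((K.card : ℝ) - dg G K u) := by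
    have h1 : ∑ _u ∈ A, θ ≤ ∑ u ∈ A, ((K.card : ℝ) - dg G K u) := by
      refine sum_le_sum fun u hu => ?_
      have h2 := hAH hu
      rw [hHi, mem_filter] at h2
      rw [hθ]
      exact h2.2
    rw [sum_const, nsmul_eq_mul] at h1
    linarith
  have htot : ∑ u ∈ A, ((K.card : ℝ) - dg G K u) + ∑ u ∈ Zu, ((K.card : ℝ) - dg G K u) ≤
      ∑ u ∈ K, ((K.card : ℝ) - dg G K u) := by
    have d1 : Disjoint A Zu := by
      rw [disjoint_left]
      intro x hx hx'
      rw [hZu, mem_inter, mem_sdiff] at hx'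
      exact hx'.1.2 hx
    rw [← sum_union d1]
    refine sum_le_sum_of_subset_of_nonneg (union_subset hAK hZuK) fun u _ _ => ?_
    rw [sbc_m]
    exact Nat.cast_nonneg _
  have hZn : (0 : ℝ) ≤ (Zu.card : ℝ) - 2 * k := by
    have : (2 * k : ℝ) ≤ (Zu.card : ℝ) := by exact_mod_cast hZ2
    linarith
  have hFZ : θ * ((Zu.card : ℝ) - 2 * k) ≤ (F.card : ℝ) * ((Zu.card : ℝ) - 2 * k) :=
    mul_le_mul_of_nonneg_right hFc hZn
  have hpR : (A.card : ℝ) + (Zu.card : ℝ) + (((K \ Hi) \ used W).card : ℝ) = (K.card : ℝ) := by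
    exact_mod_cast hpart
  have hYθ : θ * (((K \ Hi) \ used W).card : ℝ) ≤ 7 * k * ((1 / 10000 : ℝ) * k) :=
    mul_le_mul hθ7 hY.le (Nat.cast_nonneg _) (by positivity)
  have e1 : θ * (A.card : ℝ) + θ * ((Zu.card : ℝ) - 2 * k) =
      θ * ((K.card : ℝ) - 2 * k) - θ * (((K \ Hi) \ used W).card : ℝ) := by
    rw [← hpR]; ring
  have e2 : (k : ℝ) ^ 2 / 100 ≤ 7 * k * ((1 / 10000 : ℝ) * k) := by linarith
  nlinarith

end Pool.Agent.MP4432a5
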