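import Pool.Agent.Lib.MP_4432a5_co.SysOpt

/-!
# MP_4432a5_co, module SBFree: neighbours of free vertices in Lemma B

Weights: `ω = |K| + 1` on `Hi`, `|K| + 2` on `K \ Hi`; `W` optimum of level `l`.

`sb_window`: by `Opt.seg` the vertices strictly between have weight at most `|K| + 2 < 2 (|K| + 1)`, so
there is at most one.
`sb_three`: `nb_three`; for `i ≥ l`, `W i = {s i, t i}`.
`sb_mid`: if `x ∈ Hi` is free and `x ~ q a, q (a + 2)` then `ω (q (a + 1)) ≤ ω x = |K| + 1`, so `q (a + 1) ∈ Hi`.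
`sb_nonHi`: in each item a free `x ∈ Hi` has at most 2 neighbours which are not interior vertices in `Hi`
(`= not in Hi, or a terminal of the item`): the neighbours are in a window `q a, q (a+1), q (a+2)`
(`nb_window`); if `q a` and `q (a+2)` both are neighbours then `q (a+1)` is in `Hi` and interior.
`sb_swap`: if `x = q (a+1)`, `y ∈ Hi` free, `y ~ q a, q (a+2)`, then `x` is free in the optimum obtained by `Opt.swap`
(equal weights by `sb_mid`), and `sb_nonHi` for it gives the same bound for the old items: the items only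
differ in `x` and `y ∈ Hi` (`y` is not a terminal).
-/

set_option autoImplicit false
set_option linter.all false

open Finset
open scoped Classical

namespace Pool.Agent.MP4432a5

variable {V : Type*} {G : SimpleGraph V} {K Hi : Finset V} {k l : ℕ} {s t : Fin k → V}
  {W : Fin k → Finset V} {ω : V → ℕ}

/-- assumptions on the weights -/
structure SBw (K Hi : Finset V) (ω : V → ℕ) : Prop where
  sub : Hi ⊆ K
  hi : ∀ v ∈ Hi, ω v = K.card + 1
  lo : ∀ v ∈ K \ Hi, ω v = K.card + 2

private theorem sbf_w (hw : SBw K Hi ω) {v : V} (hv : v ∈ K) :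
    K.card + 1 ≤ ω v ∧ ω v ≤ K.card + 2 := by
  by_cases h : v ∈ Hi
  · have := hw.hi v h
    omega
  · have := hw.lo v (mem_sdiff.2 ⟨hv, h⟩)
    omega

private theorem sbf_path (hw : SBw K Hi ω) (hopt : Opt G K s t l ω W) (i : Fin k)
    (hi : (i : ℕ) < l) : ∃ (r : ℕ) (q : ℕ → V), IsPth G (W i) (s i) (t i) r q :=
  hopt.path (fun v hv => by have := (sbf_w hw hv).1; omega) i hi

private theorem sbf_un (hopt : Opt G K s t l ω W) (v : V) {i : Fin k} (hi : ¬ (i : ℕ) < l) :
    (nb G (W i) v).card ≤ 2 := by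
  have h1 : nb G (W i) v ⊆ {s i, t i} := by
    intro w hw
    rw [← hopt.un i (by omega)]
    exact (mem_nb.1 hw).1
  exact (card_le_card h1).trans card_le_two

theorem sb_window (hw : SBw K Hi ω) (hopt : Opt G K s t l ω W) {v : V} (hv : v ∈ K)
    (hvu : v ∉ used W) {i : Fin k} (hi : (i : ℕ) < l) {r : ℕ} {q : ℕ → V}
    (hq : IsPth G (W i) (s i) (t i) r q) : ∀ a b, a < b → b ≤ r → G.Adj v (q a) →
      G.Adj v (q b) → b ≤ a + 2 := by
  intro a b hab hb h1 h2
  by_contra hcon
  have hseg := hopt.seg hi hq hv hvu hab hb h1 h2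
  have hvω := (sbf_w hw hv).2
  have hKpos : 0 < K.card := card_pos.2 ⟨v, hv⟩
  have hsub : ({a + 1, a + 2} : Finset ℕ) ⊆ Ioo a b := by
    intro x hx
    simp only [mem_insert, mem_singleton] at hx
    rw [mem_Ioo]
    omega
  have hle : ∑ j ∈ ({a + 1, a + 2} : Finset ℕ), ω (q j) ≤ ∑ j ∈ Ioo a b, ω (q j) :=
    sum_le_sum_of_subset hsub
  rw [sum_pair (by omega)] at hle
  have e1 := (sbf_w hw (hopt.sub i (hq.mem.2 ⟨a + 1, by omega, rfl⟩))).1
  have e2 := (sbf_w hw (hopt.sub i (hq.mem.2 ⟨a + 2, by omega, rfl⟩))).1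
  omega

theorem sb_three (hw : SBw K Hi ω) (hopt : Opt G K s t l ω W) {v : V} (hv : v ∈ K)
    (hvu : v ∉ used W) (i : Fin k) : (nb G (W i) v).card ≤ 3 := by
  by_cases hi : (i : ℕ) < l
  · obtain ⟨r, q, hq⟩ := sbf_path hw hopt i hi
    exact (nb_three hq (fun hm => hvu (mem_used.2 ⟨i, hm⟩))
      (sb_window hw hopt hv hvu hi hq)).1
  · have := sbf_un hopt v hi
    omega

theorem sb_mid (hw : SBw K Hi ω) (hopt : Opt G K s t l ω W) {x : V} (hx : x ∈ Hi)
    (hxu : x ∉ used W) {i : Fin k} (hi : (i : ℕ) < l) {r : ℕ} {q : ℕ → V}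
    (hq : IsPth G (W i) (s i) (t i) r q) {a : ℕ} (ha : a + 2 ≤ r) (h1 : G.Adj x (q a))
    (h2 : G.Adj x (q (a + 2))) : q (a + 1) ∈ Hi := by
  by_contra hcon
  have hseg := hopt.seg hi hq (hw.sub hx) hxu (by omega : a < a + 2) ha h1 h2
  have e : Ioo a (a + 2) = {a + 1} := by
    ext n
    rw [mem_Ioo, mem_singleton]
    omega
  rw [e, sum_singleton, hw.hi x hx] at hseg
  have := hw.lo (q (a + 1))
    (mem_sdiff.2 ⟨hopt.sub i (hq.mem.2 ⟨a + 1, by omega, rfl⟩), hcon⟩)
  omega

theorem sb_nonHi (hw : SBw K Hi ω) (hopt : Opt G K s t l ω W) {x : V} (hx : x ∈ Hi)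
    (hxu : x ∉ used W) (i : Fin k) :
    ((nb G (W i) x).filter (fun w => w ∉ Hi ∨ w = s i ∨ w = t i)).card ≤ 2 := by
  by_cases hi : (i : ℕ) < l
  swap
  · exact (card_le_card (filter_subset _ _)).trans (sbf_un hopt x hi)
  obtain ⟨r, q, hq⟩ := sbf_path hw hopt i hi
  by_cases hne : (nb G (W i) x).Nonempty
  swap
  · rw [not_nonempty_iff_eq_empty] at hne
    rw [hne]
    simp
  obtain ⟨a, har, hxa, hwin⟩ := nb_window hq (sb_window hw hopt (hw.sub hx) hxu hi hq) hne
  by_cases h2 : a + 2 ≤ r ∧ G.Adj x (q (a + 2))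
  · have hmid := sb_mid hw hopt hx hxu hi hq h2.1 hxa h2.2
    have hsub : (nb G (W i) x).filter (fun w => w ∉ Hi ∨ w = s i ∨ w = t i) ⊆
        {q a, q (a + 2)} := by
      intro w hw'
      rw [mem_filter] at hw'
      rw [mem_insert, mem_singleton]
      rcases hwin w hw'.1 with h | ⟨h3, h⟩ | ⟨_, h⟩
      · exact Or.inl h
      · exfalso
        rw [h] at hw'
        rcases hw'.2 with h4 | h4 | h4
        · exact h4 hmid
        · have := hq.inj (a + 1) 0 (by omega) (by omega) (by rw [h4, hq.z])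
          omega
        · have := hq.inj (a + 1) r (by omega) (by omega) (by rw [h4, hq.e])
          omega
      · exact Or.inr h
    exact (card_le_card hsub).trans card_le_two
  · have hsub : (nb G (W i) x).filter (fun w => w ∉ Hi ∨ w = s i ∨ w = t i) ⊆
        {q a, q (a + 1)} := by
      intro w hw'
      rw [mem_filter] at hw'
      rw [mem_insert, mem_singleton]
      rcases hwin w hw'.1 with h | ⟨_, h⟩ | ⟨h3, h⟩
      · exact Or.inl h
      · exact Or.inr h
      · exfalso
        apply h2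
        refine ⟨h3, ?_⟩
        rw [← h]
        exact (mem_nb.1 hw'.1).2
    exact (card_le_card hsub).trans card_le_two

/-- the swappable vertices of the item `i` with respect to the free vertex `y` -/
noncomputable def swp (G : SimpleGraph V) {k : ℕ} (l : ℕ) (W : Fin k → Finset V)
    (s t : Fin k → V) (y : V) : Finset V :=
  (used W).filter (fun x => ∃ i : Fin k, (i : ℕ) < l ∧ ∃ (r : ℕ) (q : ℕ → V) (a : ℕ),
    IsPth G (W i) (s i) (t i) r q ∧ a + 2 ≤ r ∧ x = q (a + 1) ∧ G.Adj y (q a) ∧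
      G.Adj y (q (a + 2)))

theorem sb_swap (hw : SBw K Hi ω) (hopt : Opt G K s t l ω W) {y : V} (hy : y ∈ Hi)
    (hyu : y ∉ used W) {x : V} (hx : x ∈ swp G l W s t y) (i : Fin k) :
    x ∈ Hi ∧ ((nb G (W i) x).filter (fun w => w ∉ Hi ∨ w = s i ∨ w = t i)).card ≤ 2 := by
  unfold swp at hx
  rw [mem_filter] at hx
  obtain ⟨hxu, i0, hi0, r, q, a, hq, ha, hxq, h1, h2⟩ := hx
  have hxHi : x ∈ Hi := by
    rw [hxq]
    exact sb_mid hw hopt hy hyu hi0 hq ha h1 h2
  refine ⟨hxHi, ?_⟩
  have hxW : x ∈ W i0 := hq.mem.2 ⟨a + 1, by omega, hxq.symm⟩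
  have hopt' := hopt.swap hi0 hq (hw.sub hy) hyu ha h1 h2
    (by rw [hw.hi y hy, ← hxq, hw.hi x hxHi])
  rw [← hxq] at hopt'
  have hxy : x ≠ y := fun e => hyu (e ▸ hxu)
  have hxu' : x ∉ used (Function.update W i0 (insert y ((W i0).erase x))) := by
    intro hm
    obtain ⟨j, hj⟩ := mem_used.1 hm
    by_cases e : j = i0
    · rw [e, Function.update_self, mem_insert, mem_erase] at hj
      rcases hj with hj | hj
      · exact hxy hj
      · exact hj.1 rfl
    · rw [Function.update_of_ne e] at hj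
      exact disjoint_left.1 (hopt.dj j i0 e) hj hxW
  have h3 := sb_nonHi hw hopt' hxHi hxu' i
  refine (card_le_card ?_).trans h3
  intro w hw'
  rw [mem_filter, mem_nb] at hw'
  rw [mem_filter, mem_nb]
  refine ⟨⟨?_, hw'.1.2⟩, hw'.2⟩
  by_cases e : i = i0
  · rw [e, Function.update_self]
    have hwx : w ≠ x := fun e' => by
      have := hw'.1.2
      rw [e'] at this
      exact G.loopless.irrefl x this
    refine mem_insert_of_mem (mem_erase.2 ⟨hwx, ?_⟩)
    rw [← e]
    exact hw'.1.1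
  · rw [Function.update_of_ne e]
    exact hw'.1.1

/-- the number of neighbours of the free vertex `y ∈ Hi` in the item `i` -/
theorem sb_count (hw : SBw K Hi ω) (hopt : Opt G K s t l ω W) {y : V} (hy : y ∈ Hi)
    (hyu : y ∉ used W) (i : Fin k) :
    (nb G (W i) y).card ≤ 2 + (swp G l W s t y ∩ W i).card := by
  by_cases hi : (i : ℕ) < l
  swap
  · have := sbf_un hopt y hi
    omega
  obtain ⟨r, q, hq⟩ := sbf_path hw hopt i hi
  by_cases hne : (nb G (W i) y).Nonempty
  swap
  · rw [not_nonempty_iff_eq_empty] at hne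
    rw [hne]
    simp
  obtain ⟨a, har, hya, hwin⟩ := nb_window hq (sb_window hw hopt (hw.sub hy) hyu hi hq) hne
  by_cases h2 : a + 2 ≤ r ∧ G.Adj y (q (a + 2))
  · have hm : q (a + 1) ∈ swp G l W s t y ∩ W i := by
      have hmW : q (a + 1) ∈ W i := hq.mem.2 ⟨a + 1, by omega, rfl⟩
      rw [mem_inter]
      refine ⟨?_, hmW⟩
      unfold swp
      rw [mem_filter]
      exact ⟨mem_used.2 ⟨i, hmW⟩, i, hi, r, q, a, hq, h2.1, rfl, hya, h2.2⟩
    have hpos : 0 < (swp G l W s t y ∩ W i).card := card_pos.2 ⟨_, hm⟩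
    have := sb_three hw hopt (hw.sub hy) hyu i
    omega
  · have hsub : nb G (W i) y ⊆ {q a, q (a + 1)} := by
      intro w hw'
      rw [mem_insert, mem_singleton]
      rcases hwin w hw' with h | ⟨_, h⟩ | ⟨h3, h⟩
      · exact Or.inl h
      · exact Or.inr h
      · exfalso
        apply h2
        refine ⟨h3, ?_⟩
        rw [← h]
        exact (mem_nb.1 hw').2
    have := (card_le_card hsub).trans card_le_two
    omega

end Pool.Agent.MP4432a5
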