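import Pool.Agent.Lib.MP_4432a5_co.Conn

/-!
# MP_4432a5_co, module SysOpt: systems and optimum systems

(O1) `Opt.path`: by `exists_pth` inside `W i`; if the path were a proper subset, replacing `W i` by it
would have smaller potential. (O2) `Opt.seg`: replace `W i` by `q[0..a] + v + q[b..r]`.
(O3) `Opt.swap`: `cn_swap`; the potential is unchanged, so the new system is again optimum.
-/

set_option autoImplicit false
set_option linter.all false

open Finset
open scoped Classical

namespace Pool.Agent.MP4432a5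

variable {V : Type*} {G : SimpleGraph V} {S : Finset V} {k l : ℕ} {s t : Fin k → V}
  {W : Fin k → Finset V} {ω : V → ℕ}

theorem mem_used {v : V} : v ∈ used W ↔ ∃ i, v ∈ W i := by
  simp [used]

theorem Sys.used_sub (h : Sys G S s t l W) : used W ⊆ S := by
  intro v hv
  obtain ⟨i, hi⟩ := mem_used.1 hv
  exact h.sub i hi

theorem card_used (hd : ∀ i j, i ≠ j → Disjoint (W i) (W j)) :
    (used W).card = ∑ i, (W i).card := by
  unfold used
  exact card_biUnion (fun i _ j _ hij => hd i j hij)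

theorem pot_eq (hd : ∀ i j, i ≠ j → Disjoint (W i) (W j)) :
    pot ω W = ∑ v ∈ used W, ω v := by
  unfold used pot
  rw [sum_biUnion (fun i _ j _ hij => hd i j hij)]

private theorem so_dj (ht : Ter S s t) (i j : Fin k) (hij : i ≠ j) :
    Disjoint ({s i, t i} : Finset V) ({s j, t j} : Finset V) := by
  rw [disjoint_left]
  intro x hx hy
  simp only [mem_insert, mem_singleton] at hx hy
  rcases hx with hx | hx <;> rcases hy with hy | hy
  · exact hij (ht.si i j (hx.symm.trans hy))
  · exact ht.st i j (hx.symm.trans hy)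
  · exact ht.st j i (hy.symm.trans hx)
  · exact hij (ht.ti i j (hx.symm.trans hy))

theorem card_used_zero (ht : Ter S s t) :
    (used (fun i => ({s i, t i} : Finset V))).card = 2 * k := by
  rw [card_used (so_dj ht)]
  have : ∀ i : Fin k, ({s i, t i} : Finset V).card = 2 := fun i => card_pair (ht.st i i)
  rw [sum_congr rfl (fun i _ => this i)]
  simp [mul_comm]

theorem sys_zero (h : Ter S s t) : Sys G S s t 0 (fun i => {s i, t i}) where
  sub i := by
    intro x hx
    simp only [mem_insert, mem_singleton] at hx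
    rcases hx with rfl | rfl
    · exact h.sS i
    · exact h.tS i
  sm i := by simp
  tm i := by simp
  dj := so_dj h
  cn i hi := absurd hi (Nat.not_lt_zero _)
  un i _ := rfl

theorem exists_opt (h : Sys G S s t l W) (ω : V → ℕ) : ∃ W', Opt G S s t l ω W' := by
  have hP : ∃ n, ∃ W', Sys G S s t l W' ∧ pot ω W' = n := ⟨_, W, h, rfl⟩
  obtain ⟨W', hW', hn⟩ := Nat.find_spec hP
  refine ⟨W', { toSys := hW', mn := fun W'' h'' => ?_ }⟩
  rw [hn]
  exact Nat.find_min' hP ⟨W'', h'', rfl⟩

theorem Sys.rep (h : Sys G S s t l W) (i : Fin k) (hi : (i : ℕ) < l) {A : Finset V}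
    (hs : s i ∈ A) (ht : t i ∈ A) (hc : Cn G A) (hA : A ⊆ W i ∪ (S \ used W)) :
    Sys G S s t l (Function.update W i A) := by
  have hdj : ∀ j, j ≠ i → Disjoint A (W j) := by
    intro j hj
    rw [disjoint_left]
    intro x hx hxj
    rcases mem_union.1 (hA hx) with h1 | h1
    · exact disjoint_left.1 (h.dj i j (fun e => hj e.symm)) h1 hxj
    · exact (mem_sdiff.1 h1).2 (mem_used.2 ⟨j, hxj⟩)
  refine ⟨fun j => ?_, fun j => ?_, fun j => ?_, fun j j' hjj => ?_, fun j hj => ?_,
    fun j hj => ?_⟩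
  · by_cases e : j = i
    · subst e
      rw [Function.update_self]
      intro x hx
      rcases mem_union.1 (hA hx) with h1 | h1
      · exact h.sub _ h1
      · exact (mem_sdiff.1 h1).1
    · rw [Function.update_of_ne e]
      exact h.sub j
  · by_cases e : j = i
    · subst e
      rw [Function.update_self]
      exact hs
    · rw [Function.update_of_ne e]
      exact h.sm j
  · by_cases e : j = i
    · subst e
      rw [Function.update_self]
      exact ht
    · rw [Function.update_of_ne e]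
      exact h.tm j
  · by_cases e : j = i
    · subst e
      rw [Function.update_self, Function.update_of_ne (fun e' => hjj e'.symm)]
      exact hdj j' (fun e' => hjj e'.symm)
    · rw [Function.update_of_ne e]
      by_cases e' : j' = i
      · subst e'
        rw [Function.update_self]
        exact (hdj j e).symm
      · rw [Function.update_of_ne e']
        exact h.dj j j' hjj
  · by_cases e : j = i
    · subst e
      rw [Function.update_self]
      exact hc
    · rw [Function.update_of_ne e]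
      exact h.cn j hj
  · by_cases e : j = i
    · subst e
      omega
    · rw [Function.update_of_ne e]
      exact h.un j hj

private theorem so_pot (W : Fin k → Finset V) (ω : V → ℕ) (i : Fin k) (A : Finset V) :
    pot ω (Function.update W i A) + ∑ v ∈ W i, ω v = pot ω W + ∑ v ∈ A, ω v := by
  unfold pot
  rw [← add_sum_erase univ (fun j => ∑ v ∈ Function.update W i A j, ω v) (mem_univ i),
    ← add_sum_erase univ (fun j => ∑ v ∈ W j, ω v) (mem_univ i)]
  have : ∑ j ∈ univ.erase i, ∑ v ∈ Function.update W i A j, ω v =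
      ∑ j ∈ univ.erase i, ∑ v ∈ W j, ω v := by
    refine sum_congr rfl fun j hj => ?_
    rw [Function.update_of_ne (ne_of_mem_erase hj)]
  rw [this]
  simp only [Function.update_self]
  omega

private theorem so_le (h : Opt G S s t l ω W) (i : Fin k) (hi : (i : ℕ) < l) {A : Finset V}
    (hs : s i ∈ A) (ht : t i ∈ A) (hc : Cn G A) (hA : A ⊆ W i ∪ (S \ used W)) :
    ∑ v ∈ W i, ω v ≤ ∑ v ∈ A, ω v := by
  have h1 := h.mn _ (h.toSys.rep i hi hs ht hc hA)
  have h2 := so_pot W ω i A
  omega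

theorem Opt.path (h : Opt G S s t l ω W) (hω : ∀ v ∈ S, 0 < ω v) (i : Fin k)
    (hi : (i : ℕ) < l) : ∃ (r : ℕ) (q : ℕ → V), IsPth G (W i) (s i) (t i) r q := by
  obtain ⟨A, hA, r, q, hq⟩ := exists_pth (h.cn i hi) (h.sm i) (h.tm i)
  have hsA : s i ∈ A := hq.mem.2 ⟨0, Nat.zero_le _, hq.z⟩
  have htA : t i ∈ A := hq.mem.2 ⟨r, le_refl _, hq.e⟩
  have hle := so_le h i hi hsA htA hq.cn (hA.trans subset_union_left)
  have hAW : A = W i := by
    by_contra hne
    have hss : A ⊂ W i := lt_of_le_of_ne hA hne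
    obtain ⟨x, hx, hxA⟩ := exists_of_ssubset hss
    have : ∑ v ∈ A, ω v < ∑ v ∈ W i, ω v :=
      sum_lt_sum_of_subset hA hx hxA (hω x (h.sub i hx)) (fun _ _ _ => Nat.zero_le _)
    omega
  subst hAW
  exact ⟨r, q, hq⟩

private theorem so_sum {r : ℕ} {q : ℕ → V} {a b : V} {A : Finset V} (hq : IsPth G A a b r q)
    (ω : V → ℕ) {I : Finset ℕ} (hI : ∀ n ∈ I, n ≤ r) :
    ∑ v ∈ I.image q, ω v = ∑ n ∈ I, ω (q n) :=
  sum_image (fun x hx y hy e => hq.inj x y (hI x hx) (hI y hy) e)

theorem Opt.seg (h : Opt G S s t l ω W) {i : Fin k} (hi : (i : ℕ) < l) {r : ℕ} {q : ℕ → V}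
    (hq : IsPth G (W i) (s i) (t i) r q) {v : V} (hv : v ∈ S) (hvu : v ∉ used W) {a b : ℕ}
    (hab : a < b) (hb : b ≤ r) (h1 : G.Adj v (q a)) (h2 : G.Adj v (q b)) :
    ∑ j ∈ Ioo a b, ω (q j) ≤ ω v := by
  have hc := hq.bridge hab.le hb (cn_singleton (G := G) v) (mem_singleton_self v)
    (mem_singleton_self v) h1.symm h2.symm
  have hsub : (Icc 0 a).image q ∪ {v} ∪ (Icc b r).image q ⊆ W i ∪ (S \ used W) := by
    intro x hx
    simp only [mem_union, mem_image, mem_Icc, mem_singleton] at hx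
    rcases hx with (⟨n, hn, rfl⟩ | rfl) | ⟨n, hn, rfl⟩
    · exact mem_union_left _ (hq.mem.2 ⟨n, by omega, rfl⟩)
    · exact mem_union_right _ (mem_sdiff.2 ⟨hv, hvu⟩)
    · exact mem_union_left _ (hq.mem.2 ⟨n, by omega, rfl⟩)
  have hs : s i ∈ (Icc 0 a).image q ∪ {v} ∪ (Icc b r).image q := by
    refine mem_union_left _ (mem_union_left _ (mem_image.2 ⟨0, ?_, hq.z⟩))
    simp
  have ht : t i ∈ (Icc 0 a).image q ∪ {v} ∪ (Icc b r).image q := by
    refine mem_union_right _ (mem_image.2 ⟨r, ?_, hq.e⟩)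
    simp [hb]
  have hle := so_le h i hi hs ht hc hsub
  have e1 : ∑ x ∈ W i, ω x = ∑ n ∈ range (r + 1), ω (q n) := by
    conv_lhs => rw [hq.img]
    exact so_sum hq ω (fun n hn => by simpa [Nat.lt_succ_iff] using hn)
  have e2 : ∑ x ∈ (Icc 0 a).image q ∪ {v} ∪ (Icc b r).image q, ω x ≤
      ∑ n ∈ Icc 0 a, ω (q n) + ω v + ∑ n ∈ Icc b r, ω (q n) := by
    have f1 : ∑ x ∈ (Icc 0 a).image q ∪ {v} ∪ (Icc b r).image q, ω x ≤
        ∑ x ∈ (Icc 0 a).image q ∪ {v}, ω x + ∑ x ∈ (Icc b r).image q, ω x := by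
      rw [← sum_union_inter]
      exact Nat.le_add_right _ _
    have f2 : ∑ x ∈ (Icc 0 a).image q ∪ {v}, ω x ≤
        ∑ x ∈ (Icc 0 a).image q, ω x + ∑ x ∈ ({v} : Finset V), ω x := by
      rw [← sum_union_inter]
      exact Nat.le_add_right _ _
    rw [sum_singleton] at f2
    rw [so_sum hq ω (I := Icc b r) (fun n hn => (mem_Icc.1 hn).2)] at f1
    rw [so_sum hq ω (I := Icc 0 a) (fun n hn => by have := (mem_Icc.1 hn).2; omega)] at f2
    omega
  have e3 : ∑ n ∈ range (r + 1), ω (q n) =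
      ∑ n ∈ Icc 0 a, ω (q n) + ∑ n ∈ Ioo a b, ω (q n) + ∑ n ∈ Icc b r, ω (q n) := by
    have hd1 : Disjoint (Icc 0 a) (Ioo a b) := by
      rw [disjoint_left]
      intro x hx hy
      rw [mem_Icc] at hx
      rw [mem_Ioo] at hy
      omega
    have hd2 : Disjoint (Icc 0 a ∪ Ioo a b) (Icc b r) := by
      rw [disjoint_left]
      intro x hx hy
      rw [mem_union, mem_Icc, mem_Ioo] at hx
      rw [mem_Icc] at hy
      omega
    rw [← sum_union hd1, ← sum_union hd2]
    congr 1
    ext x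
    simp only [mem_range, mem_union, mem_Icc, mem_Ioo]
    omega
  omega

theorem Opt.swap (h : Opt G S s t l ω W) {i : Fin k} (hi : (i : ℕ) < l) {r : ℕ} {q : ℕ → V}
    (hq : IsPth G (W i) (s i) (t i) r q) {v : V} (hv : v ∈ S) (hvu : v ∉ used W) {a : ℕ}
    (ha : a + 2 ≤ r) (h1 : G.Adj v (q a)) (h2 : G.Adj v (q (a + 2)))
    (hw : ω v = ω (q (a + 1))) :
    Opt G S s t l ω (Function.update W i (insert v ((W i).erase (q (a + 1))))) := by
  have hvi : v ∉ W i := fun hvi => hvu (mem_used.2 ⟨i, hvi⟩)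
  obtain ⟨hc, hns, hnt⟩ := cn_swap hq ha hvi h1 h2
  have hqm : q (a + 1) ∈ W i := hq.mem.2 ⟨a + 1, by omega, rfl⟩
  have hsub : insert v ((W i).erase (q (a + 1))) ⊆ W i ∪ (S \ used W) := by
    intro x hx
    rcases mem_insert.1 hx with rfl | hx
    · exact mem_union_right _ (mem_sdiff.2 ⟨hv, hvu⟩)
    · exact mem_union_left _ (mem_of_mem_erase hx)
  have hs : s i ∈ insert v ((W i).erase (q (a + 1))) :=
    mem_insert_of_mem (mem_erase.2 ⟨fun e => hns e.symm, h.sm i⟩)
  have ht : t i ∈ insert v ((W i).erase (q (a + 1))) :=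
    mem_insert_of_mem (mem_erase.2 ⟨fun e => hnt e.symm, h.tm i⟩)
  refine { toSys := h.toSys.rep i hi hs ht hc hsub, mn := fun W'' h'' => ?_ }
  have hp := so_pot W ω i (insert v ((W i).erase (q (a + 1))))
  have hsum : ∑ x ∈ insert v ((W i).erase (q (a + 1))), ω x = ∑ x ∈ W i, ω x := by
    rw [sum_insert (fun hm => hvi (mem_of_mem_erase hm)), hw, add_sum_erase _ _ hqm]
  have := h.mn W'' h''
  omega

/-- comparison of the numbers of used vertices: `ω` has values `N + 1` on `K`, and values at most `N`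
in total elsewhere -/
theorem Opt.card_le (h : Opt G S s t l ω W) {W' : Fin k → Finset V} (h' : Sys G S s t l W')
    {K : Finset V} {N : ℕ} (hK : ∀ v ∈ K, ω v = N + 1) (hr : ∑ v ∈ S \ K, ω v ≤ N)
    (hKS : K ⊆ S) : (used W ∩ K).card ≤ (used W' ∩ K).card := by
  have h1 := h.mn W' h'
  rw [pot_eq h.dj, pot_eq h'.dj] at h1
  have key : ∀ U : Finset V, ∑ v ∈ U, ω v =
      (U ∩ K).card * (N + 1) + ∑ v ∈ U \ K, ω v := by
    intro U
    rw [← sum_inter_add_sum_sdiff U K ω]
    congr 1
    rw [sum_congr rfl (fun v hv => hK v (mem_inter.1 hv).2), sum_const, smul_eq_mul]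
  rw [key (used W), key (used W')] at h1
  have h2 : ∑ v ∈ used W' \ K, ω v ≤ N :=
    (sum_le_sum_of_subset (sdiff_subset_sdiff h'.used_sub (subset_refl K))).trans hr
  by_contra hcon
  rw [not_le] at hcon
  have h3 : ((used W' ∩ K).card + 1) * (N + 1) ≤ (used W ∩ K).card * (N + 1) :=
    Nat.mul_le_mul_right _ hcon
  have h4 : ((used W' ∩ K).card + 1) * (N + 1) = (used W' ∩ K).card * (N + 1) + (N + 1) := by
    ring
  omega

/-- the same for weights in `{N + 1, N + 2}`, where `|S| ≤ N` -/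
theorem Opt.card_le' (h : Opt G S s t l ω W) {W' : Fin k → Finset V} (h' : Sys G S s t l W')
    {N : ℕ} (hN : S.card ≤ N) (hω : ∀ v ∈ S, N + 1 ≤ ω v ∧ ω v ≤ N + 2) :
    (used W).card ≤ (used W').card := by
  have h1 := h.mn W' h'
  rw [pot_eq h.dj, pot_eq h'.dj] at h1
  have h2 : (used W).card * (N + 1) ≤ ∑ v ∈ used W, ω v := by
    rw [← smul_eq_mul]
    exact card_nsmul_le_sum _ _ _ (fun v hv => (hω v (h.used_sub hv)).1)
  have h3 : ∑ v ∈ used W', ω v ≤ (used W').card * (N + 2) := by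
    rw [← smul_eq_mul]
    exact sum_le_card_nsmul _ _ _ (fun v hv => (hω v (h'.used_sub hv)).2)
  have h4 : (used W').card ≤ N := (card_le_card h'.used_sub).trans hN
  by_contra hcon
  rw [not_le] at hcon
  have h5 : ((used W').card + 1) * (N + 1) ≤ (used W).card * (N + 1) :=
    Nat.mul_le_mul_right _ hcon
  have h6 : ((used W').card + 1) * (N + 1) = (used W').card * (N + 1) + (N + 1) := by ring
  have h7 : (used W').card * (N + 2) = (used W').card * (N + 1) + (used W').card := by ring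
  omega

/-- weights 1 -/
theorem Opt.card_one (h : Opt G S s t l (fun _ => 1) W) {W' : Fin k → Finset V}
    (h' : Sys G S s t l W') : (used W).card ≤ (used W').card := by
  have h1 := h.mn W' h'
  rw [pot_eq h.dj, pot_eq h'.dj] at h1
  simpa using h1

theorem KL.mono {H : SimpleGraph V} (h : KL H S k) (hH : ∀ a b, H.Adj a b → G.Adj a b) :
    KL G S k := by
  intro s t ht
  obtain ⟨W, hW⟩ := h s t ht
  exact ⟨W, hW.sub, hW.sm, hW.tm, hW.dj,
    fun i hi => (hW.cn i hi).mono (fun x _ y _ hxy => hH x y hxy), hW.un⟩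

end Pool.Agent.MP4432a5
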