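import Pool.Agent.Lib.MP_4432a5_co.DCert

/-!
# MP_4432a5_co, module TCount: few strong vertices outside the next closure

Proof. Let `P = Str (cl j) \ cl (j + 1)`. A free vertex of `Str (cl j)` is in `cl (j + 1)`. For an item
`i ≥ l`: `|P ∩ W i| ≤ 2`. For `i < l`, `|W i| ≤ R0`: `|P ∩ W i| ≤ 2`, because if there are three strong
vertices on the path then all vertices strictly between the first and the last are in `cl (j + 1)` (the
segment `Sg` contains a strong vertex), and if there are at most two there is nothing to show. For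
`i < l`, `|W i| > R0`: all strong vertices are within distance `2 cc j + 61` on the path (`shorten`), so
`R0 |P ∩ W i| ≤ (2 cc j + 62) |W i|`. Sum over the items, `∑ |W i| ≤ |S|`.
-/

set_option autoImplicit false
set_option linter.all false

open Finset
open scoped Classical

namespace Pool.Agent.MP4432a5

variable {V : Type*} {G : SimpleGraph V} {S : Finset V} {k l : ℕ} {s t : Fin k → V}
  {W : Fin k → Finset V} {r : Fin k → ℕ} {q : Fin k → ℕ → V} {X : Finset V} {B R0 th : ℕ}

/-- indices of a path whose vertices are in `P` -/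
private theorem tc_idx {P A : Finset V} {a b : V} {n : ℕ} {p : ℕ → V} (h : IsPth G A a b n p) :
    (P ∩ A).card ≤ ((range (n + 1)).filter (fun m => p m ∈ P)).card := by
  have hs : P ∩ A ⊆ ((range (n + 1)).filter (fun m => p m ∈ P)).image p := by
    intro v hv
    obtain ⟨hvP, hvA⟩ := mem_inter.1 hv
    obtain ⟨m, hm, rfl⟩ := h.mem.1 hvA
    exact mem_image.2 ⟨m, mem_filter.2 ⟨mem_range.2 (by omega), hvP⟩, rfl⟩
  exact (card_le_card hs).trans card_image_le

private theorem tc_short (c : NCtx G S s t l W r q X B R0 th) (j : ℕ) (i : Fin k)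
    (hi : (i : ℕ) < l) (hR : (W i).card ≤ R0) :
    ((Str G S th (cl G S th l R0 W r q X j) \ cl G S th l R0 W r q X (j + 1)) ∩ W i).card ≤ 2 := by
  have hp := c.pth i hi
  by_contra hcon
  have hc := tc_idx (P := Str G S th (cl G S th l R0 W r q X j) \ cl G S th l R0 W r q X (j + 1)) hp
  set I := (range (r i + 1)).filter (fun m => q i m ∈
    Str G S th (cl G S th l R0 W r q X j) \ cl G S th l R0 W r q X (j + 1)) with hI
  have h3 : 2 < I.card := by omega
  have hne : I.Nonempty := card_pos.1 (by omega)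
  have hmin := I.min'_mem hne
  have hmax := I.max'_mem hne
  have hc3 : 0 < ((I.erase (I.min' hne)).erase (I.max' hne)).card := by
    have h1 := pred_card_le_card_erase (s := I) (a := I.min' hne)
    have h2 := pred_card_le_card_erase (s := I.erase (I.min' hne)) (a := I.max' hne)
    omega
  obtain ⟨m, hm⟩ := card_pos.1 hc3
  have hm1 : m ≠ I.max' hne := (mem_erase.1 hm).1
  have hm2 : m ≠ I.min' hne := (mem_erase.1 (mem_erase.1 hm).2).1
  have hmI : m ∈ I := (mem_erase.1 (mem_erase.1 hm).2).2
  have hlt1 : I.min' hne < m := lt_of_le_of_ne (I.min'_le m hmI) hm2.symm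
  have hlt2 : m < I.max' hne := lt_of_le_of_ne (I.le_max' m hmI) hm1
  have hxr : I.max' hne ≤ r i := by
    have := (mem_filter.1 hmax).1
    rw [mem_range] at this
    omega
  have hS1 : q i (I.min' hne) ∈ Str G S th (cl G S th l R0 W r q X j) :=
    (mem_sdiff.1 (mem_filter.1 hmin).2).1
  have hS2 : q i (I.max' hne) ∈ Str G S th (cl G S th l R0 W r q X j) :=
    (mem_sdiff.1 (mem_filter.1 hmax).2).1
  have hS3 : q i m ∈ Str G S th (cl G S th l R0 W r q X j) :=
    (mem_sdiff.1 (mem_filter.1 hmI).2).1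
  have hn3 : q i m ∉ cl G S th l R0 W r q X (j + 1) :=
    (mem_sdiff.1 (mem_filter.1 hmI).2).2
  apply hn3
  have hSg : q i m ∈ Sg (Str G S th (cl G S th l R0 W r q X j)) (r i) (q i) := by
    unfold Sg
    exact mem_image.2 ⟨m, mem_filter.2 ⟨mem_range.2 (by omega),
      I.min' hne, I.max' hne, hlt1, hlt2, hxr, hS1, hS2⟩, rfl⟩
  show q i m ∈ stp G S th l R0 W r q (cl G S th l R0 W r q X j)
  unfold stp
  refine mem_union_right _ (mem_biUnion.2 ⟨i, mem_filter.2 ⟨mem_univ _, hi, hR, ?_⟩, hSg⟩)
  exact ⟨q i m, mem_inter.2 ⟨hSg, hS3⟩⟩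

private theorem tc_long (c : NCtx G S s t l W r q X B R0 th) (j : ℕ) (hB : 1 + 2 * cc j ≤ B)
    (i : Fin k) (hi : (i : ℕ) < l) :
    ((Str G S th (cl G S th l R0 W r q X j) \ cl G S th l R0 W r q X (j + 1)) ∩ W i).card ≤
      2 * cc j + 62 := by
  have hp := c.pth i hi
  have hc := tc_idx (P := Str G S th (cl G S th l R0 W r q X j) \ cl G S th l R0 W r q X (j + 1)) hp
  set I := (range (r i + 1)).filter (fun m => q i m ∈
    Str G S th (cl G S th l R0 W r q X j) \ cl G S th l R0 W r q X (j + 1)) with hI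
  refine hc.trans ?_
  rcases I.eq_empty_or_nonempty with he | hne
  · rw [he]; simp
  · have hmin := I.min'_mem hne
    have hS1 : q i (I.min' hne) ∈ Str G S th (cl G S th l R0 W r q X j) :=
      (mem_sdiff.1 (mem_filter.1 hmin).2).1
    have hsub : I ⊆ Icc (I.min' hne) (I.min' hne + (2 * cc j + 61)) := by
      intro m hm
      have hle := I.min'_le m hm
      refine mem_Icc.2 ⟨hle, ?_⟩
      rcases hle.eq_or_lt with h | h
      · omega
      · have hmr : m ≤ r i := by
          have := (mem_filter.1 hm).1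
          rw [mem_range] at this
          omega
        exact shorten c j hB hi h hmr hS1 (mem_sdiff.1 (mem_filter.1 hm).2).1
    have h1 := card_le_card hsub
    rw [Nat.card_Icc] at h1
    omega

private theorem tc_item (c : NCtx G S s t l W r q X B R0 th) (j : ℕ) (hB : 1 + 2 * cc j ≤ B)
    (i : Fin k) :
    R0 * ((Str G S th (cl G S th l R0 W r q X j) \ cl G S th l R0 W r q X (j + 1)) ∩ W i).card ≤
      2 * R0 + (2 * cc j + 62) * (W i).card := by
  have hred : ((Str G S th (cl G S th l R0 W r q X j) \ cl G S th l R0 W r q X (j + 1)) ∩ W i).card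
      ≤ 2 → R0 * ((Str G S th (cl G S th l R0 W r q X j) \
        cl G S th l R0 W r q X (j + 1)) ∩ W i).card ≤
      2 * R0 + (2 * cc j + 62) * (W i).card := by
    intro h
    have := Nat.mul_le_mul_left R0 h
    calc _ ≤ R0 * 2 := this
      _ = 2 * R0 := Nat.mul_comm _ _
      _ ≤ _ := Nat.le_add_right _ _
  by_cases hi : (i : ℕ) < l
  · by_cases hR : (W i).card ≤ R0
    · exact hred (tc_short c j i hi hR)
    · push Not at hR
      have h1 := tc_long c j hB i hi
      calc _ ≤ (W i).card * (2 * cc j + 62) := Nat.mul_le_mul hR.le h1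
        _ = (2 * cc j + 62) * (W i).card := Nat.mul_comm _ _
        _ ≤ _ := Nat.le_add_left _ _
  · push Not at hi
    apply hred
    have h1 : (W i).card ≤ 2 := by
      rw [c.opt.un i hi]
      exact card_le_two
    exact (card_le_card inter_subset_right).trans h1

theorem tcount (c : NCtx G S s t l W r q X B R0 th) (j : ℕ) (hB : 1 + 2 * cc j ≤ B) :
    R0 * (Str G S th (cl G S th l R0 W r q X j) \ cl G S th l R0 W r q X (j + 1)).card ≤
      2 * k * R0 + (2 * cc j + 62) * S.card := by
  have hcov : Str G S th (cl G S th l R0 W r q X j) \ cl G S th l R0 W r q X (j + 1) ⊆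
      univ.biUnion (fun i : Fin k =>
        (Str G S th (cl G S th l R0 W r q X j) \ cl G S th l R0 W r q X (j + 1)) ∩ W i) := by
    intro v hv
    obtain ⟨h1, h2⟩ := mem_sdiff.1 hv
    have hvS : v ∈ S := (mem_filter.1 h1).1
    have hu : v ∈ used W := by
      by_contra hu
      apply h2
      show v ∈ stp G S th l R0 W r q (cl G S th l R0 W r q X j)
      unfold stp
      exact mem_union_left _ (mem_union_right _ (mem_inter.2 ⟨mem_sdiff.2 ⟨hvS, hu⟩, h1⟩))
    obtain ⟨i, hi⟩ := mem_used.1 hu
    exact mem_biUnion.2 ⟨i, mem_univ _, mem_inter.2 ⟨hv, hi⟩⟩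
  have h1 : (Str G S th (cl G S th l R0 W r q X j) \ cl G S th l R0 W r q X (j + 1)).card ≤
      ∑ i : Fin k, ((Str G S th (cl G S th l R0 W r q X j) \
        cl G S th l R0 W r q X (j + 1)) ∩ W i).card :=
    (card_le_card hcov).trans card_biUnion_le
  have h2 : (used W).card ≤ S.card := card_le_card c.opt.toSys.used_sub
  rw [card_used c.opt.dj] at h2
  calc _ ≤ R0 * ∑ i : Fin k, ((Str G S th (cl G S th l R0 W r q X j) \
        cl G S th l R0 W r q X (j + 1)) ∩ W i).card := Nat.mul_le_mul_left _ h1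
    _ = ∑ i : Fin k, R0 * ((Str G S th (cl G S th l R0 W r q X j) \
        cl G S th l R0 W r q X (j + 1)) ∩ W i).card := Finset.mul_sum _ _ _
    _ ≤ ∑ i : Fin k, (2 * R0 + (2 * cc j + 62) * (W i).card) :=
        Finset.sum_le_sum (fun i _ => tc_item c j hB i)
    _ = 2 * k * R0 + (2 * cc j + 62) * ∑ i : Fin k, (W i).card := by
        rw [Finset.sum_add_distrib, Finset.sum_const, Finset.card_univ, Fintype.card_fin,
          ← Finset.mul_sum, smul_eq_mul, ← mul_assoc, mul_comm k 2]
    _ ≤ _ := Nat.add_le_add_left (Nat.mul_le_mul_left _ h2) _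

end Pool.Agent.MP4432a5
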